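import Pool.Agent.Helper68.C5.Defs5
import Pool.Graph.R_seed8.Y715.T.Gi

/-!
# Cubic twists by `√-3 ω^k ∏ π_j^(e_j)`: definitions
-/

set_option autoImplicit false

open scoped Classical

namespace Pool.Agent.Helper68.C6

open Pool.Agent.Y692.QS (Ei w toC)
open Pool.Agent.Y703.CT (chD rq Dt pD)
open Pool.Agent.Y715.T.Rec (cs)
open Pool.Agent.Helper68.C5.Chr5 (ts)
open Pool.Agent.Y715.T.Gi (lam)

/-- `F` is the entire continuation of the `L`-series of the Hecke character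
`(α) ↦ α ∏ (α / π_j)^(e_j) w^ℓ(α)`, `α = 1 + 3 (x + y w)`, `ℓ(α) = y - κ (x + y)` -/
def IsHL6 {J : Type} [Fintype J] (π : J → Ei) (e : J → ZMod 3) (κ : ZMod 3) (F : ℂ → ℂ) : Prop :=
  Differentiable ℂ F ∧ ∀ s : ℂ, 3 / 2 < s.re →
    HasSum (fun α : {α : Ei // (3 : Ei) ∣ α - 1} =>
      toC α * (chD π e α * toC w ^ (ts κ (α : Ei)).val) *
        ((Pool.Agent.Y692.QS.nr (α : Ei) : ℤ) : ℂ) ^ (-s)) (F s)

/-- the twisting element `√-3 w^κ ∏ π_j^(e_j)`, `lam = 1 + 2 w` -/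
def pD6 {J : Type} [Fintype J] (π : J → Ei) (e : J → ZMod 3) (κ : ZMod 3) : Ei :=
  lam * w ^ κ.val * pD π e

/-- the bordered Laplacian is invertible; here `√-3 w^κ ∏ π_j^(e_j)` is the twisting element -/
def Ker6 {J : Type} [Fintype J] (π : J → Ei) (e : J → ZMod 3) (κ : ZMod 3) : Prop :=
  ∀ (v : J → ZMod 3) (s : ZMod 3),
    (∀ j, ∑ i, e i * cs (π j) (π i) * (v i - v j) = -ts (-κ) (π j) * v j - rq (π j) * s) →
    κ * s = ∑ i, e i * rq (π i) * v i → (∀ j, v j = 0) ∧ s = 0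

end Pool.Agent.Helper68.C6
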