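import Pool.Agent.Helper68.C6.Loc6
import Pool.Agent.Helper68.C6.Defs6
import Pool.Agent.Helper68.C5.Sel5

/-!
# The Selmer group for `D = √-3 w^κ ∏ π_j^(e_j)`
-/

set_option autoImplicit false
set_option linter.unusedSectionVars false
set_option linter.unusedVariables false

open scoped Classical

namespace Pool.Agent.Helper68.C6.Sel6

open WeierstrassCurve
open Pool.Agent.Y692.QS (Ei w nr)
open Pool.Agent.Y715.T.Gi Pool.Agent.Y715.T.Nr Pool.Agent.Y715.T.Df Pool.Agent.Y715.T.Ell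
open Pool.Agent.Y715.T.Rec (cs)
open Pool.Agent.Y715.T.RecG
open Pool.Agent.Y715.T.Sel (fac kc_mul kc_one kc_congr kc_pow kc_cube kc_uniq kc_cancel kc_unit
  kc_exp ex_root root_ne iota_sq iota_ev odd_of not_dvd_of_unr resid_kc exists_emb3)
open Pool.Agent.Y703.CT
open Pool.Agent.Y48.CT.SEL
open Pool.Agent.Helper68.C6
open Pool.Agent.Helper68.C5.Chr5 (ts)
open Pool.Agent.Helper68.C5.Sup5 (cs_pD)
open Pool.Agent.Helper68.C5.Sel5 (st1_add cf_lam lam_not_prod)
open Pool.Agent.Helper68.C2.Chr (tq tq_prim)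
open Pool.Agent.Helper68.C2.LK2 (w_unit not_dvd_w cs_w)
open Pool.Agent.Helper68.C2.Sel2 (norm_unit)

variable {J : Type} [Fintype J] {π : J → Ei} {e : J → ZMod 3} {κ : ZMod 3}
variable {i₀ : QB} {hi : i₀ ^ 2 + i₀ + 1 = 0}

/-- the primes, `lam w^κ` and `w` -/
def pw (π : J → Ei) (κ : ZMod 3) : Option (Option J) → Ei :=
  fun o => o.elim w fun o => o.elim (lam * w ^ κ.val) π

/-- the exponents -/
def ew (e : J → ZMod 3) : Option (Option J) → ZMod 3 := fun o => o.elim 0 fun o => o.elim 1 e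

@[simp] lemma pw_none : pw π κ none = w := rfl
@[simp] lemma pw_t : pw π κ (some none) = lam * w ^ κ.val := rfl
@[simp] lemma pw_some (j : J) : pw π κ (some (some j)) = π j := rfl
@[simp] lemma ew_none : ew e none = 0 := rfl
@[simp] lemma ew_t : ew e (some none) = 1 := rfl
@[simp] lemma ew_some (j : J) : ew e (some (some j)) = e j := rfl

lemma prod_pw (x : Option (Option J) → ℕ) :
    ∏ o, pw π κ o ^ x o = w ^ x none * ((lam * w ^ κ.val) ^ x (some none) *
      ∏ j, π j ^ x (some (some j))) := by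
  rw [Fintype.prod_option, Fintype.prod_option]
  rfl

lemma pD6_eq : pD6 π e κ = ∏ o, pw π κ o ^ (ew e o).val := by
  rw [prod_pw]
  show lam * w ^ κ.val * pD π e = w ^ 0 * ((lam * w ^ κ.val) ^ 1 * _)
  rw [pow_one, pow_zero, one_mul]
  rfl

lemma t_ne : (lam * w ^ κ.val : Ei) ≠ 0 := mul_ne_zero prime_lam.ne_zero (w_unit.pow _).ne_zero

lemma pw_ne (hD : Dt π e) (o : Option (Option J)) : pw π κ o ≠ 0 := by
  rcases o with _ | _ | j
  · exact w_unit.ne_zero
  · exact t_ne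
  · exact p0 hD j

lemma pr0w (hD : Dt π e) (f : Option (Option J) → ℕ) : ∏ o, pw π κ o ^ f o ≠ 0 :=
  Finset.prod_ne_zero_iff.2 fun o _ => pow_ne_zero _ (pw_ne hD o)

lemma pD6_ne (hD : Dt π e) : pD6 π e κ ≠ 0 := by
  rw [pD6_eq]
  exact pr0w hD _

lemma lam_three' : (lam : Ei) ∣ 3 := ⟨-lam, by
  have := lam_sq
  rw [pow_two] at this
  linear_combination this⟩

lemma not_dvd_lam {ρ : Ei} (h : Pq ρ) : ¬ ρ ∣ lam := fun h1 => h.norm (h1.trans lam_three')

lemma ndw (hD : Dt π e) (j : J) (o : Option (Option J)) (h : o ≠ some (some j)) :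
    ¬ π j ∣ pw π κ o := by
  rcases o with _ | _ | i
  · exact not_dvd_w (hD.pq j).prime
  · intro h1
    have hp := (hD.pq j).prime
    rcases hp.dvd_or_dvd h1 with h2 | h2
    · exact not_dvd_lam (hD.pq j) h2
    · exact not_dvd_w hp (hp.dvd_of_dvd_pow h2)
  · exact hD.nd i j fun h1 => h (congrArg (fun t => some (some t)) h1)

lemma not_dvd_prodw (hD : Dt π e) (j : J) (x : Option (Option J) → ℕ) :
    ¬ π j ∣ ∏ o ∈ Finset.univ.erase (some (some j)), pw π κ o ^ x o := by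
  rw [(hD.pq j).prime.dvd_finsetProd_iff]
  rintro ⟨i, hij, hd⟩
  exact ndw hD j i (Finset.ne_of_mem_erase hij) ((hD.pq j).prime.dvd_of_dvd_pow hd)

/-! ### the symbol of `lam w^κ` -/

theorem cs_t {ρ : Ei} (h : Pq ρ) (κ : ZMod 3) : cs ρ (lam * w ^ κ.val) = -ts (-κ) ρ := by
  have hl := not_dvd_lam h
  have hw := not_dvd_w h.prime
  have h3 : (3 : ZMod 3) = 0 := by decide
  have hwn : ∀ n : ℕ, ¬ ρ ∣ w ^ n := fun n h1 => hw (h.prime.dvd_of_dvd_pow h1)
  have e1 : cs ρ (lam ^ 4) = 4 * cs ρ lam := by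
    rw [cs_pow h.prime h.norm hl]
    norm_num
  have e2 : (lam : Ei) ^ 4 = 3 * 3 := by decide
  rw [e2, cs_mul h.prime h.norm h.norm h.norm] at e1
  rw [← cs_pD h, cs_mul h.prime h.norm hl (hwn _), cs_mul h.prime h.norm h.norm (hwn _),
    cs_pow h.prime h.norm hw, cs_pow h.prime h.norm hw, ZMod.natCast_zmod_val,
    ZMod.natCast_zmod_val]
  linear_combination -e1 + (cs ρ 3 - cs ρ lam) * h3

/-! ### cube-free representatives -/

/-- the cube-free representative of a product -/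
lemma kc_rep (f : Option (Option J) → ZMod 3) {h : GK i₀ → ZMod 3}
    (hK : Kc hi (∏ o, pw π κ o ^ (f o).val) h) :
    ∃ (u : Ei) (k : ℕ), IsUnit u ∧ k ≤ 2 ∧
      Kc hi (u * lam ^ k * ∏ j, π j ^ (f (some (some j))).val) h := by
  rw [prod_pw] at hK
  refine ⟨w ^ (f none).val * (w ^ κ.val) ^ (f (some none)).val, (f (some none)).val,
    (w_unit.pow _).mul ((w_unit.pow _).pow _), ?_, ?_⟩
  · have := ZMod.val_lt (f (some none))
    omega
  · have e : w ^ (f none).val * (w ^ κ.val) ^ (f (some none)).val * lam ^ (f (some none)).val *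
        ∏ j, π j ^ (f (some (some j))).val = w ^ (f none).val *
        ((lam * w ^ κ.val) ^ (f (some none)).val * ∏ j, π j ^ (f (some (some j))).val) := by
      rw [mul_pow]
      ring
    rw [e]
    exact hK

/-- unramified at `π_j` -/
lemma not_dvd_unr (hD : Dt π e) (f : Option (Option J) → ZMod 3) {h : GK i₀ → ZMod 3}
    (hK : Kc hi (∏ o, pw π κ o ^ (f o).val) h) {p : ℕ} [Fact p.Prime] (hp : p ≠ 3)
    (ι : QB →ₐ[ℚ] PadicAlgCl p) (j : J) (hl : ‖ι (ev i₀ hi (π j))‖ < 1)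
    (hun : ∀ (τ : Au p) (σ : GK i₀), Cmp ι τ σ → Inert τ → h σ = 0) :
    f (some (some j)) = 0 := by
  obtain ⟨u, k, hu, hk, hK'⟩ := kc_rep f hK
  have h1 := not_dvd_of_unr (cf_lam hD (fun j => f (some (some j))) hu hk) hK' hp ι
    (hD.pq j).prime hl hun
  by_contra hne
  apply h1
  refine Dvd.dvd.mul_left ?_ _
  refine dvd_trans (dvd_pow_self (π j) ?_) (Finset.dvd_prod_of_mem
    (fun j => π j ^ (f (some (some j))).val) (Finset.mem_univ j))
  rwa [Ne, ZMod.val_eq_zero]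

/-! ### norms -/

lemma norm_t_one {p : ℕ} [Fact p.Prime] (hp : p ≠ 3) {I : PadicAlgCl p}
    (hI : I ^ 2 + I + 1 = 0) : ‖ev I hI (lam * w ^ κ.val)‖ = 1 := by
  rw [map_mul, norm_mul, norm_unit _ (w_unit.pow _), mul_one]
  have h1 : ‖ev I hI lam‖ ^ 2 = 1 := by
    rw [← norm_pow, ← map_pow, lam_sq, map_neg, norm_neg, map_ofNat]
    exact Pool.Agent.Y715.T.Sel.norm_three_one hp
  exact (pow_eq_one_iff_of_nonneg (norm_nonneg _) two_ne_zero).1 h1

/-- the norm of `D` at a place prime to three and the `π j` -/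
lemma norm_pD6_one {p : ℕ} [Fact p.Prime] (hp : p ≠ 3) (ι : QB →ₐ[ℚ] PadicAlgCl p)
    (h : ∀ j, ¬ ‖ι (ev i₀ hi (π j))‖ < 1) : ‖ι (ev i₀ hi (pD6 π e κ))‖ = 1 := by
  have hI := iota_sq' hi ι
  rw [iota_ev]
  unfold pD6 pD
  rw [map_mul, norm_mul, norm_t_one hp, one_mul, map_prod, norm_prod]
  apply Finset.prod_eq_one
  intro j _
  rw [map_pow, norm_pow]
  have h4 := h j
  rw [iota_ev] at h4
  rw [eq_one_of_not_lt _ h4, one_pow]

/-- the norm of `D` at a place above `π j` -/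
lemma norm_pD6_j (hD : Dt π e) {p : ℕ} [Fact p.Prime] (hp : p ≠ 3) (ι : QB →ₐ[ℚ] PadicAlgCl p)
    (j : J) (h : ‖ι (ev i₀ hi (π j))‖ < 1) :
    ‖ι (ev i₀ hi (pD6 π e κ))‖ = (p : ℝ) ^ (-((e j).val : ℤ)) := by
  have hI := iota_sq' hi ι
  rw [iota_ev] at h ⊢
  unfold pD6 pD
  rw [map_mul, norm_mul, norm_t_one hp, one_mul, map_prod, norm_prod,
    Finset.prod_eq_single j]
  · rw [map_pow, norm_pow, norm_prime _ hp (hD.pq j).prime h, inv_pow, zpow_neg, zpow_natCast]
  · intro i _ hij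
    rw [map_pow, norm_pow]
    have h4 : ¬ ‖ev (ι i₀) (iota_sq hi ι) (π i)‖ < 1 := by
      intro h5
      exact hD.nd i j hij ((dvd_iff _ (hD.pq j).prime h _).2 h5)
    rw [eq_one_of_not_lt _ h4, one_pow]
  · intro h4
    exact absurd (Finset.mem_univ j) h4

/-! ### the Selmer group -/

lemma w_pow_val (n : ℕ) : (w : Ei) ^ n = w ^ ((n : ℕ) : ZMod 3).val := by
  have hw : (w : Ei) ^ 3 = 1 := by decide
  rw [ZMod.val_natCast]
  conv_lhs => rw [← Nat.div_add_mod n 3]
  rw [pow_add, pow_mul, hw, one_pow, one_mul]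

/-- the Kummer generator modulo cubes, and the condition at the prime above three -/
lemma exp_of_loc (hD : Dt π e) {u : QB} {a : GK i₀ → ZMod 3}
    (hTw : Tw hi (pD6 π e κ) u a) {h : GK i₀ → ZMod 3} {v₀ : Ei} {g : ℕ} {x₀ : J → ℕ}
    (hu : IsUnit v₀) (hzh : Kc hi (v₀ * lam ^ g * ∏ j, π j ^ x₀ j) h)
    (hloc : ∀ (p : ℕ) [Fact p.Prime] (ι : QB →ₐ[ℚ] PadicAlgCl p), ∃ R, St1 hi ι a h R) :
    ∃ x : Option (Option J) → ℕ, Kc hi (∏ o, pw π κ o ^ x o) h ∧
      κ * (x none : ZMod 3) + ∑ j, ((x (some (some j)) : ZMod 3) -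
        (x (some none) : ZMod 3) * e j) * rq (π j) = 0 := by
  have hD0 : pD6 π e κ ≠ 0 := pD6_ne hD
  have h3 : (3 : ZMod 3) = 0 := by decide
  have hw3 : (w : Ei) ^ 3 = 1 := by decide
  have hb : Kc hi (pD6 π e κ) (fun σ => -a σ) :=
    kc_of hi (root_ne (hi := hi) hD0 hTw.cube) hTw.cube hTw.act
  obtain ⟨ε, n, hε, hv₀⟩ := Pool.Agent.Y715.T.Thr.unit_cases hu
  set N : ℕ := n.val + 2 * κ.val * g with hN
  have hP0 := pr0 hD x₀
  have hx : Kc hi (w ^ N * ((lam * w ^ κ.val) ^ g * ∏ j, π j ^ x₀ j)) h := by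
    refine kc_unit ?_ hε ?_
    · exact mul_ne_zero (w_unit.pow _).ne_zero (mul_ne_zero (pow_ne_zero _ t_ne) hP0)
    · have e1 : ε * (w ^ N * ((lam * w ^ κ.val) ^ g * ∏ j, π j ^ x₀ j)) =
          v₀ * lam ^ g * ∏ j, π j ^ x₀ j := by
        have e2 : (w : Ei) ^ N * (w ^ κ.val) ^ g = w ^ n.val := by
          rw [hN, ← pow_mul, ← pow_add]
          have e3 : n.val + 2 * κ.val * g + κ.val * g = n.val + 3 * (κ.val * g) := by ring
          rw [e3, pow_add, pow_mul, hw3, one_pow, mul_one]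
        rw [hv₀, mul_pow]
        linear_combination (ε * lam ^ g * ∏ j, π j ^ x₀ j) * e2
      rw [e1]
      exact hzh
  refine ⟨fun o => o.elim N fun o => o.elim g x₀, ?_, ?_⟩
  · rw [prod_pw]
    exact hx
  · show κ * (N : ZMod 3) + ∑ j, ((x₀ j : ZMod 3) - (g : ZMod 3) * e j) * rq (π j) = 0
    obtain ⟨ι₃⟩ := exists_emb3
    obtain ⟨R, hR⟩ := hloc 3 ι₃
    obtain ⟨R', hR'⟩ := st1_add hR (2 * g)
    have h1 := kc_mul (mul_ne_zero (w_unit.pow _).ne_zero (mul_ne_zero (pow_ne_zero _ t_ne) hP0))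
      (pow_ne_zero (2 * g) hD0) hx (kc_pow hD0 hb (2 * g))
    have hP : (∏ j, π j ^ x₀ j) * (pD π e) ^ (2 * g) =
        ∏ j, π j ^ (x₀ j + (e j).val * (2 * g)) := by
      unfold pD
      rw [← Finset.prod_pow, ← Finset.prod_mul_distrib]
      refine Finset.prod_congr rfl fun j _ => ?_
      rw [← pow_mul, ← pow_add]
    have e1 : w ^ N * ((lam * w ^ κ.val) ^ g * ∏ j, π j ^ x₀ j) * (pD6 π e κ) ^ (2 * g) =
        (w ^ N * ∏ j, π j ^ (x₀ j + (e j).val * (2 * g))) * ((lam * w ^ κ.val) ^ g) ^ 3 := by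
      rw [← hP]
      unfold pD6
      ring
    rw [e1] at h1
    have h2 := kc_cancel (mul_ne_zero (w_unit.pow _).ne_zero (pr0 hD _)) (pow_ne_zero g t_ne) h1
    obtain ⟨hq3, hqr⟩ := rq_prod Finset.univ (f := fun j => π j ^ (x₀ j + (e j).val * (2 * g)))
      (fun j => (rq_pow (hD.pq j).three _).1)
    obtain ⟨x, y, hq, hr⟩ := ex_q hq3
    rw [hqr] at hr
    rw [hq, w_pow_val N] at h2
    obtain ⟨m, hm⟩ := prod_form hD (fun j => (e j).val)
    have h4 := Loc6.core6 (m := m) (by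
      unfold pD6
      congr 1
      unfold pD
      linear_combination hm) hTw h2 hR'
    have h5 : (((⟨x, y⟩ : Ei).re + (⟨x, y⟩ : Ei).im : ℤ) : ZMod 3) =
        ∑ j, rq (π j ^ (x₀ j + (e j).val * (2 * g))) := by
      rw [hr]
    rw [h5] at h4
    rw [← h4]
    congr 1
    refine Finset.sum_congr rfl fun j _ => ?_
    rw [(rq_pow (hD.pq j).three _).2]
    push_cast
    rw [ZMod.natCast_zmod_val]
    linear_combination (-(g : ZMod 3) * e j * rq (π j)) * h3

/-- **the Selmer group** -/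
theorem sel6 (hD : Dt π e) (hker : Ker6 π e κ) {u : QB} {a : GK i₀ → ZMod 3}
    (hTw : Tw hi (pD6 π e κ) u a) : Sel1 hi a := by
  intro h hc hm hloc
  have hD0 : pD6 π e κ ≠ 0 := pD6_ne hD
  -- the character `a`
  have hb : Kc hi (∏ o, pw π κ o ^ (ew e o).val) (fun σ => -a σ) := by
    rw [← pD6_eq]
    exact kc_of hi (root_ne (hi := hi) hD0 hTw.cube) hTw.cube hTw.act
  -- the Kummer generator
  obtain ⟨z, hz, hzh⟩ := kum hi h hc hm
  obtain ⟨v₀, g, x₀, hu, ez⟩ := fac (π := π) z hz.1 (support hD hz hzh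
    (fun p _ ι hp3 hpj τ σ hcc hτ => by
      obtain ⟨R, hR⟩ := hloc p ι
      exact (Pool.Agent.Helper68.C2.Ram2.unr hp3 hD0 hTw (norm_pD6_one hp3 ι hpj) hR τ σ
        hcc hτ).2))
  rw [ez] at hzh
  obtain ⟨x, hx, hthree⟩ := exp_of_loc hD hTw hu hzh (fun p _ ι => hloc p ι)
  set v : J → ZMod 3 := fun j => x (some (some j)) * e j with hv
  obtain ⟨t, ht⟩ : ∃ t : ZMod 3, t = (x (some none) : ZMod 3) := ⟨_, rfl⟩
  obtain ⟨s, hs⟩ : ∃ s : ZMod 3, s = (x none : ZMod 3) := ⟨_, rfl⟩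
  rw [← ht, ← hs] at hthree
  have hxv : ∀ j, (x (some (some j)) : ZMod 3) = e j * v j := by
    intro j
    have := esq hD j
    calc (x (some (some j)) : ZMod 3) = x (some (some j)) * (e j * e j) := by rw [this, mul_one]
      _ = _ := by rw [hv]; ring
  have heq : ∀ j : J, ∑ i, e i * cs (π j) (π i) * (v i - v j) =
      s * rq (π j) + ts (-κ) (π j) * (t - v j) := by
    intro j
    obtain ⟨p, hp, ι, hl⟩ := exists_emb hi (hD.pq j).prime
    have hp3 := odd_of hi ι (hD.pq j).prime hl (not_assoc_lam (hD.pq j))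
    obtain ⟨R, hR⟩ := hloc p ι
    have hej : ¬ 3 ∣ (e j).val := by
      have h6 : (e j).val < 3 := ZMod.val_lt _
      have h7 : (e j).val ≠ 0 := by
        intro h8
        exact hD.e0 j ((ZMod.val_eq_zero _).1 h8)
      omega
    obtain ⟨ε, hε⟩ := Pool.Agent.Helper68.C2.Ram2.ram hp3 hD0 hTw hej
      (norm_pD6_j hD hp3 ι j hl) hR
    -- the character that is trivial at `π j`
    set n : ℕ := ε.val with hn
    have hn3 : (n : ZMod 3) = ε := ZMod.natCast_zmod_val _
    have hy := kc_mul (pr0w hD x) (pow_ne_zero n (pr0w hD _)) hx (kc_pow (pr0w hD _) hb n)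
    have hy1 : ∀ (τ : Au p) (σ : GK i₀), Cmp ι τ σ → h σ + n * -a σ = 0 := by
      intro τ σ hcc
      rw [hε τ σ hcc, hn3]
      ring
    have ey : (∏ o, pw π κ o ^ x o) * (∏ o, pw π κ o ^ (ew e o).val) ^ n =
        ∏ o, pw π κ o ^ (x o + (ew e o).val * n) := by
      rw [← Finset.prod_pow, ← Finset.prod_mul_distrib]
      refine Finset.prod_congr rfl fun i _ => ?_
      rw [← pow_mul, ← pow_add]
    rw [ey] at hy
    set y : Option (Option J) → ZMod 3 := fun o => x o + ew e o * ε with hydef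
    have hy2 : Kc hi (∏ o, pw π κ o ^ (y o).val) (fun σ => h σ + n * -a σ) := by
      refine kc_exp (pw_ne hD) (fun o => ?_) hy
      rw [ZMod.natCast_zmod_val, hydef]
      push_cast
      rw [hn3, ZMod.natCast_zmod_val]
    have hyj : y (some (some j)) = 0 :=
      not_dvd_unr hD y hy2 hp3 ι j hl (fun τ σ hcc _ => hy1 τ σ hcc)
    have hεv : ε = -v j := by
      have h1 : (x (some (some j)) : ZMod 3) + e j * ε = 0 := hyj
      have h2 := esq hD j
      rw [hxv j] at h1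
      calc ε = (e j * e j) * ε := by rw [h2, one_mul]
        _ = e j * (e j * v j + e j * ε) - (e j * e j) * v j := by ring
        _ = _ := by rw [h1, h2]; ring
    have hyi : ∀ i, y (some (some i)) = e i * (v i - v j) := by
      intro i
      show (x (some (some i)) : ZMod 3) + e i * ε = _
      rw [hxv i, hεv]
      ring
    have hyt : y (some none) = t - v j := by
      show (x (some none) : ZMod 3) + 1 * ε = _
      rw [hεv, ht]
      ring
    have hys : y none = s := by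
      show (x none : ZMod 3) + 0 * ε = _
      rw [zero_mul, add_zero, hs]
    have e2 : ∏ o, pw π κ o ^ (y o).val =
        ∏ o ∈ Finset.univ.erase (some (some j)), pw π κ o ^ (y o).val := by
      rw [← Finset.mul_prod_erase Finset.univ (fun o => pw π κ o ^ (y o).val)
        (Finset.mem_univ (some (some j))), hyj, ZMod.val_zero, pow_zero, one_mul]
    rw [e2] at hy2
    have hcube := resid_kc hy2 hp3 ι (hD.pq j).prime hl hy1
    have hnd := not_dvd_prodw (κ := κ) hD j (fun o => (y o).val)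
    have h9 := (hD.pq j).norm
    have hpj := (hD.pq j).prime
    have hcs := (cs_zero_iff hpj h9 hnd).2 hcube
    have hnd1 : ∀ i ∈ Finset.univ.erase (some (some j)), ¬ π j ∣ pw π κ i := fun i hij =>
      ndw hD j i (Finset.ne_of_mem_erase hij)
    rw [cs_prod hpj h9 _ _ (fun i hij h1 => hnd1 i hij (hpj.dvd_of_dvd_pow h1))] at hcs
    have h10 : ∑ o : Option (Option J), cs (π j) (pw π κ o) * y o = 0 := by
      rw [← Finset.add_sum_erase Finset.univ _ (Finset.mem_univ (some (some j))), hyj, mul_zero,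
        zero_add, ← hcs]
      refine Finset.sum_congr rfl fun i hij => ?_
      rw [cs_pow hpj h9 (hnd1 i hij), ZMod.natCast_zmod_val]
      ring
    rw [Fintype.sum_option, Fintype.sum_option, hys, hyt] at h10
    have h11 : cs (π j) (pw π κ none) = -rq (π j) := by
      rw [pw_none, cs_w (hD.pq j), tq_prim (hD.pq j).three]
    have h12 : cs (π j) (pw π κ (some none)) = -ts (-κ) (π j) := by
      rw [pw_t, cs_t (hD.pq j)]
    rw [h11, h12] at h10
    have h13 : ∑ i, cs (π j) (pw π κ (some (some i))) * y (some (some i)) =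
        ∑ i, e i * cs (π j) (π i) * (v i - v j) := by
      refine Finset.sum_congr rfl fun i _ => ?_
      rw [hyi i, pw_some]
      ring
    rw [h13] at h10
    linear_combination h10
  obtain ⟨h1, h2⟩ := hker (fun i => v i - t) (-s) (fun j => by
      have h2 := heq j
      have h3 : ∀ i, v i - t - (v j - t) = v i - v j := fun i => by ring
      simp only [h3]
      rw [h2]
      ring) (by
      have h3 : ∑ i, e i * rq (π i) * (v i - t) =
          ∑ j, ((x (some (some j)) : ZMod 3) - t * e j) * rq (π j) := by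
        refine Finset.sum_congr rfl fun i _ => ?_
        rw [hxv i]
        ring
      rw [h3]
      linear_combination -hthree)
  have hvt : ∀ j, v j = t := fun j => sub_eq_zero.1 (h1 j)
  have hs0 : s = 0 := neg_eq_zero.1 h2
  -- conclusion
  refine ⟨-t, fun σ => ?_⟩
  have h1 : Kc hi (∏ o, pw π κ o ^ ((ew e o).val * t.val)) h := by
    refine kc_exp (pw_ne hD) (fun o => ?_) hx
    push_cast
    rw [ZMod.natCast_zmod_val, ZMod.natCast_zmod_val]
    rcases o with _ | _ | j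
    · rw [ew_none, zero_mul, ← hs]
      exact hs0
    · rw [ew_t, one_mul, ht]
    · rw [ew_some, hxv j, hvt j]
  have h2 := kc_pow (pr0w hD _) hb t.val
  have e1 : (∏ o, pw π κ o ^ (ew e o).val) ^ t.val =
      ∏ o, pw π κ o ^ ((ew e o).val * t.val) := by
    rw [← Finset.prod_pow]
    refine Finset.prod_congr rfl fun i _ => ?_
    rw [← pow_mul]
  rw [e1] at h2
  have h3 := kc_uniq (pr0w hD _) h1 h2 σ
  rw [h3, ZMod.natCast_zmod_val]
  ring

/-! ### descent -/

/-- a product of powers of `w` and `lam w^κ` with trivial character -/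
lemma kc_t {n : ZMod 3} {u z : Ei} (hu : IsUnit u) (hz : z = u * lam ^ n.val)
    {h : GK i₀ → ZMod 3} (hK : Kc hi z h) (h0 : ∀ σ, h σ = 0) : n = 0 := by
  obtain ⟨ι⟩ := exists_emb3
  have hI := iota_sq' hi ι
  obtain ⟨s, hs⟩ := ex_root (ev i₀ hi z)
  have hm : ι s ∈ Pool.Agent.Y180.CT.Kl (ι i₀) := by
    intro τ hτ
    obtain ⟨σ, hc⟩ := exists_cmp ι τ hτ
    rw [hc, hK s hs σ, h0 σ, ZMod.val_zero, pow_zero, one_mul]
  have h1 := Pool.Agent.Helper68.C2.Loc3b.three_dvd (v := ι s) (u := u)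
    (q := 0) (g := n.val) hI hu hm (by
      rw [← norm_pow, ← map_pow, hs, hz, Pool.Agent.Y180.CT.iota_ev' hi ι, mul_zero, add_zero,
        mul_one])
  revert h1
  clear hz
  revert n
  decide

/-- `D` is not a cube -/
theorem a_ne (hD : Dt π e) {u : QB} {a : GK i₀ → ZMod 3}
    (hT : Tw hi (pD6 π e κ) u a) : ∃ σ, a σ ≠ 0 := by
  by_contra hcon
  push Not at hcon
  obtain ⟨ι⟩ := exists_emb3
  have hI := iota_sq' hi ι
  have hm : ι u ∈ Pool.Agent.Y180.CT.Kl (ι i₀) := by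
    intro τ hτ
    obtain ⟨σ, hc⟩ := exists_cmp ι τ hτ
    rw [hc, hT.act σ, hcon σ, neg_zero, ZMod.val_zero, pow_zero, one_mul]
  obtain ⟨q, hq⟩ := prod_form hD (fun j => (e j).val)
  have hq' : pD π e = 1 + 3 * q := by
    unfold pD
    rw [← hq]
    ring
  have h1 := Pool.Agent.Helper68.C2.Loc3b.three_dvd (v := ι u) (u := w ^ κ.val) (q := q)
    (g := 1) hI (w_unit.pow _) hm (by
      rw [← norm_pow, ← map_pow, hT.cube, Pool.Agent.Y180.CT.iota_ev' hi ι, ← hq']
      congr 2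
      unfold pD6
      ring)
  omega

theorem descK (hD : Dt π e) (hk : Ker6 π e κ) {u : QB} {a : GK i₀ → ZMod 3}
    (hT : Tw hi (pD6 π e κ) u a) : ShK hi a ∧ MwK hi a := by
  have hne : pD6 π e κ ≠ 0 := pD6_ne hD
  have hsel : Sel1 hi a := sel6 hD hk hT
  exact ⟨Pool.Agent.Y155.CT.t_SHK _ hne i₀ hi u a hT hsel,
    Pool.Agent.Y155.CT.t_MWK _ hne i₀ hi u a hT (a_ne hD hT) hsel⟩

end Pool.Agent.Helper68.C6.Sel6
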