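import Pool.Agent.Helper68.C6.Sel6
import Pool.Agent.Helper68.C5.Selc5

/-!
# The converse of the descent for `D = √-3 w^κ ∏ π_j^(e_j)`
-/

set_option autoImplicit false
set_option linter.unusedSectionVars false
set_option linter.unusedVariables false

open scoped Classical

namespace Pool.Agent.Helper68.C6.Selc6

open WeierstrassCurve
open Pool.Agent.Y692.QS (Ei w nr mul_re mul_im)
open Pool.Agent.Y715.T.Gi Pool.Agent.Y715.T.Nr Pool.Agent.Y715.T.Df Pool.Agent.Y715.T.Ell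
open Pool.Agent.Y715.T.Red
open Pool.Agent.Y715.T.Rec (cs)
open Pool.Agent.Y715.T.RecG
open Pool.Agent.Y715.T.Sel (kc_mul kc_one kc_congr kc_pow kc_uniq kc_exp ex_root root_ne
  iota_sq iota_ev odd_of not_dvd_of_unr i₀_mod exists_emb3)
open Pool.Agent.Y48.CT.SEL (p0 pr0 esq prod_form cf_prod not_assoc_lam)
open Pool.Agent.Y155.CT (a_mul a_cont)
open Pool.Agent.Y703.CT
open Pool.Agent.Helper68.C6 Pool.Agent.Helper68.C6.Sel6
open Pool.Agent.Helper68.C5.Chr5 (ts lt Cp cp_prim ts_prim ts_mul ts_u)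
open Pool.Agent.Helper68.C5.Selc5 (ts_pow ts_prodf cp_pq)
open Pool.Agent.Helper68.C2.Chr (tq tq_prim)
open Pool.Agent.Helper68.C2.LK2 (w_unit not_dvd_w cs_w)

/-! ### The prime above three -/

lemma nine_dvd {z : Ei} (h1 : (9 : ℤ) ∣ z.re) (h2 : (9 : ℤ) ∣ z.im) : ∃ t, z = 9 * t := by
  obtain ⟨a, ha⟩ := h1
  obtain ⟨b, hb⟩ := h2
  have e9 : (9 : Ei) = ⟨9, 0⟩ := by decide
  refine ⟨⟨a, b⟩, ?_⟩
  rw [e9]
  ext
  · simp [ha]
  · simp [hb]

/-- the components of the linear part -/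
lemma lin_re (U V : Ei) (x y a b : ℤ) :
    (U * (1 + 6 * ⟨x, y⟩) + V * (1 + 3 * ⟨x, y⟩ + 3 * ⟨a, b⟩) - 1 : Ei).re =
      U.re + 6 * (U.re * x - U.im * y) + V.re + 3 * (V.re * (x + a) - V.im * (y + b)) - 1 := by
  have e3 : (3 : Ei) = ⟨3, 0⟩ := by decide
  have e6 : (6 : Ei) = ⟨6, 0⟩ := by decide
  have e1 : (1 : Ei) = ⟨1, 0⟩ := by decide
  rw [e3, e6, e1]
  simp
  ring

lemma lin_im (U V : Ei) (x y a b : ℤ) :
    (U * (1 + 6 * ⟨x, y⟩) + V * (1 + 3 * ⟨x, y⟩ + 3 * ⟨a, b⟩) - 1 : Ei).im =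
      U.im + 6 * (U.re * y + U.im * x - U.im * y) + V.im +
        3 * (V.re * (y + b) + V.im * (x + a) - V.im * (y + b)) := by
  have e3 : (3 : Ei) = ⟨3, 0⟩ := by decide
  have e6 : (6 : Ei) = ⟨6, 0⟩ := by decide
  have e1 : (1 : Ei) = ⟨1, 0⟩ := by decide
  rw [e3, e6, e1]
  simp
  ring

/-- the cube root of unity with sign -/
def sc (σ : ZMod 3) : Ei := if σ = 1 then -1 else 1

lemma sc_cube (σ : ZMod 3) : sc σ ^ 3 = sc σ := by
  revert σ
  decide

/-- the congruence -/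
lemma key6 : ∀ κ σ : ZMod 3, σ ≠ 0 → ∀ x y a b : ℤ,
    (3 : ℤ) ∣ (κ.val : ℤ) * σ.val + x + y →
    (3 : ℤ) ∣ (κ.val : ℤ) * (x + y) + y - σ.val * (a + b) →
    ∃ t : Ei, (w ^ σ.val) ^ 2 * (1 + 6 * ⟨x, y⟩) +
      (sc σ * lam * w ^ κ.val * w ^ σ.val) * (1 + 3 * ⟨x, y⟩ + 3 * ⟨a, b⟩) - 1 = 9 * t := by
  intro κ σ hσ x y a b h1 h2
  obtain ⟨U, hU⟩ : ∃ U : Ei, U = (w ^ σ.val) ^ 2 := ⟨_, rfl⟩
  obtain ⟨V, hV⟩ : ∃ V : Ei, V = sc σ * lam * w ^ κ.val * w ^ σ.val := ⟨_, rfl⟩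
  rw [← hU, ← hV]
  have z3' : ∀ x : ZMod 3, x = 0 ∨ x = 1 ∨ x = 2 := by decide
  have v0 : (0 : ZMod 3).val = 0 := rfl
  have v1 : (1 : ZMod 3).val = 1 := rfl
  have v2 : (2 : ZMod 3).val = 2 := rfl
  apply nine_dvd
  · rw [lin_re]
    rcases z3' σ with rfl | rfl | rfl
    · exact absurd rfl hσ
    · have eU : U = ⟨-1, -1⟩ := by rw [hU]; decide
      rcases z3' κ with rfl | rfl | rfl
      · have eV : V = ⟨2, 1⟩ := by rw [hV]; decide
        rw [v0, v1] at h1 h2
        rw [eU, eV]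
        push_cast at h1 h2
        dsimp only
        omega
      · have eV : V = ⟨-1, 1⟩ := by rw [hV]; decide
        rw [v1] at h1 h2
        rw [eU, eV]
        push_cast at h1 h2
        dsimp only
        omega
      · have eV : V = ⟨-1, -2⟩ := by rw [hV]; decide
        rw [v1, v2] at h1 h2
        rw [eU, eV]
        push_cast at h1 h2
        dsimp only
        omega
    · have eU : U = ⟨0, 1⟩ := by rw [hU]; decide
      rcases z3' κ with rfl | rfl | rfl
      · have eV : V = ⟨1, -1⟩ := by rw [hV]; decide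
        rw [v0, v2] at h1 h2
        rw [eU, eV]
        push_cast at h1 h2
        dsimp only
        omega
      · have eV : V = ⟨1, 2⟩ := by rw [hV]; decide
        rw [v1, v2] at h1 h2
        rw [eU, eV]
        push_cast at h1 h2
        dsimp only
        omega
      · have eV : V = ⟨-2, -1⟩ := by rw [hV]; decide
        rw [v2] at h1 h2
        rw [eU, eV]
        push_cast at h1 h2
        dsimp only
        omega
  · rw [lin_im]
    rcases z3' σ with rfl | rfl | rfl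
    · exact absurd rfl hσ
    · have eU : U = ⟨-1, -1⟩ := by rw [hU]; decide
      rcases z3' κ with rfl | rfl | rfl
      · have eV : V = ⟨2, 1⟩ := by rw [hV]; decide
        rw [v0, v1] at h1 h2
        rw [eU, eV]
        push_cast at h1 h2
        dsimp only
        omega
      · have eV : V = ⟨-1, 1⟩ := by rw [hV]; decide
        rw [v1] at h1 h2
        rw [eU, eV]
        push_cast at h1 h2
        dsimp only
        omega
      · have eV : V = ⟨-1, -2⟩ := by rw [hV]; decide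
        rw [v1, v2] at h1 h2
        rw [eU, eV]
        push_cast at h1 h2
        dsimp only
        omega
    · have eU : U = ⟨0, 1⟩ := by rw [hU]; decide
      rcases z3' κ with rfl | rfl | rfl
      · have eV : V = ⟨1, -1⟩ := by rw [hV]; decide
        rw [v0, v2] at h1 h2
        rw [eU, eV]
        push_cast at h1 h2
        dsimp only
        omega
      · have eV : V = ⟨1, 2⟩ := by rw [hV]; decide
        rw [v1, v2] at h1 h2
        rw [eU, eV]
        push_cast at h1 h2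
        dsimp only
        omega
      · have eV : V = ⟨-2, -1⟩ := by rw [hV]; decide
        rw [v2] at h1 h2
        rw [eU, eV]
        push_cast at h1 h2
        dsimp only
        omega

open Pool.Agent.Y100.CT.CUB3 in
/-- local solutions at three -/
theorem cub6 {I : PadicAlgCl 3} (hI : I ^ 2 + I + 1 = 0) {B D : Ei} {x y a b : ℤ}
    {κ σ : ZMod 3}
    (h1 : (3 : ℤ) ∣ (κ.val : ℤ) * σ.val + x + y)
    (h2 : (3 : ℤ) ∣ (κ.val : ℤ) * (x + y) + y - σ.val * (a + b))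
    (hB : B = w ^ σ.val * (1 + 3 * ⟨x, y⟩)) (hD : D = lam * w ^ κ.val * (1 + 3 * ⟨a, b⟩)) :
    ∃ s t r, Sol hI B D s t r := by
  have hfix : ∀ z : Ei, ∀ τ : Au 3, τ I = I → τ (ev I hI z) = ev I hI z :=
    fun z τ hτ => ev_fix hI hτ z
  obtain ⟨c, z, hz⟩ : ∃ (c : Ei) (z : Ei), B ^ 2 + B * D * c ^ 3 = 1 + 9 * z := by
    by_cases hσ : σ = 0
    · subst hσ
      have v0 : (0 : ZMod 3).val = 0 := rfl
      rw [v0] at h1 h2 hB
      push_cast at h1 h2
      obtain ⟨t, ht⟩ : ∃ t : Ei, (3 : Ei) * ⟨x, y⟩ = 9 * t := by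
        have hxy : (3 : ℤ) ∣ x + y := by omega
        have hy : (3 : ℤ) ∣ y := by
          obtain ⟨k, hk⟩ := hxy
          obtain ⟨l, hl⟩ := h2
          rw [hk] at hl
          exact ⟨l - κ.val * k, by linear_combination hl⟩
        have hx : (3 : ℤ) ∣ x := by omega
        obtain ⟨k, hk⟩ := hx
        obtain ⟨l, hl⟩ := hy
        refine ⟨⟨k, l⟩, ?_⟩
        have e9 : (9 : Ei) = ⟨9, 0⟩ := by decide
        have e3 : (3 : Ei) = ⟨3, 0⟩ := by decide
        rw [e9, e3, hk, hl]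
        ext
        · simp
          ring
        · simp
          ring
      refine ⟨0, 2 * t + 9 * t ^ 2, ?_⟩
      rw [hB, ht]
      ring
    · obtain ⟨t, ht⟩ := key6 κ σ hσ x y a b h1 h2
      refine ⟨sc σ, t + (w ^ σ.val) ^ 2 * ⟨x, y⟩ ^ 2 +
        (sc σ * lam * w ^ κ.val * w ^ σ.val) * (⟨x, y⟩ * ⟨a, b⟩), ?_⟩
      rw [sc_cube, hB, hD]
      linear_combination ht
  obtain ⟨s, hs, hs0, hsf⟩ := root hI (c := ev I hI (1 + 9 * z)) (hfix _) (by
    rw [map_add, map_one, add_sub_cancel_left]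
    exact norm_nine hI z)
  refine ⟨s, 1, ev I hI c, ⟨fun τ hτ => ⟨hsf τ hτ, map_one τ, hfix _ τ hτ⟩,
    Or.inl hs0, ?_⟩⟩
  rw [hs, ← hz, map_add, map_mul, map_mul, map_pow, map_pow]
  ring

variable {J : Type} [Fintype J] {π : J → Ei} {e : J → ZMod 3} {κ : ZMod 3}
variable {i₀ : QB} {hi : i₀ ^ 2 + i₀ + 1 = 0}

/-! ### The primes dividing `D` -/

lemma exp_eq6 : ∀ a b c : ZMod 3, ∃ k : Fin 3,
    a.val + b.val * (-c).val = (a - b * c).val + 3 * (k : ℕ) := by decide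

open Pool.Agent.Y153.CTRAM (u_ne exists_T3 jj_zero jj_one jj_neg_one jj_nsmul nsmul_tt) in
open Pool.Agent.Y379.CT (hensel pow_val_eq_one) in
theorem ramc (hD : Dt π e) {u : QB} {a : GK i₀ → ZMod 3} (hT : Tw hi (pD6 π e κ) u a)
    (y : Option (Option J) → ZMod 3) (v : ZMod 3) (h : GK i₀ → ZMod 3)
    (hK : Kc hi (∏ o, pw π κ o ^ (y o).val) h) (j : J)
    (hyj : y (some (some j)) = e j * v)
    (hj : ∑ o, cs (π j) (pw π κ o) * (y o - ew e o * v) = 0)
    (p : ℕ) [Fact p.Prime] (ι : QB →ₐ[ℚ] PadicAlgCl p) (hp : p ≠ 3)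
    (hπ : ‖ι (ev i₀ hi (π j))‖ < 1) : ∃ R, St1 hi ι a h R := by
  have hI := iota_sq' hi ι
  have hu := u_ne hT (pD6_ne hD)
  have hπ' := hπ
  rw [iota_ev] at hπ'
  have hpr := (hD.pq j).prime
  have hnd : ∀ o, o ≠ some (some j) → ¬ π j ∣ pw π κ o := fun o ho => ndw hD j o ho
  have hz0 : y (some (some j)) - ew e (some (some j)) * v = 0 := by
    rw [hyj, ew_some, sub_self]
  -- the local cube
  set M : Ei := ∏ o ∈ Finset.univ.erase (some (some j)), pw π κ o ^ (y o - ew e o * v).val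
    with hM
  have hndp : ∀ i ∈ Finset.univ.erase (some (some j)),
      ¬ π j ∣ pw π κ i ^ (y i - ew e i * v).val := fun i hi' h1 =>
    hnd i (Finset.ne_of_mem_erase hi') (hpr.dvd_of_dvd_pow h1)
  have hMd : ¬ π j ∣ M := by
    intro h1
    obtain ⟨i, hi', h2⟩ := (hpr.dvd_finsetProd_iff _).1 h1
    exact hndp i hi' h2
  have hcs : cs (π j) M = 0 := by
    rw [hM, Pool.Agent.Y715.T.RecG.cs_prod hpr (hD.pq j).norm _ _ hndp]
    rw [← Finset.add_sum_erase _ _ (Finset.mem_univ (some (some j)))] at hj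
    rw [hz0, mul_zero, zero_add] at hj
    rw [← hj]
    refine Finset.sum_congr rfl fun i hi' => ?_
    rw [Pool.Agent.Y715.T.RecG.cs_pow hpr (hD.pq j).norm (hnd i (Finset.ne_of_mem_erase hi')),
      ZMod.natCast_zmod_val]
    ring
  obtain ⟨x, hx⟩ := (Pool.Agent.Y715.T.RecG.cs_zero_iff hpr (hD.pq j).norm hMd).1 hcs
  have hxd : ¬ π j ∣ x := by
    intro h1
    apply hMd
    have h2 := dvd_add hx (dvd_pow h1 three_ne_zero)
    rwa [sub_add_cancel] at h2
  obtain ⟨s, hs, hs1, hsf⟩ := hensel hI hp (c := ev (ι i₀) hI M) (y := ev (ι i₀) hI x)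
    (fun τ hτ => ev_fix hI hτ M) (fun τ hτ => ev_fix hI hτ x)
    (eq_one_of_not_lt hI ((dvd_iff hI hpr hπ' x).not.1 hxd)) (by
      have h1 := (dvd_iff hI hpr hπ' _).1 hx
      rw [map_sub, map_pow, ← norm_neg, neg_sub] at h1
      exact h1)
  -- the identity between the products
  choose k hk using fun o => exp_eq6 (y o) (ew e o) v
  have hprod : (∏ o, pw π κ o ^ (y o).val) * pD6 π e κ ^ (-v).val =
      M * (∏ o, pw π κ o ^ (k o : ℕ)) ^ 3 := by
    have h1 : M = ∏ o, pw π κ o ^ (y o - ew e o * v).val := by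
      rw [← Finset.mul_prod_erase _ _ (Finset.mem_univ (some (some j))), hz0,
        ZMod.val_zero, pow_zero, one_mul]
    rw [h1, pD6_eq]
    rw [← Finset.prod_pow, ← Finset.prod_pow, ← Finset.prod_mul_distrib,
      ← Finset.prod_mul_distrib]
    refine Finset.prod_congr rfl fun i _ => ?_
    rw [← pow_mul, ← pow_mul, ← pow_add, ← pow_add, hk, mul_comm (k i : ℕ) 3]
  -- the cube root
  obtain ⟨b, hb⟩ := IsAlgClosed.exists_pow_nat_eq
    (ev i₀ hi (∏ o, pw π κ o ^ (y o).val)) (n := 3) (by norm_num)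
  have hb0 : b ≠ 0 := by
    rintro rfl
    have h1 : ev i₀ hi (∏ o, pw π κ o ^ (y o).val) = 0 := by rw [← hb]; ring
    exact pr0w hD _ (ev_inj hi h1)
  have hcube : (ι (b * u ^ (-v).val)) ^ 3 =
      (s * ev (ι i₀) hI (∏ o, pw π κ o ^ (k o : ℕ))) ^ 3 := by
    rw [← map_pow, mul_pow, ← pow_mul, mul_comm _ 3, pow_mul, hb, hT.cube, ← map_pow, ← map_mul,
      hprod, iota_ev, map_mul, mul_pow, hs, map_pow]
  obtain ⟨n, hn⟩ := cube_eq hI hcube
  have hchar : ∀ (τ : Au p) (σ : GK i₀), Cmp ι τ σ → h σ = -(v * a σ) := by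
    intro τ σ hc
    have hτI : τ (ι i₀) = ι i₀ := hc.fix
    have h1 : τ (ι (b * u ^ (-v).val)) = ι (b * u ^ (-v).val) := by
      rw [hn, map_mul, map_mul, map_pow, hτI, hsf τ hτI, ev_fix hI hτI]
    rw [hc] at h1
    have h2 := ι.injective h1
    have h3 : σ (b * u ^ (-v).val) =
        i₀ ^ ((h σ).val + (-a σ).val * (-v).val) * (b * u ^ (-v).val) := by
      rw [map_mul, map_pow, hK b hb σ, hT.act σ, mul_pow, ← pow_mul, pow_add]
      ring
    rw [h3] at h2
    have h4 : i₀ ^ ((h σ).val + (-a σ).val * (-v).val) = 1 := by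
      apply mul_right_cancel₀ (mul_ne_zero hb0 (pow_ne_zero (-v).val hu))
      rw [h2, one_mul]
    have h5 := pow_val_eq_one hi _ h4
    push_cast at h5
    rw [ZMod.natCast_zmod_val, ZMod.natCast_zmod_val, ZMod.natCast_zmod_val] at h5
    linear_combination h5
  -- the point
  obtain ⟨hn3, hT3⟩ := exists_T3 hI
  set T3 : Pt (PadicAlgCl p) := Affine.Point.some (-1) ((ι i₀) ^ 2) hn3 with hT3d
  have hjT3 : ∀ c : ZMod 3, jj hI c T3 = T3 - tt _ c := by
    intro c
    rcases z3 c with rfl | rfl | rfl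
    · rw [jj_zero, tt_zero, sub_zero]
    · rw [jj_one, hT3]
    · rw [jj_neg_one, hT3, map_sub, im_tt, hT3, sub_sub, ← tt_add]
      congr 2
  have hlT3 : ∀ τ : Au p, τ (ι i₀) = ι i₀ → pm (lh τ) T3 = T3 := by
    intro τ hτI
    rw [hT3d, pm_some, Affine.Point.some.injEq]
    rw [lh_apply, lh_apply]
    constructor
    · rw [map_neg, map_one]
    · rw [map_pow, hτI]
  refine ⟨v.val • T3, fun τ σ hc => ?_⟩
  rw [map_nsmul, hlT3 τ hc.fix, jj_nsmul, hjT3, smul_sub, nsmul_tt, hchar τ σ hc, ← tt_neg]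
  abel

/-! ### The kernel vectors -/

/-- the equations of a kernel vector -/
structure KV (π : J → Ei) (e : J → ZMod 3) (κ : ZMod 3) (v : J → ZMod 3) (s : ZMod 3) : Prop where
  eq : ∀ j, ∑ i, e i * cs (π j) (π i) * (v i - v j) = -ts (-κ) (π j) * v j - rq (π j) * s
  la : κ * s = ∑ i, e i * rq (π i) * v i

/-- the sum of the equations -/
lemma sum_zero (hD : Dt π e) {v : J → ZMod 3} {s : ZMod 3} (hv : KV π e κ v s) :
    ∑ j, e j * v j * ts (-κ) (π j) + s * ∑ j, e j * rq (π j) = 0 := by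
  have h1 : ∑ j, e j * ∑ i, e i * cs (π j) (π i) * (v i - v j) = 0 := by
    have h2 : ∑ j, e j * ∑ i, e i * cs (π j) (π i) * (v i - v j) =
        -∑ j, e j * ∑ i, e i * cs (π j) (π i) * (v i - v j) := by
      simp only [Finset.mul_sum]
      conv_lhs => rw [Finset.sum_comm]
      rw [← Finset.sum_neg_distrib]
      refine Finset.sum_congr rfl fun i _ => ?_
      rw [← Finset.sum_neg_distrib]
      refine Finset.sum_congr rfl fun j _ => ?_
      by_cases hij : i = j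
      · rw [hij, sub_self]
        ring
      · rw [Pool.Agent.Y350.CT.rec (π i) (π j) (hD.pq i) (hD.pq j) (hD.nd i j hij)]
        ring
    have h4 : ∀ x : ZMod 3, x = -x → x = 0 := by decide
    exact h4 _ h2
  have h3 : ∑ j, e j * (-ts (-κ) (π j) * v j - rq (π j) * s) = 0 := by
    rw [← h1]
    exact Finset.sum_congr rfl fun j _ => by rw [hv.eq j]
  have h4 : ∑ j, e j * (-ts (-κ) (π j) * v j - rq (π j) * s) =
      -(∑ j, e j * v j * ts (-κ) (π j) + s * ∑ j, e j * rq (π j)) := by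
    rw [Finset.mul_sum, ← Finset.sum_add_distrib, ← Finset.sum_neg_distrib]
    exact Finset.sum_congr rfl fun j _ => by ring
  rw [h4, neg_eq_zero] at h3
  exact h3

/-- the exponents of a kernel vector -/
def yv (e : J → ZMod 3) (v : J → ZMod 3) (s : ZMod 3) : Option (Option J) → ZMod 3 :=
  fun o => o.elim (-s) fun o => o.elim 0 fun j => e j * v j

lemma prod_yv (v : J → ZMod 3) (s : ZMod 3) : ∏ o, pw π κ o ^ (yv e v s o).val =
    w ^ (-s).val * ∏ j, π j ^ (e j * v j).val := by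
  rw [prod_pw]
  show w ^ (-s).val * ((lam * w ^ κ.val) ^ (0 : ZMod 3).val * _) = _
  rw [ZMod.val_zero, pow_zero, one_mul]
  rfl

/-- local solutions at three for the kernel vectors -/
lemma three_sol (hD : Dt π e) {v : J → ZMod 3} {s : ZMod 3} (hv : KV π e κ v s)
    {I : PadicAlgCl 3} (hI : I ^ 2 + I + 1 = 0) :
    ∃ s₁ t r, Sol hI (w ^ (-s).val * ∏ j, π j ^ (e j * v j).val) (pD6 π e κ) s₁ t r := by
  obtain ⟨hq3, hqr⟩ := rq_prod Finset.univ (f := fun j => π j ^ (e j * v j).val)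
    (fun j => (rq_pow (hD.pq j).three _).1)
  obtain ⟨x, y, hq, hr⟩ := ex_q hq3
  obtain ⟨hm3, hmr⟩ := pD_prim hD
  obtain ⟨a, b, hm, hr'⟩ := ex_q hm3
  rw [hqr] at hr
  rw [hmr] at hr'
  have hcs : ∀ c : ZMod 3, ((c.val : ℤ) : ZMod 3) = c := fun c => by
    rw [Int.cast_natCast, ZMod.natCast_zmod_val]
  have e1 : ∑ j, rq (π j ^ (e j * v j).val) = κ * s := by
    rw [hv.la]
    refine Finset.sum_congr rfl fun j _ => ?_
    rw [(rq_pow (hD.pq j).three _).2, ZMod.natCast_zmod_val]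
    ring
  have e2 : ∑ j, e j * v j * ts (-κ) (π j) = κ * (x + y : ℤ) + y := by
    have h1 := (ts_prodf (κ := -κ) Finset.univ (f := fun j => π j ^ (e j * v j).val)
      (fun j => (ts_pow (κ := -κ) (cp_pq (hD.pq j)) _).1)).2
    have h2 : ∑ j, ts (-κ) (π j ^ (e j * v j).val) = ∑ j, e j * v j * ts (-κ) (π j) := by
      refine Finset.sum_congr rfl fun j _ => ?_
      rw [(ts_pow (cp_pq (hD.pq j)) _).2, ZMod.natCast_zmod_val]
    rw [← h2, ← h1, hq, ts_prim]
    unfold lt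
    push_cast
    ring
  refine cub6 hI (κ := κ) (σ := -s) (x := x) (y := y) (a := a) (b := b) ?_ ?_ ?_ ?_
  · refine (ZMod.intCast_zmod_eq_zero_iff_dvd _ 3).1 ?_
    push_cast
    rw [ZMod.natCast_zmod_val, ZMod.natCast_zmod_val]
    rw [e1] at hr
    push_cast at hr
    linear_combination -hr
  · refine (ZMod.intCast_zmod_eq_zero_iff_dvd _ 3).1 ?_
    have h5 := sum_zero hD hv
    rw [e2, hr'] at h5
    push_cast at h5 ⊢
    rw [ZMod.natCast_zmod_val, ZMod.natCast_zmod_val]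
    linear_combination h5
  · rw [← hq]
  · unfold pD6
    rw [← hm]

/-- **kernel vectors give locally solvable characters** -/
theorem kloc6 (hD : Dt π e) {u : QB} {a : GK i₀ → ZMod 3} (hTw : Tw hi (pD6 π e κ) u a)
    {v : J → ZMod 3} {s : ZMod 3} (hv : KV π e κ v s)
    {h : GK i₀ → ZMod 3} (hKc : Kc hi (w ^ (-s).val * ∏ j, π j ^ (e j * v j).val) h)
    (p : ℕ) [Fact p.Prime] (ι : QB →ₐ[ℚ] PadicAlgCl p) : ∃ R, St1 hi ι a h R := by
  have hB0 : (w ^ (-s).val * ∏ j, π j ^ (e j * v j).val) ≠ 0 :=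
    mul_ne_zero (w_unit.pow _).ne_zero (pr0 hD _)
  have hD0 : pD6 π e κ ≠ 0 := pD6_ne hD
  by_cases hp3 : p = 3
  · subst hp3
    exact Pool.Agent.Y674.CT.t_PT i₀ hi _ _ hB0 hD0 u a hTw _ hKc 3 ι
      (three_sol hD hv (iota_sq' hi ι))
  · by_cases hj : ∃ j, ‖ι (ev i₀ hi (π j))‖ < 1
    · obtain ⟨j, hj⟩ := hj
      refine ramc (κ := κ) hD hTw (yv e v s) (v j) _ (by rw [prod_yv]; exact hKc)
        j rfl ?_ p ι hp3 hj
      rw [Fintype.sum_option, Fintype.sum_option]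
      have h11 : cs (π j) (pw π κ none) = -rq (π j) := by
        rw [pw_none, cs_w (hD.pq j), tq_prim (hD.pq j).three]
      have h12 : cs (π j) (pw π κ (some none)) = -ts (-κ) (π j) := by
        rw [pw_t, cs_t (hD.pq j)]
      rw [h11, h12]
      have h13 := hv.eq j
      have h14 : ∑ i, cs (π j) (pw π κ (some (some i))) * (yv e v s (some (some i)) -
          ew e (some (some i)) * v j) = ∑ i, e i * cs (π j) (π i) * (v i - v j) := by
        refine Finset.sum_congr rfl fun i _ => ?_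
        show cs (π j) (π i) * (e i * v i - e i * v j) = _
        ring
      rw [h14, h13]
      show -rq (π j) * (-s - 0 * v j) + (-ts (-κ) (π j) * (0 - 1 * v j) +
        (-ts (-κ) (π j) * v j - rq (π j) * s)) = 0
      ring
    · have hj' : ∀ o, ¬ ‖ev (ι i₀) (iota_sq' hi ι) (pw π κ o)‖ < 1 := by
        rintro (_ | _ | j) h1
        · rw [pw_none, Pool.Agent.Helper68.C2.Sel2.norm_unit _ w_unit] at h1
          exact lt_irrefl _ h1
        · rw [pw_t, norm_t_one hp3] at h1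
          exact lt_irrefl _ h1
        · apply hj
          refine ⟨j, ?_⟩
          rw [iota_ev]
          exact h1
      have e1 := prod_yv (π := π) (e := e) (κ := κ) v s
      refine Pool.Agent.Y674.CT.t_PT i₀ hi _ _ hB0 hD0 u a hTw _ hKc p ι
        (Pool.Agent.Y379.CT.t_CUB Pool.Agent.Y319.CT.t_FF p hp3 (ι i₀) (iota_sq' hi ι) _ _
          ?_ ?_)
      · rw [← e1]
        exact Pool.Agent.Y363.CT.SELC.not_lt_prod _ hj' _
      · rw [pD6_eq]
        exact Pool.Agent.Y363.CT.SELC.not_lt_prod _ hj' _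

/-- `w` is not a cube -/
lemma kc_w {n : ZMod 3} {h : GK i₀ → ZMod 3} (hK : Kc hi (w ^ n.val) h)
    (h0 : ∀ σ, h σ = 0) : n = 0 := by
  obtain ⟨ι⟩ := exists_emb3
  have hI := iota_sq' hi ι
  obtain ⟨s, hs⟩ := ex_root (ev i₀ hi (w ^ n.val))
  have hm : ι s ∈ Pool.Agent.Y180.CT.Kl (ι i₀) := by
    intro τ hτ
    obtain ⟨σ, hc⟩ := exists_cmp ι τ hτ
    rw [hc, hK s hs σ, h0 σ, ZMod.val_zero, pow_zero, one_mul]
  have h3 : ι s ^ 3 = ev (ι i₀) hI (w ^ n.val) := by
    rw [← map_pow, hs, Pool.Agent.Y180.CT.iota_ev' hi ι]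
  have hn : ‖ι s‖ = 1 := by
    have h4 : ‖ι s‖ ^ 3 = 1 := by
      rw [← norm_pow, h3, Pool.Agent.Helper68.C2.Sel2.norm_unit _ (w_unit.pow _)]
    exact (pow_eq_one_iff_of_nonneg (norm_nonneg _) three_ne_zero).1 h4
  obtain ⟨x, hx⟩ := Loc6.cube_unit' hI hm hn
  rw [h3, ← map_sub] at hx
  have h5 := Loc6.lam_pow_dvd hI 3 _ hx
  exact (Loc6.concl1 (σ := n) (q := 0) (x := x) (by
    rw [mul_zero, add_zero, mul_one]
    exact h5)).1

/-- characters of products: if the product is a cube then all exponents vanish -/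
lemma exp_zero6 (hD : Dt π e) (y : Option (Option J) → ZMod 3) {h : GK i₀ → ZMod 3}
    (hk : Kc hi (∏ o, pw π κ o ^ (y o).val) h) (h0 : ∀ σ, h σ = 0) (o : Option (Option J)) :
    y o = 0 := by
  have key : ∀ j, y (some (some j)) = 0 := by
    intro j
    obtain ⟨p, hp, ι, hl⟩ := exists_emb hi (hD.pq j).prime
    have hp3 := odd_of hi ι (hD.pq j).prime hl (not_assoc_lam (hD.pq j))
    exact not_dvd_unr hD y hk hp3 ι j hl (fun τ σ _ _ => h0 σ)
  have hprod : ∏ o, pw π κ o ^ (y o).val = w ^ (y none).val *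
      (lam * w ^ κ.val) ^ (y (some none)).val := by
    rw [prod_pw, Finset.prod_eq_one, mul_one]
    intro j _
    rw [key j, ZMod.val_zero, pow_zero]
  have key2 : y (some none) = 0 := by
    refine kc_t (u := w ^ (y none).val * (w ^ κ.val) ^ (y (some none)).val)
      ((w_unit.pow _).mul ((w_unit.pow _).pow _)) ?_ hk h0
    rw [hprod, mul_pow]
    ring
  rcases o with _ | _ | j
  · refine kc_w (hi := hi) ?_ h0
    rw [hprod, key2, ZMod.val_zero, pow_zero, mul_one] at hk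
    exact hk
  · exact key2
  · exact key j

/-- a character that is a multiple of `a` comes from a constant vector -/
theorem const6 (hD : Dt π e) {u : QB} {a : GK i₀ → ZMod 3} (hTw : Tw hi (pD6 π e κ) u a)
    {v : J → ZMod 3} {s : ZMod 3} {h : GK i₀ → ZMod 3}
    (hKc : Kc hi (w ^ (-s).val * ∏ j, π j ^ (e j * v j).val) h)
    {c : ZMod 3} (hc : ∀ σ, h σ = c * a σ) : (∀ j, v j = 0) ∧ s = 0 := by
  have hD0 : pD6 π e κ ≠ 0 := pD6_ne hD
  have hKc' : Kc hi (∏ o, pw π κ o ^ (yv e v s o).val) h := by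
    rw [prod_yv]
    exact hKc
  have hB0 : (∏ o, pw π κ o ^ (yv e v s o).val) ≠ 0 := pr0w hD _
  have hb' : Kc hi (∏ o, pw π κ o ^ (ew e o).val) (fun σ => -a σ) := by
    rw [← pD6_eq]
    exact kc_of hi (root_ne (hi := hi) hD0 hTw.cube) hTw.cube hTw.act
  have hy := kc_mul hB0 (pow_ne_zero c.val (pr0w hD _)) hKc' (kc_pow (pr0w hD _) hb' c.val)
  have ey : (∏ o, pw π κ o ^ (yv e v s o).val) * (∏ o, pw π κ o ^ (ew e o).val) ^ c.val =
      ∏ o, pw π κ o ^ ((yv e v s o).val + (ew e o).val * c.val) := by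
    rw [← Finset.prod_pow, ← Finset.prod_mul_distrib]
    refine Finset.prod_congr rfl fun i _ => ?_
    rw [← pow_mul, ← pow_add]
  rw [ey] at hy
  have hy2 : Kc hi (∏ o, pw π κ o ^ (yv e v s o + ew e o * c).val)
      (fun σ => h σ + (c.val : ZMod 3) * -a σ) := by
    refine kc_exp (pw_ne hD) (fun i => ?_) hy
    push_cast
    rw [ZMod.natCast_zmod_val, ZMod.natCast_zmod_val, ZMod.natCast_zmod_val,
      ZMod.natCast_zmod_val]
  have hy3 : ∀ σ : GK i₀, h σ + (c.val : ZMod 3) * -a σ = 0 := by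
    intro σ
    rw [hc σ, ZMod.natCast_zmod_val]
    ring
  have h1 := exp_zero6 hD (fun o => yv e v s o + ew e o * c) hy2 hy3
  have h2 : c = 0 := by
    have h3 : (0 : ZMod 3) + 1 * c = 0 := h1 (some none)
    rwa [one_mul, zero_add] at h3
  constructor
  · intro j
    have h4 : e j * v j + e j * c = 0 := h1 (some (some j))
    rw [h2, mul_zero, add_zero] at h4
    exact (mul_eq_zero.1 h4).resolve_left (hD.e0 j)
  · have h4 : -s + 0 * c = 0 := h1 none
    rw [zero_mul, add_zero] at h4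
    exact neg_eq_zero.1 h4

/-- **The converse.** -/
theorem selc6 (hD : Dt π e) (hker : ¬ Ker6 π e κ) {u : QB} {a : GK i₀ → ZMod 3}
    (hTw : Tw hi (pD6 π e κ) u a) : ¬ Sel1 hi a := by
  intro hsel
  apply hker
  intro v s hv1 hv2
  have hv : KV π e κ v s := ⟨hv1, hv2⟩
  have hB0 : (w ^ (-s).val * ∏ j, π j ^ (e j * v j).val) ≠ 0 :=
    mul_ne_zero (w_unit.pow _).ne_zero (pr0 hD _)
  obtain ⟨β, a', hTw'⟩ := Pool.Agent.Y363.CT.SELC.exists_tw (hi := hi)
    (w ^ (-s).val * ∏ j, π j ^ (e j * v j).val)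
  have hm : ∀ σ τ : GK i₀, -a' (σ * τ) = -a' σ + -a' τ := by
    intro σ τ
    rw [a_mul hB0 hTw' σ τ]
    ring
  have hc : IsLocallyConstant (fun σ : GK i₀ => -a' σ) :=
    (a_cont hB0 hTw').comp (fun c : ZMod 3 => -c)
  have hKc : Kc hi (w ^ (-s).val * ∏ j, π j ^ (e j * v j).val) (fun σ => -a' σ) :=
    kc_of hi (root_ne (hi := hi) hB0 hTw'.cube) hTw'.cube hTw'.act
  obtain ⟨c, hc'⟩ := hsel _ hc hm (fun p _ ι => kloc6 hD hTw hv hKc p ι)
  exact const6 hD hTw hKc hc'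

end Pool.Agent.Helper68.C6.Selc6
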