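import Pool.Agent.Helper68.C6.SqD
import Pool.Agent.Helper68.C3.Asy3

set_option autoImplicit false

open Finset Filter

namespace Pool.Agent.Helper68.C6.SQ

open Pool.Agent.Y699.E.Lat (ell mem_ell)
open scoped Pointwise

/-- the unit ellipse -/
def uE : Set (Fin 2 → ℝ) := {v | v 0 ^ 2 - v 0 * v 1 + v 1 ^ 2 ≤ 1}

theorem uE_bdd : Bornology.IsBounded uE := by
  rw [isBounded_iff_forall_norm_le]
  refine ⟨2, fun v hv => ?_⟩
  rw [pi_norm_le_iff_of_nonneg (by norm_num)]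
  have hv : v 0 ^ 2 - v 0 * v 1 + v 1 ^ 2 ≤ 1 := hv
  have h0 : |v 0| ≤ 2 := abs_le_of_sq_le_sq (by nlinarith [sq_nonneg (2 * v 1 - v 0)]) (by norm_num)
  have h1 : |v 1| ≤ 2 := abs_le_of_sq_le_sq (by nlinarith [sq_nonneg (2 * v 0 - v 1)]) (by norm_num)
  intro i
  rw [Real.norm_eq_abs]
  fin_cases i
  · exact h0
  · exact h1

theorem uE_convex : Convex ℝ uE := by
  intro x hx y hy a b ha hb hab
  have hx : x 0 ^ 2 - x 0 * x 1 + x 1 ^ 2 ≤ 1 := hx
  have hy : y 0 ^ 2 - y 0 * y 1 + y 1 ^ 2 ≤ 1 := hy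
  show (a * x 0 + b * y 0) ^ 2 - (a * x 0 + b * y 0) * (a * x 1 + b * y 1) +
    (a * x 1 + b * y 1) ^ 2 ≤ 1
  have h1 : 0 ≤ (x 0 - y 0) ^ 2 - (x 0 - y 0) * (x 1 - y 1) + (x 1 - y 1) ^ 2 := by
    nlinarith [sq_nonneg ((x 0 - y 0) - (x 1 - y 1)), sq_nonneg ((x 0 - y 0)), sq_nonneg (x 1 - y 1)]
  have h2 := mul_nonneg (mul_nonneg ha hb) h1
  have h3 := mul_le_mul_of_nonneg_left hx ha
  have h4 := mul_le_mul_of_nonneg_left hy hb
  have h5 : (a * x 0 + b * y 0) ^ 2 - (a * x 0 + b * y 0) * (a * x 1 + b * y 1) +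
    (a * x 1 + b * y 1) ^ 2 = (a + b) * (a * (x 0 ^ 2 - x 0 * x 1 + x 1 ^ 2)) +
      (a + b) * (b * (y 0 ^ 2 - y 0 * y 1 + y 1 ^ 2)) -
      a * b * ((x 0 - y 0) ^ 2 - (x 0 - y 0) * (x 1 - y 1) + (x 1 - y 1) ^ 2) := by ring
  rw [h5, hab, one_mul, one_mul]
  linarith

theorem uE_meas : MeasurableSet uE := by
  have : IsClosed uE := isClosed_le (by fun_prop) continuous_const
  exact this.measurableSet

theorem uE_smul ⦃x y : ℝ⦄ (hx : 0 < x) (hxy : x ≤ y) : x • uE ⊆ y • uE := by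
  rintro _ ⟨v, hv, rfl⟩
  have hv : v 0 ^ 2 - v 0 * v 1 + v 1 ^ 2 ≤ 1 := hv
  have hy : 0 < y := hx.trans_le hxy
  refine ⟨(x / y) • v, ?_, ?_⟩
  · show (x / y * v 0) ^ 2 - (x / y * v 0) * (x / y * v 1) + (x / y * v 1) ^ 2 ≤ 1
    have h1 : (x / y * v 0) ^ 2 - (x / y * v 0) * (x / y * v 1) + (x / y * v 1) ^ 2 =
        (x / y) ^ 2 * (v 0 ^ 2 - v 0 * v 1 + v 1 ^ 2) := by ring
    rw [h1]
    have h2 : (x / y) ^ 2 ≤ 1 := pow_le_one₀ (by positivity) ((div_le_one hy).2 hxy)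
    nlinarith [sq_nonneg (x / y)]
  · show y • (x / y) • v = x • v
    rw [smul_smul, mul_div_cancel₀ _ hy.ne']

theorem uE_frontier : MeasureTheory.volume (frontier uE) = 0 :=
  uE_convex.addHaar_frontier _

/-- the lattice points in the scaled lattice -/
theorem card_uE {V : ℕ} (hV : 1 ≤ V) :
    Nat.card ↑(uE ∩ (Real.sqrt V)⁻¹ • (Submodule.span ℤ (Set.range (Pi.basisFun ℝ (Fin 2))) :
      Set (Fin 2 → ℝ))) = (ell V).card := by
  have hV0 : (0 : ℝ) < V := by exact_mod_cast hV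
  have hs : 0 < Real.sqrt V := Real.sqrt_pos.2 hV0
  have hss : Real.sqrt V ^ 2 = V := Real.sq_sqrt hV0.le
  obtain ⟨s, hsd⟩ : ∃ s, s = Real.sqrt V := ⟨_, rfl⟩
  rw [← hsd] at hs hss ⊢
  have hq : ∀ a b : ℝ, (s⁻¹ * a) ^ 2 - (s⁻¹ * a) * (s⁻¹ * b) + (s⁻¹ * b) ^ 2 ≤ 1 ↔
      a ^ 2 - a * b + b ^ 2 ≤ V := by
    intro a b
    have h1 : (s⁻¹ * a) ^ 2 - (s⁻¹ * a) * (s⁻¹ * b) + (s⁻¹ * b) ^ 2 =
        (a ^ 2 - a * b + b ^ 2) / s ^ 2 := by
      field_simp
    rw [h1, hss, div_le_one hV0]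
  have h1 : (uE ∩ s⁻¹ • (Submodule.span ℤ (Set.range (Pi.basisFun ℝ (Fin 2))) :
      Set (Fin 2 → ℝ))) = (fun p : ℤ × ℤ => s⁻¹ • (![(p.1 : ℝ), (p.2 : ℝ)] : Fin 2 → ℝ)) ''
        (ell V : Set (ℤ × ℤ)) := by
    ext v
    constructor
    · rintro ⟨hv, u, hu, rfl⟩
      rw [SetLike.mem_coe, Module.Basis.mem_span_iff_repr_mem] at hu
      obtain ⟨m, hm⟩ := hu 0
      obtain ⟨n, hn⟩ := hu 1
      have hm' : (m : ℝ) = u 0 := hm
      have hn' : (n : ℝ) = u 1 := hn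
      refine ⟨(m, n), ?_, ?_⟩
      · rw [mem_coe, mem_ell]
        have h2 : (s⁻¹ * u 0) ^ 2 - (s⁻¹ * u 0) * (s⁻¹ * u 1) + (s⁻¹ * u 1) ^ 2 ≤ 1 := hv
        rw [hq, ← hm', ← hn'] at h2
        exact_mod_cast h2
      · show s⁻¹ • (![(m : ℝ), (n : ℝ)] : Fin 2 → ℝ) = s⁻¹ • u
        congr 1
        ext i
        fin_cases i
        · exact hm'
        · exact hn'
    · rintro ⟨p, hp, rfl⟩
      rw [mem_coe, mem_ell] at hp
      refine ⟨?_, _, ?_, rfl⟩
      · show (s⁻¹ * (p.1 : ℝ)) ^ 2 - (s⁻¹ * (p.1 : ℝ)) * (s⁻¹ * (p.2 : ℝ)) +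
          (s⁻¹ * (p.2 : ℝ)) ^ 2 ≤ 1
        rw [hq]
        exact_mod_cast hp
      · rw [SetLike.mem_coe, Module.Basis.mem_span_iff_repr_mem]
        intro i
        fin_cases i
        · exact ⟨p.1, rfl⟩
        · exact ⟨p.2, rfl⟩
  rw [h1, Nat.card_image_of_injective, Nat.card_coe_set_eq, Set.ncard_coe_finset]
  intro p q hpq
  have h2 : (s⁻¹ • (![(p.1 : ℝ), (p.2 : ℝ)] : Fin 2 → ℝ)) = s⁻¹ • (![(q.1 : ℝ), (q.2 : ℝ)] : Fin 2 → ℝ) := hpq
  have h3 := smul_right_injective (Fin 2 → ℝ) (inv_ne_zero hs.ne') h2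
  have h4 : (p.1 : ℝ) = q.1 := congrFun h3 0
  have h5 : (p.2 : ℝ) = q.2 := congrFun h3 1
  exact Prod.ext (by exact_mod_cast h4) (by exact_mod_cast h5)

/-- **the area of the ellipse** -/
theorem ell_tendsto : ∃ c : ℝ, Tendsto (fun V : ℕ => ((ell V).card : ℝ) / V) atTop (nhds c) := by
  have h := tendsto_card_div_pow_atTop_volume' uE uE_bdd uE_meas uE_frontier uE_smul
  refine ⟨_, (h.comp (Real.tendsto_sqrt_atTop.comp tendsto_natCast_atTop_atTop)).congr' ?_⟩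
  filter_upwards [eventually_ge_atTop 1] with V hV
  simp only [Function.comp_apply]
  rw [card_uE hV, Fintype.card_fin, Real.sq_sqrt (Nat.cast_nonneg V)]


open Pool.Agent.Y692.QS (Ei)
open Pool.Agent.Y715.T.RecG (Pq)
open Pool.Agent.Y699.E hiding Cl
open Pool.Agent.Helper68.C3 (SS Cl)
open scoped Classical

/-- the number of the elements of a class modulo nine -/
noncomputable def TT (b : Ei) (V : ℕ) : ℕ := ((ZB V).filter fun n => (9 : Ei) ∣ n - b).card

theorem nine_dvd (x y : ℤ) (b : Ei) :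
    (9 : Ei) ∣ (⟨x, y⟩ : Ei) - b ↔ (9 : ℤ) ∣ x - b.re ∧ (9 : ℤ) ∣ y - b.im := by
  have h : (9 : Ei) = ((9 : ℤ) : Ei) := by norm_num
  rw [h, Pool.Agent.Y692.QS.int_dvd]
  rfl

theorem sum_nine (x : ℤ) : ∑ i ∈ range 9, (if (9 : ℤ) ∣ (i : ℤ) - x then (1 : ℂ) else 0) = 1 := by
  have h1 : (x % 9).toNat ∈ range 9 := by
    rw [mem_range]
    omega
  rw [Finset.sum_eq_single_of_mem _ h1]
  · rw [if_pos (by omega)]
  · intro i hi hne
    rw [mem_range] at hi
    rw [if_neg (by omega)]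

/-- equidistribution in the classes modulo nine -/
theorem TT_bound (b : Ei) (V : ℕ) :
    |(TT b V : ℝ) - ((Lat.ell V).card : ℝ) / 81| ≤ 27 * (3 * Real.sqrt V + 1) := by
  obtain ⟨g, hg⟩ : ∃ g : ℤ → ℤ → ℂ, g = fun x y =>
    (if (9 : ℤ) ∣ x - b.re then (1 : ℂ) else 0) * (if (9 : ℤ) ∣ y - b.im then (1 : ℂ) else 0) :=
    ⟨_, rfl⟩
  have hval : ∀ x y, g x y = if (9 : Ei) ∣ (⟨x, y⟩ : Ei) - b then 1 else 0 := by
    intro x y
    rw [hg]
    simp only [nine_dvd]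
    by_cases h1 : (9 : ℤ) ∣ x - b.re <;> by_cases h2 : (9 : ℤ) ∣ y - b.im <;> simp [h1, h2]
  have hper1 : ∀ x y : ℤ, g (x + 9) y = g x y := by
    intro x y
    rw [hg]
    have : (9 : ℤ) ∣ x + 9 - b.re ↔ (9 : ℤ) ∣ x - b.re := by omega
    simp only [this]
  have hper2 : ∀ x y : ℤ, g x (y + 9) = g x y := by
    intro x y
    rw [hg]
    have : (9 : ℤ) ∣ y + 9 - b.im ↔ (9 : ℤ) ∣ y - b.im := by omega
    simp only [this]
  have hsum : ∑ i ∈ range 9, ∑ j ∈ range 9, g i j = 1 := by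
    rw [hg]
    simp only
    simp_rw [← mul_sum]
    rw [sum_nine]
    simp_rw [mul_one]
    exact sum_nine _
  have h := Lat.ell_bound (f := fun x y => g x y - 1 / 81) (N := 9) (by norm_num)
    (fun x y => by
      have := hper1 x y
      simp only [Nat.cast_ofNat]
      rw [this])
    (fun x y => by
      have := hper2 x y
      simp only [Nat.cast_ofNat]
      rw [this])
    (by
      simp_rw [sum_sub_distrib]
      rw [hsum]
      simp only [sum_const, card_range, nsmul_eq_mul]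
      norm_num)
    (fun x y => by
      rw [hval]
      split_ifs <;> norm_num) V
  have e1 : ∑ p ∈ Lat.ell V, (g p.1 p.2 - 1 / 81) =
      (((TT b V : ℝ) - ((Lat.ell V).card : ℝ) / 81 : ℝ) : ℂ) := by
    rw [sum_sub_distrib, sum_const, nsmul_eq_mul]
    have h2 : ∑ p ∈ Lat.ell V, g p.1 p.2 = (TT b V : ℂ) := by
      have h3 := sum_ZB V (fun n => if (9 : Ei) ∣ n - b then 1 else 0)
      simp_rw [hval]
      rw [← h3, ← sum_filter, sum_const, nsmul_eq_mul, mul_one]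
      rfl
    rw [h2]
    push_cast
    ring
  rw [e1, Complex.norm_real, Real.norm_eq_abs] at h
  refine h.trans (le_of_eq ?_)
  norm_num

theorem TT_tendsto : ∃ c : ℝ, ∀ b : Ei,
    Tendsto (fun V : ℕ => (TT b V : ℝ) / V) atTop (nhds c) := by
  obtain ⟨c, hc⟩ := ell_tendsto
  refine ⟨c / 81, fun b => ?_⟩
  have h1 : Tendsto (fun V : ℕ => ((Lat.ell V).card : ℝ) / V / 81) atTop (nhds (c / 81)) :=
    hc.div_const _
  have h2 : Tendsto (fun V : ℕ => (TT b V : ℝ) / V - ((Lat.ell V).card : ℝ) / V / 81) atTop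
      (nhds 0) := by
    have h3 : Tendsto (fun V : ℕ => 108 * (Real.sqrt V)⁻¹) atTop (nhds 0) := by
      rw [← mul_zero (108 : ℝ)]
      exact (tendsto_inv_atTop_zero.comp
        (Real.tendsto_sqrt_atTop.comp tendsto_natCast_atTop_atTop)).const_mul 108
    refine squeeze_zero_norm' ?_ h3
    filter_upwards [eventually_ge_atTop 1] with V hV
    have hV0 : (0 : ℝ) < V := by exact_mod_cast hV
    have hV1 : (1 : ℝ) ≤ V := by exact_mod_cast hV
    have h4 := TT_bound b V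
    have e : (TT b V : ℝ) / V - ((Lat.ell V).card : ℝ) / V / 81 =
        ((TT b V : ℝ) - ((Lat.ell V).card : ℝ) / 81) / V := by
      field_simp
    have hs : 1 ≤ Real.sqrt V := Real.one_le_sqrt.2 hV1
    have hss : Real.sqrt V * Real.sqrt V = V := Real.mul_self_sqrt hV0.le
    rw [e, Real.norm_eq_abs, abs_div, abs_of_pos hV0, div_le_iff₀ hV0]
    refine h4.trans ?_
    have h5 : 108 * (Real.sqrt V)⁻¹ * V = 108 * Real.sqrt V := by
      nth_rewrite 2 [← hss]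
      field_simp
    rw [h5]
    linarith
  have h3 := h2.add h1
  rw [zero_add] at h3
  refine h3.congr fun V => ?_
  ring

theorem prm_of {a n : Ei} (ha : (3 : Ei) ∣ a - 1) (h : (9 : Ei) ∣ n - a) : prm n := by
  unfold prm
  have e : n - 1 = (n - a) + (a - 1) := by ring
  rw [e]
  exact dvd_add (Dvd.dvd.trans (Dvd.intro 3 (by norm_num)) h) ha

theorem TT_le {b : Ei} (hb : (3 : Ei) ∣ b - 1) (V : ℕ) : (TT b V : ℝ) ≤ 16 * V := by
  rcases Nat.eq_zero_or_pos V with rfl | hV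
  · have : TT b 0 = 0 := by
      unfold TT
      rw [card_eq_zero, filter_eq_empty_iff]
      intro n hn h
      rw [mem_ZB, Nat.le_zero, nrm_zero_iff] at hn
      exact prm_ne_zero (prm_of hb h) hn
    rw [this]
    simp
  · refine le_trans ?_ (card_ZB_le hV)
    exact_mod_cast card_filter_le _ _

/-- the product of the squares of the norms -/
def DD (S : Finset Ei) : ℕ := ∏ π ∈ S, nrm π ^ 2

theorem DD_pos {S : Finset Ei} (hS : Cl S) : 0 < DD S :=
  prod_pos fun π hπ => pow_pos (nrm_pos' (pq_ne (hS π hπ))) 2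

/-- the inverse of the square modulo nine -/
noncomputable def ee (S : Finset Ei) : Ei := (2 - ∏ π ∈ S, π) ^ 2

theorem ee_mul {S : Finset Ei} (hS : Cl S) : (9 : Ei) ∣ (∏ π ∈ S, π) ^ 2 * ee S - 1 := by
  have h1 : prm (∏ π ∈ S, π) := prm_prod fun π hπ => (hS π hπ).three
  obtain ⟨k, hk⟩ := h1
  have h2 : ∏ π ∈ S, π = 1 + 3 * k := by linear_combination hk
  unfold ee
  rw [h2]
  exact ⟨k ^ 2 * (9 * k ^ 2 - 2), by ring⟩

theorem ee_prm {S : Finset Ei} (hS : Cl S) {a : Ei} (ha : (3 : Ei) ∣ a - 1) :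
    (3 : Ei) ∣ ee S * a - 1 := by
  have h1 : prm (∏ π ∈ S, π) := prm_prod fun π hπ => (hS π hπ).three
  obtain ⟨k, hk⟩ := h1
  have h2 : ∏ π ∈ S, π = 1 + 3 * k := by linear_combination hk
  have h3 : prm (ee S) := by
    unfold ee prm
    rw [h2]
    exact ⟨k * (3 * k - 2), by ring⟩
  exact prm_mul h3 ha

theorem card_shift {S : Finset Ei} (hS : Cl S) (a : Ei) (X : ℕ) :
    ((ZB X).filter fun n => (9 : Ei) ∣ n - a ∧ ∀ π ∈ S, π ^ 2 ∣ n).card =
      TT (ee S * a) (X / DD S) := by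
  obtain ⟨P, hP⟩ : ∃ P, P = ∏ π ∈ S, π := ⟨_, rfl⟩
  have hP0 : P ≠ 0 := by
    rw [hP]
    exact prm_ne_zero (prm_prod fun π hπ => (hS π hπ).three)
  have hD : nrm (P ^ 2) = DD S := by
    unfold DD
    rw [hP, ← prod_pow, nrm_prod]
    refine prod_congr rfl fun π _ => ?_
    rw [pow_two, nrm_mul, pow_two]
  obtain ⟨j, hj⟩ := ee_mul hS
  rw [← hP] at hj
  symm
  unfold TT
  refine card_bij (fun m _ => P ^ 2 * m) ?_ ?_ ?_
  · intro m hm
    rw [mem_filter, mem_ZB] at hm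
    obtain ⟨h1, c, h2⟩ := hm
    rw [mem_filter, mem_ZB, nrm_mul, hD]
    refine ⟨?_, ?_, ?_⟩
    · rw [Nat.le_div_iff_mul_le (DD_pos hS)] at h1
      rw [mul_comm]
      exact h1
    · exact ⟨P ^ 2 * c + j * a, by linear_combination P ^ 2 * h2 + a * hj⟩
    · intro π hπ
      refine Dvd.dvd.mul_right (pow_dvd_pow_of_dvd ?_ 2) _
      rw [hP]
      exact dvd_prod_of_mem _ hπ
  · intro m _ m' _ h
    exact mul_left_cancel₀ (pow_ne_zero 2 hP0) h
  · intro n hn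
    rw [mem_filter, mem_ZB] at hn
    obtain ⟨h1, ⟨c, h2⟩, h3⟩ := hn
    have h4 : P ^ 2 ∣ n := by
      rw [hP, ← prod_pow]
      refine Finset.prod_dvd_of_coprime ?_ h3
      intro π hπ ρ hρ hne
      exact (pq_cop (hS π hπ) (hS ρ hρ) hne).pow
    obtain ⟨m, rfl⟩ := h4
    refine ⟨m, ?_, rfl⟩
    rw [mem_filter, mem_ZB, Nat.le_div_iff_mul_le (DD_pos hS), mul_comm, ← hD, ← nrm_mul]
    refine ⟨h1, ⟨ee S * c - j * m, ?_⟩⟩
    linear_combination ee S * h2 - m * hj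

/-- the squarefree elements -/
noncomputable def NQ (a : Ei) (X : ℕ) : ℕ := ((ZB X).filter fun n => (9 : Ei) ∣ n - a ∧ PS n).card

theorem card_SS (a : Ei) (X : ℕ) :
    ((SS X).filter fun S => (9 : Ei) ∣ (∏ π ∈ S, π) - a).card = NQ a X := by
  unfold NQ
  refine card_bij (fun S _ => ∏ π ∈ S, π) ?_ ?_ ?_
  · intro S hS
    rw [mem_filter] at hS
    obtain ⟨h1, h2⟩ := Pool.Agent.Helper68.C3.Cnt3.SS_pr hS.1
    rw [mem_filter, mem_ZB, Pool.Agent.Helper68.C3.Cnt3.nrm_pr]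
    exact ⟨h2, hS.2, (PS_prod h1).1⟩
  · intro S hS T hT h
    rw [mem_filter] at hS hT
    exact Pool.Agent.Helper68.C3.Cnt3.pr_inj (Pool.Agent.Helper68.C3.Cnt3.SS_pr hS.1).1
      (Pool.Agent.Helper68.C3.Cnt3.SS_pr hT.1).1 h
  · intro n hn
    rw [mem_filter, mem_ZB] at hn
    obtain ⟨h1, h2, h3⟩ := hn
    have h4 : ∀ π ∈ PD n, Pq π := fun π hπ => ((mem_PD h3.ne).1 hπ).1
    refine ⟨PD n, ?_, h3.prod⟩
    rw [mem_filter, Pool.Agent.Helper68.C3.Key3.mem_SS, h3.prod]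
    refine ⟨⟨h4, ?_⟩, h2⟩
    rw [← Pool.Agent.Helper68.C3.Cnt3.nrm_pr, h3.prod]
    exact h1

theorem sqf_iff {X : ℕ} {n : Ei} (hn : nrm n ≤ X) (hp : prm n) :
    PS n ↔ (QB X).filter (fun π => π ^ 2 ∣ n) = ∅ := by
  have hn0 := prm_ne_zero hp
  rw [filter_eq_empty_iff]
  constructor
  · intro h π hπ h2
    rw [mem_QB] at hπ
    rw [pow_two] at h2
    exact hπ.2.prime.not_isUnit (h.sqf _ h2)
  · intro h
    refine ⟨hp, fun x hx => ?_⟩
    by_contra hnu
    have hx0 : x ≠ 0 := by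
      rintro rfl
      rw [zero_mul, zero_dvd_iff] at hx
      exact hn0 hx
    obtain ⟨ρ, hρ, hρx⟩ := WfDvdMonoid.exists_irreducible_factor hnu hx0
    have hρ' : Prime ρ := irreducible_iff_prime.1 hρ
    have h1 : ρ * ρ ∣ n := (mul_dvd_mul hρx hρx).trans hx
    have h2 : ρ ∣ n := (dvd_mul_right _ _).trans h1
    obtain ⟨π, hπ, hass⟩ := exists_PP hρ' (not_dvd_three hρ' h2 hp)
    have h3 : π * π ∣ n := (mul_dvd_mul hass.dvd hass.dvd).trans h1
    refine h (x := π) ?_ (by rw [pow_two]; exact h3)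
    rw [mem_QB]
    exact ⟨(norm_le_of_dvd hn0 ((dvd_mul_right _ _).trans h3)).trans hn, hπ⟩

theorem NQ_sum {a : Ei} (ha : (3 : Ei) ∣ a - 1) (X : ℕ) :
    (NQ a X : ℝ) = ∑ S ∈ (QB X).powerset, (-1) ^ S.card * (TT (ee S * a) (X / DD S) : ℝ) := by
  have h1 : (NQ a X : ℝ) = ∑ n ∈ (ZB X).filter fun n => (9 : Ei) ∣ n - a,
      ∑ S ∈ ((QB X).filter (fun π => π ^ 2 ∣ n)).powerset, (-1 : ℝ) ^ S.card := by
    unfold NQ
    rw [← filter_filter, card_filter]
    push_cast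
    refine sum_congr rfl fun n hn => ?_
    rw [mem_filter, mem_ZB] at hn
    have h2 := sqf_iff hn.1 (prm_of ha hn.2)
    have h3 := Finset.sum_powerset_neg_one_pow_card (x := (QB X).filter (fun π => π ^ 2 ∣ n))
    have h4 : ∑ S ∈ ((QB X).filter (fun π => π ^ 2 ∣ n)).powerset, (-1 : ℝ) ^ S.card =
        ((∑ S ∈ ((QB X).filter (fun π => π ^ 2 ∣ n)).powerset, (-1 : ℤ) ^ S.card : ℤ) : ℝ) := by
      push_cast
      rfl
    rw [h4, h3]
    by_cases h5 : (QB X).filter (fun π => π ^ 2 ∣ n) = ∅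
    · rw [if_pos h5, if_pos (h2.2 h5), Int.cast_one]
    · rw [if_neg h5, if_neg (fun h6 => h5 (h2.1 h6)), Int.cast_zero]
  rw [h1, Finset.sum_comm' (s' := fun S => (ZB X).filter fun n => (9 : Ei) ∣ n - a ∧
    ∀ π ∈ S, π ^ 2 ∣ n) (t' := (QB X).powerset)]
  · refine sum_congr rfl fun S hS => ?_
    rw [mem_powerset] at hS
    have hSC : Cl S := fun π hπ => (mem_QB.1 (hS hπ)).2
    rw [sum_const, nsmul_eq_mul, card_shift hSC, mul_comm]
  · intro n S
    rw [mem_filter, mem_powerset, mem_filter, mem_powerset]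
    constructor
    · rintro ⟨⟨h2, h3⟩, h4⟩
      exact ⟨⟨h2, h3, fun π hπ => (mem_filter.1 (h4 hπ)).2⟩,
        fun π hπ => (mem_filter.1 (h4 hπ)).1⟩
    · rintro ⟨⟨h2, h3, h4⟩, h5⟩
      exact ⟨⟨h2, h3⟩, fun π hπ => mem_filter.2 ⟨h5 hπ, h4 π hπ⟩⟩

/-- the bound of the terms -/
noncomputable def bd (S : Finset Ei) : ℝ := if Cl S then 16 / (DD S : ℝ) else 0

theorem bd_summable : Summable bd := by
  refine summable_of_sum_le (c := 16 * Real.exp 2) ?_ ?_
  · intro S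
    unfold bd
    split_ifs
    · positivity
    · exact le_refl _
  · intro u
    obtain ⟨M, hM⟩ : ∃ M : ℕ, M = u.sup fun S => S.sup nrm := ⟨_, rfl⟩
    have h1 : ∑ S ∈ u, bd S = ∑ S ∈ u.filter Cl, 16 / (DD S : ℝ) := by
      rw [sum_filter]
      rfl
    have h2 : u.filter Cl ⊆ (QB M).powerset := by
      intro S hS
      rw [mem_filter] at hS
      rw [mem_powerset]
      intro π hπ
      rw [mem_QB]
      refine ⟨?_, hS.2 π hπ⟩
      rw [hM]
      exact (le_sup (f := nrm) hπ).trans (le_sup (f := fun S : Finset Ei => S.sup nrm) hS.1)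
    have h3 : ∑ S ∈ (QB M).powerset, 16 / (DD S : ℝ) =
        16 * ∏ π ∈ QB M, (1 + 1 / (nrm π : ℝ) ^ 2) := by
      rw [Finset.prod_one_add, mul_sum]
      refine sum_congr rfl fun S _ => ?_
      unfold DD
      push_cast
      rw [prod_div_distrib, prod_const_one]
      ring
    have h4 : ∏ π ∈ QB M, (1 + 1 / (nrm π : ℝ) ^ 2) ≤ Real.exp 2 := by
      have h5 : ∏ π ∈ QB M, (1 + 1 / (nrm π : ℝ) ^ 2) ≤
          ∏ π ∈ QB M, Real.exp (1 / (nrm π : ℝ) ^ 2) := by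
        refine prod_le_prod (fun π _ => by positivity) fun π _ => ?_
        rw [add_comm]
        exact Real.add_one_le_exp _
      refine h5.trans ?_
      rw [← Real.exp_sum]
      apply Real.exp_le_exp.2
      have h6 := Pool.Agent.Helper68.C3.Cnt3.sum_sq (X := M) (z := 1) (le_refl _)
      have h7 : (QB M).filter (fun π => 1 < nrm π) = QB M := by
        rw [filter_eq_self]
        intro π hπ
        exact pq_nrm_two (mem_QB.1 hπ).2
      rw [h7] at h6
      norm_num at h6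
      simpa using h6
    rw [h1]
    calc ∑ S ∈ u.filter Cl, 16 / (DD S : ℝ) ≤ ∑ S ∈ (QB M).powerset, 16 / (DD S : ℝ) :=
          sum_le_sum_of_subset_of_nonneg h2 fun _ _ _ => by positivity
      _ = 16 * ∏ π ∈ QB M, (1 + 1 / (nrm π : ℝ) ^ 2) := h3
      _ ≤ 16 * Real.exp 2 := by linarith

theorem div_tendsto {D : ℕ} (hD : 0 < D) :
    Tendsto (fun X : ℕ => ((X / D : ℕ) : ℝ) / X) atTop (nhds (1 / D)) := by
  have h1 : Tendsto (fun X : ℕ => 1 / (D : ℝ) - 1 / (X : ℝ)) atTop (nhds (1 / D)) := by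
    have := (tendsto_const_nhds (x := 1 / (D : ℝ))).sub tendsto_one_div_atTop_nhds_zero_nat
    rwa [sub_zero] at this
  have hD0 : (0 : ℝ) < D := by exact_mod_cast hD
  refine tendsto_of_tendsto_of_tendsto_of_le_of_le' h1 tendsto_const_nhds ?_ ?_
  · filter_upwards [eventually_ge_atTop 1] with X hX
    have hX0 : (0 : ℝ) < X := by exact_mod_cast hX
    have h2 : X < D * (X / D + 1) := by
      have := Nat.lt_mul_div_succ X hD
      exact this
    have h3 : (X : ℝ) < D * (((X / D : ℕ) : ℝ) + 1) := by exact_mod_cast h2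
    rw [le_div_iff₀ hX0, sub_mul, one_div_mul_cancel hX0.ne', one_div_mul_eq_div,
      sub_le_iff_le_add, div_le_iff₀ hD0]
    linarith
  · filter_upwards [eventually_ge_atTop 1] with X hX
    have hX0 : (0 : ℝ) < X := by exact_mod_cast hX
    rw [div_le_div_iff₀ hX0 hD0, one_mul]
    have h2 : X / D * D ≤ X := Nat.div_mul_le_self X D
    exact_mod_cast h2

/-- **the density** -/
theorem NQ_tendsto : ∃ c : ℝ, ∀ a : Ei, (3 : Ei) ∣ a - 1 →
    Tendsto (fun X : ℕ => (NQ a X : ℝ) / X) atTop (nhds c) := by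
  obtain ⟨c, hc⟩ := TT_tendsto
  refine ⟨∑' S : Finset Ei, if Cl S then (-1) ^ S.card * (c * (1 / (DD S : ℝ))) else 0, ?_⟩
  intro a ha
  obtain ⟨F, hF⟩ : ∃ F : ℕ → Finset Ei → ℝ, F = fun X S =>
    if Cl S then (-1) ^ S.card * ((TT (ee S * a) (X / DD S) : ℝ) / X) else 0 := ⟨_, rfl⟩
  have h1 : ∀ X : ℕ, (NQ a X : ℝ) / X = ∑' S, F X S := by
    intro X
    rw [tsum_eq_sum (s := (QB X).powerset), NQ_sum ha, sum_div]
    · refine sum_congr rfl fun S hS => ?_
      rw [mem_powerset] at hS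
      have hSC : Cl S := fun π hπ => (mem_QB.1 (hS hπ)).2
      rw [hF]
      simp only
      rw [if_pos hSC, mul_div_assoc]
    · intro S hS
      rw [hF]
      simp only
      split_ifs with hSC
      · have h2 : X / DD S = 0 := by
          rw [mem_powerset, not_subset] at hS
          obtain ⟨π, hπ, h3⟩ := hS
          rw [mem_QB, not_and'] at h3
          have h4 := not_le.1 (h3 (hSC π hπ))
          rw [Nat.div_eq_zero_iff]
          right
          have h5 : nrm π ^ 2 ∣ DD S := dvd_prod_of_mem (fun π => nrm π ^ 2) hπ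
          have h6 := Nat.le_of_dvd (DD_pos hSC) h5
          have h7 : nrm π ≤ nrm π ^ 2 := Nat.le_self_pow (by norm_num) _
          omega
        have h3 := TT_le (ee_prm hSC ha) (X / DD S)
        have h4 : (TT (ee S * a) (X / DD S) : ℝ) = 0 := by
          refine le_antisymm ?_ (Nat.cast_nonneg _)
          refine h3.trans (le_of_eq ?_)
          rw [h2]
          simp
        rw [h4, zero_div, mul_zero]
      · rfl
  simp_rw [h1]
  refine tendsto_tsum_of_dominated_convergence bd_summable ?_ ?_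
  · intro S
    rw [hF]
    simp only
    by_cases hSC : Cl S
    · simp only [if_pos hSC]
      refine Tendsto.const_mul _ ?_
      have hD := DD_pos hSC
      have h2 : Tendsto (fun X : ℕ => X / DD S) atTop atTop := Nat.tendsto_div_const_atTop hD.ne'
      have h3 := ((hc (ee S * a)).comp h2).mul (div_tendsto hD)
      refine h3.congr' ?_
      filter_upwards [eventually_ge_atTop (DD S)] with X hX
      simp only [Function.comp_apply]
      have h4 : ((X / DD S : ℕ) : ℝ) ≠ 0 := by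
        have := Nat.div_pos hX hD
        exact_mod_cast this.ne'
      rw [div_mul_div_comm, mul_comm ((X / DD S : ℕ) : ℝ) (X : ℝ), mul_div_mul_right _ _ h4]
    · simp only [if_neg hSC]
      exact tendsto_const_nhds
  · filter_upwards [eventually_ge_atTop 1] with X hX S
    have hX0 : (0 : ℝ) < X := by exact_mod_cast hX
    rw [hF]
    unfold bd
    simp only
    split_ifs with hSC
    · have hD := DD_pos hSC
      have hD0 : (0 : ℝ) < DD S := by exact_mod_cast hD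
      rw [norm_mul, norm_pow, norm_neg, norm_one, one_pow, one_mul, Real.norm_eq_abs,
        abs_of_nonneg (by positivity), div_le_div_iff₀ hX0 hD0]
      have h3 := TT_le (ee_prm hSC ha) (X / DD S)
      have h4 : ((X / DD S : ℕ) : ℝ) * DD S ≤ X := by
        exact_mod_cast Nat.div_mul_le_self X (DD S)
      calc (TT (ee S * a) (X / DD S) : ℝ) * DD S ≤ 16 * ((X / DD S : ℕ) : ℝ) * DD S := by gcongr
        _ = 16 * (((X / DD S : ℕ) : ℝ) * DD S) := by ring
        _ ≤ 16 * X := by linarith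
    · rw [norm_zero]

/-- **the density of the squarefree elements in a class modulo nine** -/
theorem s_SQD : S_SQD := by
  obtain ⟨c, hc⟩ := NQ_tendsto
  refine ⟨c, ?_, fun a ha => ?_⟩
  · obtain ⟨c₀, X₀, hc₀, hlow⟩ := Pool.Agent.Helper68.C3.Asy3.t_LOW
    obtain ⟨r, hr⟩ : ∃ r : Fin 3 × Fin 3 → Ei, r = fun p => 1 + 3 * ⟨(p.1 : ℤ), (p.2 : ℤ)⟩ :=
      ⟨_, rfl⟩
    have hr3 : ∀ p, (3 : Ei) ∣ r p - 1 := by
      intro p
      rw [hr]
      exact ⟨⟨(p.1 : ℤ), (p.2 : ℤ)⟩, by ring⟩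
    have h1 : Tendsto (fun X : ℕ => ∑ p : Fin 3 × Fin 3, (NQ (r p) X : ℝ) / X) atTop
        (nhds (∑ p : Fin 3 × Fin 3, c)) := tendsto_finsetSum _ fun p _ => hc (r p) (hr3 p)
    have h2 : c₀ ≤ ∑ p : Fin 3 × Fin 3, c := by
      refine ge_of_tendsto h1 ?_
      filter_upwards [eventually_ge_atTop X₀, eventually_ge_atTop 1] with X hX hX1
      have hX0 : (0 : ℝ) < X := by exact_mod_cast hX1
      rw [← sum_div, le_div_iff₀ hX0]
      refine (hlow X hX).trans ?_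
      have h3 : SS X ⊆ univ.biUnion fun p => (SS X).filter fun S =>
          (9 : Ei) ∣ (∏ π ∈ S, π) - r p := by
        intro S hS
        obtain ⟨h4, -⟩ := Pool.Agent.Helper68.C3.Cnt3.SS_pr hS
        obtain ⟨k, hk⟩ : prm (∏ π ∈ S, π) := prm_prod fun π hπ => (h4 π hπ).three
        rw [mem_biUnion]
        refine ⟨(⟨(k.re % 3).toNat, by omega⟩, ⟨(k.im % 3).toNat, by omega⟩), mem_univ _, ?_⟩
        rw [mem_filter]
        refine ⟨hS, ?_⟩
        have h5 : (3 : Ei) ∣ k - ⟨(((k.re % 3).toNat : ℕ) : ℤ), (((k.im % 3).toNat : ℕ) : ℤ)⟩ := by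
          have h6 : (3 : Ei) = ((3 : ℤ) : Ei) := by norm_num
          rw [h6, Pool.Agent.Y692.QS.int_dvd]
          constructor
          · show (3 : ℤ) ∣ k.re - (((k.re % 3).toNat : ℕ) : ℤ)
            omega
          · show (3 : ℤ) ∣ k.im - (((k.im % 3).toNat : ℕ) : ℤ)
            omega
        obtain ⟨j, hj⟩ := h5
        refine ⟨j, ?_⟩
        rw [hr]
        simp only
        linear_combination hk + 3 * hj
      have h4 := (card_le_card h3).trans card_biUnion_le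
      have h5 : ((SS X).card : ℝ) ≤ ∑ p : Fin 3 × Fin 3, (NQ (r p) X : ℝ) := by
        have h6 : (SS X).card ≤ ∑ p : Fin 3 × Fin 3, NQ (r p) X := by
          refine h4.trans (le_of_eq (sum_congr rfl fun p _ => ?_))
          exact card_SS (r p) X
        exact_mod_cast h6
      exact h5
    rw [sum_const, nsmul_eq_mul] at h2
    have h3 : (0 : ℝ) < ((univ : Finset (Fin 3 × Fin 3)).card : ℝ) * c := hc₀.trans_le h2
    have h4 : (0 : ℝ) < ((univ : Finset (Fin 3 × Fin 3)).card : ℝ) := by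
      rw [card_univ, Fintype.card_prod, Fintype.card_fin]
      norm_num
    exact (mul_pos_iff_of_pos_left h4).1 h3
  · refine (hc a ha).congr fun X => ?_
    rw [card_SS]

end Pool.Agent.Helper68.C6.SQ
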