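import Pool.Agent.Helper68.C6.SVBox
import Pool.Agent.Helper68.C6.SVKey
import Pool.Agent.Helper68.C3.Asy3

/-!
# The law of the kernels of the bordered Laplacians of the cubic residue symbols
(adapted from `Pool.Agent.Helper68.C3.Asy3`)
-/

set_option autoImplicit false

open scoped Classical
open Finset Filter

namespace Pool.Agent.Helper68.C6.SV

open Pool.Agent.Y692.QS (Ei w nr toC)
open Pool.Agent.Y715.T.Rec (cs)
open Pool.Agent.Y715.T.RecG (Pq)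
open Pool.Agent.Y699.E (nrm QB PD)
open Pool.Agent.Y703.CX (jj XX eL zz kk eL_tendsto logX_eq rpow_eL HH NN ev_eL one_le_exp
  HH_ge HH_le HH_pos kk_ge kk_le X_pos one_add_log lin_le zz_ge zz_pos)
open Pool.Agent.Y703.CQ (Sml sml_of sml_add)
open Pool.Agent.Y703.XK (HB prs ext c9 sm la bl S_BIL S_EQ S_C9
  sml_eps kk_pos sml_main kap kap_nonneg kap_pow cmp)
open Pool.Agent.Y703.XL (cr cr_pos cr_le)
open Pool.Agent.Helper68.C3 (Bt SS RR Nd S_CNT S_FEW S_LOW S_BAD)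
open Pool.Agent.Helper68.C3.Asy3 (sml_many sml_cut sml_coll t_LOW)

/-- few sets have degenerate labels -/
def S_BAD2 (β₁ β₂ : Ei → ZMod 3) : Prop := ∀ ε : ℝ, 0 < ε → ∃ X₀ : ℕ, ∀ X : ℕ, X₀ ≤ X →
  (((SS X).filter fun S => S.card ≤ kk X ∧
    ¬ Nd2 β₁ β₂ (sm (zz X) S) (la (zz X) S)).card : ℝ) ≤ ε * X

/-- degenerate labels are degenerate for a combination of the two characters -/
theorem notNd2 {β₁ β₂ : Ei → ZMod 3} {S₀ S₁ : Finset Ei} (h : ¬ Nd2 β₁ β₂ S₀ S₁) :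
    ∃ q : ZMod 3 × ZMod 3, (q.1 ≠ 0 ∨ q.2 ≠ 0) ∧
      ¬ Nd (fun x => q.1 * β₁ x + q.2 * β₂ x) S₀ S₁ := by
  unfold Nd2 at h
  push Not at h
  obtain ⟨t, s, v, h1, h2⟩ := h
  by_cases ht : t ≠ 0 ∨ s ≠ 0
  · refine ⟨(t, t - s), ?_, ?_⟩
    · show t ≠ 0 ∨ t - s ≠ 0
      by_contra hc
      push Not at hc
      obtain ⟨h3, h4⟩ := hc
      rw [h3, zero_sub, neg_eq_zero] at h4
      rcases ht with ht | ht
      · exact ht h3
      · exact ht h4
    · intro h3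
      obtain ⟨π, hπ, h4⟩ := h3 1 v (Or.inl one_ne_zero)
      apply h4
      rw [← h2 π hπ]
      ring
  · push Not at ht
    have hv : ∃ u ∈ S₀, v u ≠ 0 := by
      rcases h1 with h1 | h1 | h1
      · exact absurd ht.1 h1
      · exact absurd ht.2 h1
      · exact h1
    refine ⟨(1, 0), Or.inl one_ne_zero, ?_⟩
    intro h3
    obtain ⟨π, hπ, h4⟩ := h3 0 v (Or.inr hv)
    apply h4
    have e := h2 π hπ
    rw [ht.1, ht.2, zero_mul, zero_mul, zero_add, zero_add] at e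
    rw [zero_mul, zero_add]
    exact e

/-- few sets have degenerate labels -/
theorem t_BAD2 {β₁ β₂ : Ei → ZMod 3} (h : Bt2 β₁ β₂) : S_BAD2 β₁ β₂ := by
  intro ε hε
  have h1 : ∀ q : ZMod 3 × ZMod 3, ∃ X₀ : ℕ, ∀ X : ℕ, X₀ ≤ X → (q.1 ≠ 0 ∨ q.2 ≠ 0) →
      (((SS X).filter fun S => S.card ≤ kk X ∧
        ¬ Nd (fun x => q.1 * β₁ x + q.2 * β₂ x) (sm (zz X) S) (la (zz X) S)).card : ℝ) ≤
        ε / 9 * X := by
    intro q
    by_cases hq : q.1 ≠ 0 ∨ q.2 ≠ 0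
    · obtain ⟨X₀, h2⟩ := Pool.Agent.Helper68.C3.Few3.t_BAD (h q.1 q.2 hq) (ε / 9) (by positivity)
      exact ⟨X₀, fun X hX _ => h2 X hX⟩
    · exact ⟨0, fun X _ h3 => absurd h3 hq⟩
  choose Y hY using h1
  refine ⟨univ.sup Y, fun X hX => ?_⟩
  obtain ⟨P, hP⟩ : ∃ P : Finset (ZMod 3 × ZMod 3), P = univ.filter fun q => q.1 ≠ 0 ∨ q.2 ≠ 0 :=
    ⟨_, rfl⟩
  have hsub : ((SS X).filter fun S => S.card ≤ kk X ∧
      ¬ Nd2 β₁ β₂ (sm (zz X) S) (la (zz X) S)) ⊆ P.biUnion fun q => (SS X).filter fun S =>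
        S.card ≤ kk X ∧
        ¬ Nd (fun x => q.1 * β₁ x + q.2 * β₂ x) (sm (zz X) S) (la (zz X) S) := by
    intro S hS
    rw [mem_filter] at hS
    obtain ⟨h2, h3, h4⟩ := hS
    obtain ⟨q, hq, h5⟩ := notNd2 h4
    rw [mem_biUnion]
    refine ⟨q, by rw [hP, mem_filter]; exact ⟨mem_univ _, hq⟩, ?_⟩
    rw [mem_filter]
    exact ⟨h2, h3, h5⟩
  have h3 : (((SS X).filter fun S => S.card ≤ kk X ∧
      ¬ Nd2 β₁ β₂ (sm (zz X) S) (la (zz X) S)).card : ℝ) ≤ ∑ q ∈ P, (((SS X).filter fun S =>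
        S.card ≤ kk X ∧
        ¬ Nd (fun x => q.1 * β₁ x + q.2 * β₂ x) (sm (zz X) S) (la (zz X) S)).card : ℝ) := by
    exact_mod_cast (card_le_card hsub).trans card_biUnion_le
  have h4 : ∀ q ∈ P, (((SS X).filter fun S => S.card ≤ kk X ∧
        ¬ Nd (fun x => q.1 * β₁ x + q.2 * β₂ x) (sm (zz X) S) (la (zz X) S)).card : ℝ) ≤
        ε / 9 * X := by
    intro q hq
    rw [hP, mem_filter] at hq
    exact hY q X ((le_sup (mem_univ q)).trans hX) hq.2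
  have h5 : (P.card : ℝ) ≤ 9 := by
    have : P.card ≤ 9 := (card_le_univ P).trans (by rw [Fintype.card_prod, ZMod.card])
    exact_mod_cast this
  have hX0 : (0 : ℝ) ≤ ε / 9 * X := by positivity
  calc _ ≤ ∑ q ∈ P, (((SS X).filter fun S => S.card ≤ kk X ∧
        ¬ Nd (fun x => q.1 * β₁ x + q.2 * β₂ x) (sm (zz X) S) (la (zz X) S)).card : ℝ) := h3
    _ ≤ ∑ q ∈ P, ε / 9 * X := sum_le_sum h4
    _ = P.card * (ε / 9 * X) := by rw [sum_const, nsmul_eq_mul]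
    _ ≤ 9 * (ε / 9 * X) := mul_le_mul_of_nonneg_right h5 hX0
    _ = ε * X := by ring

/-- the sets outside the regular part -/
theorem out_sub (W : Finset Ei → Finset Ei → Prop) (X z H k V : ℕ) :
    SS X \ ((RR X z H k (V + 1)).filter fun S => W (sm z S) (la z S)) ⊆
      (((((SS X).filter fun S => k < S.card) ∪
      ((SS X).filter fun S => S.card ≤ k ∧
        X < (∏ π ∈ sm z S, nrm π) * ∏ π ∈ la z S, XX H (bl H π))) ∪
      ((SS X).filter fun S => ¬ Set.InjOn (bl H) (la z S : Set Ei))) ∪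
      ((SS X).filter fun S => S.card ≤ k ∧ (la z S).card ≤ (sm z S).card + (V + 2))) ∪
      ((SS X).filter fun S => S.card ≤ k ∧ ¬ W (sm z S) (la z S)) := by
  intro S hS
  rw [Finset.mem_sdiff, Finset.mem_filter] at hS
  obtain ⟨h1, h2⟩ := hS
  simp only [mem_union, mem_filter]
  by_contra hc
  push Not at hc
  obtain ⟨⟨⟨⟨c1, c2⟩, c3⟩, c4⟩, c5⟩ := hc
  have d1 : S.card ≤ k := c1 h1
  have d2 := c2 h1 d1
  have d3 := c3 h1
  have d4 := c4 h1 d1
  have d5 := c5 h1 d1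
  apply h2
  refine ⟨?_, d5⟩
  unfold RR
  rw [mem_filter]
  exact ⟨h1, d3, d1, d2, by omega⟩

theorem t_DQ {β₁ β₂ : Ei → ZMod 3} (e : ZMod 3) (h1 : S_BIL)
    (hBx : ∀ r : ℕ, BoxN (Nd2 β₁ β₂) (GV β₁ β₂ e r) (cr r) (3 ^ (r + 1)))
    (hC : S_CNT) (hB : S_BAD2 β₁ β₂) (hF : S_FEW) (hLo : S_LOW) (hc9 : S_C9) (r : ℕ) :
    Tendsto (fun X : ℕ => (((SS X).filter (GV β₁ β₂ e r)).card : ℝ) / ((SS X).card : ℝ))
      atTop (nhds (cr r)) := by
  obtain ⟨C, hC1, hkey⟩ := t_KEY h1 (by positivity) (hBx r)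
  obtain ⟨D, hD⟩ := hC
  obtain ⟨c, X₀, hc, hlow⟩ := hLo
  rw [Metric.tendsto_nhds]
  intro ε hε
  obtain ⟨K, hKd⟩ : ∃ K : ℝ, K = 3 ^ (r + 1) := ⟨_, rfl⟩
  have hKp : 0 < K := by rw [hKd]; positivity
  obtain ⟨V, hV⟩ := exists_pow_lt_of_lt_one (show (0 : ℝ) < ε / (2 * K) by positivity)
    (show (1 / 3 : ℝ) < 1 by norm_num)
  have s1 := sml_many hD
  have s2 := sml_cut hD
  have s3 := sml_coll hD
  have s4 := sml_eps (hF (V + 2))
  have s5 := sml_eps hB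
  have s6 := sml_main hC1
  have s := sml_add (sml_add (sml_add (sml_add (sml_add s1 s2) s3) s4) s5) s6
  have hδ : (0 : ℝ) < c * ε / 4 := by positivity
  filter_upwards [s (c * ε / 4) hδ, ev_eL 1, eventually_ge_atTop X₀] with X hX hl hX0
  rw [neg_zero, zero_mul, Real.exp_zero, mul_one] at hX
  have hl0 : 0 < eL X := by linarith
  have hlo := hlow X hX0
  have hXp := X_pos hl0
  have hXp' : (0 : ℝ) < X := by exact_mod_cast hXp
  have hSpos : (0 : ℝ) < ((SS X).card : ℝ) := by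
    refine lt_of_lt_of_le ?_ hlo
    positivity
  have hN : (HH X : ℝ) * Real.log X < NN X := by
    unfold NN
    push_cast
    exact Nat.lt_floor_add_one _
  have hmain := hkey X (zz X) (HH X) (kk X) V (NN X) (kap C X) hXp (HH_pos hl0) (zz_pos hl)
    (kap_nonneg hC1 X) (kap_pow hC1 hl) hN
  set T := (RR X (zz X) (HH X) (kk X) (V + 1)).filter fun S => Nd2 β₁ β₂ (sm (zz X) S) (la (zz X) S) with hT
  have hTG : (RR X (zz X) (HH X) (kk X) (V + 1)).filter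
      (fun S => Nd2 β₁ β₂ (sm (zz X) S) (la (zz X) S) ∧ GV β₁ β₂ e r S) = T.filter (GV β₁ β₂ e r) := by
    rw [hT, filter_filter]
  rw [hTG] at hmain
  have hTS : T ⊆ SS X := (filter_subset _ _).trans (filter_subset _ _)
  have hRS : ((RR X (zz X) (HH X) (kk X) (V + 1)).card : ℝ) ≤ ((SS X).card : ℝ) := by
    exact_mod_cast card_le_card (filter_subset _ _)
  have hcmp := cmp (GV β₁ β₂ e r) T (SS X) hTS (cr r) (cr_pos hc9 r).le (cr_le hc9 r)
  have hout : ((SS X \ T).card : ℝ) ≤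
      ((((SS X).filter fun S => kk X < S.card).card : ℝ) +
      (((SS X).filter fun S => S.card ≤ kk X ∧
        X < (∏ π ∈ sm (zz X) S, nrm π) * ∏ π ∈ la (zz X) S, XX (HH X) (bl (HH X) π)).card : ℝ) +
      (((SS X).filter fun S => ¬ Set.InjOn (bl (HH X)) (la (zz X) S : Set Ei)).card : ℝ) +
      (((SS X).filter fun S => S.card ≤ kk X ∧
        (la (zz X) S).card ≤ (sm (zz X) S).card + (V + 2)).card : ℝ)) +
      (((SS X).filter fun S => S.card ≤ kk X ∧ ¬ Nd2 β₁ β₂ (sm (zz X) S) (la (zz X) S)).card : ℝ) := by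
    have g := card_le_card (out_sub (Nd2 β₁ β₂) X (zz X) (HH X) (kk X) V)
    rw [← hT] at g
    have g2 := (g.trans (card_union_le _ _)).trans (Nat.add_le_add_right ((card_union_le _ _).trans
      (Nat.add_le_add_right ((card_union_le _ _).trans
      (Nat.add_le_add_right (card_union_le _ _) _)) _)) _)
    exact_mod_cast g2
  rw [← hKd] at hmain
  have htot : |(((SS X).filter (GV β₁ β₂ e r)).card : ℝ) - cr r * ((SS X).card : ℝ)| ≤
      K * (1 / 3 : ℝ) ^ V * ((SS X).card : ℝ) + c * ε / 4 * X := by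
    have g1 : K * (1 / 3 : ℝ) ^ V * ((RR X (zz X) (HH X) (kk X) (V + 1)).card : ℝ) ≤
        K * (1 / 3 : ℝ) ^ V * ((SS X).card : ℝ) := mul_le_mul_of_nonneg_left hRS (by positivity)
    linarith
  rw [Real.dist_eq]
  have e3 : (((SS X).filter (GV β₁ β₂ e r)).card : ℝ) / ((SS X).card : ℝ) - cr r =
      ((((SS X).filter (GV β₁ β₂ e r)).card : ℝ) - cr r * ((SS X).card : ℝ)) /
        ((SS X).card : ℝ) := by
    field_simp
  rw [e3, abs_div, abs_of_pos hSpos, div_lt_iff₀ hSpos]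
  refine lt_of_le_of_lt htot ?_
  have g2 : c * ε / 4 * X ≤ ε / 4 * ((SS X).card : ℝ) := by
    calc c * ε / 4 * X = ε / 4 * (c * X) := by ring
      _ ≤ _ := mul_le_mul_of_nonneg_left hlo (by linarith)
  have g3 : K * (1 / 3 : ℝ) ^ V * ((SS X).card : ℝ) ≤ K * (ε / (2 * K)) * ((SS X).card : ℝ) := by
    gcongr
  have g5 : K * (ε / (2 * K)) = ε / 2 := by
    field_simp
  rw [g5] at g3
  have g4 : 0 < ε * ((SS X).card : ℝ) := by positivity
  linarith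


/-- **the law of the kernels of the bordered Laplacians** -/
theorem s_DV : S_DV := fun β₁ β₂ h κ r =>
  t_DQ κ Pool.Agent.Y363.XK.t_BIL
    (fun r => t_BOX β₁ β₂ κ Pool.Agent.Y710.XK.t_EQ Pool.Agent.Y703.XL.t_LA r)
    Pool.Agent.Helper68.C3.Cnt3.t_CNT (t_BAD2 h) Pool.Agent.Helper68.C3.Few3.t_FEW t_LOW
    Pool.Agent.Y703.XL.t_C9 r

end Pool.Agent.Helper68.C6.SV
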