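import Pool.Agent.Helper68.C6.PathDef

/-!
# Sums over Hamiltonian paths in characteristic 3 (module S_W for helper68)
-/

set_option autoImplicit false
set_option linter.unusedSectionVars false

open Finset

namespace Pool.Agent.Helper68.C6.PW

open Pool.Agent.Helper68.C6

section conv

variable {ι F : Type} [DecidableEq ι] [CommRing F]

/-- convolution over disjoint unions -/
def cv (a b : Finset ι → F) (R : Finset ι) : F := ∑ Q ∈ R.powerset, a Q * b (R \ Q)

lemma cv_comm (a b : Finset ι → F) (R : Finset ι) : cv a b R = cv b a R := by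
  unfold cv
  refine Finset.sum_bij' (fun Q _ => R \ Q) (fun Q _ => R \ Q) ?_ ?_ ?_ ?_ ?_
  · intro Q _
    exact mem_powerset.2 sdiff_subset
  · intro Q _
    exact mem_powerset.2 sdiff_subset
  · intro Q hQ
    exact Finset.sdiff_sdiff_eq_self (mem_powerset.1 hQ)
  · intro Q hQ
    exact Finset.sdiff_sdiff_eq_self (mem_powerset.1 hQ)
  · intro Q hQ
    rw [Finset.sdiff_sdiff_eq_self (mem_powerset.1 hQ), mul_comm]

lemma cv_assoc (a b c : Finset ι → F) (R : Finset ι) :
    cv a (cv b c) R = cv (cv a b) c R := by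
  unfold cv
  simp_rw [Finset.mul_sum, Finset.sum_mul]
  rw [Finset.sum_sigma', Finset.sum_sigma']
  refine Finset.sum_bij' (fun x _ => ⟨x.1 ∪ x.2, x.1⟩) (fun x _ => ⟨x.2, x.1 \ x.2⟩) ?_ ?_ ?_ ?_ ?_
  · rintro ⟨Q, Q'⟩ h
    simp only [mem_sigma, mem_powerset] at h ⊢
    exact ⟨union_subset h.1 (h.2.trans sdiff_subset), subset_union_left⟩
  · rintro ⟨Q, Q'⟩ h
    simp only [mem_sigma, mem_powerset] at h ⊢
    exact ⟨h.2.trans h.1, sdiff_subset_sdiff h.1 (le_refl _)⟩
  · rintro ⟨Q, Q'⟩ h
    simp only [mem_sigma, mem_powerset] at h ⊢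
    congr 1
    rw [union_sdiff_left]
    apply sdiff_eq_self_of_disjoint
    exact (disjoint_sdiff (s := Q) (t := R)).symm.mono_left h.2
  · rintro ⟨Q, Q'⟩ h
    simp only [mem_sigma, mem_powerset] at h ⊢
    congr 1
    exact union_sdiff_of_subset h.2
  · rintro ⟨Q, Q'⟩ h
    simp only [mem_sigma, mem_powerset] at h ⊢
    have h1 : (Q ∪ Q') \ Q = Q' := by
      rw [union_sdiff_left]
      apply sdiff_eq_self_of_disjoint
      exact (disjoint_sdiff (s := Q) (t := R)).symm.mono_left h.2
    rw [h1, sdiff_sdiff_left, mul_assoc]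
    rfl

/-- the third convolution power vanishes in characteristic 3 -/
lemma cv_three (h3 : (3 : F) = 0) (h : Finset ι → F) (R : Finset ι) (hR : R.Nonempty) :
    cv h (cv h h) R = 0 := by
  obtain ⟨s, hs⟩ := hR
  let m : (Finset ι → F) → (Finset ι → F) := fun a Q => if s ∈ Q then a Q else 0
  have e1 : ∀ (a b : Finset ι → F) (R : Finset ι), m (cv a b) R = cv (m a) b R + cv a (m b) R := by
    intro a b R
    simp only [m]
    unfold cv
    rw [← Finset.sum_add_distrib]
    dsimp only
    split_ifs with h1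
    · refine Finset.sum_congr rfl fun Q hQ => ?_
      by_cases h2 : s ∈ Q
      · have h4 : s ∉ R \ Q := fun h => (mem_sdiff.1 h).2 h2
        rw [if_pos h2, if_neg h4, mul_zero, add_zero]
      · have h4 : s ∈ R \ Q := mem_sdiff.2 ⟨h1, h2⟩
        rw [if_neg h2, if_pos h4, zero_mul, zero_add]
    · symm
      refine Finset.sum_eq_zero fun Q hQ => ?_
      have h2 : s ∉ Q := fun h => h1 (mem_powerset.1 hQ h)
      have h4 : s ∉ R \ Q := fun h => h1 (mem_sdiff.1 h).1
      rw [if_neg h2, if_neg h4, zero_mul, mul_zero, add_zero]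
  have e2 : cv h (cv h h) R = m (cv h (cv h h)) R := by
    simp only [m]
    rw [if_pos hs]
  have e3 : m (cv h h) = fun R => cv (m h) h R + cv h (m h) R := funext fun R => e1 h h R
  have e4 : cv h (m (cv h h)) R = cv h (cv (m h) h) R + cv h (cv h (m h)) R := by
    rw [e3]
    unfold cv
    rw [← Finset.sum_add_distrib]
    exact Finset.sum_congr rfl fun Q _ => mul_add _ _ _
  have e5 : cv h (cv h (m h)) R = cv (m h) (cv h h) R := by
    rw [cv_assoc, cv_comm]
  have e6 : cv h (cv (m h) h) R = cv (m h) (cv h h) R := by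
    rw [← e5]
    congr 1
    exact funext fun R => cv_comm _ _ R
  rw [e2, e1, e4, e5, e6]
  linear_combination (cv (m h) (cv h h) R) * h3

end conv

section paths

variable {ι F : Type} [DecidableEq ι] [CommRing F] (g : ι → ι → F)

lemma hq_empty (lam : ι → F) (u : ι) : hq g lam ∅ u = lam u := by
  rw [hq, if_pos rfl]

lemma hq_ne (lam : ι → F) {P : Finset ι} (hP : P.Nonempty) (u : ι) :
    hq g lam P u = ∑ j ∈ P, g u j * hq g lam (P.erase j) j := by
  rw [hq, if_neg hP.ne_empty]
  exact Finset.sum_attach P (fun j => g u j * hq g lam (P.erase j) j)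

lemma hq_Hm (lam : ι → F) {P : Finset ι} (hP : P.Nonempty) (u : ι) :
    hq g lam P u = Hm g (g u) lam P := hq_ne g lam hP u

/-- reindexing of a chosen point and a subset of the rest -/
lemma reindex (R : Finset ι) (f : ι → Finset ι → F) :
    ∑ j ∈ R, ∑ P ∈ (R.erase j).powerset, f j P =
      ∑ P ∈ R.powerset with P.Nonempty, ∑ j ∈ P, f j (P.erase j) := by
  rw [Finset.sum_sigma', Finset.sum_sigma']
  refine Finset.sum_bij' (fun x _ => ⟨insert x.1 x.2, x.1⟩) (fun x _ => ⟨x.2, x.1.erase x.2⟩)
    ?_ ?_ ?_ ?_ ?_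
  · rintro ⟨j, P⟩ h
    simp only [mem_sigma, mem_powerset, mem_filter] at h ⊢
    exact ⟨⟨insert_subset h.1 (h.2.trans (erase_subset _ _)), insert_nonempty _ _⟩,
      mem_insert_self _ _⟩
  · rintro ⟨P, j⟩ h
    simp only [mem_sigma, mem_powerset, mem_filter] at h ⊢
    exact ⟨h.1.1 h.2, erase_subset_erase _ h.1.1⟩
  · rintro ⟨j, P⟩ h
    simp only [mem_sigma, mem_powerset] at h ⊢
    congr 1
    rw [erase_insert]
    intro h1
    exact notMem_erase _ _ (h.2 h1)
  · rintro ⟨P, j⟩ h
    simp only [mem_sigma, mem_powerset, mem_filter] at h ⊢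
    congr 1
    exact insert_erase h.2
  · rintro ⟨j, P⟩ h
    simp only [mem_sigma, mem_powerset] at h ⊢
    rw [erase_insert]
    intro h1
    exact notMem_erase _ _ (h.2 h1)

/-- separate the empty set -/
lemma split_empty (R : Finset ι) (f : Finset ι → F) :
    ∑ P ∈ R.powerset, f P = f ∅ + ∑ P ∈ R.powerset with P.Nonempty, f P := by
  rw [← Finset.sum_filter_add_sum_filter_not R.powerset (fun P => P.Nonempty), add_comm]
  congr 1
  have : R.powerset.filter (fun P => ¬ P.Nonempty) = {∅} := by
    ext P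
    simp only [mem_filter, mem_powerset, not_nonempty_iff_eq_empty, mem_singleton]
    constructor
    · exact fun h => h.2
    · rintro rfl
      exact ⟨empty_subset _, rfl⟩
  rw [this, Finset.sum_singleton]

/-- splitting at a point -/
lemma hq_split (lam : ι → F) (k : ι) : ∀ (n : ℕ) (Q : Finset ι), Q.card = n → k ∉ Q → ∀ u : ι,
    hq g lam (insert k Q) u =
      ∑ P ∈ Q.powerset, hq g (fun i => g i k) P u * hq g lam (Q \ P) k := by
  intro n
  induction n using Nat.strong_induction_on with
  | _ n ih =>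
    intro Q hn hk u
    rw [hq_ne g lam (insert_nonempty _ _), Finset.sum_insert hk, erase_insert hk, split_empty,
      hq_empty, sdiff_empty]
    congr 1
    have e1 : ∀ j ∈ Q, g u j * hq g lam ((insert k Q).erase j) j =
        ∑ P ∈ (Q.erase j).powerset, g u j * (hq g (fun i => g i k) P j * hq g lam (Q.erase j \ P) k) := by
      intro j hj
      have hjk : k ≠ j := fun h => hk (h ▸ hj)
      rw [erase_insert_of_ne hjk, ih (Q.erase j).card (by rw [← hn]; exact card_erase_lt_of_mem hj)
        (Q.erase j) rfl (fun h => hk (mem_of_mem_erase h)), Finset.mul_sum]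
    rw [Finset.sum_congr rfl e1, reindex]
    refine Finset.sum_congr rfl fun P hP => ?_
    rw [mem_filter, mem_powerset] at hP
    rw [hq_ne g _ hP.2, Finset.sum_mul]
    refine Finset.sum_congr rfl fun j hj => ?_
    have : Q.erase j \ P.erase j = Q \ P := by
      ext x
      simp only [mem_sdiff, mem_erase]
      constructor
      · rintro ⟨⟨h1, h2⟩, h3⟩
        exact ⟨h2, fun h => h3 ⟨h1, h⟩⟩
      · rintro ⟨h1, h2⟩
        exact ⟨⟨fun h => h2 (h ▸ hj), h1⟩, fun h => h2 h.2⟩
    rw [this, mul_assoc]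

/-- last step recursion -/
lemma hq_last (f : ι → F) : ∀ (n : ℕ) (R : Finset ι), R.card = n → R.Nonempty → ∀ v : ι,
    hq g f R v = ∑ u ∈ R, f u * hq g (fun i => g i u) (R.erase u) v := by
  intro n
  induction n using Nat.strong_induction_on with
  | _ n ih =>
    intro R hn hR v
    rw [hq_ne g f hR]
    by_cases h1 : R.card = 1
    · obtain ⟨u, rfl⟩ := card_eq_one.1 h1
      simp only [Finset.sum_singleton, erase_singleton, hq_empty]
      ring
    · have h2 : 2 ≤ R.card := by
        have := card_pos.2 hR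
        omega
      have h3 : ∀ j ∈ R, (R.erase j).Nonempty := by
        intro j hj
        rw [← card_pos, card_erase_of_mem hj]
        omega
      have e1 : ∀ j ∈ R, g v j * hq g f (R.erase j) j =
          ∑ u ∈ R.erase j, g v j * (f u * hq g (fun i => g i u) ((R.erase j).erase u) j) := by
        intro j hj
        rw [ih (R.erase j).card (by rw [← hn]; exact card_erase_lt_of_mem hj) _ rfl (h3 j hj),
          Finset.mul_sum]
      have e2 : ∀ u ∈ R, f u * hq g (fun i => g i u) (R.erase u) v =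
          ∑ j ∈ R.erase u, g v j * (f u * hq g (fun i => g i u) ((R.erase j).erase u) j) := by
        intro u hu
        rw [hq_ne g _ (h3 u hu), Finset.mul_sum]
        refine Finset.sum_congr rfl fun j _ => ?_
        rw [erase_right_comm]
        ring
      rw [Finset.sum_congr rfl e1, Finset.sum_congr rfl e2]
      rw [Finset.sum_sigma', Finset.sum_sigma']
      refine Finset.sum_bij' (fun x _ => ⟨x.2, x.1⟩) (fun x _ => ⟨x.2, x.1⟩) ?_ ?_ ?_ ?_ ?_
      · rintro ⟨a, b⟩ h
        simp only [mem_sigma, mem_erase] at h ⊢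
        exact ⟨h.2.2, h.2.1.symm, h.1⟩
      · rintro ⟨a, b⟩ h
        simp only [mem_sigma, mem_erase] at h ⊢
        exact ⟨h.2.2, h.2.1.symm, h.1⟩
      · rintro ⟨a, b⟩ _; rfl
      · rintro ⟨a, b⟩ _; rfl
      · rintro ⟨a, b⟩ _; rfl

/-- reversal -/
lemma hq_rev (hg : ∀ i j, i ≠ j → g i j = g j i) : ∀ (n : ℕ) (Q : Finset ι), Q.card = n →
    ∀ u v : ι, u ∉ Q → v ∉ Q → hq g (fun i => g i v) Q u = hq g (fun i => g i u) Q v := by
  intro n
  induction n using Nat.strong_induction_on with
  | _ n ih =>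
    intro Q hn u v hu hv
    rcases Q.eq_empty_or_nonempty with rfl | hQ
    · rw [hq_empty, hq_empty]
      by_cases h : u = v
      · rw [h]
      · exact hg u v h
    · rw [hq_ne g _ hQ, hq_last g (fun i => g i u) _ Q rfl hQ]
      refine Finset.sum_congr rfl fun j hj => ?_
      rw [ih (Q.erase j).card (by rw [← hn]; exact card_erase_lt_of_mem hj) _ rfl j v
        (notMem_erase _ _) (fun h => hv (mem_of_mem_erase h))]
      have : u ≠ j := fun h => hu (h ▸ hj)
      rw [hg u j this]

lemma Hm_rev (hg : ∀ i j, i ≠ j → g i j = g j i) (l : ι → F) (k : ι) {P : Finset ι}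
    (hP : P.Nonempty) (hk : k ∉ P) : Hm g l (fun i => g i k) P = hq g l P k := by
  rw [hq_last g l _ P rfl hP, Hm]
  refine Finset.sum_congr rfl fun u hu => ?_
  rw [hq_rev g hg _ (P.erase u) rfl u k (notMem_erase _ _) (fun h => hk (mem_of_mem_erase h))]

/-- the closed path sum through `k` -/
lemma Hm_split (hg : ∀ i j, i ≠ j → g i j = g j i) (l : ι → F) (k : ι) {Q : Finset ι}
    (hk : k ∉ Q) : Hm g l l (insert k Q) = cv (fun P => hq g l P k) (fun P => hq g l P k) Q := by
  unfold cv
  dsimp only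
  rw [Hm, Finset.sum_insert hk, erase_insert hk, split_empty, hq_empty, sdiff_empty]
  congr 1
  have e1 : ∀ j ∈ Q, l j * hq g l ((insert k Q).erase j) j =
      ∑ P ∈ (Q.erase j).powerset, l j * (hq g (fun i => g i k) P j * hq g l (Q.erase j \ P) k) := by
    intro j hj
    have hjk : k ≠ j := fun h => hk (h ▸ hj)
    rw [erase_insert_of_ne hjk, hq_split g l k _ (Q.erase j) rfl (fun h => hk (mem_of_mem_erase h)),
      Finset.mul_sum]
  rw [Finset.sum_congr rfl e1, reindex]
  refine Finset.sum_congr rfl fun P hP => ?_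
  rw [mem_filter, mem_powerset] at hP
  rw [← Hm_rev g hg l k hP.2 (fun h => hk (hP.1 h)), Hm, Finset.sum_mul]
  refine Finset.sum_congr rfl fun j hj => ?_
  have : Q.erase j \ P.erase j = Q \ P := by
    ext x
    simp only [mem_sdiff, mem_erase]
    constructor
    · rintro ⟨⟨h1, h2⟩, h3⟩
      exact ⟨h2, fun h => h3 ⟨h1, h⟩⟩
    · rintro ⟨h1, h2⟩
      exact ⟨⟨fun h => h2 (h ▸ hj), h1⟩, fun h => h2 h.2⟩
  rw [this, mul_assoc]

end paths

section main

variable {ι F : Type} [Fintype ι] [DecidableEq ι] [Field F] (g : ι → ι → F) (l : ι → F)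
    (τ : Finset ι → Finset ι → F) (σ : ι → Finset ι → Finset ι → F)

/-- step (1) -/
lemma step1
    (H2 : ∀ (S : Finset ι) (j : ι) (A : Finset ι), S.Nonempty → j ∉ S → A ⊆ S →
      τ (insert j S) A = -∑ B ∈ A.ssubsets, (∏ i ∈ A \ B, g i j) * τ S B)
    (H4 : ∀ S : Finset ι, S.Nonempty → τ S ∅ = 0) : ∀ (n : ℕ) (S : Finset ι), S.card = n →
    S.Nonempty → ∀ A : Finset ι, A ⊂ S → τ S A = 0 := by
  intro n
  induction n using Nat.strong_induction_on with
  | _ n ih =>
    intro S hn hS A hA
    rcases A.eq_empty_or_nonempty with rfl | hA0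
    · exact H4 S hS
    · obtain ⟨j, hj, hjA⟩ := exists_of_ssubset hA
      have hAS : A ⊆ S.erase j := fun x hx => mem_erase.2 ⟨fun h => hjA (h ▸ hx), hA.1 hx⟩
      have h1 := H2 (S.erase j) j A (hA0.mono hAS) (notMem_erase _ _) hAS
      rw [insert_erase hj] at h1
      rw [h1, neg_eq_zero]
      refine Finset.sum_eq_zero fun B hB => ?_
      rw [mem_ssubsets] at hB
      rw [ih (S.erase j).card (by rw [← hn]; exact card_erase_lt_of_mem hj) _ rfl (hA0.mono hAS) B
        (hB.trans_subset hAS), mul_zero]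

/-- step (2) -/
lemma step2
    (H1 : ∀ (S : Finset ι), S.Nonempty → ∀ A : Finset ι, A ⊂ S → τ S A = 0)
    (H3 : ∀ (k : ι) (S : Finset ι) (j : ι) (A : Finset ι), k ∈ S → j ∉ S → A ⊆ S.erase k →
      σ k (insert j S) A = -(∑ B ∈ A.ssubsets, (∏ i ∈ A \ B, g i j) * σ k S B) -
        ∑ B ∈ A.powerset, (∏ i ∈ A \ B, g i j) *
          (2 * g k j * τ S (insert k B) + g k j ^ 2 * τ S B)) (k : ι) :
    ∀ (n : ℕ) (S : Finset ι), S.card = n → k ∈ S → ∀ A : Finset ι, A ⊆ S.erase k →
    2 ≤ (S.erase k \ A).card → σ k S A = 0 := by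
  intro n
  induction n using Nat.strong_induction_on with
  | _ n ih =>
    intro S hn hk A hA h2
    have h2' : (S.erase k \ A).Nonempty := by
      rw [← card_pos]; omega
    obtain ⟨j, hj⟩ := h2'
    obtain ⟨hj1, hjA⟩ := mem_sdiff.1 hj
    obtain ⟨hjk, hjS⟩ := mem_erase.1 hj1
    have hkS : k ∈ S.erase j := mem_erase.2 ⟨hjk.symm, hk⟩
    have hkA : k ∉ A := fun h => (mem_erase.1 (hA h)).1 rfl
    have hAS : A ⊆ (S.erase j).erase k := fun x hx => mem_erase.2
      ⟨fun h => hkA (h ▸ hx), mem_erase.2 ⟨fun h => hjA (h ▸ hx), mem_of_mem_erase (hA hx)⟩⟩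
    have h1 := H3 k (S.erase j) j A hkS (notMem_erase _ _) hAS
    rw [insert_erase hjS] at h1
    -- a second point outside of A
    have hc : ((S.erase j).erase k \ A).card + 1 = (S.erase k \ A).card := by
      have : (S.erase j).erase k \ A = (S.erase k \ A).erase j := by
        ext x
        simp only [mem_sdiff, mem_erase]
        tauto
      rw [this, card_erase_add_one hj]
    have hne : ((S.erase j).erase k \ A).Nonempty := by
      rw [← card_pos]; omega
    obtain ⟨i, hi⟩ := hne
    obtain ⟨hi1, hiA⟩ := mem_sdiff.1 hi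
    obtain ⟨hik, hiS⟩ := mem_erase.1 hi1
    rw [h1]
    have e1 : ∑ B ∈ A.ssubsets, (∏ i ∈ A \ B, g i j) * σ k (S.erase j) B = 0 := by
      refine Finset.sum_eq_zero fun B hB => ?_
      rw [mem_ssubsets] at hB
      rw [ih (S.erase j).card (by rw [← hn]; exact card_erase_lt_of_mem hjS) _ rfl hkS B
        (hB.1.trans hAS), mul_zero]
      have h5 : (S.erase j).erase k \ A ⊂ (S.erase j).erase k \ B := by
        obtain ⟨x, hx, hxB⟩ := exists_of_ssubset hB
        refine ⟨sdiff_subset_sdiff (le_refl _) hB.1, fun h => ?_⟩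
        have : x ∈ (S.erase j).erase k \ A := h (mem_sdiff.2 ⟨hAS hx, hxB⟩)
        exact (mem_sdiff.1 this).2 hx
      have := card_lt_card h5
      omega
    have e2 : ∑ B ∈ A.powerset, (∏ i ∈ A \ B, g i j) *
          (2 * g k j * τ (S.erase j) (insert k B) + g k j ^ 2 * τ (S.erase j) B) = 0 := by
      refine Finset.sum_eq_zero fun B hB => ?_
      rw [mem_powerset] at hB
      have hBS : B ⊆ S.erase j := (hB.trans hAS).trans (erase_subset _ _)
      rw [H1 (S.erase j) ⟨k, hkS⟩ B ⟨hBS, fun h => hkA (hB (h hkS))⟩,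
        H1 (S.erase j) ⟨k, hkS⟩ (insert k B) ⟨insert_subset hkS hBS, fun h => ?_⟩]
      · ring
      · have := h hiS
        rcases mem_insert.1 this with h | h
        · exact hik h
        · exact hiA (hB h)
    rw [e1, e2]
    ring

/-- the subsets missing one point -/
lemma sum_ssubsets (A : Finset ι) (f : Finset ι → F)
    (h : ∀ B, B ⊆ A → 2 ≤ (A \ B).card → f B = 0) :
    ∑ B ∈ A.ssubsets, f B = ∑ i ∈ A, f (A.erase i) := by
  have h1 : ∑ B ∈ A.image (fun i => A.erase i), f B = ∑ B ∈ A.ssubsets, f B := by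
    refine Finset.sum_subset ?_ ?_
    · intro B hB
      obtain ⟨i, hi, rfl⟩ := mem_image.1 hB
      exact mem_ssubsets.2 (erase_ssubset hi)
    · intro B hB hB'
      rw [mem_ssubsets] at hB
      refine h B hB.1 ?_
      by_contra hc
      have h3 : (A \ B).Nonempty := by
        obtain ⟨x, hx, hxB⟩ := exists_of_ssubset hB
        exact ⟨x, mem_sdiff.2 ⟨hx, hxB⟩⟩
      have h4 : (A \ B).card = 1 := by
        have := card_pos.2 h3
        omega
      obtain ⟨i, hi⟩ := card_eq_one.1 h4
      apply hB'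
      rw [mem_image]
      have hiA : i ∈ A \ B := by rw [hi]; exact mem_singleton_self i
      refine ⟨i, (mem_sdiff.1 hiA).1, ?_⟩
      rw [← sdiff_singleton_eq_erase, ← hi]
      exact Finset.sdiff_sdiff_eq_self hB.1
  rw [← h1, Finset.sum_image]
  intro a ha b hb hab
  dsimp only at hab
  by_contra hne
  have : a ∈ A.erase b := mem_erase.2 ⟨hne, ha⟩
  rw [← hab] at this
  exact notMem_erase _ _ this

/-- step (3) -/
lemma step3 [CharP F 3]
    (H1 : ∀ (S : Finset ι), S.Nonempty → ∀ A : Finset ι, A ⊂ S → τ S A = 0)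
    (H3 : ∀ (k : ι) (S : Finset ι) (j : ι) (A : Finset ι), k ∈ S → j ∉ S → A ⊆ S.erase k →
      σ k (insert j S) A = -(∑ B ∈ A.ssubsets, (∏ i ∈ A \ B, g i j) * σ k S B) -
        ∑ B ∈ A.powerset, (∏ i ∈ A \ B, g i j) *
          (2 * g k j * τ S (insert k B) + g k j ^ 2 * τ S B)) (k : ι)
    (S : Finset ι) (hk : k ∈ S) (j : ι) (hj : j ∈ S.erase k) :
    σ k S ((S.erase k).erase j) = -∑ i ∈ (S.erase k).erase j, g i j *
      σ k (S.erase j) (((S.erase j).erase k).erase i) + g k j * τ (S.erase j) (S.erase j) := by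
  have h3 : (3 : F) = 0 := by
    have := CharP.cast_eq_zero F 3
    exact_mod_cast this
  obtain ⟨hjk, hjS⟩ := mem_erase.1 hj
  have hkS : k ∈ S.erase j := mem_erase.2 ⟨hjk.symm, hk⟩
  have h1 := H3 k (S.erase j) j ((S.erase j).erase k) hkS (notMem_erase _ _) (le_refl _)
  rw [insert_erase hjS] at h1
  rw [erase_right_comm (s := S) (a := k) (b := j), h1]
  have e1 : ∑ B ∈ ((S.erase j).erase k).ssubsets,
      (∏ i ∈ (S.erase j).erase k \ B, g i j) * σ k (S.erase j) B =
      ∑ i ∈ (S.erase j).erase k, g i j * σ k (S.erase j) (((S.erase j).erase k).erase i) := by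
    rw [sum_ssubsets]
    · refine Finset.sum_congr rfl fun i hi => ?_
      rw [sdiff_erase_self hi, Finset.prod_singleton]
    · intro B hB hc
      rw [step2 g τ σ H1 H3 k _ (S.erase j) rfl hkS B hB hc, mul_zero]
  have e2 : ∑ B ∈ ((S.erase j).erase k).powerset, (∏ i ∈ (S.erase j).erase k \ B, g i j) *
      (2 * g k j * τ (S.erase j) (insert k B) + g k j ^ 2 * τ (S.erase j) B) =
      2 * g k j * τ (S.erase j) (S.erase j) := by
    rw [Finset.sum_eq_single ((S.erase j).erase k)]
    · rw [Finset.sdiff_self, Finset.prod_empty, insert_erase hkS,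
        H1 (S.erase j) ⟨k, hkS⟩ _ (erase_ssubset hkS)]
      ring
    · intro B hB hne
      rw [mem_powerset] at hB
      have hkB : k ∉ B := fun h => (mem_erase.1 (hB h)).1 rfl
      rw [H1 (S.erase j) ⟨k, hkS⟩ B ⟨hB.trans (erase_subset _ _), fun h => hkB (h hkS)⟩,
        H1 (S.erase j) ⟨k, hkS⟩ (insert k B) ⟨insert_subset hkS (hB.trans (erase_subset _ _)),
          fun h => ?_⟩]
      · ring
      · apply hne
        refine subset_antisymm hB fun x hx => ?_
        obtain ⟨hxk, hxS⟩ := mem_erase.1 hx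
        exact (mem_insert.1 (h hxS)).resolve_left hxk
    · intro h
      exact absurd (mem_powerset.2 (le_refl _)) h
  rw [e1, e2]
  linear_combination (-(g k j * τ (S.erase j) (S.erase j))) * h3

/-- step (4) -/
lemma step4 [CharP F 3]
    (H1 : ∀ (S : Finset ι), S.Nonempty → ∀ A : Finset ι, A ⊂ S → τ S A = 0)
    (H2 : ∀ (k : ι) (S : Finset ι), k ∈ S → ∀ A : Finset ι, A ⊆ S.erase k →
      2 ≤ (S.erase k \ A).card → σ k S A = 0)
    (H6 : ∀ (k : ι) (S : Finset ι), k ∈ S → 2 ≤ S.card →
      (∑ B ∈ (S.erase k).ssubsets, (∏ i ∈ S.erase k \ B, l i) * σ k S B) +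
        ∑ B ∈ (S.erase k).powerset, (∏ i ∈ S.erase k \ B, l i) *
          (2 * l k * τ S (insert k B) + l k ^ 2 * τ S B) = 0)
    (k : ι) (S : Finset ι) (hk : k ∈ S) (hS : 2 ≤ S.card) :
    l k * τ S S = ∑ j ∈ S.erase k, l j * σ k S ((S.erase k).erase j) := by
  have h3 : (3 : F) = 0 := by
    have := CharP.cast_eq_zero F 3
    exact_mod_cast this
  have h1 := H6 k S hk hS
  have e1 : ∑ B ∈ (S.erase k).ssubsets, (∏ i ∈ S.erase k \ B, l i) * σ k S B =
      ∑ i ∈ S.erase k, l i * σ k S ((S.erase k).erase i) := by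
    rw [sum_ssubsets]
    · refine Finset.sum_congr rfl fun i hi => ?_
      rw [sdiff_erase_self hi, Finset.prod_singleton]
    · intro B hB hc
      rw [H2 k S hk B hB hc, mul_zero]
  have e2 : ∑ B ∈ (S.erase k).powerset, (∏ i ∈ S.erase k \ B, l i) *
      (2 * l k * τ S (insert k B) + l k ^ 2 * τ S B) = 2 * l k * τ S S := by
    rw [Finset.sum_eq_single (S.erase k)]
    · rw [Finset.sdiff_self, Finset.prod_empty, insert_erase hk,
        H1 S ⟨k, hk⟩ _ (erase_ssubset hk)]
      ring
    · intro B hB hne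
      rw [mem_powerset] at hB
      have hkB : k ∉ B := fun h => (mem_erase.1 (hB h)).1 rfl
      rw [H1 S ⟨k, hk⟩ B ⟨hB.trans (erase_subset _ _), fun h => hkB (h hk)⟩,
        H1 S ⟨k, hk⟩ (insert k B) ⟨insert_subset hk (hB.trans (erase_subset _ _)),
          fun h => ?_⟩]
      · ring
      · apply hne
        refine subset_antisymm hB fun x hx => ?_
        obtain ⟨hxk, hxS⟩ := mem_erase.1 hx
        exact (mem_insert.1 (h hxS)).resolve_left hxk
    · intro h
      exact absurd (mem_powerset.2 (le_refl _)) h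
  rw [e1, e2] at h1
  linear_combination (l k * τ S S) * h3 - h1

/-- step (5) -/
lemma step5 (hg : ∀ i j, i ≠ j → g i j = g j i) (k : ι)
    (H3 : ∀ (S : Finset ι), k ∈ S → ∀ j ∈ S.erase k,
      σ k S ((S.erase k).erase j) = -∑ i ∈ (S.erase k).erase j, g i j *
      σ k (S.erase j) (((S.erase j).erase k).erase i) + g k j * τ (S.erase j) (S.erase j)) :
    ∀ (n : ℕ) (S : Finset ι), S.card = n → k ∈ S → ∀ c : ι → F,
    ∑ j ∈ S.erase k, c j * σ k S ((S.erase k).erase j) =
      ∑ P ∈ (S.erase k).powerset with P.Nonempty,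
        (-1) ^ (P.card + 1) * (Hm g c (fun i => g i k) P * τ (S \ P) (S \ P)) := by
  intro n
  induction n using Nat.strong_induction_on with
  | _ n ih =>
    intro S hn hk c
    have e1 : ∀ j ∈ S.erase k, c j * σ k S ((S.erase k).erase j) =
        ∑ P ∈ ((S.erase k).erase j).powerset, c j * ((-1) ^ P.card *
          (hq g (fun i => g i k) P j * τ (S.erase j \ P) (S.erase j \ P))) := by
      intro j hj
      obtain ⟨hjk, hjS⟩ := mem_erase.1 hj
      have hkS : k ∈ S.erase j := mem_erase.2 ⟨hjk.symm, hk⟩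
      rw [H3 S hk j hj]
      have e2 : ∑ i ∈ (S.erase k).erase j, g i j *
          σ k (S.erase j) (((S.erase j).erase k).erase i) =
          ∑ i ∈ (S.erase j).erase k, g j i *
          σ k (S.erase j) (((S.erase j).erase k).erase i) := by
        rw [erase_right_comm (s := S) (a := k) (b := j)]
        refine Finset.sum_congr rfl fun i hi => ?_
        have : i ≠ j := (mem_erase.1 (mem_of_mem_erase hi)).1
        rw [hg i j this]
      rw [e2, ih (S.erase j).card (by rw [← hn]; exact card_erase_lt_of_mem hjS) _ rfl hkS (g j),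
        ← Finset.mul_sum, split_empty, hq_empty, card_empty, pow_zero, sdiff_empty, one_mul,
        erase_right_comm (s := S) (a := k) (b := j), hg k j hjk.symm]
      congr 1
      rw [add_comm, ← Finset.sum_neg_distrib]
      congr 1
      refine Finset.sum_congr rfl fun P hP => ?_
      rw [mem_filter, mem_powerset] at hP
      rw [hq_Hm g _ hP.2, pow_succ]
      ring
    rw [Finset.sum_congr rfl e1, reindex]
    refine Finset.sum_congr rfl fun P hP => ?_
    rw [mem_filter, mem_powerset] at hP
    rw [Hm, Finset.sum_mul, Finset.mul_sum]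
    refine Finset.sum_congr rfl fun j hj => ?_
    have h1 : S.erase j \ P.erase j = S \ P := by
      ext x
      simp only [mem_sdiff, mem_erase]
      constructor
      · rintro ⟨⟨h1, h2⟩, h3⟩
        exact ⟨h2, fun h => h3 ⟨h1, h⟩⟩
      · rintro ⟨h1, h2⟩
        exact ⟨⟨fun h => h2 (h ▸ hj), h1⟩, fun h => h2 h.2⟩
    have h2 : P.card = (P.erase j).card + 1 := (card_erase_add_one hj).symm
    rw [h1, h2, pow_succ, pow_succ]
    ring

theorem s_W : S_W := by
  intro ι F _ _ _ _ g l τ σ hg H2 H3 H4 H5 H6 H7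
  have h3 : (3 : F) = 0 := by
    have := CharP.cast_eq_zero F 3
    exact_mod_cast this
  have K1 : ∀ (S : Finset ι), S.Nonempty → ∀ A : Finset ι, A ⊂ S → τ S A = 0 :=
    fun S => step1 g τ H2 H4 _ S rfl
  have K2 : ∀ (k : ι) (S : Finset ι), k ∈ S → ∀ A : Finset ι, A ⊆ S.erase k →
      2 ≤ (S.erase k \ A).card → σ k S A = 0 :=
    fun k S => step2 g τ σ K1 H3 k _ S rfl
  have K5 : ∀ (k : ι) (S : Finset ι), k ∈ S → ∀ c : ι → F,
    ∑ j ∈ S.erase k, c j * σ k S ((S.erase k).erase j) =
      ∑ P ∈ (S.erase k).powerset with P.Nonempty,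
        (-1) ^ (P.card + 1) * (Hm g c (fun i => g i k) P * τ (S \ P) (S \ P)) :=
    fun k S => step5 g τ σ hg k (fun S hk j hj => step3 g τ σ K1 H3 k S hk j hj) _ S rfl
  suffices h : ∀ (n : ℕ) (S : Finset ι), S.card = n → S.Nonempty →
      τ S S = (-1) ^ S.card * Hm g l l S from fun S => h _ S rfl
  intro n
  induction n using Nat.strong_induction_on with
  | _ n ih =>
    intro S hn hS
    by_cases hl : ∀ i ∈ S, l i = 0
    · rw [H5 S hS hl, Hm, Finset.sum_eq_zero, mul_zero]
      intro u hu
      rw [hl u hu, zero_mul]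
    · push Not at hl
      obtain ⟨k, hk, hlk⟩ := hl
      by_cases h1 : S.card = 1
      · obtain ⟨u, rfl⟩ := card_eq_one.1 h1
        rw [H7 u, Hm, card_singleton, pow_one, Finset.sum_singleton, erase_singleton, hq_empty]
        ring
      · have h2 : 2 ≤ S.card := by
          have := card_pos.2 hS
          omega
        have h4 := step4 l τ σ K1 K2 H6 k S hk h2
        rw [K5 k S hk l] at h4
        have e1 : ∀ P ∈ (S.erase k).powerset.filter (fun P => P.Nonempty),
            (-1) ^ (P.card + 1) * (Hm g l (fun i => g i k) P * τ (S \ P) (S \ P)) =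
            (-1) ^ (S.card + 1) * (hq g l P k * Hm g l l (insert k (S.erase k \ P))) := by
          intro P hP
          rw [mem_filter, mem_powerset] at hP
          have hkP : k ∉ P := fun h => (mem_erase.1 (hP.1 h)).1 rfl
          have e2 : S \ P = insert k (S.erase k \ P) := by
            ext x
            simp only [mem_sdiff, mem_insert, mem_erase]
            constructor
            · rintro ⟨h1, h2⟩
              by_cases h3 : x = k
              · exact Or.inl h3
              · exact Or.inr ⟨⟨h3, h1⟩, h2⟩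
            · rintro (h | h)
              · rw [h]; exact ⟨hk, hkP⟩
              · exact ⟨h.1.2, h.2⟩
          have e3 : (S \ P).card + P.card = S.card :=
            card_sdiff_add_card_eq_card (hP.1.trans (erase_subset _ _))
          have e4 : 0 < P.card := card_pos.2 hP.2
          rw [Hm_rev g hg l k hP.2 hkP, ih (S \ P).card (by omega) (S \ P) rfl
            ⟨k, mem_sdiff.2 ⟨hk, hkP⟩⟩, ← e3, e2]
          have e5 : ((-1 : F)) ^ (P.card + 1) * (-1) ^ (insert k (S.erase k \ P)).card =
            (-1) ^ ((insert k (S.erase k \ P)).card + P.card + 1) := by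
            rw [← pow_add]
            congr 1
            ring
          rw [← e5]
          ring
        rw [Finset.sum_congr rfl e1, ← Finset.mul_sum] at h4
        have e6 : ∑ P ∈ (S.erase k).powerset with P.Nonempty,
            hq g l P k * Hm g l l (insert k (S.erase k \ P)) = - (l k * Hm g l l S) := by
          have e7 := cv_three h3 (fun P => hq g l P k) (S.erase k) (by
            rw [← card_pos, card_erase_of_mem hk]; omega)
          have e8 : ∑ P ∈ (S.erase k).powerset, hq g l P k * Hm g l l (insert k (S.erase k \ P)) =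
              0 := by
            rw [← e7]
            conv_rhs => rw [cv]
            refine Finset.sum_congr rfl fun P hP => ?_
            rw [Hm_split g hg l k]
            intro h
            exact notMem_erase _ _ (mem_sdiff.1 h).1
          rw [split_empty, hq_empty, sdiff_empty, insert_erase hk] at e8
          linear_combination e8
        rw [e6] at h4
        have e9 : l k * τ S S = l k * ((-1) ^ S.card * Hm g l l S) := by
          rw [h4, pow_succ]
          ring
        exact mul_left_cancel₀ hlk e9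

end main

end Pool.Agent.Helper68.C6.PW
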