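import Pool.Agent.Helper68.C6.WtDef
import Pool.Agent.Helper68.C6.PW

/-!
# Moments of a function on the residue classes (proof of S_T, written by seat helper48)
-/

set_option autoImplicit false
set_option linter.unusedSectionVars false

open Finset

namespace Pool.Agent.Helper68.C6.PT

open H667R3 Pool.Agent.W192.HK Pool.Agent.TH936.CM Pool.Agent.TH936.PU
open Pool.Agent.Y715.Dist Pool.Agent.Y715.Idn Pool.Agent.Y696 Pool.Agent.Helper68.C6

/-! ### sums over residue classes -/

section sums

variable {M : Type*} [AddCommMonoid M]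

lemma sum_repM {R : Subring ℂ} {ι : Type*} [Fintype ι] {I : Ideal R} [Fintype (R ⧸ I)] (g : ι → R)
    (hg : Function.Bijective (fun i => Ideal.Quotient.mk I (g i))) (F : R → M)
    (hF : ∀ x y : R, x - y ∈ I → F x = F y) :
    ∑ z : R ⧸ I, F z.out = ∑ i, F (g i) := by
  rw [← (Equiv.ofBijective _ hg).sum_comp]
  refine Finset.sum_congr rfl fun i _ => hF _ _ ?_
  rw [← Ideal.Quotient.mk_eq_mk_iff_sub_mem, Ideal.Quotient.mk_out]
  rfl

lemma Sk_eq (c : eis) [Fintype (eis ⧸ sp c)] (F : eis → M) :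
    Sk c F = ∑ x : eis ⧸ sp c, F x.out := (rp_sum c F).symm

lemma Sk_congr {c : eis} {F G : eis → M} (h : ∀ x, F x = G x) : Sk c F = Sk c G :=
  Finset.sum_congr rfl fun x _ => h x

lemma Sk_shift {c : eis} (hfin : Finite (eis ⧸ sp c)) (t : eis) {F : eis → M}
    (hF : ∀ x y, x - y ∈ sp c → F x = F y) : Sk c (fun x => F (t + x)) = Sk c F := by
  have : Fintype (eis ⧸ sp c) := Fintype.ofFinite _
  rw [Sk_eq, Sk_eq]
  have hb : Function.Bijective (fun y : eis ⧸ sp c => Ideal.Quotient.mk (sp c) (t + y.out)) := by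
    have e1 : (fun y : eis ⧸ sp c => Ideal.Quotient.mk (sp c) (t + y.out)) =
        fun y => Ideal.Quotient.mk (sp c) t + y := by
      funext y
      rw [map_add, Ideal.Quotient.mk_out]
    rw [e1]
    exact (Equiv.addLeft (Ideal.Quotient.mk (sp c) t)).bijective
  exact (sum_repM _ hb F hF).symm

lemma Sk_mul {a c : eis} (hc : c ≠ 0) (hfin : ∀ q : eis, q ≠ 0 → Finite (eis ⧸ sp q)) (ha : a ≠ 0)
    {F : eis → M} (hF : ∀ x y, x - y ∈ sp (a * c) → F x = F y) :
    Sk (a * c) F = Sk c (fun x => Sk a (fun t => F (x + c * t))) := by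
  have : Fintype (eis ⧸ sp c) := @Fintype.ofFinite _ (hfin c hc)
  have : Fintype (eis ⧸ sp a) := @Fintype.ofFinite _ (hfin a ha)
  have : Fintype (eis ⧸ sp (a * c)) := @Fintype.ofFinite _ (hfin _ (mul_ne_zero ha hc))
  rw [Sk_eq, sum_repM _ (bij_mul (a := a) hc) F hF, Fintype.sum_prod_type, Sk_eq]
  refine Finset.sum_congr rfl fun x _ => ?_
  rw [Sk_eq]

open Classical in
lemma Sk_div {a c : eis} (hc : c ≠ 0) (hfin : ∀ q : eis, q ≠ 0 → Finite (eis ⧸ sp q)) (ha : a ≠ 0)
    {F : eis → M} (hF : ∀ x y, x - y ∈ sp (a * c) → F x = F y) :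
    Sk (a * c) (fun x => if x ∈ sp a then F x else 0) = Sk c (fun x => F (a * x)) := by
  have hsub : ∀ x y : eis, x - y ∈ sp (a * c) → (x ∈ sp a ↔ y ∈ sp a) := by
    intro x y h
    have h1 : x - y ∈ sp a := by
      rw [Ideal.mem_span_singleton'] at h ⊢
      obtain ⟨b, hb⟩ := h
      exact ⟨b * c, by linear_combination hb⟩
    constructor
    · intro h2
      have := sub_mem h2 h1
      rwa [sub_sub_cancel] at this
    · intro h2
      have := add_mem h1 h2
      rwa [sub_add_cancel] at this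
  have h1 : Sk (a * c) (fun x => if x ∈ sp a then F x else 0) =
      Sk (c * a) (fun x => if x ∈ sp a then F x else 0) := by rw [mul_comm]
  rw [h1, Sk_mul ha hfin hc]
  swap
  · intro x y h
    rw [mul_comm] at h
    show (if x ∈ sp a then F x else 0) = if y ∈ sp a then F y else 0
    rw [hF x y h]
    by_cases h2 : x ∈ sp a
    · rw [if_pos h2, if_pos ((hsub x y h).1 h2)]
    · rw [if_neg h2, if_neg (fun h3 => h2 ((hsub x y h).2 h3))]
  have : Fintype (eis ⧸ sp a) := @Fintype.ofFinite _ (hfin a ha)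
  rw [Sk_eq]
  have key : ∀ x : eis ⧸ sp a, Sk c (fun t => if x.out + a * t ∈ sp a then F (x.out + a * t) else 0) =
      if x = 0 then Sk c (fun x => F (a * x)) else 0 := by
    intro x
    have h3 : ∀ t : eis, x.out + a * t ∈ sp a ↔ x = 0 := by
      intro t
      have h4 : a * t ∈ sp a := Ideal.mem_span_singleton'.2 ⟨t, mul_comm _ _⟩
      rw [add_mem_cancel_right h4]
      constructor
      · intro h5
        rw [← Ideal.Quotient.mk_out x]
        exact Ideal.Quotient.eq_zero_iff_mem.2 h5
      · rintro rfl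
        have := out_mk (sp a) (0 : eis)
        rw [map_zero, zero_sub] at this
        exact neg_mem_iff.1 this
    by_cases hx : x = 0
    · rw [if_pos hx]
      have h5 := (h3 0).2 hx
      rw [mul_zero, add_zero, Ideal.mem_span_singleton'] at h5
      obtain ⟨s, hs⟩ := h5
      have h6 : ∀ t : eis, (if x.out + a * t ∈ sp a then F (x.out + a * t) else 0) =
          F (a * (s + t)) := by
        intro t
        rw [if_pos ((h3 t).2 hx), ← hs]
        congr 1
        ring
      simp only [h6]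
      refine Sk_shift (hfin c hc) s (F := fun y => F (a * y)) fun y z hyz => hF _ _ ?_
      rw [Ideal.mem_span_singleton'] at hyz ⊢
      obtain ⟨b, hb⟩ := hyz
      exact ⟨b, by linear_combination a * hb⟩
    · rw [if_neg hx]
      refine Finset.sum_eq_zero fun t _ => if_neg fun h7 => hx ((h3 t).1 h7)
  rw [Finset.sum_congr rfl fun x _ => key x, Finset.sum_ite_eq' , if_pos (Finset.mem_univ _)]

/-- multiplication by `a` on the residue classes modulo `f` -/
lemma Sk_bij {a f : eis} (hfin : Finite (eis ⧸ sp f)) (hfa : IsCoprime f a) {F : eis → M}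
    (hF : ∀ x y : eis, x - y ∈ sp f → F x = F y) : Sk f (fun y => F (a * y)) = Sk f F := by
  have : Fintype (eis ⧸ sp f) := Fintype.ofFinite _
  rw [Sk_eq, Sk_eq]
  obtain ⟨u, w, huw⟩ := hfa
  have h1 : Ideal.Quotient.mk (sp f) w * Ideal.Quotient.mk (sp f) a = 1 := by
    rw [← map_mul, ← map_one (Ideal.Quotient.mk (sp f)), Ideal.Quotient.mk_eq_mk_iff_sub_mem,
      Ideal.mem_span_singleton']
    exact ⟨-u, by linear_combination -huw⟩
  have hu : IsUnit (Ideal.Quotient.mk (sp f) a) := IsUnit.of_mul_eq_one_right _ h1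
  obtain ⟨g, hg⟩ := hu
  have hb : Function.Bijective (fun y : eis ⧸ sp f => Ideal.Quotient.mk (sp f) (a * y.out)) := by
    have e1 : (fun y : eis ⧸ sp f => Ideal.Quotient.mk (sp f) (a * y.out)) =
        fun y => (g : eis ⧸ sp f) * y := by
      funext y
      rw [map_mul, Ideal.Quotient.mk_out, hg]
    rw [e1]
    exact (Units.mulLeft g).bijective
  exact (sum_repM _ hb F hF).symm

end sums

/-! ### sums over invertible classes -/

section Tk

variable {K : Type} [Field K] {c : eis}

open Classical in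
lemma Tk_def (F : eis → K) : Tk c F = ∑ r ∈ rp c, if IsCoprime r c then F r else 0 := rfl

lemma Tk_congr {F G : eis → K} (h : ∀ x, IsCoprime x c → F x = G x) : Tk c F = Tk c G := by
  classical
  unfold Tk
  refine Sk_congr fun x => ?_
  by_cases hx : IsCoprime x c
  · rw [if_pos hx, if_pos hx, h x hx]
  · rw [if_neg hx, if_neg hx]

lemma Tk_add (F G : eis → K) : Tk c (fun x => F x + G x) = Tk c F + Tk c G := by
  classical
  rw [Tk_def, Tk_def, Tk_def, ← Finset.sum_add_distrib]
  refine Finset.sum_congr rfl fun x _ => ?_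
  split_ifs
  · rfl
  · rw [add_zero]

lemma Tk_mul_left (a : K) (F : eis → K) : Tk c (fun x => a * F x) = a * Tk c F := by
  classical
  rw [Tk_def, Tk_def, Finset.mul_sum]
  refine Finset.sum_congr rfl fun x _ => ?_
  split_ifs
  · rfl
  · rw [mul_zero]

lemma Tk_sum {α : Type*} (s : Finset α) (F : α → eis → K) :
    Tk c (fun x => ∑ a ∈ s, F a x) = ∑ a ∈ s, Tk c (F a) := by
  classical
  simp only [Tk_def]
  rw [Finset.sum_comm]
  refine Finset.sum_congr rfl fun x _ => ?_
  split_ifs
  · rfl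
  · rw [Finset.sum_const_zero]

lemma cop_per {x y : eis} (h : x - y ∈ sp c) : IsCoprime x c ↔ IsCoprime y c := by
  rw [Ideal.mem_span_singleton'] at h
  obtain ⟨b, hb⟩ := h
  constructor
  · rintro ⟨u, w, huw⟩
    exact ⟨u, w + u * b, by linear_combination huw + u * hb⟩
  · rintro ⟨u, w, huw⟩
    exact ⟨u, w - u * b, by linear_combination huw - u * hb⟩

/-- multiplication by an invertible element -/
lemma Tk_bij (hfin : Finite (eis ⧸ sp c)) {y : eis} (hy : IsCoprime y c) {F : eis → K}
    (hF : ∀ x z : eis, x - z ∈ sp c → F x = F z) : Tk c (fun x => F (y * x)) = Tk c F := by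
  classical
  unfold Tk
  rw [← Sk_bij hfin hy.symm (F := fun x => if IsCoprime x c then F x else 0)]
  · refine Sk_congr fun x => ?_
    have : IsCoprime (y * x) c ↔ IsCoprime x c :=
      ⟨fun h => h.of_mul_left_right, fun h => hy.mul_left h⟩
    by_cases hx : IsCoprime x c
    · rw [if_pos hx, if_pos (this.2 hx)]
    · rw [if_neg hx, if_neg (fun h => hx (this.1 h))]
  · intro x z h
    show (if IsCoprime x c then F x else 0) = if IsCoprime z c then F z else 0
    rw [hF x z h]
    by_cases hx : IsCoprime x c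
    · rw [if_pos hx, if_pos ((cop_per h).1 hx)]
    · rw [if_neg hx, if_neg (fun h' => hx ((cop_per h).2 h'))]

end Tk

lemma omr_cop (c : eis) : IsCoprime omr c := ⟨omr ^ 2, 0, by linear_combination omr_cube⟩

section main

variable {ι : Type} [Fintype ι] [DecidableEq ι] {K : Type} [Field K] {π : ι → eis}
  {l : ι → eis → K} {U : Finset ι → eis → K} (hW : Wd π l U)
  (hfin : ∀ q : eis, q ≠ 0 → Finite (eis ⧸ sp q))

include hW

lemma cop_iff (i : ι) (x : eis) : IsCoprime x (π i) ↔ x ∉ sp (π i) := by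
  constructor
  · rintro ⟨u, w, huw⟩ h
    apply (hW.max i).ne_top
    rw [Ideal.eq_top_iff_one, ← huw]
    exact add_mem (Ideal.mul_mem_left _ _ h) (Ideal.mul_mem_left _ _ (Ideal.mem_span_singleton_self _))
  · intro h
    have h2 := (Ideal.isMaximal_iff.1 (hW.max i)).2 (sp (π i) ⊔ sp x) x le_sup_left h
      (Ideal.mem_sup_right (Ideal.mem_span_singleton_self x))
    rw [Submodule.mem_sup] at h2
    obtain ⟨a, ha, b, hb, hab⟩ := h2
    rw [Ideal.mem_span_singleton'] at ha hb
    obtain ⟨u, rfl⟩ := ha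
    obtain ⟨w, rfl⟩ := hb
    exact ⟨w, u, by linear_combination hab⟩

lemma cop_cc (S : Finset ι) (x : eis) : IsCoprime x (cc π S) ↔ ∀ i ∈ S, x ∉ sp (π i) := by
  unfold cc
  rw [IsCoprime.prod_right_iff]
  exact forall₂_congr fun i _ => cop_iff hW i x

lemma cc_ne (S : Finset ι) : cc π S ≠ 0 := Finset.prod_ne_zero_iff.2 fun i _ => hW.ne i

lemma pi_cop {i : ι} {S : Finset ι} (hi : i ∉ S) : IsCoprime (π i) (cc π S) :=
  IsCoprime.prod_right fun j hj => hW.cop i j (fun e => hi (e ▸ hj))

lemma mon_per {S A : Finset ι} (hA : A ⊆ S) {x y : eis} (h : x - y ∈ sp (cc π S)) :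
    ∏ i ∈ A, l i x = ∏ i ∈ A, l i y :=
  Finset.prod_congr rfl fun i hi => hW.lper i x y (cc_mem (hA hi) h)

/-- the expansion of a product -/
lemma mon_mul (A : Finset ι) {x y : eis} (hx : ∀ i ∈ A, x ∉ sp (π i)) (hy : ∀ i ∈ A, y ∉ sp (π i)) :
    ∏ i ∈ A, l i (y * x) = ∑ B ∈ A.powerset, (∏ i ∈ A \ B, l i y) * ∏ i ∈ B, l i x := by
  rw [Finset.prod_congr rfl (fun i hi => (hW.lmul i y x (hy i hi) (hx i hi)).trans (add_comm _ _)),
    Finset.prod_add]
  exact Finset.sum_congr rfl fun B _ => mul_comm _ _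

include hfin

/-- one more prime -/
lemma TT_insert {S : Finset ι} (hS : S.Nonempty) {j : ι} (hj : j ∉ S) {h : eis → K}
    (hh : ∀ x y, x - y ∈ sp (cc π S) → h x = h y) :
    Tk (cc π (insert j S)) (fun x => h x * U (insert j S) x) =
      Tk (cc π S) (fun x => h x * U S x) - Tk (cc π S) (fun x => h (π j * x) * U S x) := by
  classical
  have hpc := pi_cop hW hj
  have hc := cc_ne hW S
  have ha := hW.ne j
  rw [cc_insert hj]
  set F : eis → K := fun x => if IsCoprime x (cc π S) then h x * U (insert j S) x else 0 with hF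
  have hFp : ∀ x y, x - y ∈ sp (π j * cc π S) → F x = F y := by
    intro x y hxy
    have h1 : x - y ∈ sp (cc π S) := sp_mul_le hxy
    simp only [hF]
    rw [hh x y h1, hW.uper (insert j S) x y (by rw [cc_insert hj]; exact hxy)]
    by_cases hx : IsCoprime x (cc π S)
    · rw [if_pos hx, if_pos ((cop_per h1).1 hx)]
    · rw [if_neg hx, if_neg (fun h' => hx ((cop_per h1).2 h'))]
  have e1 : Tk (π j * cc π S) (fun x => h x * U (insert j S) x) =
      Sk (π j * cc π S) F - Sk (π j * cc π S) (fun x => if x ∈ sp (π j) then F x else 0) := by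
    rw [Tk_def]
    unfold Sk
    rw [← Finset.sum_sub_distrib]
    refine Finset.sum_congr rfl fun x _ => ?_
    simp only [hF]
    by_cases hx : x ∈ sp (π j)
    · have h1 : ¬ IsCoprime x (π j * cc π S) := fun h' =>
        (cop_iff hW j x).1 h'.of_mul_right_left hx
      rw [if_neg h1, if_pos hx, sub_self]
    · rw [if_neg hx, sub_zero]
      by_cases hx' : IsCoprime x (cc π S)
      · rw [if_pos hx', if_pos (((cop_iff hW j x).2 hx).mul_right hx')]
      · rw [if_neg hx', if_neg (fun h' => hx' h'.of_mul_right_right)]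
  rw [e1, Sk_mul hc hfin ha hFp, Sk_div hc hfin ha hFp, Tk_def, Tk_def]
  congr 1
  · unfold Sk
    refine Finset.sum_congr rfl fun x _ => ?_
    have h2 : ∀ t, F (x + cc π S * t) = if IsCoprime x (cc π S) then
        h x * U (insert j S) (x + cc π S * t) else 0 := by
      intro t
      have h1 : x + cc π S * t - x ∈ sp (cc π S) :=
        Ideal.mem_span_singleton'.2 ⟨t, by ring⟩
      simp only [hF]
      rw [hh _ x h1]
      by_cases hx : IsCoprime x (cc π S)
      · rw [if_pos hx, if_pos ((cop_per h1).2 hx)]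
      · rw [if_neg hx, if_neg (fun h' => hx ((cop_per h1).1 h'))]
    simp only [h2]
    by_cases hx : IsCoprime x (cc π S)
    · simp only [if_pos hx]
      rw [← Finset.mul_sum]
      congr 1
      exact hW.udist S j x hS hj hx
    · simp only [if_neg hx]
      exact Finset.sum_const_zero
  · unfold Sk
    refine Finset.sum_congr rfl fun x _ => ?_
    simp only [hF]
    by_cases hx : IsCoprime x (cc π S)
    · rw [if_pos hx, if_pos (hpc.mul_left hx), hW.uemb S j x hS hj hx]
    · rw [if_neg hx, if_neg (fun h' => hx h'.of_mul_left_right)]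

/-- multiplication by the root of unity -/
lemma TT_om {S : Finset ι} (hS : S.Nonempty) {h : eis → K}
    (hh : ∀ x y, x - y ∈ sp (cc π S) → h x = h y) :
    Tk (cc π S) (fun x => h x * U S x) =
      Tk (cc π S) (fun x => h (omr * x) * U S x) + Tk (cc π S) h := by
  have hf := hfin _ (cc_ne hW S)
  rw [← Tk_bij hf (omr_cop _) hh, ← Tk_bij hf (omr_cop (cc π S)) (F := fun x => h x * U S x)
    (fun x y hxy => by
      show h x * U S x = h y * U S y
      rw [hh x y hxy, hW.uper S x y hxy]), ← Tk_add]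
  refine Tk_congr fun x hx => ?_
  show h (omr * x) * U S (omr * x) = _
  rw [hW.uom S x hS hx]
  ring

/-- invariant functions -/
lemma TT_inv [CharP K 3] {S : Finset ι} (hS : S.Nonempty) {h : eis → K}
    (hh : ∀ x y, x - y ∈ sp (cc π S) → h x = h y)
    (hi : ∀ x, IsCoprime x (cc π S) → h (omr * x) = h x) :
    Tk (cc π S) (fun x => h x * U S x) = 0 := by
  have h3 : (3 : K) = 0 := by
    have := CharP.cast_eq_zero K 3
    exact_mod_cast this
  have hf := hfin _ (cc_ne hW S)
  have e1 := TT_om hW hfin hS hh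
  have e2 : Tk (cc π S) (fun x => h (omr * x) * U S x) = Tk (cc π S) (fun x => h x * U S x) :=
    Tk_congr fun x hx => by rw [hi x hx]
  have e3 : Tk (cc π S) h = 0 := by
    rw [e2] at e1
    linear_combination -e1
  -- the squares
  have e4 := Tk_bij hf (omr_cop (cc π S)) (F := fun x => h x * U S x ^ 2)
    (fun x y hxy => by
      show h x * U S x ^ 2 = h y * U S y ^ 2
      rw [hh x y hxy, hW.uper S x y hxy])
  have e5 : Tk (cc π S) (fun x => h (omr * x) * U S (omr * x) ^ 2) =
      Tk (cc π S) (fun x => h x * U S x ^ 2) + 2 * Tk (cc π S) (fun x => h x * U S x) +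
        Tk (cc π S) h := by
    rw [← Tk_mul_left, ← Tk_add, ← Tk_add]
    refine Tk_congr fun x hx => ?_
    rw [hi x hx, hW.uom S x hS hx]
    ring
  have e6 : Tk (cc π S) (fun x => h (omr * x) * U S (omr * x) ^ 2) =
      Tk (cc π S) (fun x => h x * U S x ^ 2) := e4
  rw [e5, e3] at e6
  linear_combination (-1 : K) * e6 + (Tk (cc π S) (fun x => h x * U S x)) * h3

omit hfin in
/-- an element which changes only the logarithm at one prime -/
lemma ex_y {S : Finset ι} {i : ι} : ∃ y, IsCoprime y (cc π S) ∧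
    (∀ j ∈ S, j ≠ i → ∀ x, l j (y * x) = l j x) ∧
    ∀ x, x ∉ sp (π i) → l i (y * x) = l i x + 1 := by
  obtain ⟨y0, hy0, hl⟩ := hW.lsurj i
  obtain ⟨u, w, huw⟩ := pi_cop hW (Finset.notMem_erase i S)
  have hmem : ∀ j ∈ S, j ≠ i → u * π i + w * cc π (S.erase i) * y0 - 1 ∈ sp (π j) := by
    intro j hj hji
    have h1 : cc π (S.erase i) ∈ sp (π j) :=
      cc_mem (Finset.mem_erase.2 ⟨hji, hj⟩) (Ideal.mem_span_singleton_self _)
    have h2 : u * π i + w * cc π (S.erase i) * y0 - 1 = (w * (y0 - 1)) * cc π (S.erase i) := by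
      linear_combination huw
    rw [h2]
    exact Ideal.mul_mem_left _ _ h1
  have hmem' : u * π i + w * cc π (S.erase i) * y0 - y0 ∈ sp (π i) := by
    have h2 : u * π i + w * cc π (S.erase i) * y0 - y0 = (u * (1 - y0)) * π i := by
      linear_combination y0 * huw
    rw [h2]
    exact Ideal.mul_mem_left _ _ (Ideal.mem_span_singleton_self _)
  set y := u * π i + w * cc π (S.erase i) * y0 with hy
  have hyi : y ∉ sp (π i) := by
    intro h
    have := sub_mem h hmem'
    rw [sub_sub_cancel] at this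
    exact hy0 this
  refine ⟨y, (cop_cc hW S y).2 fun j hj => ?_, fun j hj hji x => ?_, fun x hx => ?_⟩
  · by_cases hji : j = i
    · rw [hji]; exact hyi
    · intro h
      have h1 := sub_mem h (hmem j hj hji)
      rw [sub_sub_cancel] at h1
      exact (hW.max j).ne_top ((Ideal.eq_top_iff_one _).2 h1)
  · apply hW.lper
    have h1 : y * x - x = x * (y - 1) := by ring
    rw [h1]
    exact Ideal.mul_mem_left _ _ (hmem j hj hji)
  · rw [hW.lmul i y x hyi hx, hW.lper i y y0 hmem', hl, add_comm]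

/-- the sums without `U` -/
lemma ZZ [CharP K 3] {S : Finset ι} {i : ι} (hi : i ∈ S) {h : eis → K}
    (hh : ∀ x y, x - y ∈ sp (cc π S) → h x = h y)
    (hinv : ∀ y, (∀ j ∈ S, j ≠ i → ∀ x, l j (y * x) = l j x) → ∀ x, h (y * x) = h x) :
    Tk (cc π S) (fun x => h x * l i x) = 0 := by
  have h3 : (3 : K) = 0 := by
    have := CharP.cast_eq_zero K 3
    exact_mod_cast this
  have hf := hfin _ (cc_ne hW S)
  obtain ⟨y, hy, h1, h2⟩ := ex_y hW (S := S) (i := i)
  have hy' := hinv y h1
  have hcop : ∀ x, IsCoprime x (cc π S) → l i (y * x) = l i x + 1 := fun x hx =>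
    h2 x ((cop_cc hW S x).1 hx i hi)
  have hlper : ∀ x z, x - z ∈ sp (cc π S) → l i x = l i z := fun x z hxz =>
    hW.lper i x z (cc_mem hi hxz)
  have e1 : Tk (cc π S) (fun x => h (y * x) * l i (y * x)) = Tk (cc π S) (fun x => h x * l i x) :=
    Tk_bij hf hy (F := fun x => h x * l i x) (fun x z hxz => by
      show h x * l i x = h z * l i z
      rw [hh x z hxz, hlper x z hxz])
  have e2 : Tk (cc π S) (fun x => h (y * x) * l i (y * x) ^ 2) =
      Tk (cc π S) (fun x => h x * l i x ^ 2) :=
    Tk_bij hf hy (F := fun x => h x * l i x ^ 2) (fun x z hxz => by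
      show h x * l i x ^ 2 = h z * l i z ^ 2
      rw [hh x z hxz, hlper x z hxz])
  have e3 : Tk (cc π S) (fun x => h (y * x) * l i (y * x)) =
      Tk (cc π S) (fun x => h x * l i x) + Tk (cc π S) h := by
    rw [← Tk_add]
    refine Tk_congr fun x hx => ?_
    rw [hy' x, hcop x hx]
    ring
  have e4 : Tk (cc π S) (fun x => h (y * x) * l i (y * x) ^ 2) =
      Tk (cc π S) (fun x => h x * l i x ^ 2) + 2 * Tk (cc π S) (fun x => h x * l i x) +
        Tk (cc π S) h := by
    rw [← Tk_mul_left, ← Tk_add, ← Tk_add]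
    refine Tk_congr fun x hx => ?_
    rw [hy' x, hcop x hx]
    ring
  have e5 : Tk (cc π S) h = 0 := by
    rw [e3] at e1
    linear_combination e1
  rw [e4, e5] at e2
  linear_combination (-1 : K) * e2 + (Tk (cc π S) (fun x => h x * l i x)) * h3

/-- the values of the logarithm are equidistributed -/
lemma ZC [CharP K 3] (k : ι) {m : ℕ} (hm : Nat.card (eis ⧸ sp (π k)) = 3 * m + 1) :
    Tk (π k) (fun x => l k x ^ 2) = 2 * m := by
  classical
  have h3 : (3 : K) = 0 := by
    have := CharP.cast_eq_zero K 3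
    exact_mod_cast this
  have h2 : (1 : K) ≠ -1 := by
    intro h
    have : (1 : K) = 0 := by linear_combination h3 - h
    exact one_ne_zero this
  have h0 : (0 : K) ≠ 1 := zero_ne_one
  have h0' : (0 : K) ≠ -1 := by
    intro h
    have : (1 : K) = 0 := by linear_combination h
    exact one_ne_zero this
  have hf : Finite (eis ⧸ sp (π k)) := hfin _ (hW.ne k)
  have : Fintype (eis ⧸ sp (π k)) := Fintype.ofFinite _
  obtain ⟨y, hy, hy1⟩ := hW.lsurj k
  have hyc : IsCoprime (π k) y := ((cop_iff hW k y).2 hy).symm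
  let N : K → ℕ := fun a => Sk (π k) (fun x => if IsCoprime x (π k) ∧ l k x = a then 1 else 0)
  have hN : ∀ a b : K, a = b + 1 → N a = N b := by
    intro a b hab
    have h4 := Sk_bij (M := ℕ) hf hyc
      (F := fun x => if IsCoprime x (π k) ∧ l k x = a then 1 else 0) (by
        intro x z hxz
        show (if IsCoprime x (π k) ∧ l k x = a then 1 else 0) =
          if IsCoprime z (π k) ∧ l k z = a then 1 else 0
        rw [hW.lper k x z hxz]
        simp only [cop_per hxz])
    refine Eq.trans h4.symm ?_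
    refine Sk_congr fun x => ?_
    have h5 : (IsCoprime (y * x) (π k) ∧ l k (y * x) = a) ↔ (IsCoprime x (π k) ∧ l k x = b) := by
      constructor
      · rintro ⟨h6, h7⟩
        have h8 : IsCoprime x (π k) := h6.of_mul_left_right
        rw [hW.lmul k y x hy ((cop_iff hW k x).1 h8), hy1, hab] at h7
        exact ⟨h8, by linear_combination h7⟩
      · rintro ⟨h6, h7⟩
        refine ⟨hyc.symm.mul_left h6, ?_⟩
        rw [hW.lmul k y x hy ((cop_iff hW k x).1 h6), hy1, hab, h7, add_comm]
    simp only [h5]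
  have hN1 : N 1 = N 0 := hN 1 0 (by ring)
  have hN2 : N 0 = N (-1) := hN 0 (-1) (by ring)
  -- the total number
  have hone : Sk (π k) (fun x => if x ∈ sp (π k) then 1 else 0) = (1 : ℕ) := by
    rw [Sk_eq]
    have h6 : ∀ z : eis ⧸ sp (π k), z.out ∈ sp (π k) ↔ z = 0 := by
      intro z
      rw [← Ideal.Quotient.eq_zero_iff_mem, Ideal.Quotient.mk_out]
    simp only [h6]
    rw [Finset.sum_ite_eq', if_pos (Finset.mem_univ _)]
  have hall : Sk (π k) (fun _ => (1 : ℕ)) = 3 * m + 1 := by
    rw [Sk_eq, ← hm, Nat.card_eq_fintype_card]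
    simp
  have hsum' : N 0 + N 1 + N (-1) + Sk (π k) (fun x => if x ∈ sp (π k) then 1 else 0) =
      Sk (π k) (fun _ => (1 : ℕ)) := by
    simp only [N]
    unfold Sk
    rw [← Finset.sum_add_distrib, ← Finset.sum_add_distrib, ← Finset.sum_add_distrib]
    refine Finset.sum_congr rfl fun x _ => ?_
    by_cases hx : x ∈ sp (π k)
    · have hx' : ¬ IsCoprime x (π k) := fun h => (cop_iff hW k x).1 h hx
      simp [hx, hx']
    · have hx' : IsCoprime x (π k) := (cop_iff hW k x).2 hx
      rcases hW.lval k x hx with h | h | h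
      · simp [hx, hx', h, h0, h0']
      · simp [hx, hx', h, h0.symm, h2]
      · simp [hx, hx', h, h0'.symm, h2.symm]
  rw [hall, hone] at hsum'
  have hNm : N 1 = m ∧ N (-1) = m := by omega
  have hfin2 : Tk (π k) (fun x => l k x ^ 2) = (N 1 : K) + (N (-1) : K) := by
    rw [Tk_def]
    simp only [N]
    unfold Sk
    rw [Nat.cast_sum, Nat.cast_sum, ← Finset.sum_add_distrib]
    refine Finset.sum_congr rfl fun x _ => ?_
    by_cases hx' : IsCoprime x (π k)
    · rcases hW.lval k x ((cop_iff hW k x).1 hx') with h | h | h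
      · simp [hx', h, h0, h0']
      · simp [hx', h, h2]
      · simp [hx', h, h2.symm]
    · simp [hx']
  rw [hfin2, hNm.1, hNm.2]
  ring

end main

theorem s_T : S_T := by
  intro ι K _ _ _ _ π l U hfin hW
  have h3 : (3 : K) = 0 := by
    have := CharP.cast_eq_zero K 3
    exact_mod_cast this
  have omr_notMem : ∀ i, omr ∉ sp (π i) := fun i => (cop_iff hW i omr).1 (omr_cop _)
  have pi_notMem : ∀ i j, i ≠ j → π j ∉ sp (π i) := fun i j hij =>
    (cop_iff hW i (π j)).1 (hW.cop i j hij).symm
  have hsq : ∀ (k : ι) (S : Finset ι), k ∈ S → ∀ x y, x - y ∈ sp (cc π S) → l k x = l k y :=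
    fun k S hk x y hxy => hW.lper k x y (cc_mem hk hxy)
  -- expansions
  have exp1 : ∀ (S A : Finset ι) (y : eis), A ⊆ S → (∀ i ∈ A, y ∉ sp (π i)) →
      Tk (cc π S) (fun x => (∏ i ∈ A, l i (y * x)) * U S x) =
        ∑ B ∈ A.powerset, (∏ i ∈ A \ B, l i y) * Tk (cc π S) (fun x => (∏ i ∈ B, l i x) * U S x) := by
    intro S A y hA hy
    simp only [← Tk_mul_left]
    rw [← Tk_sum]
    refine Tk_congr fun x hx => ?_
    rw [mon_mul hW A (fun i hi => (cop_cc hW S x).1 hx i (hA hi)) hy, Finset.sum_mul]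
    exact Finset.sum_congr rfl fun B _ => by ring
  have exp2 : ∀ (S A : Finset ι) (k : ι) (y : eis), k ∈ S → A ⊆ S.erase k → y ∉ sp (π k) →
      (∀ i ∈ A, y ∉ sp (π i)) →
      Tk (cc π S) (fun x => (l k (y * x) ^ 2 * ∏ i ∈ A, l i (y * x)) * U S x) =
        (∑ B ∈ A.powerset, (∏ i ∈ A \ B, l i y) *
          Tk (cc π S) (fun x => (l k x ^ 2 * ∏ i ∈ B, l i x) * U S x)) +
        ∑ B ∈ A.powerset, (∏ i ∈ A \ B, l i y) *
          (2 * l k y * Tk (cc π S) (fun x => (∏ i ∈ insert k B, l i x) * U S x) +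
            l k y ^ 2 * Tk (cc π S) (fun x => (∏ i ∈ B, l i x) * U S x)) := by
    intro S A k y hk hA hyk hy
    rw [← Finset.sum_add_distrib]
    have e1 : ∀ B ∈ A.powerset, (∏ i ∈ A \ B, l i y) *
          Tk (cc π S) (fun x => (l k x ^ 2 * ∏ i ∈ B, l i x) * U S x) + (∏ i ∈ A \ B, l i y) *
          (2 * l k y * Tk (cc π S) (fun x => (∏ i ∈ insert k B, l i x) * U S x) +
            l k y ^ 2 * Tk (cc π S) (fun x => (∏ i ∈ B, l i x) * U S x)) =
        Tk (cc π S) (fun x => (∏ i ∈ A \ B, l i y) * ((l k y + l k x) ^ 2 *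
          ((∏ i ∈ B, l i x) * U S x))) := by
      intro B hB
      rw [mem_powerset] at hB
      have hkB : k ∉ B := fun h => (mem_erase.1 (hA (hB h))).1 rfl
      rw [Tk_mul_left, ← mul_add]
      congr 1
      rw [← Tk_mul_left, ← Tk_mul_left, ← Tk_add, ← Tk_add]
      refine Tk_congr fun x _ => ?_
      rw [Finset.prod_insert hkB]
      ring
    rw [Finset.sum_congr rfl e1, ← Tk_sum]
    refine Tk_congr fun x hx => ?_
    have hx' := (cop_cc hW S x).1 hx
    rw [mon_mul hW A (fun i hi => hx' i (mem_of_mem_erase (hA hi))) hy,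
      hW.lmul k y x hyk (hx' k hk), Finset.mul_sum, Finset.sum_mul]
    exact Finset.sum_congr rfl fun B _ => by ring
  have hprod : ∀ (S A : Finset ι), A ⊆ S → ∀ x y, x - y ∈ sp (cc π S) →
      ∏ i ∈ A, l i x = ∏ i ∈ A, l i y := fun S A hA x y h => mon_per hW hA h
  intro S hS
  refine PW.s_W ι K (fun i j => l i (π j)) (fun i => l i omr)
    (fun S A => Tk (cc π S) (fun x => (∏ i ∈ A, l i x) * U S x))
    (fun k S A => Tk (cc π S) (fun x => (l k x ^ 2 * ∏ i ∈ A, l i x) * U S x))
    hW.lsym ?_ ?_ ?_ ?_ ?_ ?_ S hS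
  · -- H2
    intro S j A hS hj hA
    show Tk (cc π (insert j S)) (fun x => (∏ i ∈ A, l i x) * U (insert j S) x) = _
    rw [TT_insert hW hfin hS hj (h := fun x => ∏ i ∈ A, l i x) (hprod S A hA),
      exp1 S A (π j) hA (fun i hi => pi_notMem i j (fun h => hj (h ▸ hA hi))),
      ← Finset.add_sum_erase _ _ (mem_powerset_self A), Finset.sdiff_self, Finset.prod_empty,
      one_mul]
    show _ = -∑ B ∈ A.powerset.erase A, _
    ring
  · -- H3
    intro k S j A hk hj hA
    show Tk (cc π (insert j S)) (fun x => (l k x ^ 2 * ∏ i ∈ A, l i x) * U (insert j S) x) = _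
    have hA' : A ⊆ S := hA.trans (erase_subset _ _)
    rw [TT_insert hW hfin ⟨k, hk⟩ hj (h := fun x => l k x ^ 2 * ∏ i ∈ A, l i x)
      (fun x y hxy => by rw [hprod S A hA' x y hxy, hsq k S hk x y hxy]),
      exp2 S A k (π j) hk hA (pi_notMem k j (fun h => hj (h ▸ hk)))
        (fun i hi => pi_notMem i j (fun h => hj (h ▸ hA' hi))),
      ← Finset.add_sum_erase _ (fun B => (∏ i ∈ A \ B, l i (π j)) *
          Tk (cc π S) (fun x => (l k x ^ 2 * ∏ i ∈ B, l i x) * U S x)) (mem_powerset_self A),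
      Finset.sdiff_self, Finset.prod_empty, one_mul]
    show _ = -(∑ B ∈ A.powerset.erase A, _) - _
    ring
  · -- H4
    intro S hS
    show Tk (cc π S) (fun x => (∏ i ∈ (∅ : Finset ι), l i x) * U S x) = 0
    exact TT_inv hW hfin hS (h := fun x => ∏ i ∈ (∅ : Finset ι), l i x)
      (fun x y _ => by simp) (fun x _ => by simp)
  · -- H5
    intro S hS hl
    show Tk (cc π S) (fun x => (∏ i ∈ S, l i x) * U S x) = 0
    refine TT_inv hW hfin hS (h := fun x => ∏ i ∈ S, l i x) (hprod S S (le_refl _)) ?_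
    intro x hx
    refine Finset.prod_congr rfl fun i hi => ?_
    have : l i omr = 0 := hl i hi
    rw [hW.lmul i omr x (omr_notMem i) ((cop_cc hW S x).1 hx i hi), this, zero_add]
  · -- H6
    intro k S hk hc
    have hA : S.erase k ⊆ S := erase_subset _ _
    have hper : ∀ x y, x - y ∈ sp (cc π S) → l k x ^ 2 * ∏ i ∈ S.erase k, l i x =
        l k y ^ 2 * ∏ i ∈ S.erase k, l i y := fun x y hxy => by
      rw [hprod S _ hA x y hxy, hsq k S hk x y hxy]
    have e1 := TT_om hW hfin ⟨k, hk⟩ (h := fun x => l k x ^ 2 * ∏ i ∈ S.erase k, l i x) hper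
    rw [exp2 S (S.erase k) k omr hk (le_refl _) (omr_notMem k) (fun i _ => omr_notMem i),
      ← Finset.add_sum_erase _ (fun B => (∏ i ∈ S.erase k \ B, l i omr) *
          Tk (cc π S) (fun x => (l k x ^ 2 * ∏ i ∈ B, l i x) * U S x))
          (mem_powerset_self (S.erase k)),
      Finset.sdiff_self, Finset.prod_empty, one_mul] at e1
    -- the sum without `U`
    have hne : (S.erase k).Nonempty := by
      rw [← card_pos, card_erase_of_mem hk]; omega
    obtain ⟨i, hi⟩ := hne
    obtain ⟨hik, hiS⟩ := mem_erase.1 hi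
    have e2 : Tk (cc π S) (fun x => l k x ^ 2 * ∏ i ∈ S.erase k, l i x) = 0 := by
      have hA2 : (S.erase k).erase i ⊆ S := (erase_subset _ _).trans hA
      have e3 := ZZ hW hfin hiS (h := fun x => l k x ^ 2 * ∏ j ∈ (S.erase k).erase i, l j x)
        (fun x y hxy => by rw [hprod S _ hA2 x y hxy, hsq k S hk x y hxy])
        (fun y hy x => by
          show l k (y * x) ^ 2 * ∏ j ∈ (S.erase k).erase i, l j (y * x) = _
          rw [hy k hk (fun h => hik h.symm), Finset.prod_congr rfl fun j hj =>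
            hy j (hA2 hj) (mem_erase.1 hj).1 x])
      rw [← e3]
      refine Tk_congr fun x _ => ?_
      rw [← Finset.mul_prod_erase _ _ hi]
      ring
    rw [e2] at e1
    show (∑ B ∈ (S.erase k).powerset.erase (S.erase k), _) + _ = 0
    linear_combination -e1
  · -- H7
    intro k
    show Tk (cc π {k}) (fun x => (∏ i ∈ {k}, l i x) * U {k} x) = -l k omr ^ 2
    have hcc : cc π {k} = π k := Finset.prod_singleton _ _
    by_cases hl : l k omr = 0
    · rw [hl]
      have : Tk (cc π {k}) (fun x => (∏ i ∈ {k}, l i x) * U {k} x) = 0 := by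
        refine TT_inv hW hfin (singleton_nonempty k) (h := fun x => ∏ i ∈ {k}, l i x)
          (hprod {k} {k} (le_refl _)) ?_
        intro x hx
        simp only [Finset.prod_singleton]
        rw [hW.lmul k omr x (omr_notMem k) ((cop_cc hW {k} x).1 hx k (mem_singleton_self k)), hl,
          zero_add]
      rw [this]
      ring
    · have hk : k ∈ ({k} : Finset ι) := mem_singleton_self k
      have e1 := TT_om hW hfin ⟨k, hk⟩ (h := fun x => l k x ^ 2 * ∏ i ∈ ∅, l i x)
        (fun x y hxy => by rw [hsq k {k} hk x y hxy, Finset.prod_empty, Finset.prod_empty])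
      rw [exp2 {k} ∅ k omr hk (empty_subset _) (omr_notMem k) (fun i _ => omr_notMem i)] at e1
      simp only [powerset_empty, Finset.sum_singleton, Finset.sdiff_self, Finset.prod_empty, one_mul,
        insert_empty_eq, mul_one] at e1
      have e2 : Tk (cc π {k}) (fun x => U {k} x) = 0 := by
        have := TT_inv hW hfin ⟨k, hk⟩ (h := fun _ => (1 : K)) (fun x y _ => rfl) (fun x _ => rfl)
        simpa using this
      obtain ⟨m, hm, hom⟩ := hW.lom k
      have e3 : Tk (cc π {k}) (fun x => l k x ^ 2) = 2 * m := by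
        rw [hcc]
        exact ZC hW hfin k hm
      rw [e2, e3] at e1
      have e4 : l k omr * (Tk (cc π {k}) (fun x => (∏ i ∈ {k}, l i x) * U {k} x) + 1) = 0 := by
        rw [hom] at e1 ⊢
        linear_combination (1 : K) * e1 + ((m : K) * Tk (cc π {k}) (fun x => (∏ i ∈ {k}, l i x) * U {k} x) + m) * h3
      have e5 : Tk (cc π {k}) (fun x => (∏ i ∈ {k}, l i x) * U {k} x) + 1 = 0 :=
        (mul_eq_zero.1 e4).resolve_left hl
      have e6 : l k omr ^ 2 = 1 := by
        rcases hW.lval k omr (omr_notMem k) with h | h | h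
        · exact absurd h hl
        · rw [h]; ring
        · rw [h]; ring
      rw [e6]
      linear_combination e5

end Pool.Agent.Helper68.C6.PT
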