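import Pool.Agent.Helper68.C2.Tam2
import Pool.Agent.Helper68.C6.Sel6

/-!
# The Tamagawa numbers of `y² + D y = x³` over `K`, `D = √-3 w^κ ∏ π_j^(e_j)`
-/

set_option autoImplicit false
set_option linter.unusedSectionVars false
set_option linter.unusedVariables false

namespace Pool.Agent.Helper68.C6.Tam6

open scoped Classical

open NumberField IsDedekindDomain WeierstrassCurve WithZero
open Pool.Agent.Y692.QS (Ei w nr toC)
open Pool.Agent.Y715.T.Gi (lam lam_sq prime_lam CF)
open Pool.Agent.Y715.T.RecG (Pq)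
open Pool.Agent.Y703.CT
open Pool.Agent.Y696 (NonsingRed)
open Pool.Agent.Y696.CTK
open Pool.Agent.Y350.CTK Pool.Agent.Y350.CTK.Tam
open Pool.Agent.Y455.CTK
open Pool.Agent.Helper68.C6
open Pool.Agent.Helper68.C2.Min2 (not_cb)
open Pool.Agent.Helper68.C2.Tam2 (trans_val2 td2 iv_w pl_three2 pl_inj2)
open Pool.Agent.Helper68.C2.LK2 (w_unit)

/-! ### Minimality -/

theorem mink6 (K : Type) [Field K] [NumberField K] (j : Ei ≃+* 𝓞 K) (D : Ei)
    (hl : ¬ te ^ 2 ∣ D) (hcf : CF D) (v : HeightOneSpectrum (𝓞 K)) :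
    IsMinimal (v.adicCompletionIntegers K) ((ED (j D : K)).baseChange (v.adicCompletion K)) := by
  have hbc : (ED (j D : K)).baseChange (v.adicCompletion K) =
      ED (algebraMap (v.adicCompletionIntegers K) (v.adicCompletion K)
        (algebraMap (𝓞 K) (v.adicCompletionIntegers K) (j D))) := by
    unfold WeierstrassCurve.baseChange
    rw [Pool.Agent.Y455.CTK.ED_map]
    rfl
  rw [hbc]
  apply isMinimal_ED
  rintro u hu ⟨r, hr⟩
  have h1 : Valued.v (u : v.adicCompletion K) < 1 := (Pool.Agent.W189.NF.mem_max_iff v u).1 hu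
  have h2 : Valued.v (u : v.adicCompletion K) ≤ exp (-1 : ℤ) := Pool.Agent.Y696.exp_lt h1
  have h3 : Valued.v (r : v.adicCompletion K) ≤ 1 := r.2
  obtain ⟨δ, hδ⟩ : ∃ δ : v.adicCompletion K, δ = algebraMap K (v.adicCompletion K) (j D : K) :=
    ⟨_, rfl⟩
  have h4 : (27 : v.adicCompletion K) * δ ^ 4 =
      (u : v.adicCompletion K) ^ 12 * (r : v.adicCompletion K) := by
    have := congrArg (algebraMap (v.adicCompletionIntegers K) (v.adicCompletion K)) hr
    rw [map_mul, map_mul, map_pow, map_pow, map_ofNat] at this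
    rw [hδ]
    exact this
  have h5 : Valued.v ((27 : v.adicCompletion K) * δ ^ 4) ≤ exp (-12 : ℤ) := by
    rw [h4, map_mul, map_pow]
    calc _ ≤ (exp (-1 : ℤ)) ^ 12 * 1 := by gcongr
      _ = exp (-12 : ℤ) := by rw [mul_one, ← exp_nsmul]; rfl
  have hval : ∀ x : 𝓞 K, Valued.v (algebraMap K (v.adicCompletion K) (x : K)) =
      v.intValuation x := by
    intro x
    rw [Pool.Agent.H723R3.valued_algebraMap]
    exact HeightOneSpectrum.valuation_of_algebraMap (K := K) v x
  have hφ : ∀ x : 𝓞 K, algebraMap K (v.adicCompletion K) (x : K) =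
      ((algebraMap K (v.adicCompletion K)).comp (algebraMap (𝓞 K) K)) x := fun _ => rfl
  have h6 : (exp (-10 : ℤ) : ℤᵐ⁰) ≤ Valued.v ((27 : v.adicCompletion K) * δ ^ 4) := by
    by_cases hv : (3 : 𝓞 K) ∈ v.asIdeal
    · have e2 := val_theta j v hv
      have e1 : (27 : 𝓞 K) = -(j lam) ^ 6 := by
        have hsq : (j lam) ^ 2 = -3 := by
          rw [← map_pow, lam_sq, map_neg, map_ofNat]
        linear_combination ((j lam) ^ 4 - 3 * (j lam) ^ 2 + 9) * hsq
      have e3 : (exp (-1 : ℤ) : ℤᵐ⁰) ≤ v.intValuation (j D) := by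
        have h7 : ¬ v.intValuation (j D) ≤ exp (-((2 : ℕ) : ℤ)) := by
          rw [v.intValuation_le_pow_iff_mem]
          have hv' : j 3 ∈ v.asIdeal := by rwa [map_ofNat]
          rw [three_mem j hv']
          intro h8
          apply hl
          have h9 : j D ∈ Ideal.span {j te} ^ 2 := h8
          rw [Ideal.span_singleton_pow, Ideal.mem_span_singleton, ← map_pow, map_dvd_iff j] at h9
          exact h9
        rw [not_le] at h7
        obtain ⟨n, hn⟩ := Pool.Agent.Y696.exp_rep (ne_of_gt (lt_of_le_of_lt zero_le h7))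
        rw [hn] at h7 ⊢
        rw [exp_lt_exp] at h7
        rw [exp_le_exp]
        push_cast at h7
        omega
      have e5 : (27 : v.adicCompletion K) * δ ^ 4 =
          algebraMap K (v.adicCompletion K) (((27 * (j D) ^ 4 : 𝓞 K)) : K) := by
        rw [hδ, hφ, hφ, map_mul, map_pow, map_ofNat]
      rw [e5, hval, map_mul, map_pow, e1, Valuation.map_neg, map_pow, e2]
      calc (exp (-10 : ℤ) : ℤᵐ⁰) = (exp (-1 : ℤ)) ^ 6 * (exp (-1 : ℤ)) ^ 4 := by
            rw [← pow_add, ← exp_nsmul]; rfl
        _ ≤ _ := by gcongr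
    · have e2 : v.intValuation (3 : 𝓞 K) = 1 := HeightOneSpectrum.intValuation_eq_one_iff.2 hv
      have e3 : (exp (-2 : ℤ) : ℤᵐ⁰) ≤ v.intValuation (j D) := by
        have h7 : ¬ v.intValuation (j D) ≤ exp (-((3 : ℕ) : ℤ)) := by
          rw [v.intValuation_le_pow_iff_mem]
          exact not_cb j v hcf
        rw [not_le] at h7
        obtain ⟨n, hn⟩ := Pool.Agent.Y696.exp_rep (ne_of_gt (lt_of_le_of_lt zero_le h7))
        rw [hn] at h7 ⊢
        rw [exp_lt_exp] at h7
        rw [exp_le_exp]
        push_cast at h7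
        omega
      have e5 : (27 : v.adicCompletion K) * δ ^ 4 =
          algebraMap K (v.adicCompletion K) (((3 ^ 3 * (j D) ^ 4 : 𝓞 K)) : K) := by
        rw [hδ, hφ, hφ, map_mul, map_pow, map_pow, map_ofNat]
        norm_num
      rw [e5, hval, map_mul, map_pow, map_pow, e2, one_pow, one_mul]
      calc (exp (-10 : ℤ) : ℤᵐ⁰) ≤ exp (-8 : ℤ) := by rw [exp_le_exp]; norm_num
        _ = (exp (-2 : ℤ)) ^ 4 := by rw [← exp_nsmul]; rfl
        _ ≤ _ := by gcongr
  have h7 := h6.trans h5
  rw [exp_le_exp] at h7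
  norm_num at h7

/-! ### The prime above three -/

open WeierstrassCurve.Affine (Point) in
/-- the index at the prime above three -/
theorem td3 (L : Type) [Field L] (v : Valuation L ℤᵐ⁰) (D : L) (v3 : v 3 = exp (-2 : ℤ))
    (hvD : v D = exp (-1 : ℤ)) (H : AddSubgroup (ED D).toAffine.Point)
    (hH : ∀ P, P ∈ H ↔ NonsingRed v (ED D) P) : H.index = 3 := by
  have hD0 : D ≠ 0 := by
    rintro rfl
    rw [map_zero] at hvD
    exact exp_ne_zero hvD.symm
  have hD1 : v D < 1 := by
    rw [hvD]
    exact lt_one_iff.2 le_rfl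
  have v3l : v (3 : L) < 1 := by
    rw [v3, lt_one_iff]
    exact exp_le_exp.2 (by norm_num)
  have v2 : v (2 : L) = 1 := by
    have e : (2 : L) = -1 + 3 := by norm_num
    rw [e, Valuation.map_add_eq_of_lt_left v (by rw [Valuation.map_neg, map_one]; exact v3l),
      Valuation.map_neg, map_one]
  have hmem : ∀ {P : (ED D).toAffine.Point} {x y : L}, At P x y → (P ∉ H ↔ v x < 1) := by
    intro P x y h
    rw [not_mem_iff hH h]
    have he := h.eqn
    constructor
    · rintro ⟨h1, h2⟩
      have hx : v x ≤ 1 := by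
        by_contra hc
        rw [not_le] at hc
        have hx0 : v x ≠ 0 := (lt_trans zero_lt_one hc).ne'
        rw [map_mul, v3, map_pow] at h2
        have h3 : log (exp (-2 : ℤ) * v x ^ 2) < 0 := by
          rw [← log_one, log_lt_log (mul_ne_zero exp_ne_zero (pow_ne_zero 2 hx0)) one_ne_zero]
          exact h2
        have h4 : 0 < log (v x) := by
          rw [← log_one, log_lt_log one_ne_zero hx0]
          exact hc
        rw [log_mul exp_ne_zero (pow_ne_zero 2 hx0), log_exp, log_pow, nsmul_eq_mul] at h3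
        push_cast at h3
        omega
      have hy : v y < 1 := by
        have e : 2 * y = (2 * y + D) - D := by ring
        have h5 : v (2 * y) < 1 := by
          rw [e]
          exact vsubl h1 hD1
        rwa [map_mul, v2, one_mul] at h5
      have h6 : v (x ^ 3) < 1 := by
        rw [← he]
        refine vaddl ?_ ?_
        · rw [map_pow]
          exact pow_lt_one₀ zero_le hy (by norm_num)
        · rw [map_mul]
          exact m1l hD1.le hy
      rw [map_pow] at h6
      by_contra hc
      rw [not_lt] at hc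
      exact absurd h6 (not_lt.2 (one_le_pow₀ hc))
    · intro hx
      have hy : v y < 1 := by
        by_contra hc
        rw [not_lt] at hc
        have h4 : v (D * y) < v (y ^ 2) := by
          rw [map_mul, map_pow, sq]
          have h5 : v y ≠ 0 := fun h0 => by rw [h0] at hc; exact absurd hc (by simp)
          exact mul_lt_mul_of_pos_right (hD1.trans_le hc) (zero_lt_iff.2 h5)
        have h5 := Valuation.map_add_eq_of_lt_right v h4
        rw [add_comm, he, map_pow, map_pow] at h5
        have h6 : v x ^ 3 < 1 := pow_lt_one₀ zero_le hx (by norm_num)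
        rw [h5] at h6
        exact absurd h6 (not_lt.2 (one_le_pow₀ hc))
      refine ⟨vaddl ?_ hD1, ?_⟩
      · rw [map_mul]
        exact m1l v2.le hy
      · rw [map_mul, map_pow]
        exact m1l v3l.le (pow_lt_one₀ zero_le hx (by norm_num))
  obtain ⟨T, hT⟩ := exists_T (D := D) hD0
  have hTn := hT.neg
  have hTT := T_add_T hD0 hT
  refine index_of_gen _ T 3 Nat.prime_three ?_ ?_ ?_
  · rw [hmem hT, map_zero]
    exact zero_lt_one
  · have : 3 • T = T + T + T := by abel
    rw [this, hTT, neg_add_cancel]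
    exact zero_mem _
  · intro P
    by_cases hP : P ∈ H
    · exact ⟨0, by simpa using hP⟩
    obtain ⟨x, y, hA⟩ := not_mem_at hP
    have hx := (hmem hA).1 hP
    by_cases hx0 : x = 0
    · subst hx0
      have e1 : y * (y + D) = 0 := by
        have := hA.eqn
        linear_combination this
      rcases mul_eq_zero.1 e1 with h | h
      · rw [h] at hA
        refine ⟨1, ?_⟩
        rw [one_zsmul, hA.ext hT, sub_self]
        exact zero_mem _
      · have h4 : y = -0 - D := by linear_combination h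
        rw [h4] at hA
        refine ⟨-1, ?_⟩
        rw [neg_one_zsmul, hA.ext hTn, sub_self]
        exact zero_mem _
    · have hx2 : x ^ 2 ≠ 0 := pow_ne_zero 2 hx0
      have he := hA.eqn
      rcases trans_val2 (Or.inl rfl) hvD hx0 hx he with h | h
      · refine ⟨1, ?_⟩
        rw [one_zsmul, sub_eq_add_neg]
        obtain ⟨y3, h3'⟩ := hA.add hTn hx0
        by_contra hc
        rw [hmem h3', ← not_le] at hc
        apply hc
        have e : ((y - (-0 - D)) / (x - 0)) ^ 2 - x - 0 = D * (y + D) / x ^ 2 := by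
          rw [sub_zero, sub_zero, div_pow, eq_div_iff hx2, sub_mul, div_mul_cancel₀ _ hx2]
          linear_combination he
        rw [e]
        exact h
      · refine ⟨-1, ?_⟩
        rw [neg_one_zsmul, sub_neg_eq_add]
        obtain ⟨y3, h3'⟩ := hA.add hT hx0
        by_contra hc
        rw [hmem h3', ← not_le] at hc
        apply hc
        have e : ((y - 0) / (x - 0)) ^ 2 - x - 0 = -(D * y / x ^ 2) := by
          rw [sub_zero, sub_zero, sub_zero, div_pow, ← neg_div, eq_div_iff hx2, sub_mul,
            div_mul_cancel₀ _ hx2]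
          linear_combination he
        rw [e, Valuation.map_neg]
        exact h

variable {J : Type} [Fintype J] {π : J → Ei} {e : J → ZMod 3} {κ : ZMod 3}

lemma cf6 (hD : Dt π e) : CF (pD6 π e κ) := by
  have h := Pool.Agent.Helper68.C5.Sel5.cf_lam hD e (w_unit.pow κ.val) (k := 1) (by norm_num)
  have e1 : pD6 π e κ = w ^ κ.val * lam ^ 1 * ∏ j, π j ^ (e j).val := by
    unfold pD6 pD
    ring
  rw [e1]
  exact h

lemma not_te (hD : Dt π e) : ¬ te ^ 2 ∣ pD6 π e κ := by
  intro h
  have h1 : lam * lam ∣ lam * (w ^ κ.val * ∏ j, π j ^ (e j).val) := by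
    have e1 : lam * (w ^ κ.val * ∏ j, π j ^ (e j).val) = pD6 π e κ := by
      unfold pD6 pD
      ring
    rw [e1]
    have e2 : lam * lam = te ^ 2 := by decide
    rw [e2]
    exact h
  have h2 := (mul_dvd_mul_iff_left prime_lam.ne_zero).1 h1
  exact Pool.Agent.Helper68.C5.Sel5.lam_not_prod hD _
    ((IsUnit.dvd_mul_left (w_unit.pow _)).1 h2)

variable {K : Type} [Field K] [NumberField K] (j : Ei ≃+* 𝓞 K)

lemma iv_lam {v : HeightOneSpectrum (𝓞 K)} (h : j 3 ∉ v.asIdeal) :
    v.intValuation (j lam) = 1 := by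
  rw [HeightOneSpectrum.intValuation_eq_one_iff]
  intro h1
  apply h
  have e : (3 : Ei) = -(lam * lam) := by decide
  rw [e, map_neg, map_mul]
  exact v.asIdeal.neg_mem (v.asIdeal.mul_mem_left _ h1)

lemma val_D_one6 {v : HeightOneSpectrum (𝓞 K)} (h3 : j 3 ∉ v.asIdeal)
    (h : ∀ i, j (π i) ∉ v.asIdeal) :
    Valued.v (algebraMap K (v.adicCompletion K) ((j (pD6 π e κ) : 𝓞 K) : K)) = 1 := by
  rw [val_eq]
  unfold pD6
  unfold pD
  rw [map_mul, map_mul, map_mul, map_mul, iv_w, iv_lam j h3, one_mul, one_mul, map_prod, map_prod]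
  refine Finset.prod_eq_one fun i _ => ?_
  rw [map_pow, map_pow, HeightOneSpectrum.intValuation_eq_one_iff.2 (h i), one_pow]

lemma val_D_exp6 (hD : Dt π e) (i : J) :
    Valued.v (algebraMap K ((pl j (hD.pq i).prime).adicCompletion K)
      ((j (pD6 π e κ) : 𝓞 K) : K)) = exp (-((e i).val : ℤ)) := by
  rw [val_eq]
  unfold pD6 pD
  rw [map_mul, map_mul, map_mul, map_mul, iv_w, iv_lam j (pl_three2 j hD i), one_mul, one_mul,
    map_prod, map_prod, Finset.prod_eq_single i, map_pow, map_pow, pl_val, ← exp_nsmul]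
  · congr 1
    simp
  · intro k _ hk
    have h1 : (pl j (hD.pq i).prime).intValuation (j (π k)) = 1 := by
      rw [HeightOneSpectrum.intValuation_eq_one_iff, mem_pl]
      exact hD.nd k i hk
    rw [map_pow, map_pow, h1, one_pow]
  · intro h
    exact absurd (Finset.mem_univ i) h

/-- the valuation of `D` at the prime above three -/
lemma val_D_te (hD : Dt π e) :
    Valued.v (algebraMap K ((pl j te_prime).adicCompletion K)
      ((j (pD6 π e κ) : 𝓞 K) : K)) = exp (-1 : ℤ) := by
  rw [val_eq]
  unfold pD6 pD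
  have h1 : (pl j te_prime).intValuation (j (∏ i, π i ^ (e i).val)) = 1 := by
    rw [HeightOneSpectrum.intValuation_eq_one_iff, mem_pl]
    exact Pool.Agent.Helper68.C5.Sel5.lam_not_prod hD _
  have h2 : (pl j te_prime).intValuation (j lam) = exp (-1 : ℤ) := pl_val j te_prime
  rw [map_mul, map_mul, map_mul, map_mul, iv_w, h1, h2, mul_one, mul_one]

lemma pl_te_ne (hD : Dt π e) (i : J) : pl j (hD.pq i).prime ≠ pl j te_prime := by
  intro h
  have h1 : j 3 ∈ (pl j (hD.pq i).prime).asIdeal := by
    rw [h, mem_pl]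
    exact ⟨-te, by decide⟩
  exact pl_three2 j hD i h1

/-- the Tamagawa numbers -/
theorem tam6 (hD : Dt π e) :
    ∃ c : HeightOneSpectrum (𝓞 K) → ℕ, IsTam (ED (j (pD6 π e κ) : K)) c ∧
      ∏ᶠ w, c w = 3 ^ (Fintype.card J + 1) := by
  have hcf := cf6 (κ := κ) hD
  have hD0 : pD6 π e κ ≠ 0 := hcf.1
  have hjD0 : ((j (pD6 π e κ) : 𝓞 K) : K) ≠ 0 := by
    intro h
    have h1 : j (pD6 π e κ) = 0 := by
      apply RingOfIntegers.ext
      exact h
    exact hD0 ((map_eq_zero_iff j j.injective).1 h1)
  have hte : ¬ te ^ 2 ∣ pD6 π e κ := not_te hD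
  have hsub : ∀ v : HeightOneSpectrum (𝓞 K), ∃ H : AddSubgroup
      ((ED (j (pD6 π e κ) : K)).baseChange (v.adicCompletion K)).toAffine.Point,
      ∀ P, P ∈ H ↔ NonsingRed Valued.v
        ((ED (j (pD6 π e κ) : K)).baseChange (v.adicCompletion K)) P := by
    intro v
    apply sub_ex Pool.Agent.Y891.CTK.e0k Valued.v (bc_ED _)
    · have h1 : (27 : v.adicCompletion K) * (algebraMap K (v.adicCompletion K)
          ((j (pD6 π e κ) : 𝓞 K) : K)) ^ 4 = algebraMap K (v.adicCompletion K)
          (27 * ((j (pD6 π e κ) : 𝓞 K) : K) ^ 4) := by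
        rw [map_mul, map_pow, map_ofNat]
      rw [h1, map_ne_zero]
      exact mul_ne_zero (by norm_num) (pow_ne_zero _ hjD0)
    · rw [val_eq]
      exact v.intValuation_le_one _
  choose H hH using hsub
  -- the indices
  have hA : (H (pl j te_prime)).index = 3 := by
    have h3v : Valued.v (3 : (pl j te_prime).adicCompletion K) = exp (-2 : ℤ) := by
      rw [three_eq j, val_eq]
      have e : (3 : Ei) = -(te * te) := by decide
      rw [e, map_neg, Valuation.map_neg, map_mul, map_mul, pl_val, ← exp_add]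
      norm_num
    have key : ∀ (W : WeierstrassCurve ((pl j te_prime).adicCompletion K))
        (hW : W = ED (algebraMap K ((pl j te_prime).adicCompletion K)
          ((j (pD6 π e κ) : 𝓞 K) : K))) (G : AddSubgroup W.toAffine.Point),
        (∀ P, P ∈ G ↔ NonsingRed Valued.v W P) → G.index = 3 := by
      rintro W rfl G hG
      exact td3 _ Valued.v _ h3v (val_D_te j hD) G hG
    exact key _ (bc_ED _) _ (hH _)
  have hB : ∀ i, (H (pl j (hD.pq i).prime)).index = 3 := by
    intro i
    have h3v : Valued.v (3 : (pl j (hD.pq i).prime).adicCompletion K) = 1 := by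
      rw [three_eq j]
      exact val_one _ (pl_three2 j hD i)
    have hm : ((e i).val : ℤ) = 1 ∨ ((e i).val : ℤ) = 2 := by
      have h6 : (e i).val < 3 := ZMod.val_lt _
      have h7 : (e i).val ≠ 0 := by
        intro h8
        exact hD.e0 i ((ZMod.val_eq_zero _).1 h8)
      omega
    have key : ∀ (W : WeierstrassCurve ((pl j (hD.pq i).prime).adicCompletion K))
        (hW : W = ED (algebraMap K ((pl j (hD.pq i).prime).adicCompletion K)
          ((j (pD6 π e κ) : 𝓞 K) : K))) (G : AddSubgroup W.toAffine.Point),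
        (∀ P, P ∈ G ↔ NonsingRed Valued.v W P) → G.index = 3 := by
      rintro W rfl G hG
      exact td2 _ Valued.v _ h3v hm (val_D_exp6 j hD i) G hG
    exact key _ (bc_ED _) _ (hH _)
  have hC : ∀ v : HeightOneSpectrum (𝓞 K), j 3 ∉ v.asIdeal → (∀ i, j (π i) ∉ v.asIdeal) →
      (H v).index = 1 := by
    intro v h3 hi
    refine idx_one tg Valued.v (bc_ED _) ?_ ?_ _ (hH _)
    · rw [three_eq j]
      exact val_one _ h3
    · exact val_D_one6 j h3 hi
  -- the support
  have hsupp : Function.mulSupport (fun v => (H v).index) ⊆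
      ((insert (pl j te_prime) (Finset.univ.image fun i => pl j (hD.pq i).prime) :
        Finset (HeightOneSpectrum (𝓞 K))) : Set (HeightOneSpectrum (𝓞 K))) := by
    intro v hv
    rw [Function.mem_mulSupport] at hv
    by_contra hcon
    apply hv
    rw [Finset.mem_coe, Finset.mem_insert, Finset.mem_image] at hcon
    by_cases h3 : j 3 ∈ v.asIdeal
    · exact absurd (Or.inl (three_mem j h3)) hcon
    · refine hC v h3 fun i hi => hcon (Or.inr ⟨i, Finset.mem_univ _, ?_⟩)
      exact (eq_pl j (hD.pq i).prime hi).symm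
  have hnot : pl j te_prime ∉ Finset.univ.image fun i => pl j (hD.pq i).prime := by
    rw [Finset.mem_image]
    rintro ⟨i, -, hi⟩
    exact pl_te_ne j hD i hi
  refine ⟨fun v => (H v).index, ⟨fun v => ⟨mink6 K j _ hte hcf v, H v, hH v, rfl⟩, ?_⟩, ?_⟩
  · exact (Finset.finite_toSet _).subset hsupp
  · rw [finprod_eq_prod_of_mulSupport_subset _ hsupp, Finset.prod_insert hnot, Finset.prod_image]
    · rw [Finset.prod_congr rfl fun i _ => hB i, Finset.prod_const, Finset.card_univ, hA, pow_succ,
        mul_comm]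
    · intro a _ b _ h
      exact pl_inj2 j hD h

end Pool.Agent.Helper68.C6.Tam6
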