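import Pool.Agent.Helper68.C6.Val6
import Pool.Agent.Helper68.C6.Tam6
import Pool.Agent.Helper68.C6.LK6
import Pool.Agent.Helper68.C6.Selc6
import Pool.Agent.Helper68.C2.Asm2
import Pool.Graph.R_seed8.Y696.CTK.Fin

/-!
# Assembly: the law for `D = √-3 w^κ ∏ π_j^(e_j)`
-/

set_option autoImplicit false
set_option linter.unusedVariables false

open scoped Classical

namespace Pool.Agent.Helper68.C6.Asm6

open NumberField IsDedekindDomain WeierstrassCurve WithZero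
open Pool.Agent.Y692.QS (Ei w toC)
open Pool.Agent.Y715.T.RecG (Pq)
open Pool.Agent.Y703.CT
open Pool.Agent.Y696 (NonsingRed Cur exists_cur)
open Pool.Agent.Y696.CTK
open Pool.Agent.Y715.T.Gi Pool.Agent.Y715.T.Nr Pool.Agent.Y715.T.Df Pool.Agent.Y715.T.Ell
open Pool.Agent.TH841.NF.D (Sha)
open Pool.Agent.Y715.T.Three (lam_ne sq_three)
open Pool.Agent.Helper68.C6 Pool.Agent.Helper68.C6.Sel6

variable {K : Type} [Field K] [NumberField K] (j : Ei ≃+* 𝓞 K)
variable {J : Type} [Fintype J] {π : J → Ei} {ε : J → ZMod 3} {κ : ZMod 3}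

/-- the group of points is finite and the `3`-part of Sha trivial exactly when the kernel is
trivial -/
theorem tri_iff (hD : Dt π ε) : Tri (j (pD6 π ε κ)) ↔ Ker6 π ε κ := by
  have P := parts
  have hne : pD6 π ε κ ≠ 0 := pD6_ne hD
  constructor
  · rintro ⟨h1, h2⟩
    by_contra hk
    obtain ⟨e, i₀, hi, u, a, Ψ, g, hdata⟩ := P.trf K j _ hne
    have hT := hdata.1
    have ha := a_ne hD hT
    have hM := P.mwc K j _ hne e i₀ hi u a Ψ g hdata ha h1
    have hS := P.shc P.plc K j _ hne e i₀ hi u a Ψ g hdata h2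
    have hsel := Pool.Agent.H70CT.t_SHC _ hne i₀ hi u a hT ha hS hM
    exact Selc6.selc6 hD hk hT hsel
  · intro hk
    exact ⟨(P.mwt P.trf K j _ hne fun i₀ hi u a hT => (descK hD hk hT).2).1,
      P.sht P.trf K j _ hne fun i₀ hi u a hT => (descK hD hk hT).1⟩

lemma pow_inj3 {Γ : Type} [LinearOrderedCommGroupWithZero Γ] {a b : Γ} (h : a ^ 3 = b ^ 3) :
    a = b := (pow_left_inj₀ zero_le zero_le three_ne_zero).1 h

/-- the law for one `D` -/
theorem law_of (hdisc : discr K = -3) (hD : Dt π ε) : Law3 (j (pD6 π ε κ)) := by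
  have P := parts
  have hne : pD6 π ε κ ≠ 0 := pD6_ne hD
  have htri := tri_iff (κ := κ) j hD
  obtain ⟨e, i₀, hi, u₀, a, Ψ, g₀', hdata⟩ := P.trf K j _ hne
  obtain ⟨ht1, ht2⟩ := P.tor K j _ hne e i₀ hi u₀ a Ψ g₀' hdata (a_ne hD hdata.1)
  obtain ⟨F, hF, hval⟩ := Val6.val_sq (κ := κ) hD
  obtain ⟨c, hc, hm⟩ := Tam6.tam6 (κ := κ) j hD
  set N := tors (j (pD6 π ε κ)) with hN
  have ht2' : padicValNat 3 N = 1 := ht2
  have hN0 : N ≠ 0 := by
    intro h
    rw [h] at ht2'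
    simp at ht2'
  obtain ⟨n', hn'⟩ : 3 ∣ N := by
    have := pow_padicValNat_dvd (p := 3) (n := N)
    rwa [ht2', pow_one] at this
  have hp3 : Fact (Nat.Prime 3) := ⟨Nat.prime_three⟩
  have hn3 : ¬ 3 ∣ n' := by
    rintro ⟨t, rfl⟩
    have h2 : 3 ^ 2 ∣ N := ⟨t, by rw [hn']; ring⟩
    have := (padicValNat_dvd_iff_le hN0).1 h2
    omega
  refine ⟨ht1, ht2, fun s => F s * (starRingEnd ℂ) (F ((starRingEnd ℂ) s)), c, diff_conj hF.1,
    fun s hs => LK6.LK j Pool.Agent.Y350.CT.rec hD F hF s hs, ?_, hc, fun σ => ?_⟩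
  · intro hT
    obtain ⟨V, hV⟩ := Pool.Agent.Y715.T.Fin.exists_over_three
    obtain ⟨Ω, hΩ, hC⟩ := exists_cur
    obtain ⟨g, g₀, -, hg2, -, hg0, hg⟩ := hval V.ValueGroup V.valuation hV _ Ω hC
    rw [hg2 (htri.1 hT), mul_one] at hg
    have hl : V.valuation Pool.Agent.Y715.T.Three.lam ≠ 0 := lam_ne
    have hg00 : g₀ ≠ 0 := by
      rintro rfl
      rw [zero_pow three_ne_zero] at hg0
      exact pow_ne_zero _ (mul_ne_zero hl hl) hg0.symm
    intro h0
    have h0' : F 1 * (starRingEnd ℂ) (F 1) = 0 := by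
      have : F 1 * (starRingEnd ℂ) (F ((starRingEnd ℂ) 1)) = 0 := h0
      rwa [map_one] at this
    rw [h0', zero_div, map_zero, zero_mul] at hg
    exact mul_ne_zero hg00 (pow_ne_zero _ (mul_ne_zero hl hl)) hg.symm
  set τ : Ei →+* ℂ := σ.comp ((algebraMap (𝓞 K) K).comp (j : Ei →+* 𝓞 K)) with hτ
  have hτa : ∀ z, τ z = σ (j z : K) := fun z => rfl
  set d : ℂ := σ (j (pD6 π ε κ) : K) with hd
  have hd0 : d ≠ 0 := by
    rw [hd, ← hτa]
    intro h
    apply hne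
    apply j.injective
    rw [map_zero]
    have h1 : ((j (pD6 π ε κ) : 𝓞 K) : K) = 0 := (map_eq_zero σ).1 h
    exact_mod_cast h1
  obtain ⟨u, hu⟩ := IsAlgClosed.exists_pow_nat_eq d (n := 3) (by norm_num)
  obtain ⟨hex, hall⟩ := PER d u hd0 hu
  refine ⟨hex, fun Λ k2 k3 => ?_⟩
  obtain ⟨L, Ω, hC, hA⟩ := hall Λ k2 k3
  have hΩ : Ω ≠ 0 := hC.lat.ne
  have hu0 : u ≠ 0 := by
    rintro rfl
    apply hd0
    rw [← hu]
    ring
  have hΩc : (starRingEnd ℂ) Ω ≠ 0 := (map_ne_zero _).2 hΩ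
  have huc : (starRingEnd ℂ) u ≠ 0 := (map_ne_zero _).2 hu0
  have hNC : (N : ℂ) ≠ 0 := by exact_mod_cast hN0
  have hs3 : ((Real.sqrt 3 : ℝ) : ℂ) ≠ 0 := by
    rw [Ne, Complex.ofReal_eq_zero]
    positivity
  have hA' : (((2 * |((starRingEnd ℂ) Λ.ω₁ * Λ.ω₂).im| : ℝ)) : ℂ) =
      ((Real.sqrt 3 : ℝ) : ℂ) * (Ω * (starRingEnd ℂ) Ω) / (u * (starRingEnd ℂ) u) := by
    rw [hA, Complex.mul_conj, Complex.mul_conj, Complex.normSq_eq_norm_sq,
      Complex.normSq_eq_norm_sq]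
    push_cast
    ring
  have hdis : ((Real.sqrt |(discr K : ℝ)| : ℝ) : ℂ) = ((Real.sqrt 3 : ℝ) : ℂ) := by
    rw [hdisc]
    norm_num
  refine ⟨F 1 * (starRingEnd ℂ) (F 1) / (Ω * (starRingEnd ℂ) Ω) * (u * (starRingEnd ℂ) u) *
    (N : ℂ) ^ 2 / 3 ^ (Fintype.card J + 1), ?_, ?_⟩
  · rw [hA', hdis, hm, ← hN]
    push_cast
    rw [map_one]
    field_simp
  · intro Γ _ v hv
    obtain ⟨g, g₀, hg1, hg2, hg3, hg0, hg⟩ := hval Γ v hv L Ω hC
    have hvN : v (N : ℂ) = v 3 := by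
      rw [hn']
      push_cast
      rw [map_mul, v_natp hv hn3, mul_one]
    have hunit : ∀ τ' : Ei →+* ℂ, v (τ' (pD6 π ε κ)) ^ 2 = v 3 := by
      intro τ'
      have hw : v (τ' w) = 1 := by
        refine Pool.Agent.Y715.T.Cg.z_pow (k := 3) (by norm_num) ?_
        rw [← map_pow]
        have : (w : Ei) ^ 3 = 1 := by decide
        rw [this, map_one]
      have hlam2 : v (τ' lam) ^ 2 = v 3 := by
        rw [← map_pow, ← map_pow, lam_sq, map_neg, Valuation.map_neg, map_ofNat]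
      unfold pD6
      rw [map_mul, map_mul, map_mul, map_mul, map_pow, map_pow, hw, one_pow, mul_one,
        v_emb_unit v hv τ' (pD_prim hD).1, mul_one, hlam2]
    have hl : v Pool.Agent.Y715.T.Three.lam ≠ 0 := lam_ne
    have hv3 : v 3 ≠ 0 := by
      rw [← sq_three]
      exact mul_ne_zero hl hl
    have hvu : (v u ^ 3) ^ 2 = v 3 := by
      rw [← map_pow, hu, hd, ← hτa]
      exact hunit τ
    have hvu' : (v ((starRingEnd ℂ) u) ^ 3) ^ 2 = v 3 := by
      have e1 : (starRingEnd ℂ) u ^ 3 = (starRingEnd ℂ) (u ^ 3) := (map_pow _ _ _).symm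
      rw [← map_pow v, e1, hu, hd, ← hτa]
      exact hunit ((starRingEnd ℂ).comp τ)
    rw [sq_three] at hg hg0
    have hcube : g₀ * (v u * v ((starRingEnd ℂ) u)) = v 3 ^ 3 := by
      apply pow_inj3
      have h1 : (v u * v ((starRingEnd ℂ) u)) ^ 3 = v 3 := by
        have h2 : ((v u * v ((starRingEnd ℂ) u)) ^ 3) ^ 2 = v 3 ^ 2 := by
          rw [mul_pow, mul_pow, hvu, hvu', pow_two]
        exact (pow_left_inj₀ zero_le zero_le two_ne_zero).1 h2
      rw [mul_pow, hg0, h1, ← pow_succ, ← pow_mul]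
    have key : v (F 1 * (starRingEnd ℂ) (F 1) / (Ω * (starRingEnd ℂ) Ω) *
        (u * (starRingEnd ℂ) u) * (N : ℂ) ^ 2 / 3 ^ (Fintype.card J + 1)) = g := by
      rw [map_div₀, map_mul, map_mul, map_mul v u, map_pow, map_pow, hvN]
      rw [div_eq_iff (pow_ne_zero _ hv3)]
      apply mul_left_cancel₀ (pow_ne_zero 4 hv3)
      calc v 3 ^ 4 * (v (F 1 * (starRingEnd ℂ) (F 1) / (Ω * (starRingEnd ℂ) Ω)) *
            (v u * v ((starRingEnd ℂ) u)) * v 3 ^ 2) =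
          (v (F 1 * (starRingEnd ℂ) (F 1) / (Ω * (starRingEnd ℂ) Ω)) * v 3 ^ 4) *
            (v u * v ((starRingEnd ℂ) u)) * v 3 ^ 2 := by ac_rfl
        _ = (g₀ * (v u * v ((starRingEnd ℂ) u))) * (v 3 ^ Fintype.card J * g * v 3 ^ 2) := by
            rw [hg]
            ac_rfl
        _ = v 3 ^ 3 * (v 3 ^ Fintype.card J * g * v 3 ^ 2) := by rw [hcube]
        _ = (v 3 ^ 3 * v 3 ^ 2) * (v 3 ^ Fintype.card J * g) := by ac_rfl
        _ = (v 3 ^ 4 * v 3) * (v 3 ^ Fintype.card J * g) := by rw [← pow_add, ← pow_succ]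
        _ = _ := by
            rw [pow_succ (v 3) (Fintype.card J)]
            ac_rfl
    rw [key]
    refine ⟨hg1, ?_⟩
    rw [htri]
    constructor
    · intro h
      by_contra hk
      exact absurd h (hg3 hk).ne
    · exact hg2

end Pool.Agent.Helper68.C6.Asm6
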