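import Pool.Agent.Helper68.C3.Stm

/-!
# The curves of `D` and `-D`: statement
-/

set_option autoImplicit false

open scoped Classical

namespace Pool.Agent.Helper68.C6

open NumberField
open Pool.Agent.Helper68.C3 (Part3)

/-- the statement does not depend on the sign of `D` (`(x, y) ↦ (x, -y)` is an isomorphism
`E_D → E_(-D)`) -/
def S_NEG : Prop := ∀ (K : Type) [Field K] [NumberField K] [IsCyclotomicExtension {3} ℚ K]
  (D : 𝓞 K), Part3 D → Part3 (-D)

end Pool.Agent.Helper68.C6
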