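import Pool.Agent.Helper68.C6.NGp
import Pool.Agent.Helper68.C6.NegD
import Pool.Graph.R_seed8.Y696.CTK.LF

/-!
# The statement does not depend on the sign of `D`
-/

set_option autoImplicit false
set_option linter.unusedSectionVars false

open scoped Classical

namespace Pool.Agent.Helper68.C6.NG

open NumberField IsDedekindDomain WeierstrassCurve
open Pool.Agent.W189.NF (aLoc eLoc aV eV locPS locPS_eq LFunction_eq)
open Pool.Agent.H921R2.TatePole (nm)
open Pool.Agent.Y698 (vc_int card_point AP AP_equiv)
open Pool.Agent.Y696 (NonsingRed)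
open Pool.Agent.Y696.CTK (ED ED_map ED_Δ ED_c₄ IsTam tors Tri EDr EDr_map coe_comp)
open Pool.Agent.Helper68.C3 (Part3)
open Pool.Agent.TH841.NF.D (Sha)

/-! ### Minimal equations and the variable change -/

section Local

variable (R : Type) [CommRing R] [IsDomain R] [IsDiscreteValuationRing R] {L : Type}
  [Field L] [Algebra R L] [IsFractionRing R L]

open IsDiscreteValuationRing

/-- the discriminants of two minimal equations of the same curve -/
lemma val_le {W W' : WeierstrassCurve L} [h : IsMinimal R W] [IsIntegral R W']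
    {C : VariableChange L} (hC : W' = C • W) :
    (maximalIdeal R).valuation L W'.Δ ≤ (maximalIdeal R).valuation L W.Δ := by
  obtain ⟨h1, h2⟩ := h.val_Δ_maximal
  have hint : IsIntegral R (C • W) := by rw [← hC]; infer_instance
  have h3 := h2 (j := C) hint
  simp only [one_smul] at h3
  have h4 : valuation_Δ_aux R (C • W) ≤ valuation_Δ_aux R W := by
    rcases le_total (valuation_Δ_aux R W) (valuation_Δ_aux R (C • W)) with h5 | h5
    · exact h3 h5
    · exact h5
  rw [← hC, ← Subtype.coe_le_coe, valuation_Δ_aux_eq_of_isIntegral,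
    valuation_Δ_aux_eq_of_isIntegral] at h4
  exact h4

lemma val_eq {W W' : WeierstrassCurve L} [h : IsMinimal R W] [IsMinimal R W']
    {C : VariableChange L} (hC : W' = C • W) :
    (maximalIdeal R).valuation L W'.Δ = (maximalIdeal R).valuation L W.Δ := by
  refine le_antisymm (val_le R hC) (val_le R (C := C⁻¹) ?_)
  rw [hC, inv_smul_smul]

/-- the local factors are those of the other curve -/
theorem loc_eq [Finite (IsLocalRing.ResidueField R)] {W W' : WeierstrassCurve L}
    {C : VariableChange L} (hC : W' = C • W) (h4 : W.c₄ = 0) :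
    aLoc R W' = aLoc R W ∧ eLoc R W' = eLoc R W := by
  have h4' : W'.c₄ = 0 := by rw [hC, variableChange_c₄, h4, mul_zero]
  have hnm : ∀ V : WeierstrassCurve L, V.c₄ = 0 → ¬ (V.minimal R).HasMultiplicativeReduction R := by
    intro V hV h
    have h1 := h.multiplicativeReduction
    obtain ⟨C₁, hC₁⟩ : ∃ C : VariableChange L, V.minimal R = C • V := ⟨_, rfl⟩
    rw [hC₁, variableChange_c₄, hV, mul_zero, map_zero] at h1
    exact zero_ne_one h1
  have hns : ∀ V : WeierstrassCurve L, V.c₄ = 0 →
      ¬ (V.minimal R).HasSplitMultiplicativeReduction R := fun V hV h =>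
    hnm V hV h.toHasMultiplicativeReduction
  obtain ⟨C₁, hC₁⟩ : ∃ C : VariableChange L, W.minimal R = C • W := ⟨_, rfl⟩
  obtain ⟨C₂, hC₂⟩ : ∃ C : VariableChange L, W'.minimal R = C • W' := ⟨_, rfl⟩
  have hC₃ : W'.minimal R = (C₂ * C * C₁⁻¹) • W.minimal R := by
    rw [hC₁, hC₂, hC, mul_smul, mul_smul, inv_smul_smul]
  have hval := val_eq R hC₃
  have hgg : (W'.minimal R).HasGoodReduction R ↔ (W.minimal R).HasGoodReduction R := by
    constructor
    · intro h
      exact ⟨by rw [← hval]; exact h.goodReduction⟩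
    · intro h
      exact ⟨by rw [hval]; exact h.goodReduction⟩
  unfold aLoc eLoc
  by_cases hg : (W.minimal R).HasGoodReduction R
  · have hg' := hgg.2 hg
    rw [if_pos hg, if_pos hg', if_pos hg, if_pos hg']
    refine ⟨?_, rfl⟩
    have hu : ∀ (V : WeierstrassCurve L) [IsMinimal R V], V.HasGoodReduction R →
        IsUnit (V.integralModel R).Δ := by
      intro V _ hV
      have h3 := hV.goodReduction
      rw [← integralModel_Δ_eq R V,
        IsDedekindDomain.HeightOneSpectrum.valuation_eq_one_iff_notMem] at h3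
      by_contra h4
      exact h3 ((IsLocalRing.mem_maximalIdeal _).2 h4)
    have h1 := hu _ hg
    have h2 := hu _ hg'
    obtain ⟨C₀, hC₀⟩ := vc_int R h1 h2 (C := C₂ * C * C₁⁻¹) (by
      have e1 := baseChange_integralModel_eq R (W.minimal R)
      have e2 := baseChange_integralModel_eq R (W'.minimal R)
      unfold WeierstrassCurve.baseChange at e1 e2
      rw [e1, e2, hC₃])
    have h3 : (W'.minimal R).reduction R = (C₀.map (IsLocalRing.residue R)) •
        (W.minimal R).reduction R := by
      unfold WeierstrassCurve.reduction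
      rw [hC₀, ← WeierstrassCurve.map_variableChange]
    have h4 : ((W'.minimal R).reduction R).Δ ≠ 0 := by
      unfold WeierstrassCurve.reduction
      rw [map_Δ]
      exact (h2.map _).ne_zero
    have h5 : ((W.minimal R).reduction R).Δ ≠ 0 := by
      unfold WeierstrassCurve.reduction
      rw [map_Δ]
      exact (h1.map _).ne_zero
    rw [card_point _ h4, card_point _ h5, h3, Nat.card_congr (AP_equiv _ _)]
  · have hg' := fun h => hg (hgg.1 h)
    rw [if_neg hg, if_neg hg', if_neg hg, if_neg hg', if_neg (hns _ h4), if_neg (hns _ h4'),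
      if_neg (hnm _ h4), if_neg (hnm _ h4')]
    exact ⟨rfl, rfl⟩

/-- the minimal equation -/
theorem isMin {W W' : WeierstrassCurve L} [h : IsMinimal R W] [hi : IsIntegral R W']
    {C : VariableChange L} (hC : W' = C • W) (hΔ : W'.Δ = W.Δ) : IsMinimal R W' := by
  refine ⟨⟨by
    show IsIntegral R ((1 : VariableChange L) • W')
    rw [one_smul]
    exact hi, fun j hj _ => ?_⟩⟩
  have e : j • W' = (j * C) • W := by rw [hC, mul_smul]
  have := hj
  have h3 := val_le R (W := W) (W' := j • W') e
  simp only [one_smul]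
  rw [← Subtype.coe_le_coe, valuation_Δ_aux_eq_of_isIntegral,
    valuation_Δ_aux_eq_of_isIntegral, hΔ]
  exact h3

end Local

/-! ### The curves of `D` and `-D` -/

/-- the variable change -/
def Cn (L : Type) [Field L] : VariableChange L := ⟨-1, 0, 0, 0⟩

lemma ED_Cn {L : Type} [Field L] (D : L) : ED (-D) = Cn L • ED D := by
  have e : (((-1 : Lˣ)⁻¹ : Lˣ) : L) = -1 := by simp
  ext
  · rw [variableChange_a₁]
    simp [ED, Cn]
  · rw [variableChange_a₂]
    simp [ED, Cn]
  · rw [variableChange_a₃]
    simp only [ED, Cn, e]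
    ring
  · rw [variableChange_a₄]
    simp [ED, Cn]
  · rw [variableChange_a₆]
    simp [ED, Cn]

lemma ED_Ng {L : Type} [Field L] (D : L) : Ng (ED D) (ED (-D)) :=
  ⟨by simp [ED], by simp [ED], by simp [ED], by simp [ED], by simp [ED]⟩

section
variable {K : Type} [Field K] [NumberField K]

lemma bc {L : Type} [Field L] [Algebra K L] (D : K) :
    (ED D).baseChange L = ED (algebraMap K L D) := ED_map _ _

lemma bc_Cn {L : Type} [Field L] [Algebra K L] (D : K) :
    (ED (-D)).baseChange L = Cn L • (ED D).baseChange L := by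
  rw [bc, bc, map_neg, ED_Cn]

theorem LF_eq (D : K) : (ED (-D)).LFunction = (ED D).LFunction := by
  rw [LFunction_eq, LFunction_eq]
  congr 1
  funext v
  rw [locPS_eq, locPS_eq]
  have := Pool.Agent.W189.NF.finite_res v
  obtain ⟨h1, h2⟩ := loc_eq (v.adicCompletionIntegers K) (bc_Cn (L := v.adicCompletion K) D) (by
    rw [bc, ED_c₄])
  have e1 : aV (ED (-D)) v = aV (ED D) v := h1
  have e2 : eV (ED (-D)) v = eV (ED D) v := h2
  rw [e1, e2]

theorem tam (D : 𝓞 K) {c : HeightOneSpectrum (𝓞 K) → ℕ} (h : IsTam (ED (D : K)) c) :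
    IsTam (ED (-(D : K))) c := by
  refine ⟨fun v => ?_, h.2⟩
  obtain ⟨h1, H, hH, hc⟩ := h.1 v
  constructor
  · have : IsIntegral (v.adicCompletionIntegers K)
        ((ED (-(D : K))).baseChange (v.adicCompletion K)) := by
      refine ⟨⟨EDr (algebraMap (𝓞 K) (v.adicCompletionIntegers K) (-D)), ?_⟩⟩
      unfold WeierstrassCurve.baseChange
      rw [ED_map, EDr_map, coe_comp]
      rfl
    refine isMin _ (bc_Cn _) ?_
    rw [bc, bc, ED_Δ, ED_Δ, map_neg]
    ring
  · have hn : Ng ((ED (D : K)).baseChange (v.adicCompletion K))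
        ((ED (-(D : K))).baseChange (v.adicCompletion K)) := (ED_Ng (D : K)).base _
    refine ⟨H.map (nge hn).toAddMonoidHom, fun P => ?_, ?_⟩
    · have key : ∀ Q, NonsingRed Valued.v ((ED (-(D : K))).baseChange (v.adicCompletion K))
          (nge hn Q) ↔ NonsingRed Valued.v ((ED (D : K)).baseChange (v.adicCompletion K)) Q := by
        intro Q
        cases Q with
        | zero => exact Iff.rfl
        | some x y hxy =>
          show (1 ≤ Valued.v (2 * (-y) + ((ED (-(D : K))).baseChange (v.adicCompletion K)).a₁ * x +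
              ((ED (-(D : K))).baseChange (v.adicCompletion K)).a₃) ∨
            1 ≤ Valued.v (3 * x ^ 2 + 2 * ((ED (-(D : K))).baseChange (v.adicCompletion K)).a₂ * x +
              ((ED (-(D : K))).baseChange (v.adicCompletion K)).a₄ -
              ((ED (-(D : K))).baseChange (v.adicCompletion K)).a₁ * (-y))) ↔
            (1 ≤ Valued.v (2 * y + ((ED (D : K)).baseChange (v.adicCompletion K)).a₁ * x +
              ((ED (D : K)).baseChange (v.adicCompletion K)).a₃) ∨
            1 ≤ Valued.v (3 * x ^ 2 + 2 * ((ED (D : K)).baseChange (v.adicCompletion K)).a₂ * x +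
              ((ED (D : K)).baseChange (v.adicCompletion K)).a₄ -
              ((ED (D : K)).baseChange (v.adicCompletion K)).a₁ * y))
          rw [hn.a₁, hn.a₂, hn.a₃, hn.a₄]
          have e1 : ∀ a b : v.adicCompletion K, 2 * (-y) + -a * x + -b =
              -(2 * y + a * x + b) := fun a b => by ring
          rw [e1, Valuation.map_neg, neg_mul_neg]
      rw [← (nge hn).apply_symm_apply P, key]
      generalize (nge hn).symm P = Q
      rw [← hH]
      constructor
      · rintro ⟨Q', hQ', h2⟩
        have : Q' = Q := (nge hn).injective h2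
        rwa [← this]
      · intro hQ
        exact ⟨Q, hQ, rfl⟩
    · rw [← hc]
      exact AddSubgroup.index_map_equiv H (nge hn)

theorem tri (D : 𝓞 K) (h : Tri D) : Tri (-D) := by
  have e : ((-D : 𝓞 K) : K) = -(D : K) := rfl
  constructor
  · rw [e]
    have := h.1
    exact Finite.of_equiv _ (nge (ED_Ng (D : K))).toEquiv
  · rw [e]
    exact fun n => sha_tr (ED_Ng (D : K)) (3 ^ n) (h.2 n)

theorem tors_eq (D : 𝓞 K) : tors (-D) = tors D := by
  have e : ((-D : 𝓞 K) : K) = -(D : K) := rfl
  unfold tors
  rw [e]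
  have h := nge (ED_Ng (D : K))
  refine (Nat.card_congr ?_).symm
  exact (Equiv.subtypeEquiv h.toEquiv fun P => by
    show P ∈ AddCommGroup.torsion _ ↔ h P ∈ AddCommGroup.torsion _
    constructor
    · exact fun hP => h.toAddMonoidHom.isOfFinAddOrder hP
    · intro hP
      have := h.symm.toAddMonoidHom.isOfFinAddOrder hP
      rwa [show h.symm.toAddMonoidHom (h P) = P from h.symm_apply_apply P] at this)

end

theorem s_NEG : S_NEG := by
  intro K _ _ _ D h
  obtain ⟨h1, Lf, c, h2, h3, h4, h5, h6⟩ := h
  refine ⟨tri D h1, Lf, c, h2, ?_, h4, tam D h5, ?_⟩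
  · intro s hs
    have e : ((-D : 𝓞 K) : K) = -(D : K) := rfl
    obtain ⟨h7, h8⟩ := h3 s hs
    rw [e, LF_eq]
    refine ⟨h7, h8.trans ?_⟩
    unfold WeierstrassCurve.LSeries
    rw [LF_eq]
  · intro σ
    have e : (σ ((-D : 𝓞 K) : K)) ^ 2 = (σ (D : K)) ^ 2 := by
      have e' : ((-D : 𝓞 K) : K) = -(D : K) := rfl
      rw [e', map_neg, neg_sq]
    rw [e, tors_eq]
    exact h6 σ

end Pool.Agent.Helper68.C6.NG
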