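import Pool.Agent.Helper68.C2.Comb2
import Pool.Agent.Helper68.C6.PW

/-!
# Bordered Laplacian determinants (proof of S_Q, written by seat helper48)
-/

set_option autoImplicit false
set_option linter.unusedSectionVars false

open Finset

namespace Pool.Agent.Helper68.C6.PQ

open Pool.Agent.Helper68.C6 Pool.Agent.Helper68.C6.PW

section det

variable {ι F : Type} [Fintype ι] [DecidableEq ι] [Field F] (a : ι → ι → F)

/-- the bordered Laplacian of `T` -/
def Bm (T : Finset ι) (b f lam : ι → F) (c : F) : Matrix (Option ι) (Option ι) F
  | some i, some j => if i ∈ T then (if i = j then b i + ∑ l ∈ T.erase i, a i l else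
      if j ∈ T then -a i j else 0) else (if i = j then 1 else 0)
  | some i, none => if i ∈ T then -lam i else 0
  | none, some j => if j ∈ T then f j else 0
  | none, none => c

/-- the principal minor -/
def Dd (T : Finset ι) (b : ι → F) : F := (Bm a T b 0 0 1).det

/-- the column of the root is irrelevant if the row is the identity row -/
lemma det_Bm_zero (T : Finset ι) (b lam : ι → F) : (Bm a T b 0 lam 1).det = Dd a T b := by
  unfold Dd
  refine Matrix.det_eq_of_forall_row_eq_smul_add_const
    (fun x => match x with | none => 0 | some i => if i ∈ T then -lam i else 0) none rfl ?_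
  intro x y
  rcases x with _ | i <;> rcases y with _ | j <;> simp [Bm]

open Pool.Agent.Helper68.C2.Comb2 Pool.Agent.Y715.T.Comb in
lemma D_eq (T : Finset ι) (b : ι → F) : D (ap a b 0) dn (up T) = Dd a T b := by
  rw [← det_Bm_zero a T b b]
  unfold D up
  rw [Finset.sum_insert (none_notMem T)]
  have h1 : ∑ x ∈ T.map Function.Embedding.some, dn x *
      w (ap a b 0) (insert none (T.map Function.Embedding.some)) x = 0 := by
    refine Finset.sum_eq_zero fun x hx => ?_
    rcases x with _ | i
    · exact absurd hx (none_notMem T)
    · show (0 : F) * _ = 0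
      rw [zero_mul]
  rw [h1, add_zero]
  show (1 : F) * _ = _
  rw [one_mul, w]
  congr 1
  ext x y
  rcases x with _ | i
  · rcases y with _ | j <;> simp [V, Bm]
  · by_cases hi : i ∈ T
    · rcases y with _ | j
      · simp [V, Bm, hi, ap]
      · by_cases hij : i = j
        · subst hij
          simp only [V, Bm, hi, Matrix.of_apply, if_true, mem_insert, mem_map,
            Function.Embedding.some_apply, Option.some.injEq, exists_eq_right, reduceCtorEq,
            false_or, not_true_eq_false, or_self, if_false]
          rw [Finset.sum_insert (none_notMem T), Finset.sum_map]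
          simp only [ap, reduceCtorEq, if_false, Function.Embedding.some_apply,
            Option.some.injEq]
          rw [Finset.sum_ite, Finset.sum_const_zero, zero_add]
          congr 1
          refine Finset.sum_congr ?_ fun _ _ => rfl
          ext x
          simp only [mem_filter, mem_erase]
          tauto
        · simp [V, Bm, hi, ap, hij]
    · rcases y with _ | j <;> simp [V, Bm, hi]

open Pool.Agent.Helper68.C2.Comb2 in
/-- the recursion for the principal minors -/
lemma Dd_rec (b : ι → F) (S : Finset ι) (hS : S.Nonempty) :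
    ∑ T ∈ S.powerset, (-1) ^ T.card * (Dd a T b * ∏ i ∈ S \ T, (b i + ∑ j ∈ T, a i j)) = 0 := by
  have h := D_rec2 a b 0 S hS
  simpa only [D_eq] using h

open Pool.Agent.Helper68.C2.Comb2 in
lemma Dd_empty (b : ι → F) : Dd a ∅ b = 1 := by
  rw [← D_eq, D_empty]

/-- expansion along the row of the root: one term -/
lemma det_row (T : Finset ι) (b f lam : ι → F) (c : F) {u : ι} (hu : u ∈ T) :
    ((Bm a T b f lam c).updateRow none (Pi.single (some u) 1)).det =
      (Bm a (T.erase u) (fun i => b i + a i u) (a u) lam (lam u)).det := by
  set X := (Bm a T b f lam c).updateRow none (Pi.single (some u) 1) with hX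
  set Z := Bm a (T.erase u) (fun i => b i + a i u) (a u) lam (lam u) with hZ
  have h1 : (X.submatrix (Equiv.swap none (some u)) id).det = - X.det := by
    rw [Matrix.det_permute, Equiv.Perm.sign_swap (by simp)]
    simp
  have h2 : (Z.updateRow none ((-1 : F) • Z none)).det = - Z.det := by
    rw [Matrix.det_updateRow_smul, Matrix.updateRow_eq_self]
    ring
  have h3 : (X.submatrix (Equiv.swap none (some u)) id).det =
      (Z.updateRow none ((-1 : F) • Z none)).det := by
    refine Matrix.det_eq_of_forall_row_eq_smul_add_const
      (fun x => match x with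
        | none => b u + ∑ l ∈ T.erase u, a u l
        | some i => if i = u then 0 else if i ∈ T then -a i u else 0) (some u) (by simp) ?_
    intro x y
    rcases x with _ | i
    · simp only [Matrix.submatrix_apply, Equiv.swap_apply_left, id, Matrix.updateRow_self]
      rw [hX, Matrix.updateRow_ne (by simp), Matrix.updateRow_ne (by simp)]
      rcases y with _ | j
      · simp [Bm, hu, hZ]
      · by_cases hj : u = j
        · subst hj
          simp [Bm, hu, hZ]
        · by_cases hjT : j ∈ T
          · simp [Bm, hu, hZ, hj, hjT, Ne.symm hj]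
          · simp [Bm, hu, hZ, hj, hjT]
    · by_cases hiu : i = u
      · subst hiu
        simp only [Matrix.submatrix_apply, Equiv.swap_apply_right, id]
        rw [hX, Matrix.updateRow_self, Matrix.updateRow_ne (by simp)]
        rcases y with _ | j
        · simp [Bm, hZ]
        · by_cases hj : i = j
          · subst hj
            simp [Bm, hZ]
          · simp [Bm, hZ, hj, Ne.symm hj]
      · have hs : Equiv.swap none (some u) (some i) = some i :=
          Equiv.swap_apply_of_ne_of_ne (by simp) (by simpa using hiu)
        simp only [Matrix.submatrix_apply, hs, id]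
        rw [hX, Matrix.updateRow_ne (by simp), Matrix.updateRow_ne (by simp),
          Matrix.updateRow_ne (by simp)]
        rcases y with _ | j
        · by_cases hi : i ∈ T <;> simp [Bm, hZ, hi, hiu]
        · by_cases hi : i ∈ T
          · by_cases hij : i = j
            · subst hij
              have e1 : ∑ l ∈ T.erase i, a i l = a i u + ∑ l ∈ (T.erase u).erase i, a i l := by
                rw [erase_right_comm (s := T) (a := u) (b := i),
                  Finset.add_sum_erase _ _ (mem_erase.2 ⟨fun h => hiu h.symm, hu⟩)]
              have hiu' : ¬ u = i := fun h => hiu h.symm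
              simp only [Bm, hZ, hi, if_true, mem_erase, hiu, ne_eq, not_false_eq_true, true_and,
                not_true_eq_false, false_and, if_false, hiu', e1]
              ring
            · by_cases hju : u = j
              · subst hju
                simp [Bm, hZ, hi, hij, hu]
              · have hju' : ¬ j = u := fun h => hju h.symm
                by_cases hj : j ∈ T <;> simp [Bm, hZ, hi, hij, hju, hju', hj, hiu]
          · by_cases hij : i = j
            · subst hij
              simp [Bm, hZ, hi]
            · simp [Bm, hZ, hi, hij]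
  rw [h1, h2] at h3
  exact neg_inj.1 h3

/-- expansion along the row of the root -/
lemma det_expand (T : Finset ι) (b f lam : ι → F) (c : F) :
    (Bm a T b f lam c).det = c * Dd a T b + ∑ u ∈ T, f u *
      (Bm a (T.erase u) (fun i => b i + a i u) (a u) lam (lam u)).det := by
  rw [Matrix.det_eq_sum_mul_adjugate_row _ none, Fintype.sum_option]
  have h1 : (Bm a T b f lam c).adjugate none none = Dd a T b := by
    rw [Matrix.adjugate_apply, ← det_Bm_zero a T b lam]
    congr 1
    ext x y
    rcases x with _ | i
    · rw [Matrix.updateRow_self]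
      rcases y with _ | j <;> simp [Bm]
    · rw [Matrix.updateRow_ne (by simp)]
      rcases y with _ | j <;> simp [Bm]
  rw [h1]
  congr 1
  rw [← Finset.sum_subset (Finset.subset_univ T)]
  · refine Finset.sum_congr rfl fun u hu => ?_
    rw [Matrix.adjugate_apply, det_row a T b f lam c hu]
    simp [Bm, hu]
  · intro u _ hu
    simp [Bm, hu]

/-- all paths -/
lemma det_paths (lam : ι → F) : ∀ (n : ℕ) (T : Finset ι), T.card = n → ∀ (b f : ι → F) (c : F),
    (Bm a T b f lam c).det = c * Dd a T b + ∑ P ∈ T.powerset with P.Nonempty,
      Hm a f lam P * Dd a (T \ P) (fun i => b i + ∑ j ∈ P, a i j) := by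
  intro n
  induction n using Nat.strong_induction_on with
  | _ n ih =>
    intro T hn b f c
    rw [det_expand]
    congr 1
    have e1 : ∀ u ∈ T, f u * (Bm a (T.erase u) (fun i => b i + a i u) (a u) lam (lam u)).det =
        ∑ P ∈ (T.erase u).powerset, f u * (hq a lam P u *
          Dd a (T.erase u \ P) (fun i => b i + a i u + ∑ j ∈ P, a i j)) := by
      intro u hu
      rw [ih (T.erase u).card (by rw [← hn]; exact card_erase_lt_of_mem hu) _ rfl,
        ← Finset.mul_sum, split_empty, hq_empty, sdiff_empty]
      congr 1
      congr 1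
      · simp
      · refine Finset.sum_congr rfl fun P hP => ?_
        rw [mem_filter] at hP
        rw [hq_Hm a _ hP.2]
    rw [Finset.sum_congr rfl e1, reindex]
    refine Finset.sum_congr rfl fun P hP => ?_
    rw [mem_filter, mem_powerset] at hP
    rw [Hm, Finset.sum_mul]
    refine Finset.sum_congr rfl fun u hu => ?_
    have h1 : T.erase u \ P.erase u = T \ P := by
      ext x
      simp only [mem_sdiff, mem_erase]
      constructor
      · rintro ⟨⟨h1, h2⟩, h3⟩
        exact ⟨h2, fun h => h3 ⟨h1, h⟩⟩
      · rintro ⟨h1, h2⟩
        exact ⟨⟨fun h => h2 (h ▸ hu), h1⟩, fun h => h2 h.2⟩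
    have h2 : (fun i => b i + a i u + ∑ j ∈ P.erase u, a i j) =
        fun i => b i + ∑ j ∈ P, a i j := by
      funext i
      rw [← Finset.add_sum_erase _ _ hu, add_assoc]
    rw [h1, h2, mul_assoc]

/-- the sum over pairs of subsets -/
lemma sum_pairs (S : Finset ι) (G : Finset ι → Finset ι → F) :
    ∑ T ∈ S.powerset, ∑ P ∈ T.powerset with P.Nonempty, G P T =
      ∑ P ∈ S.powerset with P.Nonempty, ∑ T ∈ (S \ P).powerset, G P (P ∪ T) := by
  rw [Finset.sum_sigma', Finset.sum_sigma']
  refine Finset.sum_bij' (fun x _ => ⟨x.2, x.1 \ x.2⟩) (fun x _ => ⟨x.1 ∪ x.2, x.1⟩) ?_ ?_ ?_ ?_ ?_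
  · rintro ⟨T, P⟩ h
    simp only [mem_sigma, mem_powerset, mem_filter] at h ⊢
    exact ⟨⟨h.2.1.trans h.1, h.2.2⟩, sdiff_subset_sdiff h.1 (le_refl _)⟩
  · rintro ⟨P, T⟩ h
    simp only [mem_sigma, mem_powerset, mem_filter] at h ⊢
    exact ⟨union_subset h.1.1 (h.2.trans sdiff_subset), subset_union_left, h.1.2⟩
  · rintro ⟨T, P⟩ h
    simp only [mem_sigma, mem_powerset, mem_filter] at h ⊢
    congr 1
    exact union_sdiff_of_subset h.2.1
  · rintro ⟨P, T⟩ h
    simp only [mem_sigma, mem_powerset, mem_filter] at h ⊢
    congr 1
    rw [union_sdiff_left]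
    apply sdiff_eq_self_of_disjoint
    exact (disjoint_sdiff (s := P) (t := S)).symm.mono_left h.2
  · rintro ⟨T, P⟩ h
    simp only [mem_sigma, mem_powerset, mem_filter] at h ⊢
    rw [union_sdiff_of_subset h.2.1]

theorem s_Q : S_Q := by
  intro ι F _ _ _ a b f lam c
  refine ⟨fun T => (Bm a T b f lam c).det, ?_, ?_, ?_⟩
  · show (Bm a ∅ b f lam c).det = c
    rw [det_expand, Dd_empty]
    simp
  · intro S hS
    show ∑ T ∈ S.powerset, (-1) ^ T.card *
      ((Bm a T b f lam c).det * ∏ i ∈ S \ T, (b i + ∑ j ∈ T, a i j)) = _
    have e1 : ∀ T ∈ S.powerset, (-1) ^ T.card *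
        ((Bm a T b f lam c).det * ∏ i ∈ S \ T, (b i + ∑ j ∈ T, a i j)) =
        c * ((-1) ^ T.card * (Dd a T b * ∏ i ∈ S \ T, (b i + ∑ j ∈ T, a i j))) +
        ∑ P ∈ T.powerset with P.Nonempty, Hm a f lam P * ((-1) ^ T.card *
          (Dd a (T \ P) (fun i => b i + ∑ j ∈ P, a i j) * ∏ i ∈ S \ T, (b i + ∑ j ∈ T, a i j))) := by
      intro T _
      rw [det_paths a lam _ T rfl, add_mul, mul_add, Finset.sum_mul, Finset.mul_sum]
      congr 1
      · ring
      · exact Finset.sum_congr rfl fun P _ => by ring
    rw [Finset.sum_congr rfl e1, Finset.sum_add_distrib, ← Finset.mul_sum, Dd_rec a b S hS,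
      mul_zero, zero_add, sum_pairs S (fun P T => Hm a f lam P * ((-1) ^ T.card *
          (Dd a (T \ P) (fun i => b i + ∑ j ∈ P, a i j) * ∏ i ∈ S \ T, (b i + ∑ j ∈ T, a i j)))),
      Finset.sum_eq_single S]
    · simp only [Finset.sdiff_self, powerset_empty, Finset.sum_singleton, union_empty,
        Finset.prod_empty, Dd_empty]
      ring
    · intro P hP hne
      rw [mem_filter, mem_powerset] at hP
      have hne' : (S \ P).Nonempty := by
        rw [nonempty_iff_ne_empty]
        intro h
        rw [sdiff_eq_empty_iff_subset] at h
        exact hne (subset_antisymm hP.1 h)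
      have h1 := Dd_rec a (fun i => b i + ∑ j ∈ P, a i j) (S \ P) hne'
      have e2 : ∀ T ∈ (S \ P).powerset, Hm a f lam P * ((-1) ^ (P ∪ T).card *
          (Dd a ((P ∪ T) \ P) (fun i => b i + ∑ j ∈ P, a i j) *
            ∏ i ∈ S \ (P ∪ T), (b i + ∑ j ∈ P ∪ T, a i j))) =
          (Hm a f lam P * (-1) ^ P.card) * ((-1) ^ T.card *
          (Dd a T (fun i => b i + ∑ j ∈ P, a i j) *
            ∏ i ∈ (S \ P) \ T, (b i + ∑ j ∈ P, a i j + ∑ j ∈ T, a i j))) := by
        intro T hT
        rw [mem_powerset] at hT
        have hd : Disjoint P T := (disjoint_sdiff (s := P) (t := S)).mono_right hT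
        have h2 : (P ∪ T) \ P = T := by
          rw [union_sdiff_left]
          exact sdiff_eq_self_of_disjoint hd.symm
        have h3 : ∀ i, b i + ∑ j ∈ P ∪ T, a i j = b i + ∑ j ∈ P, a i j + ∑ j ∈ T, a i j := by
          intro i
          rw [Finset.sum_union hd, add_assoc]
        have h4 : S \ (P ∪ T) = (S \ P) \ T := by
          ext x
          simp only [mem_sdiff, mem_union]
          tauto
        rw [h2, card_union_of_disjoint hd, pow_add, h4]
        simp only [h3]
        change _ = (Hm a f lam P * (-1) ^ P.card) * ((-1) ^ T.card *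
          (Dd a T (fun i => b i + ∑ j ∈ P, a i j) *
            ∏ i ∈ (S \ P) \ T, (b i + ∑ j ∈ P, a i j + ∑ j ∈ T, a i j)))
        ring
      rw [Finset.sum_congr rfl e2, ← Finset.mul_sum, h1, mul_zero]
    · intro h
      exact absurd (mem_filter.2 ⟨mem_powerset.2 (le_refl _), hS⟩) h
  · show (Bm a Finset.univ b f lam c).det ≠ 0 ↔ _
    have hmul : ∀ w : Option ι → F, ∀ i : ι, (Matrix.mulVec (Bm a Finset.univ b f lam c) w) (some i) =
        b i * w (some i) - lam i * w none - ∑ j, a i j * (w (some j) - w (some i)) := by
      intro w i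
      rw [Matrix.mulVec, dotProduct, Fintype.sum_option]
      simp only [Bm, Finset.mem_univ, if_true]
      have e1 : ∑ j, (if i = j then b i + ∑ l ∈ Finset.univ.erase i, a i l else -a i j) * w (some j) =
          (b i + ∑ l ∈ Finset.univ.erase i, a i l) * w (some i) -
            ∑ j ∈ Finset.univ.erase i, a i j * w (some j) := by
        rw [← Finset.add_sum_erase _ _ (Finset.mem_univ i), if_pos rfl, sub_eq_add_neg,
          ← Finset.sum_neg_distrib]
        congr 1
        refine Finset.sum_congr rfl fun j hj => ?_
        rw [if_neg (fun h => (mem_erase.1 hj).1 h.symm)]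
        ring
      have e2 : ∑ j, a i j * (w (some j) - w (some i)) =
          ∑ j ∈ Finset.univ.erase i, a i j * w (some j) -
            (∑ l ∈ Finset.univ.erase i, a i l) * w (some i) := by
        rw [← Finset.add_sum_erase _ _ (Finset.mem_univ i), sub_self, mul_zero, zero_add,
          Finset.sum_mul, ← Finset.sum_sub_distrib]
        exact Finset.sum_congr rfl fun j _ => by ring
      rw [e1, e2]
      ring
    have hmul0 : ∀ w : Option ι → F, (Matrix.mulVec (Bm a Finset.univ b f lam c) w) none =
        c * w none + ∑ j, f j * w (some j) := by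
      intro w
      rw [Matrix.mulVec, dotProduct, Fintype.sum_option]
      simp [Bm]
    rw [ne_eq, ← Matrix.exists_mulVec_eq_zero_iff]
    constructor
    · intro h v s h1 h2
      by_contra hc
      apply h
      refine ⟨fun x => match x with | none => s | some i => v i, ?_, ?_⟩
      · intro h0
        apply hc
        exact ⟨fun i => congrFun h0 (some i), congrFun h0 none⟩
      · funext x
        rcases x with _ | i
        · rw [hmul0]
          exact h2
        · rw [hmul]
          have := h1 i
          show b i * v i - lam i * s - ∑ j, a i j * (v j - v i) = 0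
          rw [this]
          ring
    · rintro h ⟨w, hw, h0⟩
      apply hw
      have h1 := h (fun i => w (some i)) (w none) (fun i => by
        have := congrFun h0 (some i)
        rw [hmul] at this
        simp only [Pi.zero_apply] at this
        linear_combination -this) (by
        have := congrFun h0 none
        rw [hmul0] at this
        exact this)
      funext x
      rcases x with _ | i
      · exact h1.2
      · exact h1.1 i

end det

end Pool.Agent.Helper68.C6.PQ
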