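import Pool.Agent.Helper68.C6.Mom6c

/-!
# The sums modulo the maximal ideal, inverse characters modulo nine
-/

set_option autoImplicit false
set_option linter.unusedSectionVars false

open Filter
open scoped Topology PeriodPair Classical

namespace Pool.Agent.Helper68.C6.Rec6

open H667R3 Pool.Agent.W192.HK Pool.Agent.TH936.CM Pool.Agent.TH936.PU
open Pool.Agent.Y692.QS (Ei w toC nr nr_nonneg)
open Pool.Agent.Y703.CT
open Pool.Agent.Y715.Dist Pool.Agent.Y715.Idn Pool.Agent.Y715.T.Lat Pool.Agent.Y696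
open Pool.Agent.Y715.Two (v_int v_unit v_mul_le_of)
open Pool.Agent.Y715.T.Three Pool.Agent.Y715.T.Cg
open Pool.Agent.Y715.T.Rs (eq0)
open Pool.Agent.Y715.T.Rec (cs)
open Pool.Agent.Y715.T.RecG (Pq cs_mul cs_congr)
open Pool.Agent.Y703.CT.Ana (PX PX_zero PX_le sum_PX)
open Pool.Agent.Helper68.C5.Chr5 Pool.Agent.Helper68.C5.Lim5 Pool.Agent.Helper68.C6.Lim6
open Pool.Agent.Helper68.C2.Chr (tq)
open Pool.Agent.Helper68.C6.Ana6 Pool.Agent.Helper68.C6 Pool.Agent.Helper68.C6.PW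
open Pool.Agent.Helper68.C6.Mom6

variable {Γ : Type*} [LinearOrderedCommGroupWithZero Γ] {v : Valuation ℂ Γ}
variable {ι : Type} {π : ι → Ei} {e : ι → ZMod 3} {L : PeriodPair} {Ω : ℂ} {κ : ZMod 3}

/-- the sum for the three characters -/
noncomputable def SQ6 [DecidableEq ι] [Fintype (eis ⧸ (sp ff : Ideal eis))] (L : PeriodPair)
    (Ω : ℂ) (κ : ZMod 3) (π : ι → eis) (X : ι → eis → ℂ) (T : Finset ι) : ℂ :=
  ∑ j : Fin 3, SP L Ω ff (e6 κ j) (E6 L Ω κ j) π X T

/-- the normalized sums -/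
noncomputable def sT6 [DecidableEq ι] [Fintype (eis ⧸ (sp ff : Ideal eis))] (L : PeriodPair)
    (Ω : ℂ) (κ : ZMod 3) (π : ι → Ei) (e : ι → ZMod 3) (T : Finset ι) : ℂ :=
  SQ6 L Ω κ (fun i => eq0 (π i)) (Xc π e) T / (6 * ep L Ω * (1 - toC w) ^ T.card)

section one

variable [DecidableEq ι] [Fintype (eis ⧸ (sp ff : Ideal eis))]

lemma SQ_empty {P : ι → eis} {X : ι → eis → ℂ} :
    SQ6 L Ω κ P X ∅ = 6 * f6 L Ω κ (w0 Ω) := by
  unfold SQ6
  rw [Finset.sum_congr rfl fun j _ => SP_empty Pool.Agent.Y715.T.LF.fin_quot,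
    Fin.sum_univ_three]
  unfold E6
  rw [if_pos rfl, if_neg (by decide), if_neg (by decide)]
  ring

variable (h3 : v 3 < 1) (hC : Cur L Ω) (h : Dt π e)

include h3 hC h in
/-- the identity -/
theorem idn (S : Finset ι) :
    3 * Sm (cc (fun i => eq0 (π i)) S) (fun x => PX (fun i => eq0 (π i)) (Xc π e) S x *
      F2 L Ω κ (Ω * x / cc (fun i => eq0 (π i)) S)) =
      ∑ T ∈ S.powerset, (-1) ^ T.card * ((∏ i ∈ S \ T, (((eq0 (π i) : eis) : ℂ) *
        toC w ^ (ts κ (π i)).val - XT (Xc π e) T (eq0 (π i)))) *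
        SQ6 L Ω κ (fun i => eq0 (π i)) (Xc π e) T) := by
  have hfin := Pool.Agent.Y715.T.LF.fin_quot
  have hfy := fy (v := v) h3 h
  set P : ι → eis := fun i => eq0 (π i) with hP
  have hfπ : ∀ i, IsCoprime ff (P i) := fun i => by
    unfold ff
    exact (hfy.three i).mul_left (hfy.three i)
  have h4 : ∑ T ∈ S.powerset, (-1) ^ T.card * ((∏ i ∈ S \ T, ((P i : ℂ) *
        toC w ^ (ts κ (π i)).val - XT (Xc π e) T (P i))) * SQ6 L Ω κ P (Xc π e) T) =
      ∑ j : Fin 3, ∑ T ∈ S.powerset, (-1) ^ T.card *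
          ((∏ i ∈ S \ T, ((P i : ℂ) * toC w ^ (ts κ (π i)).val - XT (Xc π e) T (P i))) *
            SP L Ω ff (e6 κ j) (E6 L Ω κ j) P (Xc π e) T) := by
    rw [Finset.sum_comm]
    refine Finset.sum_congr rfl fun T _ => ?_
    unfold SQ6
    rw [Finset.mul_sum, Finset.mul_sum]
  rw [h4, Finset.sum_congr rfl fun j _ => (Pool.Agent.Helper68.C2.Dist.main hC.lat hfin ff_ne
    (Xc_fm h) hfπ (eo_6 κ j) (η := fun i => toC w ^ (ts κ (π i)).val)
    (fun i => e6_val h.pq i j) (lim_6 hC j) S).symm, ← Sm_mul_left]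
  unfold Sm
  rw [Finset.sum_comm]
  refine Finset.sum_congr rfl fun x _ => ?_
  show 3 * (PX P (Xc π e) S x * F2 L Ω κ (Ω * x / cc P S)) =
    ∑ j : Fin 3, PX P (Xc π e) S x * Ph L Ω ff (e6 κ j) (E6 L Ω κ j) (cc P S) x
  rw [← Finset.mul_sum, sum_Ph6 hC ((Xc_fm h).cc_ne S) (Fm.cop_f hfπ S)]
  unfold F2
  ring

variable [CharP (kk v) 3]

include h3 hC h in
/-- **The sums modulo the maximal ideal.** -/
theorem sT_cg (hT : TS v L Ω κ π) (Q : Finset ι → ZMod 3) (hQ0 : Q ∅ = κ)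
    (hQ : ∀ S : Finset ι, S.Nonempty →
      ∑ T ∈ S.powerset, (-1) ^ T.card * (Q T * ∏ i ∈ S \ T, (-ts κ (π i) + ∑ j ∈ T, am π e i j)) =
        (-1) ^ S.card * Hm (am π e) (fun i => -e i * tq (π i)) (fun i => tq (π i)) S)
    (S : Finset ι) : Cg v (sT6 L Ω κ π e S) (Q S) := by
  induction S using Finset.strongInduction with
  | H S ih =>
  have hf0 := ep_ne h3 hC
  have hz := zt_w (v := v) h3
  have hzl := w_lam (v := v) h3
  have hz1 := hz.ne
  have hl0 : v lam ≠ 0 := lam_ne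
  have hl1 := lam_lt h3
  have hfy := fy (v := v) h3 h
  rcases S.eq_empty_or_nonempty with rfl | hS
  · rw [hQ0]
    have e1 : sT6 L Ω κ π e ∅ = f6 L Ω κ (w0 Ω) / ep L Ω := by
      unfold sT6
      rw [SQ_empty, Finset.card_empty, pow_zero, mul_one]
      field_simp
    rw [e1]
    exact base h3 hC κ
  have hid := idn (κ := κ) h3 hC h S
  have hrs := rs_cg (v := v) h3 hC h hT hS
  set P : ι → eis := fun i => eq0 (π i) with hP
  set N : ℂ := 6 * ep L Ω * (1 - toC w) ^ S.card with hN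
  have hN0 : N ≠ 0 := mul_ne_zero (mul_ne_zero (by norm_num) hf0) (pow_ne_zero _ hz1)
  -- the terms
  set E : Finset ι → ℂ := fun T => (∏ i ∈ S \ T, ((P i : ℂ) * toC w ^ (ts κ (π i)).val -
    XT (Xc π e) T (P i))) * SQ6 L Ω κ P (Xc π e) T / N with hE
  have hsum : ∑ T ∈ S.powerset, (-1) ^ T.card * E T = RS L Ω κ π e S := by
    have h4 : ∑ T ∈ S.powerset, (-1) ^ T.card * E T = (∑ T ∈ S.powerset, (-1) ^ T.card *
        ((∏ i ∈ S \ T, ((P i : ℂ) * toC w ^ (ts κ (π i)).val - XT (Xc π e) T (P i))) *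
          SQ6 L Ω κ P (Xc π e) T)) / N := by
      rw [Finset.sum_div]
      exact Finset.sum_congr rfl fun T _ => by rw [hE]; ring
    rw [h4, ← hid, hN]
    unfold RS
    field_simp
    ring
  have hES : E S = sT6 L Ω κ π e S := by
    rw [hE]
    show (∏ i ∈ S \ S, _) * _ / N = _
    unfold sT6
    rw [Finset.sdiff_self, Finset.prod_empty, one_mul]
  have hlz : v (3 : ℂ) < v (1 - toC w) := hz.three
  have hET : ∀ T ∈ S.powerset.erase S, Cg v (E T)
      (Q T * ∏ i ∈ S \ T, (-ts κ (π i) + ∑ j ∈ T, am π e i j)) := by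
    intro T hT'
    rw [Finset.mem_erase, Finset.mem_powerset] at hT'
    have hssub : T ⊂ S := Finset.ssubset_iff_subset_ne.2 ⟨hT'.2, hT'.1⟩
    have h4 := ih T hssub
    have h5 : (S \ T).card + T.card = S.card := Finset.card_sdiff_add_card_eq_card hT'.2
    have h6 : E T = sT6 L Ω κ π e T *
        ∏ i ∈ S \ T, (((P i : ℂ) * toC w ^ (ts κ (π i)).val - XT (Xc π e) T (P i)) /
          (1 - toC w)) := by
      rw [hE]
      show (∏ i ∈ S \ T, _) * _ / N = _
      unfold sT6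
      rw [Finset.prod_div_distrib, Finset.prod_const, hN, ← h5, pow_add]
      field_simp
      rfl
    rw [h6]
    refine h4.mul h3 (Cg.prod h3 _ fun i hi => ?_)
    rw [Finset.mem_sdiff] at hi
    have h7 : ∀ j ∈ T, ∃ n : ℕ, Xc π e j (P i) = toC w ^ n ∧ (n : ZMod 3) = am π e i j :=
      fun j hj => hfy.cub i j fun hij => hi.2 (hij ▸ hj)
    choose! m hm1 hm2 using h7
    have h8 : XT (Xc π e) T (P i) = toC w ^ (∑ j ∈ T, m j) := by
      unfold XT
      rw [← Finset.prod_pow_eq_pow_sum]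
      exact Finset.prod_congr rfl fun j hj => hm1 j hj
    have h9 : ((P i : ℂ) * toC w ^ (ts κ (π i)).val - XT (Xc π e) T (P i)) / (1 - toC w) =
        (((P i : ℂ) - 1) * toC w ^ (ts κ (π i)).val / (1 - toC w) +
          -((1 - toC w ^ (ts κ (π i)).val) / (1 - toC w))) +
          (1 - toC w ^ (∑ j ∈ T, m j)) / (1 - toC w) := by
      rw [h8]
      ring
    rw [h9]
    have h10 : (-ts κ (π i) + ∑ j ∈ T, am π e i j) =
        (0 + -(((ts κ (π i)).val : ℕ) : ZMod 3)) + ((∑ j ∈ T, m j : ℕ) : ZMod 3) := by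
      rw [ZMod.natCast_zmod_val, zero_add]
      push_cast
      congr 1
      exact Finset.sum_congr rfl fun j hj => (hm2 j hj).symm
    rw [h10]
    refine ((Cg.zero ?_).add h3 ((Zt.quot h3 hz _).neg h3)).add h3 (Zt.quot h3 hz _)
    rw [map_div₀, map_mul, map_pow, hz.one, one_pow, mul_one]
    have h12 : 0 < v (1 - toC w) := zero_lt_iff.2 (by rwa [Ne, map_eq_zero])
    rw [div_lt_one₀ h12]
    exact (hfy.lin i).trans_lt hlz
  -- conclusion
  have hSmem : S ∈ S.powerset := Finset.mem_powerset_self S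
  have hsplit := Finset.add_sum_erase S.powerset (fun T => (-1) ^ T.card * E T) hSmem
  have hrest : Cg v (∑ T ∈ S.powerset.erase S, (-1) ^ T.card * E T)
      (∑ T ∈ S.powerset.erase S, (-1) ^ T.card *
        (Q T * ∏ i ∈ S \ T, (-ts κ (π i) + ∑ j ∈ T, am π e i j))) :=
    Cg.sum h3 _ fun T hT' => Cg.sign h3 (hET T hT') _
  have hES2 : Cg v ((-1) ^ S.card * E S) ((-1) ^ S.card * Q S) := by
    have h4 : (-1) ^ S.card * E S = RS L Ω κ π e S +
        -∑ T ∈ S.powerset.erase S, (-1) ^ T.card * E T := by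
      rw [← hsum, ← hsplit]
      ring
    have h5 : (-1) ^ S.card * Q S = (-1) ^ S.card * Hm (am π e) (fun i => -e i * tq (π i))
        (fun i => tq (π i)) S + -∑ T ∈ S.powerset.erase S, (-1) ^ T.card *
        (Q T * ∏ i ∈ S \ T, (-ts κ (π i) + ∑ j ∈ T, am π e i j)) := by
      have h6 := hQ S hS
      rw [← Finset.add_sum_erase _ _ hSmem, Finset.sdiff_self, Finset.prod_empty, mul_one] at h6
      linear_combination h6
    rw [h4, h5]
    exact hrs.add h3 (hrest.neg h3)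
  have h4 := hES2.sign h3 S.card
  rw [← mul_assoc, ← mul_pow, neg_one_mul, neg_neg, one_pow, one_mul, hES, ← mul_assoc,
    ← mul_pow, neg_one_mul, neg_neg, one_pow, one_mul] at h4
  exact h4

end one

end Pool.Agent.Helper68.C6.Rec6
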