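import Pool.Agent.Helper68.C6.Defs6
import Pool.Agent.Helper68.C6.Rec6
import Pool.Agent.Helper68.C6.PT
import Pool.Agent.Helper68.C6.PQ
import Pool.Agent.Helper68.C6.Hec6
import Pool.Agent.Helper68.C2.SS2
import Pool.Graph.R_seed8.Y715.CT.AN1b

/-!
# The central value and its valuation, class `√-3 ω^k ∏ π_j^(e_j)`
-/

set_option autoImplicit false
set_option linter.unusedSectionVars false

open Filter
open scoped Classical Topology PeriodPair

namespace Pool.Agent.Helper68.C6.AN6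

open Pool.Agent.Y692.QS (Ei w toC)
open Pool.Agent.Y703.CT
open Pool.Agent.W192.HK Pool.Agent.TH936.CM Pool.Agent.TH936.PU
open Pool.Agent.W192.CM (nu)
open Pool.Agent.Y715.Dist Pool.Agent.Y715.Idn Pool.Agent.Y696
open Pool.Agent.Y715.T.Rs (eq0)
open Pool.Agent.Y703.CT.Ana (ej eo_j ej_u ej_ncop ej_prim)
open Pool.Agent.Y715.CT.Hec (cP XX X_mul X_per X_one X_neg_one X_cube X_ne_iff X_ne_cop unitG cop3
  cP_ne cop_la la_ne prime_la nd_unit w_ne ex_j)
open Pool.Agent.Y715.T.Three (lam lam_lt lam_ne lam_ne' sq_three v_two)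
open Pool.Agent.Y715.T.Cg (Cg Zt zt_of_prim z_pow)
open Pool.Agent.Helper68.C5.Chr5 Pool.Agent.Helper68.C5.Lim5 Pool.Agent.Helper68.C6.Hec6
open Pool.Agent.Helper68.C6.Rec6 Pool.Agent.Helper68.C6.Mom6 Pool.Agent.Helper68.C6.Ana6
open Pool.Agent.Helper68.C6.Lim6 Pool.Agent.Helper68.C6
open Pool.Agent.Helper68.C2.Chr (tq)
open Pool.Agent.Helper68.C2 (SS2.Xm SS2.lim_SS)
open Pool.Agent.Helper68.C2.Lim (toC_w)

variable {J : Type} [Fintype J] {π : J → Ei} {e : J → ZMod 3} {j : Fin 3} {κ : ZMod 3}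

/-- the vanishing for the wrong exponents -/
lemma SS_zero (h : Dt π e) (hj : om ^ (2 * (j : ℕ)) * XX π e omr = 1) {i : Fin 3} (hi : i ≠ j)
    (δ : ℝ) : SS (fun α : eis => e6 κ i α * XX π e α) δ = 0 := by
  have hu : IsUnit omr := (unit_list _).2 (by simp)
  have h3 := om_cube
  have hn : Complex.normSq om = 1 := by
    have := (isUnit_iff' omr).1 hu
    rwa [omr_coe] at this
  set a : eisˣ := hu.unit with ha
  have ha' : (a : eis) = omr := rfl
  have h1 : SS (fun α : eis => e6 κ i α * XX π e α) δ =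
      (om ^ (2 * (i : ℕ)) * XX π e omr) * SS (fun α : eis => e6 κ i α * XX π e α) δ := by
    unfold SS
    rw [← tsum_mul_left, ← (Units.mulLeft a).tsum_eq]
    refine tsum_congr fun α => ?_
    show e6 κ i (omr * α) * XX π e (omr * α) * fd δ ((omr * α : eis) : ℂ) =
      om ^ (2 * (i : ℕ)) * XX π e omr * (e6 κ i α * XX π e α * fd δ (α : ℂ))
    rw [X_mul h, (eo_6 κ i).mul, e6_u i hu]
    have e1 : ((omr * α : eis) : ℂ) = om * α := rfl
    rw [e1, fd_mul, hn, mul_one, omr_coe, pow_succ]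
    have h0 := om_ne
    field_simp
  have h2 : om ^ (2 * (i : ℕ)) * XX π e omr ≠ 1 := by
    intro h4
    have hX : XX π e omr ≠ 0 := right_ne_zero_of_mul (by rw [h4]; exact one_ne_zero)
    have h5 : om ^ (2 * (i : ℕ)) = om ^ (2 * (j : ℕ)) :=
      mul_right_cancel₀ hX (by rw [h4, hj])
    have key : ∀ m n : ℕ, m < n → n < 3 → om ^ (2 * m) ≠ om ^ (2 * n) := by
      intro m n hmn hn3 h6
      have hm : m = 0 ∧ n = 1 ∨ m = 0 ∧ n = 2 ∨ m = 1 ∧ n = 2 := by omega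
      rcases hm with ⟨rfl, rfl⟩ | ⟨rfl, rfl⟩ | ⟨rfl, rfl⟩
      · apply Pool.Agent.Y715.CT.Hec.om2_ne_one
        linear_combination -h6
      · apply Pool.Agent.Y715.CT.Hec.om_ne_one
        linear_combination -h6 - om * h3
      · apply Pool.Agent.Y715.CT.Hec.om2_ne_one
        linear_combination (-om) * h6 + (-om ^ 2) * h3 + h3
    rcases lt_trichotomy (i : ℕ) j with h6 | h6 | h6
    · exact key _ _ h6 j.2 h5
    · exact hi (Fin.ext h6)
    · exact key _ _ h6 i.2 h5.symm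
  have h4 : (om ^ (2 * (i : ℕ)) * XX π e omr - 1) *
      SS (fun α : eis => e6 κ i α * XX π e α) δ = 0 := by linear_combination -h1
  exact (mul_eq_zero.1 h4).resolve_left (sub_ne_zero.2 h2)

lemma Xm_X (h : Dt π e) : SS2.Xm (cP π) (XX π e) := by
  refine ⟨fun x y => X_per h, X_mul h, fun x => ?_⟩
  by_cases h1 : XX π e x = 0
  · rw [h1, norm_zero]
    exact zero_le_one
  · exact (Complex.norm_eq_one_of_pow_eq_one (X_cube h ((X_ne_iff h).1 h1))
      (by norm_num)).le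

/-- the coefficients -/
lemma conj_ek {α : Ei} (hα : (3 : Ei) ∣ α - 1) :
    (starRingEnd ℂ) (e6 κ j (eq0 α)) = toC w ^ (ts κ α).val := by
  rw [e6_prim' j (Pool.Agent.Y715.T.Ex.three_mem.2 hα)]
  unfold tl
  rw [RingEquiv.symm_apply_apply]
  exact Pool.Agent.Y715.CT.AN1b.conj_w (ts κ α)

lemma sum_iff (h : Dt π e) (hj : om ^ (2 * (j : ℕ)) * XX π e omr = 1) {s F : ℂ} :
    HasSum (fun I : Ideal eis => th π e κ j I * (nm I : ℂ) ^ (-s)) F ↔
    HasSum (fun α : {α : Ei // (3 : Ei) ∣ α - 1} =>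
      toC α * (chD π e α * toC w ^ (ts κ (α : Ei)).val) *
        ((Pool.Agent.Y692.QS.nr (α : Ei) : ℤ) : ℂ) ^ (-s)) F := by
  have hinj : Function.Injective
      (fun α : {α : Ei // (3 : Ei) ∣ α - 1} => (sp (eq0 (α : Ei)) : Ideal eis)) := by
    intro α β hab
    apply Subtype.ext
    apply eq0.injective
    exact prim_unique (Pool.Agent.Y715.T.Ex.three_mem.2 α.2)
      (Pool.Agent.Y715.T.Ex.three_mem.2 β.2) hab
  rw [← hinj.hasSum_iff]
  · refine iff_of_eq ?_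
    congr 1
    funext α
    have h2 : ((nm (sp (eq0 (α : Ei)) : Ideal eis) : ℝ) : ℂ) =
        ((Pool.Agent.Y692.QS.nr (α : Ei) : ℤ) : ℂ) := by
      have h3 := Pool.Agent.Y715.T.Rs.card_quo (α : Ei)
      have h4 : Nat.card (eis ⧸ (sp (eq0 (α : Ei)) : Ideal eis)) =
          Nat.card (Ei ⧸ Ideal.span {(α : Ei)}) := by
        rw [← Pool.Agent.Y715.T.Tf.up_sp, Pool.Agent.Y715.T.Tf.card_up]
      have h5 : nm (sp (eq0 (α : Ei)) : Ideal eis) =
          ((Nat.card (Ei ⧸ Ideal.span {(α : Ei)}) : ℕ) : ℝ) := by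
        rw [← h4]
        rfl
      rw [h5]
      exact_mod_cast congrArg (fun n : ℤ => (n : ℂ)) h3
    show th π e κ j (sp (eq0 (α : Ei))) *
      ((nm (sp (eq0 (α : Ei)) : Ideal eis) : ℝ) : ℂ) ^ (-s) = _
    rw [h2, th_sp h hj]
    unfold gg
    rw [map_mul, conj_ek α.2, Pool.Agent.Y715.CT.AN1b.conj_X h, Pool.Agent.Y715.T.Rs.eq0_coe]
    ring
  · intro I hI
    have h1 : th π e κ j I = 0 := by
      obtain ⟨β, rfl⟩ : ∃ β : eis, I = sp β :=
        ⟨_, (Submodule.IsPrincipal.span_singleton_generator I).symm⟩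
      rw [th_sp h hj, gg_zero_iff h]
      right
      intro h2
      rw [IsCoprime.mul_right_iff, cop_ff] at h2
      have h5 : IsCoprime (sp β) (sp (3 : eis)) := by
        rw [Ideal.isCoprime_span_singleton_iff]
        exact h2.1
      obtain ⟨α, h3, h4⟩ := exists_prim h5
      apply hI
      refine ⟨⟨eq0.symm α, ?_⟩, ?_⟩
      · rw [← Pool.Agent.Y715.T.Ex.three_mem, RingEquiv.apply_symm_apply]
        exact h4
      · show (sp (eq0 (eq0.symm α)) : Ideal eis) = sp β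
        rw [RingEquiv.apply_symm_apply, h3]
    rw [h1, zero_mul]

set_option maxHeartbeats 1600000 in
/-- **The continuation and the central value.** -/
theorem an1b (h : Dt π e) : ∃ F : ℂ → ℂ, IsHL6 π e κ F ∧
    ∀ [Fintype (eis ⧸ (sp ff : Ideal eis))] (L : PeriodPair) (Ω : ℂ), Cur L Ω →
      ∃ (ρ : ℂ) (n : ℕ), 0 < n ∧ ρ ^ n = 1 ∧
        (starRingEnd ℂ) (F 1) / Ω =
          (54 : ℂ)⁻¹ * (∏ j, toC (π j))⁻¹ * ρ *
            SQ6 L Ω κ (fun i => eq0 (π i)) (Xc π e) Finset.univ := by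
  obtain ⟨j, hj⟩ := ex_j h
  have hθ := hc_th (κ := κ) h hj
  have hfin := Pool.Agent.Y715.T.LF.fin_quot
  have hc0 := cP_ne h
  have hq0 : ff * cP π ≠ 0 := mul_ne_zero ff_ne hc0
  obtain ⟨F, g1, g2, g3⟩ := lim_L Pool.Agent.Y696.lbasic Pool.Agent.Y696.lfp Pool.Agent.Y696.lcnt
    Pool.Agent.Y696.ldec Pool.Agent.Y696.lafe qr hθ (sys_pid (hfin _ hq0))
  refine ⟨F, ⟨g1, fun s hs => (sum_iff h hj).1 (g2 s hs)⟩, ?_⟩
  intro _ L Ω hC
  have h3 : IsCoprime ff (cP π) := by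
    rw [isCoprime_comm, cop_ff, isCoprime_comm]
    exact cop3 h
  have : Finite (eis ⧸ sp (cP π)) := hfin _ hc0
  have : Fintype (eis ⧸ sp (cP π)) := Fintype.ofFinite _
  have : Finite (eis ⧸ sp (ff * cP π)) := hfin _ hq0
  have : Fintype (eis ⧸ sp (ff * cP π)) := Fintype.ofFinite _
  have hXo := Xm_X h
  have hΩ := hC.lat.ne
  set A : Fin 3 → ℂ := fun i => ∑ x : eis ⧸ sp (cP π), XX π e x.out *
    Ph L Ω ff (e6 κ i) (E6 L Ω κ i) (cP π) x.out with hA
  have hec : ∀ i : Fin 3, e6 κ i (cP π) = e6 κ 0 (cP π) := by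
    intro i
    rw [e6_prim' i (cP_prim h), e6_prim' 0 (cP_prim h)]
  set ε : ℂ := e6 κ 0 (cP π) with hε
  have hε3 : ε ^ 3 = 1 := by
    rw [hε, e6_prim' 0 (cP_prim h), ← pow_mul, mul_comm, pow_mul,
      Pool.Agent.Y715.T.Fin.toC_w_cube, one_pow]
  have hlim : ∀ i : Fin 3, Tendsto (fun δ : ℝ => SS (fun α : eis => e6 κ i α * XX π e α) δ)
      (𝓝[>] 0) (𝓝 (Ω / (ff * cP π) * (ε * XX π e ff) * A i)) := by
    intro i
    have h4 := SS2.lim_SS hC.lat ff_ne hc0 h3 (eo_6 κ i) hXo (lim_6 hC i)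
    rw [hec i] at h4
    exact h4
  have hXf : XX π e ff ≠ 0 := (X_ne_cop h).2 h3
  have hcC : ((cP π : eis) : ℂ) ≠ 0 := coe_ne hc0
  have hfC : ((ff : eis) : ℂ) ≠ 0 := coe_ne ff_ne
  have hε0 : ε ≠ 0 := by
    intro h0
    rw [h0] at hε3
    norm_num at hε3
  have hA0 : ∀ i : Fin 3, i ≠ j → A i = 0 := by
    intro i hi
    have h4 := hlim i
    have h5 : Tendsto (fun δ : ℝ => SS (fun α : eis => e6 κ i α * XX π e α) δ)
        (𝓝[>] 0) (𝓝 0) := by
      refine tendsto_const_nhds.congr fun δ => (SS_zero h hj hi δ).symm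
    have h6 := tendsto_nhds_unique h4 h5
    have h7 : Ω / (ff * cP π) * (ε * XX π e ff) ≠ 0 :=
      mul_ne_zero (div_ne_zero hΩ (mul_ne_zero hfC hcC)) (mul_ne_zero hε0 hXf)
    exact (mul_eq_zero.1 h6).resolve_left h7
  have hAj : 6 * (starRingEnd ℂ) (F 1) = Ω / (ff * cP π) * (ε * XX π e ff) * A j := by
    refine tendsto_nhds_unique ?_ (hlim j)
    rw [Pool.Agent.Y715.T.LF.nu_eq] at g3
    have e66 : (((6 : ℕ) : ℂ)) = 6 := by norm_num
    rw [e66] at g3
    refine g3.congr fun δ => ?_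
    rw [Finset.sum_singleton]
    have t1 : th π e κ j ⊤ = 1 := by
      have e1 : (⊤ : Ideal eis) = sp 1 := by
        rw [eq_comm, Ideal.span_singleton_eq_top]
        exact isUnit_one
      rw [e1, hθ.princ 1 one_ne_zero (by rw [sub_self]; exact Submodule.zero_mem _)]
      simp
    have t2 : nm (⊤ : Ideal eis) = 1 :=
      ((Pool.Agent.Y696.lbasic eis om qr).2.2.2.2.2.2.1 ⊤).2 rfl
    rw [t1, one_mul, t2, div_one]
    congr 1
    funext α
    unfold cb fp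
    rw [if_pos Submodule.mem_top, th_sp h hj, pow_one]
    unfold gg
    by_cases h0 : α = 0
    · have h5 : e6 κ j 0 = 0 := (eo_6 κ j).zero (Submodule.zero_mem _)
      rw [h0, h5]
      simp
    · have h5 : (α : ℂ) ≠ 0 := coe_ne h0
      rw [mul_div_cancel_left₀ _ h5, Complex.conj_conj]
  -- the sums in terms of `SP`
  have hSP : ∀ i : Fin 3, SP L Ω ff (e6 κ i) (E6 L Ω κ i) (fun k => eq0 (π k)) (Xc π e)
      Finset.univ = A i := by
    intro i
    unfold SP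
    have e1 : cc (fun k => eq0 (π k)) Finset.univ = cP π := rfl
    rw [e1, Sm_eq]
    rfl
  have hSPt : SQ6 L Ω κ (fun i => eq0 (π i)) (Xc π e) Finset.univ = A j := by
    unfold SQ6
    rw [Finset.sum_congr rfl fun i _ => hSP i]
    rw [Finset.sum_eq_single j]
    · intro i _ hi
      exact hA0 i hi
    · intro h4
      exact absurd (Finset.mem_univ j) h4
  refine ⟨ε * XX π e ff, 3, by norm_num, ?_, ?_⟩
  · rw [mul_pow, hε3, X_cube h ((X_ne_iff h).1 hXf), one_mul]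
  have hprod : ((cP π : eis) : ℂ) = ∏ k, toC (π k) := by
    unfold cP cc
    push_cast
    rfl
  rw [hSPt, ← hprod]
  have h9 : (starRingEnd ℂ) (F 1) = (6 : ℂ)⁻¹ * (6 * (starRingEnd ℂ) (F 1)) := by ring
  rw [h9, hAj, ff_coe]
  field_simp
  ring

variable {Γ : Type*} [LinearOrderedCommGroupWithZero Γ] {v : Valuation ℂ Γ}

/-- the criterion on the analytic side -/
def KerA (π : J → Ei) (e : J → ZMod 3) (κ : ZMod 3) : Prop :=
  ∀ (v : J → ZMod 3) (s : ZMod 3),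
    (∀ i, ∑ j, am π e i j * (v j - v i) = -ts κ (π i) * v i - tq (π i) * s) →
      κ * s + ∑ j, (-e j * tq (π j)) * v j = 0 → (∀ i, v i = 0) ∧ s = 0

/-- the statement about the moments holds -/
lemma ts_of (hv : v 3 < 1) [CharP (kk v) 3] {L : PeriodPair} {Ω : ℂ} (hC : Cur L Ω)
    (h : Dt π e) : TS v L Ω κ π := by
  intro S hS
  exact Pool.Agent.Helper68.C6.PT.s_T J (kk v) (fun i => eq0 (π i)) (ll' v π) (UU v L Ω κ π)
    Pool.Agent.Y715.T.LF.fin_quot (wd hv hC h) S hS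

/-- **The valuation of the central value**. -/
theorem an_val (h : Dt π e) :
    ∃ F : ℂ → ℂ, IsHL6 π e κ F ∧
      ∀ (Γ : Type) [LinearOrderedCommGroupWithZero Γ] (v : Valuation ℂ Γ), v 3 < 1 →
        ∀ (L : PeriodPair) (Ω : ℂ), Cur L Ω → ∃ (s : ℂ) (q : ZMod 3) (g₀ : Γ),
          Cg v s q ∧ (q ≠ 0 ↔ KerA π e κ) ∧ g₀ ^ 3 = v lam ^ 8 ∧
            v ((starRingEnd ℂ) (F 1) / Ω) * v lam ^ 4 =
              g₀ * (v lam ^ Fintype.card J * v s) := by
  obtain ⟨F, hF, hval⟩ := an1b (κ := κ) h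
  refine ⟨F, hF, ?_⟩
  intro Γ _ v hv L Ω hC
  have : Fintype (eis ⧸ (sp ff : Ideal eis)) :=
    @Fintype.ofFinite _ (Pool.Agent.Y715.T.LF.fin_quot _ ff_ne)
  have hch : CharP (kk v) 3 := chP hv
  obtain ⟨ρ, n, hn, hρ, hval⟩ := hval L Ω hC
  have hz := zt_w (v := v) hv
  have hzl := w_lam (v := v) hv
  have hfy := fy (v := v) hv h
  obtain ⟨Q, hQ0, hQ1, hQ2⟩ := Pool.Agent.Helper68.C6.PQ.s_Q J (ZMod 3) (am π e)
    (fun i => -ts κ (π i)) (fun i => -e i * tq (π i)) (fun i => tq (π i)) κ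
  have hcg := sT_cg hv hC h (ts_of hv hC h) Q hQ0 hQ1 Finset.univ
  refine ⟨_, _, v (ep L Ω), hcg, hQ2, v_ep hv hC, ?_⟩
  have hf0 := ep_ne hv hC
  have hz1 := hz.ne
  have e1 : SQ6 L Ω κ (fun i => eq0 (π i)) (Xc π e) Finset.univ =
      (6 * ep L Ω * (1 - toC w) ^ Fintype.card J) * sT6 L Ω κ π e Finset.univ := by
    unfold sT6
    rw [Finset.card_univ, mul_div_cancel₀]
    exact mul_ne_zero (mul_ne_zero (by norm_num) hf0) (pow_ne_zero _ hz1)
  have hc : v (∏ j, toC (π j)) = 1 := by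
    rw [map_prod]
    refine Finset.prod_eq_one fun i _ => ?_
    apply Pool.Agent.Y715.Two.v_unit
    exact (hfy.lin i).trans_lt hv
  have hl : v lam ≠ 0 := lam_ne
  have h54 : v (54 : ℂ) = v lam ^ 4 * (v lam * v lam) := by
    have : (54 : ℂ) = 9 * 6 := by norm_num
    rw [this, map_mul, Pool.Agent.Y715.T.Three.v_nine, Pool.Agent.Y715.T.Three.v_six hv, sq_three]
  have h6 : v (6 : ℂ) = v lam * v lam := by
    rw [Pool.Agent.Y715.T.Three.v_six hv, sq_three]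
  rw [hval, e1]
  simp only [map_mul, map_inv₀, map_pow, hc, z_pow hn hρ, hzl, h6, inv_one, mul_one]
  rw [h54]
  field_simp

end Pool.Agent.Helper68.C6.AN6
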