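import Pool.Agent.Helper68.C6.Lim6
import Pool.Agent.Helper68.C5.Ana5

/-!
# The values near the point of order nine, inverse characters: algebra
-/

set_option autoImplicit false
set_option linter.unusedSectionVars false

open Filter
open scoped Topology PeriodPair

namespace Pool.Agent.Helper68.C6.Ana6

open H667R3 Pool.Agent.W192.HK Pool.Agent.TH936.CM Pool.Agent.TH936.PU
open Pool.Agent.Y692.QS (Ei w toC)
open Pool.Agent.Y715.Dist Pool.Agent.Y715.Idn Pool.Agent.Y715.T.Lat Pool.Agent.Y696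
open Pool.Agent.Y715.Two (v_nat v_int v_unit v_mul_le_of)
open Pool.Agent.Y715.T.Three Pool.Agent.Y715.T.Cg
open Pool.Agent.Helper68.C5.Chr5 Pool.Agent.Helper68.C5.Lim5 Pool.Agent.Helper68.C6.Lim6
open Pool.Agent.Helper68.C5.Ana5 (bk_cube fk_cube v_root v_y0)
open Pool.Agent.Helper68.C2.Ana2 (chain sq_lam wp_le)

variable {Γ : Type*} [LinearOrderedCommGroupWithZero Γ] {v : Valuation ℂ Γ}
  {L : PeriodPair} {Ω : ℂ} {κ : ZMod 3}

/-! ### sums at `Ω / 3 ± p` -/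

section sums

variable (hC : Cur L Ω) {p : ℂ} (hp : p ∉ L.lattice) (h1 : Ω / 3 + p ∉ L.lattice)
  (h2 : Ω / 3 - p ∉ L.lattice)

include hC hp h1 h2

lemma sub_ne : ℘[L] (Ω / 3) - ℘[L] p ≠ 0 := wp_sub_ne hC.third hp h1 h2

lemma x_sum : (℘[L] (Ω / 3 + p) + ℘[L] (Ω / 3 - p)) * (℘[L] (Ω / 3) - ℘[L] p) ^ 2 =
    2 * ℘[L] (Ω / 3) * ℘[L] p * (℘[L] (Ω / 3) + ℘[L] p) + 1 := by
  have h := wp_sum (two_third hC) hp h1 h2
  rw [hC.g2, hC.g3] at h
  rw [h]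
  ring

lemma y_sum : (℘'[L] (Ω / 3 + p) + ℘'[L] (Ω / 3 - p)) * (℘[L] (Ω / 3) - ℘[L] p) ^ 3 =
    ℘'[L] (Ω / 3) * (2 * (℘[L] (Ω / 3) - ℘[L] p) ^ 3 -
      12 * ℘[L] (Ω / 3) * (℘[L] (Ω / 3) - ℘[L] p) ^ 2 +
      18 * ℘[L] (Ω / 3) ^ 2 * (℘[L] (Ω / 3) - ℘[L] p) + 6) := by
  have hn : -p ∉ L.lattice := by rwa [neg_mem_iff]
  have e1 := wp'_add L (two_third hC) hp h1 h2
  have e2 := wp'_add L (two_third hC) hn (by rwa [← sub_eq_add_neg]) (by rwa [sub_neg_eq_add])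
  rw [← sub_eq_add_neg, L.weierstrassP_neg, L.derivWeierstrassP_neg] at e2
  rw [e1, e2, hC.g2]
  have hd := sub_ne hC hp h1 h2
  have hy := y0_sq hC
  set x := ℘[L] (Ω / 3)
  set y := ℘'[L] (Ω / 3)
  set X := ℘[L] p
  set Y := ℘'[L] p
  obtain ⟨d, hdd⟩ : ∃ d, d = x - X := ⟨_, rfl⟩
  rw [← hdd] at hd ⊢
  field_simp
  linear_combination (-8 * y) * hy

end sums

/-! ### elementary estimates -/

section est

variable (h3 : v 3 < 1)

include h3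

lemma lam_sq_lt : v lam ^ 3 < v lam ^ 2 := pow_lt_pow_right_of_lt_one₀ lam_pos (lam_lt h3) (by norm_num)

/-- two small factors -/
lemma two_small {a b : ℂ} (ha : v a ^ 3 ≤ v lam ^ 2) (hb : v b ^ 3 ≤ v lam ^ 2) :
    v (a * b) < v lam := by
  have h : v (a * b) ^ 3 < v lam ^ 3 := by
    rw [map_mul, mul_pow]
    calc v a ^ 3 * v b ^ 3 ≤ v lam ^ 2 * v lam ^ 2 := mul_le_mul' ha hb
      _ = v lam ^ 4 := by rw [← pow_add]
      _ < v lam ^ 3 := pow_lt_pow_right_of_lt_one₀ lam_pos (lam_lt h3) (by norm_num)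
  by_contra hcon
  push Not at hcon
  exact absurd h (not_lt.2 (pow_le_pow_left₀ zero_le hcon 3))

omit h3 in
lemma sm_mul {a b : ℂ} (ha : v a ≤ 1) (hb : v b < v lam) : v (a * b) < v lam := by
  rw [map_mul]
  calc v a * v b ≤ 1 * v b := mul_le_mul' ha le_rfl
    _ = v b := one_mul _
    _ < v lam := hb

lemma small_lt {a : ℂ} (ha : v a ^ 3 ≤ v lam ^ 2) : v a < 1 := by
  by_contra hcon
  push Not at hcon
  have h1 : 1 ≤ v a ^ 3 := one_le_pow₀ hcon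
  have h2 : v lam ^ 2 < 1 := pow_lt_one₀ zero_le (lam_lt h3) two_ne_zero
  exact absurd (h1.trans ha) (not_le.2 h2)

lemma lam_small {a : ℂ} (ha : v a ≤ v lam) : v a ^ 3 ≤ v lam ^ 2 :=
  (pow_le_pow_left₀ zero_le ha 3).trans (lam_sq_lt h3).le

/-- a cube root of minus one -/
lemma root_near {b : ℂ} (hb : b ^ 3 = -1) : v (b + 1) ≤ v lam := by
  have h1 := v_root h3 hb
  by_cases h0 : b + 1 = 0
  · rw [h0, map_zero]
    exact zero_le
  · have h2 : (b + 1) ^ 2 = 3 * b := by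
      apply mul_left_cancel₀ h0
      linear_combination hb
    have h4 : v (b + 1) ^ 2 = v lam ^ 2 := by
      rw [← map_pow, h2, map_mul, h1, mul_one, ← sq_three, ← pow_two]
    exact ((pow_left_inj₀ zero_le zero_le two_ne_zero).1 h4).le

lemma root_sq {b : ℂ} (hb : b ^ 3 = -1) : v (b ^ 2 - 1) ≤ v lam := by
  have e : b ^ 2 - 1 = (b + 1) * (b - 1) := by ring
  rw [e, map_mul]
  have h1 : v (b - 1) ≤ 1 := v.map_sub_le (v_root h3 hb).le (by rw [map_one])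
  calc v (b + 1) * v (b - 1) ≤ v lam * 1 := mul_le_mul' (root_near h3 hb) h1
    _ = v lam := mul_one _

omit h3 in
lemma alg_err {x0 b t β r : ℂ} (hx : x0 ^ 3 = -1)
    (hr : r = (x0 + t) ^ 2 * (1 - β) - x0 ^ 2 * t - x0 * t ^ 2) :
    (1 + b ^ 2 * t) - (-x0 + β + t) * r = ((b ^ 2 - 1) + (x0 ^ 2 - 1) + 3) * t -
      (x0 ^ 2 - 1) * β - (-x0 * t ^ 2 + 2 * x0 ^ 2 * t * β + x0 * t ^ 2 * β + x0 ^ 2 * t ^ 2 +
        (β + t) * (r - x0 ^ 2)) := by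
  rw [hr]
  linear_combination (1 - β - t) * hx

/-- the error -/
lemma err {x0 b t β r : ℂ} (hx : x0 ^ 3 = -1) (hb : b ^ 3 = -1) (ht : v t ^ 3 ≤ v lam ^ 2)
    (hβ : v β ^ 3 ≤ v lam ^ 2) (hr : r = (x0 + t) ^ 2 * (1 - β) - x0 ^ 2 * t - x0 * t ^ 2) :
    v ((1 + b ^ 2 * t) - (-x0 + β + t) * r) < v lam := by
  have hvx := (v_root h3 hx).le
  have hvt := (small_lt h3 ht).le
  have hvβ := (small_lt h3 hβ).le
  have hl := lam_lt h3
  have h30 : v 3 ^ 3 ≤ v lam ^ 2 := by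
    rw [← sq_three, ← pow_two]
    calc (v lam ^ 2) ^ 3 = v lam ^ 6 := by rw [← pow_mul]
      _ ≤ v lam ^ 2 := (pow_lt_pow_right_of_lt_one₀ lam_pos hl (by norm_num)).le
  have hv2 : v (2 : ℂ) ≤ 1 := by
    have := Pool.Agent.Y715.Two.v_nat (v := v) 2
    exact_mod_cast this
  have tt := two_small h3 ht ht
  have tb := two_small h3 ht hβ
  have bb := two_small h3 hβ hβ
  have a1 := two_small h3 (lam_small h3 (root_sq h3 hb)) ht
  have a2 := two_small h3 (lam_small h3 (root_sq h3 hx)) ht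
  have a3 := two_small h3 h30 ht
  have a4 := two_small h3 (lam_small h3 (root_sq h3 hx)) hβ
  have hv1 : v (1 : ℂ) ≤ 1 := by rw [map_one]
  rw [alg_err hx hr]
  have e : ((b ^ 2 - 1) + (x0 ^ 2 - 1) + 3) * t -
      (x0 ^ 2 - 1) * β - (-x0 * t ^ 2 + 2 * x0 ^ 2 * t * β + x0 * t ^ 2 * β + x0 ^ 2 * t ^ 2 +
        (β + t) * (r - x0 ^ 2)) =
      (b ^ 2 - 1) * t + (x0 ^ 2 - 1) * t + 3 * t + (-1) * ((x0 ^ 2 - 1) * β) +
      (x0 - x0 * β - x0 ^ 2 - (2 * x0 + t - 2 * x0 * β - t * β - x0 ^ 2 - x0 * t)) * (t * t) +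
      (-(2 * x0 ^ 2) - (2 * x0 + t - 2 * x0 * β - t * β - x0 ^ 2 - x0 * t) + x0 ^ 2) * (t * β) +
      x0 ^ 2 * (β * β) := by
    rw [hr]
    ring
  have hq : v (2 * x0 + t - 2 * x0 * β - t * β - x0 ^ 2 - x0 * t) ≤ 1 := by
    refine v.map_sub_le (v.map_sub_le (v.map_sub_le (v.map_sub_le (v.map_add_le
      (v_mul_le_of hv2 hvx) hvt) (v_mul_le_of (v_mul_le_of hv2 hvx) hvβ))
      (v_mul_le_of hvt hvβ)) ?_) (v_mul_le_of hvx hvt)
    rw [map_pow]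
    exact pow_le_one' hvx 2
  have hx2 : v (x0 ^ 2) ≤ 1 := by
    rw [map_pow]
    exact pow_le_one' hvx 2
  rw [e]
  refine v.map_add_lt (v.map_add_lt (v.map_add_lt (v.map_add_lt (v.map_add_lt (v.map_add_lt
    a1 a2) a3) (sm_mul (by rw [v.map_neg, map_one]) a4)) (sm_mul ?_ tt)) (sm_mul ?_ tb))
    (sm_mul hx2 bb)
  · exact v.map_sub_le (v.map_sub_le (v.map_sub_le hvx (v_mul_le_of hvx hvβ)) hx2) hq
  · refine v.map_add_le (v.map_sub_le ?_ hq) hx2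
    rw [v.map_neg]
    exact v_mul_le_of hv2 hx2

end est

end Pool.Agent.Helper68.C6.Ana6
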