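import Pool.Agent.Helper68.C6.Ana6

/-!
# The values near the point of order nine, inverse characters: the cubic congruence
-/

set_option autoImplicit false
set_option linter.unusedSectionVars false

open Filter
open scoped Topology PeriodPair

namespace Pool.Agent.Helper68.C6.Ana6

open H667R3 Pool.Agent.W192.HK Pool.Agent.TH936.CM Pool.Agent.TH936.PU
open Pool.Agent.Y692.QS (Ei w toC)
open Pool.Agent.Y715.Dist Pool.Agent.Y715.Idn Pool.Agent.Y715.T.Lat Pool.Agent.Y696
open Pool.Agent.Y715.Two (v_int v_unit v_mul_le_of)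
open Pool.Agent.Y715.T.Three Pool.Agent.Y715.T.Cg
open Pool.Agent.Helper68.C5.Chr5 Pool.Agent.Helper68.C5.Lim5 Pool.Agent.Helper68.C6.Lim6
open Pool.Agent.Helper68.C5.Ana5 (bk_cube fk_cube v_root v_y0 key_y not_ff)
open Pool.Agent.Helper68.C2.Ana2 (chain sq_lam wp_le)

variable {Γ : Type*} [LinearOrderedCommGroupWithZero Γ] {v : Valuation ℂ Γ}
  {L : PeriodPair} {Ω : ℂ} {κ : ZMod 3}

/-- multiplication by `√-3`, also at the points of order two -/
lemma wp_la' (hC : Cur L Ω) {p : ℂ} (hp : p ∉ L.lattice) (hl : lam * p ∉ L.lattice) :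
    3 * ℘[L] p ^ 2 * ℘[L] (lam * p) = -(℘[L] p ^ 3 + 1) := by
  by_cases h2 : 2 * p ∈ L.lattice
  · have h4 : lam * p - p ∈ L.lattice := by
      have h5 : ((omr : eis) : ℂ) * (2 * p) ∈ L.lattice := by
        rwa [lat_unit hC.lat omr_unit]
      have elam : lam = om - om ^ 2 := by
        rw [← la_coe, la_eq]
        push_cast
        rw [omr_coe]
      convert h5 using 1
      rw [omr_coe, elam]
      linear_combination (-p) * om_sq
    have h6 : ℘'[L] p = 0 := by
      have h7 : ℘'[L] p = ℘'[L] (-p) := by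
        refine Pool.Agent.TH936.PU.dwp_per ?_
        have : p - -p = 2 * p := by ring
        rwa [this]
      rw [L.derivWeierstrassP_neg] at h7
      linear_combination (1 / 2) * h7
    have h8 := hC.ode hp
    rw [h6] at h8
    rw [Pool.Agent.TH936.PU.wp_per h4]
    linear_combination -h8
  · exact wp_la hC h2 hl

section pts

variable (hC : Cur L Ω) {c : eis} (hc : c ≠ 0) (h3c : IsCoprime 3 c)

include hC hc h3c

lemma mem_w (x : eis) {r : eis} (hr : r ∉ (sp ff : Ideal eis)) :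
    (r : ℂ) * (w0 Ω + Ω * x / c) ∉ L.lattice := by
  have hfc : IsCoprime ff c := by
    unfold ff
    exact h3c.mul_left h3c
  have hcC : ((c : eis) : ℂ) ≠ 0 := coe_ne hc
  have hpt : (r : ℂ) * (w0 Ω + Ω * x / c) = Ω * r / ((ff : eis) : ℂ) +
      Ω * ((r * x : eis) : ℂ) / c := by
    rw [ff_coe]
    unfold w0
    push_cast
    field_simp
  rw [hpt]
  by_cases hx' : r * x ∈ sp c
  · have hm : Ω * ((r * x : eis) : ℂ) / c ∈ L.lattice := (div_mem_iff hC.lat hc _).2 hx'
    intro h2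
    apply hr
    rw [← div_mem_iff hC.lat ff_ne]
    have := sub_mem h2 hm
    rwa [add_sub_cancel_right] at this
  · exact (cop_notMem hC.lat ff_ne hc hfc hx').1

lemma mem_z (x : eis) (a b : ℤ) (hab : ¬ ((9 : ℤ) ∣ a ∧ (9 : ℤ) ∣ b)) :
    ((a : ℂ) + b * om) * (w0 Ω + Ω * x / c) ∉ L.lattice := by
  have := mem_w hC hc h3c x (not_ff hab)
  rwa [ez_coe] at this

end pts

/-- the line -/
noncomputable def ell (L : PeriodPair) (Ω : ℂ) (κ : ZMod 3) (Z : ℂ) : ℂ :=
  (1 / 2) * ℘'[L] Z + ℘'[L] (Ω / 3) * bk L Ω κ ^ 2 * ℘[L] Z + (1 / 2) * ℘'[L] (Ω / 3)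

lemma elam : lam = 1 + 2 * om := by
  rw [← la_coe]
  unfold la
  rw [ez_coe]
  push_cast
  ring

section main

variable (h3 : v 3 < 1) (hC : Cur L Ω)
  (hfin : ∀ q : eis, q ≠ 0 → Finite (eis ⧸ sp q)) {c : eis} (hc : c ≠ 0) (h3c : IsCoprime 3 c)
  (hct : sp c ≠ ⊤)

include h3 hC hfin hc h3c hct

/-- one of the two values -/
lemma one_val {x : eis} (hx : IsCoprime x c) :
    f6 L Ω κ (w0 Ω + Ω * x / c) ^ 3 = -27 * ell L Ω κ (Ω / 3 + 3 * (Ω * x / c)) ∧
    v (ell L Ω κ (Ω / 3 + 3 * (Ω * x / c))) ≤ v lam ∧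
    v (f6 L Ω κ (w0 Ω + Ω * x / c)) ^ 3 ≤ v lam ^ 7 := by
  have hez := mem_z hC hc h3c x
  set z := w0 Ω + Ω * x / c with hz
  have el := elam
  -- the points
  have a1 : 2 * (-z) ∉ L.lattice := by
    rw [mul_neg, neg_mem_iff]
    have := hez 2 0 (by norm_num)
    convert this using 2
    push_cast
    ring
  have a2 : lam * (-z) ∉ L.lattice := by
    rw [mul_neg, neg_mem_iff]
    have := hez 1 2 (by norm_num)
    convert this using 1
    push_cast
    rw [el]
  have a3 : 2 * (lam * (-z)) ∉ L.lattice := by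
    rw [mul_neg, mul_neg, neg_mem_iff]
    have := hez 2 4 (by norm_num)
    convert this using 1
    push_cast
    rw [el]
    ring
  have b2' : lam * (lam * (-z)) = 3 * z := by linear_combination (-z) * lam_sq
  have a4 : lam * (lam * (-z)) ∉ L.lattice := by
    rw [b2']
    have := hez 3 0 (by norm_num)
    convert this using 2
    push_cast
    ring
  have a5 : 2 * (lam * (lam * (-z))) ∉ L.lattice := by
    rw [b2']
    have := hez 6 0 (by norm_num)
    convert this using 1
    push_cast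
    ring
  have b3' : lam * (lam * (lam * (-z))) = 3 * (lam * z) := by
    linear_combination (-lam * z) * lam_sq
  have a6 : lam * (lam * (lam * (-z))) ∉ L.lattice := by
    rw [b3']
    have := hez 3 6 (by norm_num)
    convert this using 1
    push_cast
    rw [el]
    ring
  have a7 : 2 * (lam * (lam * (lam * (-z)))) ∉ L.lattice := by
    rw [b3']
    have := hez 6 12 (by norm_num)
    convert this using 1
    push_cast
    rw [el]
    ring
  -- the last point
  have b4' : lam * (lam * (lam * (lam * (-z)))) = -(9 * z) := by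
    linear_combination (lam * (lam * (-z)) + 3 * z) * lam_sq
  have hx2 : IsCoprime (-(9 * x)) c := by
    refine IsCoprime.neg_left (IsCoprime.mul_left ?_ hx)
    have e9 : (9 : eis) = 3 * 3 := by norm_num
    rw [e9]
    exact h3c.mul_left h3c
  have e9 : ((9 : eis) : ℂ) = 9 := rfl
  have hΩ : Ω ∈ L.lattice := by
    have h4 : Ω * ((ff : eis) : ℂ) / ((ff : eis) : ℂ) ∈ L.lattice := by
      rw [div_mem_iff hC.lat ff_ne]
      exact Ideal.mem_span_singleton_self _
    rwa [mul_div_assoc, div_self (coe_ne ff_ne), mul_one] at h4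
  have d1 : lam * (lam * (lam * (lam * (-z)))) - Ω * ((-(9 * x) : eis) : ℂ) / c ∈ L.lattice := by
    have e : lam * (lam * (lam * (lam * (-z)))) - Ω * ((-(9 * x) : eis) : ℂ) / c = -Ω := by
      rw [b4', hz]
      unfold w0
      push_cast
      rw [e9]
      ring
    rw [e, neg_mem_iff]
    exact hΩ
  have d2 : lam * (lam * (lam * (lam * (-z)))) ∉ L.lattice := by
    intro h4
    have h5 := sub_mem h4 d1
    rw [sub_sub_cancel, div_mem_iff hC.lat hc] at h5
    exact notMem_of_cop hct hx2 h5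
  have hv4 : v (℘[L] (lam * (lam * (lam * (lam * (-z)))))) ≤ 1 := by
    rw [Pool.Agent.TH936.PU.wp_per d1]
    exact wp_le h3 hC hc h3c hct hfin hx2
  have hv3 := (chain h3 (wp_la hC a7 d2) hv4).2
  obtain ⟨hA, hy⟩ := key_y h3 (wp_la hC a5 a6) hv3 (hC.ode a4)
  have c1 := fk_cube (κ := κ) hC a1 a2 a3 a4
  have hZ : Ω / 3 + 3 * (Ω * x / c) = lam * (lam * (-z)) := by
    rw [b2', hz]
    unfold w0
    ring
  have hA1 : v (℘[L] (lam * (lam * (-z)))) ≤ 1 := by
    have e : ℘[L] (lam * (lam * (-z))) = (℘[L] (lam * (lam * (-z))) + 1) + (-1) := by ring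
    rw [e]
    exact v.map_add_le hA.le (by rw [v.map_neg, map_one])
  have hhalf : v ((1 : ℂ) / 2) = 1 := by
    rw [map_div₀, map_one, v_two h3, div_one]
  have hell : v (ell L Ω κ (lam * (lam * (-z)))) ≤ v lam := by
    unfold ell
    refine v.map_add_le (v.map_add_le ?_ ?_) ?_
    · rw [map_mul, hhalf, one_mul]
      exact hy.le
    · rw [map_mul, map_mul, map_pow, v_y0 h3 hC, v_root h3 (bk_cube hC κ), one_pow, mul_one]
      calc v lam * v (℘[L] (lam * (lam * (-z)))) ≤ v lam * 1 := mul_le_mul' le_rfl hA1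
        _ = v lam := mul_one _
    · rw [map_mul, hhalf, one_mul, v_y0 h3 hC]
  have hf : f6 L Ω κ z ^ 3 = -27 * ell L Ω κ (lam * (lam * (-z))) := by
    unfold f6 ell
    linear_combination -c1
  rw [hZ]
  refine ⟨hf, hell, ?_⟩
  rw [← map_pow, hf, map_mul]
  have e27 : v (-27 : ℂ) = v lam ^ 6 := by
    have e : (-27 : ℂ) = -(3 * 3 * 3) := by norm_num
    rw [e, v.map_neg, map_mul, map_mul, ← sq_three]
    simp only [pow_succ, pow_zero, one_mul, mul_assoc]
  rw [e27]
  calc v lam ^ 6 * v (ell L Ω κ (lam * (lam * (-z)))) ≤ v lam ^ 6 * v lam :=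
        mul_le_mul' le_rfl hell
    _ = v lam ^ 7 := by rw [← pow_succ]

/-- the values of `℘` at the points of order prime to three -/
lemma tor_la {x : eis} (hx : IsCoprime x c) :
    3 * ℘[L] (Ω * x / c) ^ 2 * ℘[L] (Ω * ((la * x : eis) : ℂ) / c) =
      -(℘[L] (Ω * x / c) ^ 3 + 1) := by
  have hlc : IsCoprime la c := by
    have e3 : (3 : eis) = la * -la := by rw [mul_neg, la_sq, neg_neg]
    rw [e3] at h3c
    exact h3c.of_mul_left_left
  have hx2 : IsCoprime (la * x) c := hlc.mul_left hx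
  have e : lam * (Ω * x / c) = Ω * ((la * x : eis) : ℂ) / c := by
    push_cast
    rw [la_coe]
    ring
  rw [← e]
  apply wp_la' hC
  · rw [div_mem_iff hC.lat hc]
    exact notMem_of_cop hct hx
  · rw [e, div_mem_iff hC.lat hc]
    exact notMem_of_cop hct hx2

omit hC hfin hc h3c hct in
lemma add_near {A B : ℂ} (h : 3 * A ^ 2 * B = -(A ^ 3 + 1)) (hB : v (B + 1) < 1) :
    v (A + 1) ^ 3 = v lam ^ 2 := by
  have hB0 : v B = 1 := by
    have e : -B = 1 - (B + 1) := by ring
    have h5 : v (-B - 1) < 1 := by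
      have e5 : -B - 1 = -(B + 1) := by ring
      rw [e5, v.map_neg]
      exact hB
    rw [← v.map_neg]
    exact v_unit h5
  obtain ⟨hA, hA1⟩ := chain h3 h hB0.le
  have e : (A + 1) ^ 3 = -(3 * A ^ 2 * B) + 3 * A * (A + 1) := by
    linear_combination h
  rw [← map_pow, e]
  have e1 : v (-(3 * A ^ 2 * B)) = v 3 := by
    rw [v.map_neg, map_mul, map_mul, map_pow, hA, hB0, one_pow, mul_one, mul_one]
  have e2 : v (3 * A * (A + 1)) < v 3 := by
    rw [map_mul, map_mul, hA, mul_one]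
    have hpos : 0 < v (3 : ℂ) := zero_lt_iff.2 (by rw [Ne, map_eq_zero]; norm_num)
    calc v 3 * v (A + 1) < v 3 * 1 := mul_lt_mul_of_pos_left hA1 hpos
      _ = v 3 := mul_one _
  rw [v.map_add_eq_of_lt_left (by rw [e1]; exact e2), e1, ← sq_three, ← pow_two]

omit hC hfin hc h3c hct in
lemma B_near {B B' : ℂ} (h : 3 * B ^ 2 * B' = -(B ^ 3 + 1)) (hB' : v B' ≤ 1) : v (B + 1) < 1 :=
  (chain h3 h hB').2

lemma la_cop {x : eis} (hx : IsCoprime x c) : IsCoprime (la * x) c := by
  have e3 : (3 : eis) = la * -la := by rw [mul_neg, la_sq, neg_neg]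
  rw [e3] at h3c
  exact h3c.of_mul_left_left.mul_left hx

lemma near_one {x : eis} (hx : IsCoprime x c) : v (℘[L] (Ω * x / c) + 1) < 1 :=
  B_near h3 (tor_la h3 hC hfin hc h3c hct hx)
    (wp_le h3 hC hc h3c hct hfin (la_cop h3 hC hfin hc h3c hct hx))

lemma near_cube {x : eis} (hx : IsCoprime x c) : v (℘[L] (Ω * x / c) + 1) ^ 3 = v lam ^ 2 :=
  add_near h3 (tor_la h3 hC hfin hc h3c hct hx)
    (near_one h3 hC hfin hc h3c hct (la_cop h3 hC hfin hc h3c hct hx))

end main

end Pool.Agent.Helper68.C6.Ana6
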