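import Pool.Agent.Helper68.C6.Ana6b

/-!
# The values near the point of order nine, inverse characters: the cubic congruence
-/

set_option autoImplicit false
set_option linter.unusedSectionVars false

open Filter
open scoped Topology PeriodPair

namespace Pool.Agent.Helper68.C6.Ana6

open H667R3 Pool.Agent.W192.HK Pool.Agent.TH936.CM Pool.Agent.TH936.PU
open Pool.Agent.Y692.QS (Ei w toC)
open Pool.Agent.Y715.Dist Pool.Agent.Y715.Idn Pool.Agent.Y715.T.Lat Pool.Agent.Y696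
open Pool.Agent.Y715.Two (v_int v_unit v_mul_le_of)
open Pool.Agent.Y715.T.Three Pool.Agent.Y715.T.Cg
open Pool.Agent.Helper68.C5.Chr5 Pool.Agent.Helper68.C5.Lim5 Pool.Agent.Helper68.C6.Lim6
open Pool.Agent.Helper68.C5.Ana5 (bk_cube fk_cube v_root v_y0 key_y not_ff)
open Pool.Agent.Helper68.C2.Ana2 (chain sq_lam wp_le)

variable {Γ : Type*} [LinearOrderedCommGroupWithZero Γ] {v : Valuation ℂ Γ}
  {L : PeriodPair} {Ω : ℂ} {κ : ZMod 3}

/-- the constant -/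
noncomputable def Ck (L : PeriodPair) (Ω : ℂ) (κ : ZMod 3) : ℂ :=
  1 + 2 * bk L Ω κ ^ 2 * ℘[L] (Ω / 3) + 2 * ℘[L] (Ω / 3)

/-- twice the value -/
noncomputable def F2 (L : PeriodPair) (Ω : ℂ) (κ : ZMod 3) (u : ℂ) : ℂ :=
  f6 L Ω κ (w0 Ω + u) + f6 L Ω κ (w0 Ω - u)

section alg

variable (h3 : v 3 < 1)

include h3

lemma lt_of_cube {a b : ℂ} (h : v a ^ 3 < v b ^ 3) : v a < v b := by
  by_contra hcon
  push Not at hcon
  exact absurd h (not_lt.2 (pow_le_pow_left₀ zero_le hcon 3))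

/-- the algebraic part -/
lemma alg_main {x0 y b X X1 P M : ℂ} (hx : x0 ^ 3 = -1) (hb : b ^ 3 = -1) (hy : y ^ 2 = -3)
    (hX : 3 * X ^ 2 * X1 = -(X ^ 3 + 1)) (hX0 : v (X + 1) < 1) (hX1 : v (X1 + 1) ^ 3 ≤ v lam ^ 2)
    (hd : x0 - X ≠ 0)
    (hP : P * (x0 - X) ^ 2 = 2 * x0 * X * (x0 + X) + 1)
    (hM : M * (x0 - X) ^ 3 = y * (2 * (x0 - X) ^ 3 - 12 * x0 * (x0 - X) ^ 2 +
      18 * x0 ^ 2 * (x0 - X) + 6)) :
    v (27 * ((1 / 2) * M + y * b ^ 2 * P + y) -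
      27 * y * (1 + 2 * b ^ 2 * x0 + 2 * x0 - X - X1)) < v lam ^ 8 := by
  have hvx := v_root h3 hx
  have hvb := v_root h3 hb
  have hl := lam_lt h3
  have hvy := sq_lam h3 hy
  obtain ⟨t, ht⟩ : ∃ t, t = X - x0 := ⟨_, rfl⟩
  obtain ⟨β, hβ⟩ : ∃ β, β = X1 + 1 := ⟨_, rfl⟩
  have eX : X = x0 + t := by rw [ht]; ring
  have eX1 : X1 = β - 1 := by rw [hβ]; ring
  have e0 : x0 - X = -t := by rw [ht]; ring
  have ht0 : t ≠ 0 := by
    intro h
    rw [e0, h, neg_zero] at hd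
    exact hd rfl
  rw [e0] at hP hM
  rw [← hβ] at hX1
  have hvβ : v β < 1 := small_lt h3 hX1
  have hvt : v t < 1 := by
    have e : t = (X + 1) - (x0 + 1) := by rw [ht]; ring
    rw [e]
    exact v.map_sub_lt hX0 ((root_near h3 hx).trans_lt hl)
  obtain ⟨r, hr⟩ : ∃ r, r = (x0 + t) ^ 2 * (1 - β) - x0 ^ 2 * t - x0 * t ^ 2 := ⟨_, rfl⟩
  have hr3 : t ^ 3 = 3 * r := by
    rw [hr]
    rw [eX, eX1] at hX
    linear_combination hX - hx
  have hvr : v r = 1 := by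
    have e : r = (x0 ^ 2) + (t * (2 * x0 + t - x0 ^ 2 - x0 * t) - (x0 + t) ^ 2 * β) := by
      rw [hr]
      ring
    have h2 : v (2 : ℂ) ≤ 1 := (v_two h3).le
    have hx2 : v (x0 ^ 2) = 1 := by rw [map_pow, hvx, one_pow]
    have h4 : v (t * (2 * x0 + t - x0 ^ 2 - x0 * t) - (x0 + t) ^ 2 * β) < 1 := by
      refine v.map_sub_lt ?_ ?_
      · rw [map_mul]
        have h5 : v (2 * x0 + t - x0 ^ 2 - x0 * t) ≤ 1 :=
          v.map_sub_le (v.map_sub_le (v.map_add_le (v_mul_le_of h2 hvx.le) hvt.le) hx2.le)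
            (v_mul_le_of hvx.le hvt.le)
        calc v t * v (2 * x0 + t - x0 ^ 2 - x0 * t) ≤ v t * 1 := mul_le_mul' le_rfl h5
          _ = v t := mul_one _
          _ < 1 := hvt
      · rw [map_mul, map_pow]
        have h5 : v (x0 + t) ≤ 1 := v.map_add_le hvx.le hvt.le
        calc v (x0 + t) ^ 2 * v β ≤ 1 * v β := mul_le_mul' (pow_le_one' h5 2) le_rfl
          _ = v β := one_mul _
          _ < 1 := hvβ
    rw [e, v.map_add_eq_of_lt_left (by rw [hx2]; exact h4), hx2]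
  have hr0 : r ≠ 0 := by
    rintro rfl
    rw [map_zero] at hvr
    exact zero_ne_one hvr
  have hvt3 : v t ^ 3 = v lam ^ 2 := by
    rw [← map_pow, hr3, map_mul, hvr, mul_one, ← sq_three, ← pow_two]
  have herr := err h3 hx hb hvt3.le hX1 hr
  -- the sum
  have hP' : P = (-3 + 6 * x0 ^ 2 * t + 2 * x0 * t ^ 2) / t ^ 2 := by
    rw [eq_div_iff (pow_ne_zero 2 ht0)]
    rw [eX] at hP
    linear_combination hP + 4 * hx
  have hM' : M = y * (2 * t ^ 3 + 12 * x0 * t ^ 2 + 18 * x0 ^ 2 * t - 6) / t ^ 3 := by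
    rw [eq_div_iff (pow_ne_zero 3 ht0)]
    linear_combination -hM
  have e1 : 27 * ((1 / 2) * M + y * b ^ 2 * P + y) -
      27 * y * (1 + 2 * b ^ 2 * x0 + 2 * x0 - X - X1) =
      27 * y * (-(((1 + b ^ 2 * t) - (-x0 + β + t) * r) / r) +
        (6 * x0 * (1 + b ^ 2 * x0) / t + 9 * x0 ^ 2 / t ^ 2)) := by
    have e2 : ((1 + b ^ 2 * t) - (-x0 + β + t) * r) / r = 3 * (1 + b ^ 2 * t) / t ^ 3 -
        (-x0 + β + t) := by
      rw [hr3]
      field_simp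
    rw [e2, hP', hM', eX, eX1]
    field_simp
    ring
  rw [e1, map_mul, map_mul, hvy]
  have e27 : v (27 : ℂ) = v lam ^ 6 := by
    have e : (27 : ℂ) = 3 * 3 * 3 := by norm_num
    rw [e, map_mul, map_mul, ← sq_three]
    simp only [pow_succ, pow_zero, one_mul, mul_assoc]
  have hvt0 : 0 < v t := zero_lt_iff.2 (by rwa [Ne, map_eq_zero])
  have key : v (-(((1 + b ^ 2 * t) - (-x0 + β + t) * r) / r) +
        (6 * x0 * (1 + b ^ 2 * x0) / t + 9 * x0 ^ 2 / t ^ 2)) < v lam := by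
    refine v.map_add_lt ?_ (v.map_add_lt ?_ ?_)
    · rw [v.map_neg, map_div₀, hvr, div_one]
      exact herr
    · have h6 : v (6 * x0 * (1 + b ^ 2 * x0)) ≤ v lam ^ 2 := by
        have e : 6 * x0 * (1 + b ^ 2 * x0) = 3 * (2 * x0 * (1 + b ^ 2 * x0)) := by ring
        have h7 : v (2 * x0 * (1 + b ^ 2 * x0)) ≤ 1 := by
          refine v_mul_le_of (v_mul_le_of (v_two h3).le hvx.le) (v.map_add_le (by rw [map_one]) ?_)
          rw [map_mul, map_pow, hvb, hvx, one_pow, one_mul]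
        have h30 : v lam ^ 2 = v 3 := by rw [pow_two, sq_three]
        rw [e, map_mul, h30]
        calc v 3 * v (2 * x0 * (1 + b ^ 2 * x0)) ≤ v 3 * 1 := mul_le_mul' le_rfl h7
          _ = v 3 := mul_one _
      apply lt_of_cube h3
      rw [map_div₀, div_pow, hvt3, div_lt_iff₀ (pow_pos lam_pos 2), ← pow_add]
      calc v (6 * x0 * (1 + b ^ 2 * x0)) ^ 3 ≤ (v lam ^ 2) ^ 3 := pow_le_pow_left₀ zero_le h6 3
        _ = v lam ^ 6 := by rw [← pow_mul]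
        _ < v lam ^ (3 + 2) := pow_lt_pow_right_of_lt_one₀ lam_pos hl (by norm_num)
    · have h6 : v (9 * x0 ^ 2) = v lam ^ 4 := by
        rw [map_mul, map_pow, hvx, one_pow, mul_one, v_nine]
      apply lt_of_cube h3
      have h9 : v (t ^ 2) ^ 3 = v lam ^ 4 := by
        rw [map_pow, ← pow_mul, mul_comm 2 3, pow_mul, hvt3, ← pow_mul]
      rw [map_div₀, div_pow, h6, h9, div_lt_iff₀ (pow_pos lam_pos 4), ← pow_mul, ← pow_add]
      exact pow_lt_pow_right_of_lt_one₀ lam_pos hl (by norm_num)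
  rw [e27]
  calc v lam ^ 6 * v lam * v (-(((1 + b ^ 2 * t) - (-x0 + β + t) * r) / r) +
        (6 * x0 * (1 + b ^ 2 * x0) / t + 9 * x0 ^ 2 / t ^ 2)) <
      v lam ^ 6 * v lam * v lam := mul_lt_mul_of_pos_left key
        (mul_pos (pow_pos lam_pos 6) lam_pos)
    _ = v lam ^ 8 := by simp only [pow_succ, pow_zero, one_mul, mul_assoc]

end alg

section main

variable (h3 : v 3 < 1) (hC : Cur L Ω)
  (hfin : ∀ q : eis, q ≠ 0 → Finite (eis ⧸ sp q)) {c : eis} (hc : c ≠ 0) (h3c : IsCoprime 3 c)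
  (hct : sp c ≠ ⊤)

include h3 hC hfin hc h3c hct

/-- **The cubic congruence.** -/
theorem cub {x : eis} (hx : IsCoprime x c) :
    v (F2 L Ω κ (Ω * x / c) ^ 3 + 27 * ℘'[L] (Ω / 3) * (Ck L Ω κ -
      ℘[L] (Ω * ((3 * x : eis) : ℂ) / c) - ℘[L] (Ω * ((la * (3 * x) : eis) : ℂ) / c))) < v lam ^ 8 ∧
    v (F2 L Ω κ (Ω * x / c)) ^ 3 ≤ v lam ^ 7 := by
  have hl := lam_lt h3
  have hx3 : IsCoprime (3 * x) c := h3c.mul_left hx
  obtain ⟨c1, l1, g1⟩ := one_val (κ := κ) h3 hC hfin hc h3c hct hx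
  obtain ⟨c2, l2, g2⟩ := one_val (κ := κ) h3 hC hfin hc h3c hct hx.neg_left
  have en : w0 Ω + Ω * ((-x : eis) : ℂ) / c = w0 Ω - Ω * x / c := by
    push_cast
    ring
  have en2 : Ω / 3 + 3 * (Ω * ((-x : eis) : ℂ) / c) = Ω / 3 - 3 * (Ω * x / c) := by
    push_cast
    ring
  rw [en, en2] at c2
  rw [en] at g2
  have e3 : ((3 : eis) : ℂ) = 3 := rfl
  have ep : 3 * (Ω * x / c) = Ω * ((3 * x : eis) : ℂ) / c := by
    push_cast
    rw [e3]
    ring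
  rw [ep] at c1 c2
  have hgv : ∀ a : ℂ, v a ^ 3 ≤ v lam ^ 7 → v a ≤ v lam ^ 2 := by
    intro a ha
    by_contra hcon
    push Not at hcon
    have h4 : (v lam ^ 2) ^ 3 < v a ^ 3 := pow_lt_pow_left₀ hcon zero_le three_ne_zero
    rw [← pow_mul] at h4
    have h5 : v lam ^ 7 < v lam ^ (2 * 3) := pow_lt_pow_right_of_lt_one₀ lam_pos hl (by norm_num)
    exact absurd (h4.trans_le ha) (not_lt.2 h5.le)
  set A := f6 L Ω κ (w0 Ω + Ω * x / c) with hA
  set B := f6 L Ω κ (w0 Ω - Ω * x / c) with hB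
  have hsum3 : v (A + B) ^ 3 ≤ v lam ^ 7 := by
    rcases le_total (v A) (v B) with h | h
    · exact (pow_le_pow_left₀ zero_le (v.map_add_le h le_rfl) 3).trans g2
    · exact (pow_le_pow_left₀ zero_le (v.map_add_le le_rfl h) 3).trans g1
  refine ⟨?_, hsum3⟩
  -- the membership
  have hp : Ω * ((3 * x : eis) : ℂ) / c ∉ L.lattice := by
    rw [div_mem_iff hC.lat hc]
    exact notMem_of_cop hct hx3
  have hcn := cop_notMem (z := 1) hC.lat Pool.Agent.Y696.three_ne hc h3c (notMem_of_cop hct hx3)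
  have e1 : Ω * ((1 : eis) : ℂ) / ((3 : eis) : ℂ) = Ω / 3 := by
    rw [e3]
    push_cast
    rw [mul_one]
  rw [e1] at hcn
  obtain ⟨m1, m2⟩ := hcn
  have hX := tor_la h3 hC hfin hc h3c hct hx3
  have hX0 := near_one h3 hC hfin hc h3c hct hx3
  have hX1 := near_cube h3 hC hfin hc h3c hct (la_cop h3 hC hfin hc h3c hct hx3)
  have hm := alg_main h3 (x0_cube hC) (bk_cube hC κ) (y0_sq hC) hX hX0 hX1.le
    (sub_ne hC hp m1 m2) (x_sum hC hp m1 m2) (y_sum hC hp m1 m2)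
  have e : F2 L Ω κ (Ω * x / c) ^ 3 + 27 * ℘'[L] (Ω / 3) * (Ck L Ω κ -
      ℘[L] (Ω * ((3 * x : eis) : ℂ) / c) - ℘[L] (Ω * ((la * (3 * x) : eis) : ℂ) / c)) =
      3 * (A * B * (A + B)) - (27 * ((1 / 2) * (℘'[L] (Ω / 3 + Ω * ((3 * x : eis) : ℂ) / c) +
        ℘'[L] (Ω / 3 - Ω * ((3 * x : eis) : ℂ) / c)) + ℘'[L] (Ω / 3) * bk L Ω κ ^ 2 *
        (℘[L] (Ω / 3 + Ω * ((3 * x : eis) : ℂ) / c) + ℘[L] (Ω / 3 - Ω * ((3 * x : eis) : ℂ) / c)) +
        ℘'[L] (Ω / 3)) -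
      27 * ℘'[L] (Ω / 3) * (1 + 2 * bk L Ω κ ^ 2 * ℘[L] (Ω / 3) + 2 * ℘[L] (Ω / 3) -
        ℘[L] (Ω * ((3 * x : eis) : ℂ) / c) - ℘[L] (Ω * ((la * (3 * x) : eis) : ℂ) / c))) := by
    have e5 : F2 L Ω κ (Ω * x / c) = A + B := rfl
    rw [e5]
    unfold Ck
    unfold ell at c1 c2
    linear_combination c1 + c2
  rw [e]
  refine v.map_sub_lt ?_ hm
  rw [map_mul, map_mul, map_mul, ← sq_three]
  have h7 : v A * v B * v (A + B) ≤ v lam ^ 7 := by
    have h8 : (v A * v B * v (A + B)) ^ 3 ≤ (v lam ^ 7) ^ 3 := by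
      rw [mul_pow, mul_pow]
      calc v A ^ 3 * v B ^ 3 * v (A + B) ^ 3 ≤ v lam ^ 7 * v lam ^ 7 * v lam ^ 7 :=
            mul_le_mul' (mul_le_mul' g1 g2) hsum3
        _ = (v lam ^ 7) ^ 3 := by simp only [pow_succ, pow_zero, one_mul, mul_assoc]
    exact (pow_le_pow_iff_left₀ zero_le zero_le three_ne_zero).1 h8
  calc v lam * v lam * (v A * v B * v (A + B)) ≤ v lam * v lam * v lam ^ 7 :=
        mul_le_mul' le_rfl h7
    _ = v lam ^ 9 := by simp only [pow_succ, pow_zero, one_mul, mul_assoc]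
    _ < v lam ^ 8 := pow_lt_pow_right_of_lt_one₀ lam_pos hl (by norm_num)

end main

end Pool.Agent.Helper68.C6.Ana6
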