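import Pool.Agent.Helper68.C6.Ana6c

/-!
# The values near the point of order nine, inverse characters: congruences between the values
-/

set_option autoImplicit false
set_option linter.unusedSectionVars false

open Filter
open scoped Topology PeriodPair

namespace Pool.Agent.Helper68.C6.Ana6

open H667R3 Pool.Agent.W192.HK Pool.Agent.TH936.CM Pool.Agent.TH936.PU
open Pool.Agent.Y692.QS (Ei w toC)
open Pool.Agent.Y715.Dist Pool.Agent.Y715.Idn Pool.Agent.Y715.T.Lat Pool.Agent.Y696
open Pool.Agent.Y715.Two (v_int v_unit v_mul_le_of)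
open Pool.Agent.Y715.T.Three Pool.Agent.Y715.T.Cg
open Pool.Agent.Helper68.C5.Chr5 Pool.Agent.Helper68.C5.Lim5 Pool.Agent.Helper68.C6.Lim6
open Pool.Agent.Helper68.C5.Ana5 (bk_cube fk_cube v_root v_y0 key_y not_ff)
open Pool.Agent.Helper68.C2.Ana2 (chain sq_lam wp_le)

variable {Γ : Type*} [LinearOrderedCommGroupWithZero Γ] {v : Valuation ℂ Γ}
  {L : PeriodPair} {Ω : ℂ} {κ : ZMod 3}

/-- the points of order prime to three -/
structure Pt6 (c x : eis) : Prop where
  ne : c ≠ 0
  three : IsCoprime 3 c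
  top : sp c ≠ ⊤
  cop : IsCoprime x c

lemma Pt6.la {c x : eis} (h : Pt6 c x) : Pt6 c (la * x) := by
  refine ⟨h.ne, h.three, h.top, ?_⟩
  have h3c := h.three
  have e3 : (3 : eis) = Pool.Agent.Y715.T.Lat.la * -Pool.Agent.Y715.T.Lat.la := by
    rw [mul_neg, la_sq, neg_neg]
  rw [e3] at h3c
  exact h3c.of_mul_left_left.mul_left h.cop

lemma Pt6.three_mul {c x : eis} (h : Pt6 c x) : Pt6 c (3 * x) :=
  ⟨h.ne, h.three, h.top, h.three.mul_left h.cop⟩

lemma Pt6.unit {c x u : eis} (h : Pt6 c x) (hu : IsUnit u) : Pt6 c (u * x) :=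
  ⟨h.ne, h.three, h.top, (isCoprime_mul_unit_left_left hu x c).2 h.cop⟩

/-- a power of `√-3` is one modulo `c` -/
lemma ex_pow (hfin : ∀ q : eis, q ≠ 0 → Finite (eis ⧸ sp q)) {c : eis} (hc : c ≠ 0)
    (h3c : IsCoprime 3 c) : ∃ N : ℕ, 0 < N ∧ la ^ N - 1 ∈ sp c := by
  have := hfin c hc
  have e3 : (3 : eis) = la * -la := by rw [mul_neg, la_sq, neg_neg]
  rw [e3] at h3c
  obtain ⟨a, b, hab⟩ := h3c.of_mul_left_left
  have h1 : Ideal.Quotient.mk (sp c) a * Ideal.Quotient.mk (sp c) la = 1 := by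
    rw [← map_mul, ← map_one (Ideal.Quotient.mk (sp c)), Ideal.Quotient.mk_eq_mk_iff_sub_mem,
      Ideal.mem_span_singleton']
    exact ⟨-b, by linear_combination -hab⟩
  have hu : IsUnit (Ideal.Quotient.mk (sp c) la) := IsUnit.of_mul_eq_one_right _ h1
  obtain ⟨g, hg⟩ := hu
  have : Finite (eis ⧸ sp c)ˣ := inferInstance
  obtain ⟨N, hN, hN1⟩ := isOfFinOrder_iff_pow_eq_one.1 (isOfFinOrder_of_finite g)
  refine ⟨N, hN, ?_⟩
  rw [← Ideal.Quotient.mk_eq_mk_iff_sub_mem, map_pow, map_one, ← hg, ← Units.val_pow_eq_pow_val,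
    hN1, Units.val_one]

section near

variable (h3 : v 3 < 1)

include h3

lemma near_step {A A' B B' : ℂ} (hA : 3 * A ^ 2 * A' = -(A ^ 3 + 1))
    (hB : 3 * B ^ 2 * B' = -(B ^ 3 + 1)) (a1 : v (A + 1) < 1) (b1 : v (B + 1) < 1)
    (b2 : v (B' + 1) < 1) (h : v lam < v (A - B)) : v (A - B) < v (A' - B') := by
  by_contra hcon
  push Not at hcon
  have hone : ∀ {z : ℂ}, v (z + 1) < 1 → v z ≤ 1 := by
    intro z hz
    have e : z = (z + 1) + (-1) := by ring
    rw [e]
    exact v.map_add_le hz.le (by rw [v.map_neg, map_one])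
  have hvA := hone a1
  have hvB := hone b1
  have hvB' := hone b2
  have e : (A - B) ^ 3 = -(3 * (A ^ 2 * (A' - B') + (A - B) * ((A + B) * B' + A * B))) := by
    linear_combination hA - hB
  have h5 : v ((A - B) ^ 3) ≤ v lam ^ 2 * v (A - B) := by
    rw [e, v.map_neg, map_mul, ← sq_three, ← pow_two]
    refine mul_le_mul' le_rfl (v.map_add_le ?_ ?_)
    · rw [map_mul, map_pow]
      calc v A ^ 2 * v (A' - B') ≤ 1 * v (A - B) := mul_le_mul' (pow_le_one' hvA 2) hcon
        _ = v (A - B) := one_mul _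
    · rw [map_mul]
      have h6 : v ((A + B) * B' + A * B) ≤ 1 :=
        v.map_add_le (v_mul_le_of (v.map_add_le hvA hvB) hvB') (v_mul_le_of hvA hvB)
      calc v (A - B) * v ((A + B) * B' + A * B) ≤ v (A - B) * 1 := mul_le_mul' le_rfl h6
        _ = v (A - B) := mul_one _
  rw [map_pow] at h5
  have hpos : 0 < v (A - B) := lam_pos.trans h
  have h7 : v lam ^ 2 * v (A - B) < v (A - B) ^ 2 * v (A - B) :=
    mul_lt_mul_of_pos_right (pow_lt_pow_left₀ h zero_le two_ne_zero) hpos
  rw [← pow_succ] at h7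
  exact absurd h5 (not_le.2 h7)

variable (hC : Cur L Ω) (hfin : ∀ q : eis, q ≠ 0 → Finite (eis ⧸ sp q))

include hC hfin

/-- **The values of `℘` at two points of order prime to three.** -/
theorem near {c x c' x' : eis} (h : Pt6 c x) (h' : Pt6 c' x') :
    v (℘[L] (Ω * x / c) - ℘[L] (Ω * x' / c')) ≤ v lam := by
  by_contra hcon
  push Not at hcon
  have hp : ∀ n : ℕ, Pt6 c (la ^ n * x) := by
    intro n
    induction n with
    | zero => rwa [pow_zero, one_mul]
    | succ n ih =>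
      have := ih.la
      rwa [← mul_assoc, ← pow_succ'] at this
  have hp' : ∀ n : ℕ, Pt6 c' (la ^ n * x') := by
    intro n
    induction n with
    | zero => rwa [pow_zero, one_mul]
    | succ n ih =>
      have := ih.la
      rwa [← mul_assoc, ← pow_succ'] at this
  set A : ℕ → ℂ := fun n => ℘[L] (Ω * ((la ^ n * x : eis) : ℂ) / c) with hA
  set B : ℕ → ℂ := fun n => ℘[L] (Ω * ((la ^ n * x' : eis) : ℂ) / c') with hB
  have hmono : ∀ n : ℕ, v lam < v (A n - B n) ∧ v (A n - B n) < v (A (n + 1) - B (n + 1)) := by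
    intro n
    have hstep : ∀ n : ℕ, v lam < v (A n - B n) →
        v (A n - B n) < v (A (n + 1) - B (n + 1)) := by
      intro n hn
      have g := hp n
      have g' := hp' n
      have t1 := tor_la h3 hC hfin g.ne g.three g.top g.cop
      have t2 := tor_la h3 hC hfin g'.ne g'.three g'.top g'.cop
      have n1 := near_one h3 hC hfin g.ne g.three g.top g.cop
      have n2 := near_one h3 hC hfin g'.ne g'.three g'.top g'.cop
      have g2 := hp' (n + 1)
      have n3 := near_one h3 hC hfin g2.ne g2.three g2.top g2.cop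
      have e1 : la * (la ^ n * x) = la ^ (n + 1) * x := by rw [pow_succ']; ring
      have e2 : la * (la ^ n * x') = la ^ (n + 1) * x' := by rw [pow_succ']; ring
      rw [e1] at t1
      rw [e2] at t2
      exact near_step h3 t1 t2 n1 n2 n3 hn
    induction n with
    | zero =>
      have h0 : v lam < v (A 0 - B 0) := by
        rw [hA, hB]
        show v lam < v (℘[L] (Ω * ((la ^ 0 * x : eis) : ℂ) / c) -
          ℘[L] (Ω * ((la ^ 0 * x' : eis) : ℂ) / c'))
        rw [pow_zero, one_mul, one_mul]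
        exact hcon
      exact ⟨h0, hstep 0 h0⟩
    | succ n ih =>
      have h1 : v lam < v (A (n + 1) - B (n + 1)) := ih.1.trans ih.2
      exact ⟨h1, hstep _ h1⟩
  have hsm : StrictMono fun n => v (A n - B n) := strictMono_nat_of_lt_succ fun n => (hmono n).2
  obtain ⟨N, hN, hN1⟩ := ex_pow hfin (mul_ne_zero h.ne h'.ne) (h.three.mul_right h'.three)
  have hper : ∀ (c x : eis), c ≠ 0 → la ^ N - 1 ∈ sp c →
      ℘[L] (Ω * ((la ^ N * x : eis) : ℂ) / c) = ℘[L] (Ω * x / c) := by
    intro c x hc hcN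
    apply Pool.Agent.TH936.PU.wp_per
    have h5 : la ^ N * x - x ∈ sp c := by
      have := Ideal.mul_mem_right x _ hcN
      have e : (la ^ N - 1) * x = la ^ N * x - x := by ring
      rwa [e] at this
    have := (div_mem_iff hC.lat hc _).2 h5
    convert this using 1
    push_cast
    ring
  have k1 : la ^ N - 1 ∈ sp c := by
    rw [Ideal.mem_span_singleton'] at hN1 ⊢
    obtain ⟨b, hb⟩ := hN1
    exact ⟨b * c', by linear_combination hb⟩
  have k2 : la ^ N - 1 ∈ sp c' := by
    rw [Ideal.mem_span_singleton'] at hN1 ⊢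
    obtain ⟨b, hb⟩ := hN1
    exact ⟨b * c, by linear_combination hb⟩
  have h9 := hsm hN
  have e1 : A N = A 0 := by
    show ℘[L] (Ω * ((la ^ N * x : eis) : ℂ) / c) = ℘[L] (Ω * ((la ^ 0 * x : eis) : ℂ) / c)
    rw [hper c x h.ne k1, pow_zero, one_mul]
  have e2 : B N = B 0 := by
    show ℘[L] (Ω * ((la ^ N * x' : eis) : ℂ) / c') = ℘[L] (Ω * ((la ^ 0 * x' : eis) : ℂ) / c')
    rw [hper c' x' h'.ne k2, pow_zero, one_mul]
  have h10 : v (A 0 - B 0) < v (A N - B N) := h9
  rw [e1, e2] at h10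
  exact lt_irrefl _ h10

end near

end Pool.Agent.Helper68.C6.Ana6
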