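import Pool.Agent.Helper68.C6.Ana6d

/-!
# The values near the point of order nine, inverse characters: shift and base value
-/

set_option autoImplicit false
set_option linter.unusedSectionVars false

open Filter
open scoped Topology PeriodPair

namespace Pool.Agent.Helper68.C6.Ana6

open H667R3 Pool.Agent.W192.HK Pool.Agent.TH936.CM Pool.Agent.TH936.PU
open Pool.Agent.Y692.QS (Ei w toC)
open Pool.Agent.Y715.Dist Pool.Agent.Y715.Idn Pool.Agent.Y715.T.Lat Pool.Agent.Y696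
open Pool.Agent.Y715.Two (v_int v_unit v_mul_le_of)
open Pool.Agent.Y715.T.Three Pool.Agent.Y715.T.Cg
open Pool.Agent.Y703.CT.Ana (om_val om_val2)
open Pool.Agent.Helper68.C5.Chr5 Pool.Agent.Helper68.C5.Lim5 Pool.Agent.Helper68.C6.Lim6
open Pool.Agent.Helper68.C5.Ana5 (bk_cube fk_cube v_root v_y0 key_y not_ff)
open Pool.Agent.Helper68.C2.Ana2 (chain sq_lam wp_le)

variable {Γ : Type*} [LinearOrderedCommGroupWithZero Γ] {v : Valuation ℂ Γ}
  {L : PeriodPair} {Ω : ℂ} {κ : ZMod 3}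

/-- the normalizing constant -/
noncomputable def ep (L : PeriodPair) (Ω : ℂ) : ℂ := f6 L Ω 1 (w0 Ω)

/-- the cube of the base value -/
lemma base_cube (hC : Cur L Ω) (κ : ZMod 3) : f6 L Ω κ (w0 Ω) ^ 3 =
    -27 * ℘'[L] (Ω / 3) * (1 + bk L Ω κ ^ 2 * ℘[L] (Ω / 3)) := by
  have h3c : IsCoprime (3 : eis) 1 := isCoprime_one_right
  have hz := mem_z (c := 1) hC one_ne_zero h3c 0
  have e0 : w0 Ω + Ω * ((0 : eis) : ℂ) / ((1 : eis) : ℂ) = w0 Ω := by
    push_cast
    ring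
  rw [e0] at hz
  have el := elam
  have a1 : 2 * (-w0 Ω) ∉ L.lattice := by
    rw [mul_neg, neg_mem_iff]
    have := hz 2 0 (by norm_num)
    convert this using 2
    push_cast
    ring
  have a2 : lam * (-w0 Ω) ∉ L.lattice := by
    rw [mul_neg, neg_mem_iff]
    have := hz 1 2 (by norm_num)
    convert this using 1
    push_cast
    rw [el]
  have a3 : 2 * (lam * (-w0 Ω)) ∉ L.lattice := by
    rw [mul_neg, mul_neg, neg_mem_iff]
    have := hz 2 4 (by norm_num)
    convert this using 1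
    push_cast
    rw [el]
    ring
  have e4 : lam * (lam * (-w0 Ω)) = Ω / 3 := by
    unfold w0
    linear_combination (-Ω / 9) * lam_sq
  have a4 : lam * (lam * (-w0 Ω)) ∉ L.lattice := by
    rw [e4]
    exact hC.third
  have := fk_cube (κ := κ) hC a1 a2 a3 a4
  rw [e4] at this
  unfold f6
  linear_combination -this

lemma b_val (hC : Cur L Ω) (κ : ZMod 3) :
    bk L Ω κ ^ 2 * ℘[L] (Ω / 3) = -((toC w ^ κ.val) ^ 2) := by
  unfold bk
  linear_combination (toC w ^ κ.val) ^ 2 * x0_cube hC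

lemma base_zero (hC : Cur L Ω) : f6 L Ω 0 (w0 Ω) = 0 := by
  have h1 := base_cube hC 0
  rw [b_val hC, ZMod.val_zero, pow_zero] at h1
  have h2 : f6 L Ω 0 (w0 Ω) ^ 3 = 0 := by
    rw [h1]
    ring
  exact (pow_eq_zero_iff three_ne_zero).1 h2

lemma ep_cube (hC : Cur L Ω) : ep L Ω ^ 3 = -27 * ℘'[L] (Ω / 3) * (1 - om ^ 2) := by
  unfold ep
  rw [base_cube hC, b_val hC, zk_one]
  ring

lemma neg_cube (hC : Cur L Ω) : f6 L Ω (-1) (w0 Ω) ^ 3 = -27 * ℘'[L] (Ω / 3) * (1 - om) := by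
  rw [base_cube hC, b_val hC, zk_two]
  linear_combination (27 * ℘'[L] (Ω / 3) * om) * om_cube

section val

variable (h3 : v 3 < 1) (hC : Cur L Ω)

include h3 hC

lemma v27 : v (-27 * ℘'[L] (Ω / 3)) = v lam ^ 7 := by
  have e27 : v (-27 : ℂ) = v lam ^ 6 := by
    have e : (-27 : ℂ) = -(3 * 3 * 3) := by norm_num
    rw [e, v.map_neg, map_mul, map_mul, ← sq_three]
    simp only [pow_succ, pow_zero, one_mul, mul_assoc]
  rw [map_mul, e27, v_y0 h3 hC, ← pow_succ]

lemma v_ep : v (ep L Ω) ^ 3 = v lam ^ 8 := by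
  rw [← map_pow, ep_cube hC, map_mul, v27 h3 hC, om_val2 h3, ← pow_succ]

lemma ep_ne : ep L Ω ≠ 0 := by
  intro h0
  have h1 := v_ep h3 hC
  rw [h0, map_zero, zero_pow three_ne_zero] at h1
  exact pow_ne_zero 8 lam_ne h1.symm

omit hC in
/-- a number with cube near one -/
lemma cube_one {ρ : ℂ} (h : v (ρ ^ 3 - 1) < 1) : v (ρ - 1) < 1 := by
  have hvr : v ρ ≤ 1 := by
    by_contra hcon
    push Not at hcon
    have h7 : 1 < v (ρ ^ 3) := by
      rw [map_pow]
      exact one_lt_pow₀ hcon three_ne_zero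
    have e : ρ ^ 3 = (ρ ^ 3 - 1) + 1 := by ring
    have h8 : v (ρ ^ 3) ≤ 1 := by
      rw [e]
      exact v.map_add_le h.le (by rw [map_one])
    exact absurd h7 (not_lt.2 h8)
  have h7 : v ((ρ - 1) ^ 3) < 1 := by
    have e : (ρ - 1) ^ 3 = (ρ ^ 3 - 1) - 3 * (ρ * (ρ - 1)) := by ring
    have h8 : v (ρ - 1) ≤ 1 := v.map_sub_le hvr (by rw [map_one])
    rw [e]
    refine v.map_sub_lt h ?_
    rw [map_mul, map_mul]
    calc v 3 * (v ρ * v (ρ - 1)) ≤ v 3 * (1 * 1) := mul_le_mul' le_rfl (mul_le_mul' hvr h8)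
      _ = v 3 := by rw [mul_one, mul_one]
      _ < 1 := h3
  rw [map_pow] at h7
  by_contra hcon
  push Not at hcon
  exact absurd h7 (not_lt.2 (one_le_pow₀ hcon))

/-- **The base value.** -/
theorem base (κ : ZMod 3) : Cg v (f6 L Ω κ (w0 Ω) / ep L Ω) κ := by
  have hk : κ = 0 ∨ κ = 1 ∨ κ = -1 := by revert κ; decide
  have he := ep_ne h3 hC
  rcases hk with rfl | rfl | rfl
  · rw [base_zero hC, zero_div]
    exact Cg.zero (by rw [map_zero]; exact zero_lt_one)
  · have e : f6 L Ω 1 (w0 Ω) / ep L Ω = 1 := div_self he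
    rw [e]
    exact Cg.one (by rw [sub_self, map_zero]; exact zero_lt_one)
  · have h1 : v (-(f6 L Ω (-1) (w0 Ω) / ep L Ω) - 1) < 1 := by
      apply cube_one h3
      have e : (-(f6 L Ω (-1) (w0 Ω) / ep L Ω)) ^ 3 - 1 = om - 1 := by
        have h5 : (-(f6 L Ω (-1) (w0 Ω) / ep L Ω)) ^ 3 =
            -(f6 L Ω (-1) (w0 Ω) ^ 3 / ep L Ω ^ 3) := by
          rw [neg_pow, div_pow]
          ring
        have hy := y0_ne hC
        have ho : (1 : ℂ) - om ^ 2 ≠ 0 := by
          intro h0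
          have := om_val2 (v := v) h3
          rw [h0, map_zero] at this
          exact lam_ne this.symm
        rw [h5, neg_cube hC, ep_cube hC]
        have h6 : -27 * ℘'[L] (Ω / 3) * (1 - om) / (-27 * ℘'[L] (Ω / 3) * (1 - om ^ 2)) =
            -om := by
          rw [div_eq_iff (mul_ne_zero (mul_ne_zero (by norm_num) hy) ho)]
          linear_combination (27 * ℘'[L] (Ω / 3)) * om_cube
        rw [h6]
        ring
      have h7 : v (om - 1) = v lam := by rw [← neg_sub, v.map_neg, om_val h3]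
      rw [e, h7]
      exact lam_lt h3
    have h2 := (Cg.one h1).neg h3
    rw [neg_neg] at h2
    exact h2

variable (hfin : ∀ q : eis, q ≠ 0 → Finite (eis ⧸ sp q))

include hfin

/-- **Two values.** -/
theorem close {c x c' x' : eis} (h : Pt6 c x) (h' : Pt6 c' x') :
    v (F2 L Ω κ (Ω * x / c) - F2 L Ω κ (Ω * x' / c')) ^ 3 ≤ v lam ^ 8 := by
  have hl := lam_lt h3
  obtain ⟨s1, g1⟩ := cub (κ := κ) h3 hC hfin h.ne h.three h.top h.cop
  obtain ⟨s2, g2⟩ := cub (κ := κ) h3 hC hfin h'.ne h'.three h'.top h'.cop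
  have n1 := near h3 hC hfin h.three_mul h'.three_mul
  have n2 := near h3 hC hfin h.three_mul.la h'.three_mul.la
  set F := F2 L Ω κ (Ω * x / c)
  set F' := F2 L Ω κ (Ω * x' / c')
  set y := ℘'[L] (Ω / 3)
  set C := Ck L Ω κ
  have hvy := v27 (v := v) h3 hC
  have e : (F - F') ^ 3 = (F ^ 3 + 27 * y * (C - ℘[L] (Ω * ((3 * x : eis) : ℂ) / c) -
      ℘[L] (Ω * ((la * (3 * x) : eis) : ℂ) / c))) - (F' ^ 3 + 27 * y * (C -
      ℘[L] (Ω * ((3 * x' : eis) : ℂ) / c') - ℘[L] (Ω * ((la * (3 * x') : eis) : ℂ) / c'))) +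
      ((-27 * y) * -((℘[L] (Ω * ((3 * x : eis) : ℂ) / c) - ℘[L] (Ω * ((3 * x' : eis) : ℂ) / c')) +
        (℘[L] (Ω * ((la * (3 * x) : eis) : ℂ) / c) -
          ℘[L] (Ω * ((la * (3 * x') : eis) : ℂ) / c'))) - 3 * (F * F' * (F - F'))) := by ring
  rw [← map_pow, e]
  refine v.map_add_le (v.map_sub_le s1.le s2.le) (v.map_sub_le ?_ ?_)
  · rw [map_mul, hvy, v.map_neg]
    calc v lam ^ 7 * _ ≤ v lam ^ 7 * v lam := mul_le_mul' le_rfl (v.map_add_le n1 n2)
      _ = v lam ^ 8 := by rw [← pow_succ]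
  · have h7 : v (F * F' * (F - F')) ≤ v lam ^ 7 := by
      have hs : v (F - F') ^ 3 ≤ v lam ^ 7 := by
        rcases le_total (v F) (v F') with h0 | h0
        · exact (pow_le_pow_left₀ zero_le (v.map_sub_le h0 le_rfl) 3).trans g2
        · exact (pow_le_pow_left₀ zero_le (v.map_sub_le le_rfl h0) 3).trans g1
      have h8 : v (F * F' * (F - F')) ^ 3 ≤ (v lam ^ 7) ^ 3 := by
        rw [map_mul, map_mul, mul_pow, mul_pow]
        calc v F ^ 3 * v F' ^ 3 * v (F - F') ^ 3 ≤ v lam ^ 7 * v lam ^ 7 * v lam ^ 7 :=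
              mul_le_mul' (mul_le_mul' g1 g2) hs
          _ = (v lam ^ 7) ^ 3 := by simp only [pow_succ, pow_zero, one_mul, mul_assoc]
      exact (pow_le_pow_iff_left₀ zero_le zero_le three_ne_zero).1 h8
    rw [map_mul, ← sq_three]
    calc v lam * v lam * v (F * F' * (F - F')) ≤ v lam * 1 * v lam ^ 7 :=
          mul_le_mul' (mul_le_mul' le_rfl hl.le) h7
      _ = v lam ^ 8 := by rw [mul_one, ← pow_succ']

/-- **The shift.** -/
theorem shift {c x : eis} (h : Pt6 c x) :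
    v ((F2 L Ω κ (Ω * ((omr * x : eis) : ℂ) / c) - F2 L Ω κ (Ω * x / c)) / (2 * ep L Ω) - 1) <
      1 := by
  have hl := lam_lt h3
  have h' : Pt6 c (omr * x) := h.unit omr_unit
  obtain ⟨s1, g1⟩ := cub (κ := κ) h3 hC hfin h'.ne h'.three h'.top h'.cop
  obtain ⟨s2, g2⟩ := cub (κ := κ) h3 hC hfin h.ne h.three h.top h.cop
  have hp := h.three_mul
  have n1 := near_one h3 hC hfin hp.ne hp.three hp.top hp.cop
  have hpl := h.three_mul.la
  have n2 := near_one h3 hC hfin hpl.ne hpl.three hpl.top hpl.cop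
  have hw : ∀ y : eis, ℘[L] (Ω * ((omr * y : eis) : ℂ) / c) = om * ℘[L] (Ω * y / c) := by
    intro y
    have h5 := wp_unit hC.lat omr_unit (Ω * y / c)
    have e : ((omr : eis) : ℂ) * (Ω * y / c) = Ω * ((omr * y : eis) : ℂ) / c := by
      push_cast
      ring
    rw [e, omr_coe] at h5
    have i1 : (om ^ 2)⁻¹ = om :=
      (eq_inv_of_mul_eq_one_left (by linear_combination om_cube)).symm
    rw [h5, i1]
  have w1 : (3 * (omr * x) : eis) = omr * (3 * x) := by ring
  have w2 : (la * (omr * (3 * x)) : eis) = omr * (la * (3 * x)) := by ring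
  rw [w1, w2, hw, hw] at s1
  set F' := F2 L Ω κ (Ω * ((omr * x : eis) : ℂ) / c)
  set F := F2 L Ω κ (Ω * x / c)
  set y := ℘'[L] (Ω / 3)
  set C := Ck L Ω κ
  set X := ℘[L] (Ω * ((3 * x : eis) : ℂ) / c)
  set X1 := ℘[L] (Ω * ((la * (3 * x) : eis) : ℂ) / c)
  have hvy := v27 (v := v) h3 hC
  have hec := ep_cube hC
  have he0 := ep_ne h3 hC
  have hev := v_ep h3 hC
  have ho := om_val (v := v) h3
  have hv2 := v_two h3
  apply cube_one h3
  have e : (F' - F) ^ 3 - (2 * ep L Ω) ^ 3 =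
      (F' ^ 3 + 27 * y * (C - om * X - om * X1)) - (F ^ 3 + 27 * y * (C - X - X1)) +
      ((-27 * y) * ((1 - om) * ((X + 1) + (X1 + 1) + (8 * (om ^ 2 - 1) + 3 * 2))) -
        3 * (F' * F * (F' - F))) := by
    have e8 : (2 * ep L Ω) ^ 3 = 8 * ep L Ω ^ 3 := by ring
    rw [e8, hec]
    linear_combination (216 * y * (1 - om)) * om_sq
  have key : v ((F' - F) ^ 3 - (2 * ep L Ω) ^ 3) < v lam ^ 8 := by
    rw [e]
    refine v.map_add_lt (v.map_sub_lt s1 s2) (v.map_sub_lt ?_ ?_)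
    · rw [map_mul, hvy, map_mul, ho]
      have h8 : v ((X + 1) + (X1 + 1) + (8 * (om ^ 2 - 1) + 3 * 2)) < 1 := by
        refine v.map_add_lt (v.map_add_lt n1 n2) (v.map_add_lt ?_ ?_)
        · have h9 : v (8 : ℂ) ≤ 1 := by
            have := Pool.Agent.Y715.Two.v_nat (v := v) 8
            exact_mod_cast this
          have h10 : v (om ^ 2 - 1) < 1 := by
            rw [← neg_sub, v.map_neg, om_val2 h3]
            exact hl
          rw [map_mul]
          calc v 8 * v (om ^ 2 - 1) ≤ 1 * v (om ^ 2 - 1) := mul_le_mul' h9 le_rfl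
            _ = v (om ^ 2 - 1) := one_mul _
            _ < 1 := h10
        · rw [map_mul, hv2, mul_one]
          exact h3
      calc v lam ^ 7 * (v lam * v ((X + 1) + (X1 + 1) + (8 * (om ^ 2 - 1) + 3 * 2))) =
          v lam ^ 8 * v ((X + 1) + (X1 + 1) + (8 * (om ^ 2 - 1) + 3 * 2)) := by
            rw [← mul_assoc, ← pow_succ]
        _ < v lam ^ 8 * 1 := mul_lt_mul_of_pos_left h8 (pow_pos lam_pos 8)
        _ = v lam ^ 8 := mul_one _
    · have h7 : v (F' * F * (F' - F)) ≤ v lam ^ 7 := by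
        have hs : v (F' - F) ^ 3 ≤ v lam ^ 7 := by
          rcases le_total (v F') (v F) with h0 | h0
          · exact (pow_le_pow_left₀ zero_le (v.map_sub_le h0 le_rfl) 3).trans g2
          · exact (pow_le_pow_left₀ zero_le (v.map_sub_le le_rfl h0) 3).trans g1
        have h8 : v (F' * F * (F' - F)) ^ 3 ≤ (v lam ^ 7) ^ 3 := by
          rw [map_mul, map_mul, mul_pow, mul_pow]
          calc v F' ^ 3 * v F ^ 3 * v (F' - F) ^ 3 ≤ v lam ^ 7 * v lam ^ 7 * v lam ^ 7 :=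
                mul_le_mul' (mul_le_mul' g1 g2) hs
            _ = (v lam ^ 7) ^ 3 := by simp only [pow_succ, pow_zero, one_mul, mul_assoc]
        exact (pow_le_pow_iff_left₀ zero_le zero_le three_ne_zero).1 h8
      rw [map_mul, ← sq_three]
      calc v lam * v lam * v (F' * F * (F' - F)) ≤ v lam * v lam * v lam ^ 7 :=
            mul_le_mul' le_rfl h7
        _ = v lam ^ 9 := by simp only [pow_succ, pow_zero, one_mul, mul_assoc]
        _ < v lam ^ 8 := pow_lt_pow_right_of_lt_one₀ lam_pos hl (by norm_num)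
  have e9 : ((F' - F) / (2 * ep L Ω)) ^ 3 - 1 = ((F' - F) ^ 3 - (2 * ep L Ω) ^ 3) /
      (2 * ep L Ω) ^ 3 := by
    field_simp
  rw [e9, map_div₀, map_pow, map_mul, hv2, one_mul, hev, div_lt_one₀ (pow_pos lam_pos 8)]
  exact key

end val

end Pool.Agent.Helper68.C6.Ana6
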