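import Pool.Agent.Helper68.C5.Lim5b

/-!
# The limits of the sums for the inverse characters modulo nine
-/

set_option autoImplicit false
set_option linter.unusedSectionVars false

open Filter
open scoped Topology PeriodPair

namespace Pool.Agent.Helper68.C6.Lim6

open H667R3 Pool.Agent.W192.HK Pool.Agent.TH936.CM Pool.Agent.TH936.PU
open Pool.Agent.Y715.Dist Pool.Agent.Y715.Idn Pool.Agent.Y715.T.Lat Pool.Agent.Y696
open Pool.Agent.Y692.QS (Ei w toC)
open Pool.Agent.Y715.T.Rs (eq0)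
open Pool.Agent.Y703.CT (toC_w_add toC_eq')
open Pool.Agent.Y703.CT.Ana (ej eo_j ej_u ej_ncop ej_prim)
open Pool.Agent.Y715.CT.Hec (la_ne)
open Pool.Agent.Y715.T.Three (lam lam_sq lam_ne')
open Pool.Agent.Helper68.C5.Chr5 Pool.Agent.Helper68.C5.Lim5
open Pool.Agent.Helper68.C2.Chr (norm_w_pow three_sum cop_mul_iff eq0_ez symm_ez)
open Pool.Agent.Helper68.C2.Lim (toC_w tau tau_eq EE_tau tau_notMem z1 z2)

variable {L : PeriodPair} {Ω : ℂ} {κ : ZMod 3}

/-- the inverse odd characters modulo `9` -/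
noncomputable def e6 (κ : ZMod 3) (j : Fin 3) (x : eis) : ℂ := ej j x * toC w ^ (-(tl κ x)).val

lemma e6_ncop (j : Fin 3) {x : eis} (hx : ¬ IsCoprime x 3) : e6 κ j x = 0 := by
  unfold e6
  rw [ej_ncop j hx, zero_mul]

lemma eo_6 (κ : ZMod 3) (j : Fin 3) : Eo ff (e6 κ j) := by
  refine ⟨fun x y hxy => ?_, fun x y => ?_, fun x => ?_, fun x => ?_⟩
  · by_cases hy : IsCoprime y 3
    · unfold e6
      rw [(eo_j j).per x y (sp_ff_three hxy), tl_per hy hxy]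
    · rw [e6_ncop j hy]
      refine e6_ncop j fun hx => hy (cop_per (x := y) (y := x) ?_ hx)
      have := neg_mem (sp_ff_three hxy)
      rwa [neg_sub] at this
  · by_cases hx : IsCoprime x 3
    · by_cases hy : IsCoprime y 3
      · unfold e6
        rw [(eo_j j).mul, tl_mul hx hy, neg_add, toC_w_add]
        ring
      · rw [e6_ncop j hy, mul_zero]
        exact e6_ncop j fun h => hy (cop_mul_iff.1 h).2
    · rw [e6_ncop j hx, zero_mul]
      exact e6_ncop j fun h => hx (cop_mul_iff.1 h).1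
  · unfold e6
    rw [(eo_j j).neg, tl_neg, neg_mul]
  · unfold e6
    rw [norm_mul, norm_w_pow, mul_one]
    exact (eo_j j).bd x

lemma e6_u (j : Fin 3) {u : eis} (hu : IsUnit u) : e6 κ j u = (u : ℂ) ^ (2 * (j : ℕ) + 1) := by
  unfold e6
  rw [ej_u j hu, tl_unit hu, neg_zero, ZMod.val_zero, pow_zero, mul_one]

lemma e6_prim' (j : Fin 3) {x : eis} (h : x - 1 ∈ (sp 3 : Ideal eis)) :
    e6 κ j x = toC w ^ (-(tl κ x)).val := by
  unfold e6
  rw [ej_prim j h, one_mul]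

lemma e6_prim (j : Fin 3) (t : eis) : e6 κ j (1 + 3 * t) = toC w ^ (-(ll κ t)).val := by
  rw [e6_prim' j, tl_prim]
  rw [Ideal.mem_span_singleton']
  exact ⟨t, by ring⟩

/-- the function -/
noncomputable def f6 (L : PeriodPair) (Ω : ℂ) (κ : ZMod 3) (z : ℂ) : ℂ := -fk L Ω κ (-z)

/-- the finite sum -/
noncomputable def G6 (Ω : ℂ) (κ : ZMod 3) (δ : ℝ) (z : ℂ) : ℂ :=
  N9 (fun t => toC w ^ (-(ll κ t)).val * EE eis Ω δ (z + t * (Ω / 3)))

lemma N9_neg (F : eis → ℂ) : N9 (fun t => F (-t)) = N9 F := by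
  unfold N9
  simp only [neg_neg, neg_zero]
  ring

lemma G6_eq (δ : ℝ) (z : ℂ) : G6 Ω κ δ z = -Gk Ω κ δ (-z) := by
  unfold G6 Gk
  rw [← N9_neg, ← neg_one_mul (N9 _), ← N9_mul]
  apply N9_congr
  intro t
  have e : z + ((-t : eis) : ℂ) * (Ω / 3) = -(-z + t * (Ω / 3)) := by
    push_cast
    ring
  rw [e, EE_neg, ll_neg, neg_neg]
  ring

theorem lim_f6 (hC : Cur L Ω) {z : ℂ} (hz : 3 * z ∉ L.lattice) :
    Tendsto (fun δ : ℝ => G6 Ω κ δ z) (𝓝[>] 0) (𝓝 (f6 L Ω κ z)) := by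
  have hz' : 3 * (-z) ∉ L.lattice := by
    rw [mul_neg, neg_mem_iff]
    exact hz
  simp only [G6_eq]
  exact (lim_fk (κ := κ) hC hz').neg

lemma f6_per {z z' : ℂ} (h : z - z' ∈ L.lattice) : f6 L Ω κ z = f6 L Ω κ z' := by
  unfold f6
  rw [fk_per (z := -z) (z' := -z')]
  have := neg_mem h
  rwa [neg_sub, ← neg_sub_neg] at this

/-- the limits of the constants -/
noncomputable def E6 (L : PeriodPair) (Ω : ℂ) (κ : ZMod 3) (j : Fin 3) : ℂ :=
  if j = 0 then 6 * f6 L Ω κ (w0 Ω) else 0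

theorem lim_6 (hC : Cur L Ω) [Fintype (eis ⧸ (sp ff : Ideal eis))] (j : Fin 3) :
    Tendsto (fun δ : ℝ => ∑ y : eis ⧸ (sp ff : Ideal eis), e6 κ j y.out *
      EE eis Ω δ (Ω * y.out / (ff : eis))) (𝓝[>] 0) (𝓝 (E6 L Ω κ j)) := by
  have hlim := lim_f6 (κ := κ) hC (w0_three hC)
  have e0 : E6 L Ω κ j = (if j = 0 then 6 else 0) * f6 L Ω κ (w0 Ω) := by
    unfold E6
    by_cases hj : j = 0
    · rw [if_pos hj, if_pos hj]
    · rw [if_neg hj, if_neg hj, zero_mul]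
  rw [e0]
  refine (hlim.const_mul _).congr fun δ => ?_
  have hper : ∀ x y : eis, x - y ∈ (sp ff : Ideal eis) →
      e6 κ j x * EE eis Ω δ (Ω * x / (ff : eis)) = e6 κ j y * EE eis Ω δ (Ω * y / (ff : eis)) := by
    intro x y hxy
    rw [(eo_6 κ j).per x y hxy]
    congr 1
    apply EE_per hC.lat
    have := (div_mem_iff hC.lat ff_ne (x - y)).2 hxy
    convert this using 1
    push_cast
    ring
  rw [fifty_sum (fun y => e6 κ j y * EE eis Ω δ (Ω * y / (ff : eis)))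
    (fun x hx => by rw [e6_ncop j hx, zero_mul]) hper]
  have hall : ∀ u : eis, IsUnit u → (fun u : eis => N9 (fun t =>
      (fun y : eis => e6 κ j y * EE eis Ω δ (Ω * y / (ff : eis))) (u * (1 + 3 * t)))) u =
      (u : ℂ) ^ (2 * (j : ℕ)) * G6 Ω κ δ (w0 Ω) := by
    intro u hu
    beta_reduce
    unfold G6
    rw [← N9_mul]
    apply N9_congr
    intro t
    have hu0 : (u : ℂ) ≠ 0 := coe_ne hu.ne_zero
    have e3 : ((3 : eis) : ℂ) = 3 := rfl
    have e : Ω * ((u * (1 + 3 * t) : eis) : ℂ) / ((ff : eis) : ℂ) = u * (w0 Ω + t * (Ω / 3)) := by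
      rw [ff_coe]
      unfold w0
      push_cast
      rw [e3]
      ring
    rw [(eo_6 κ j).mul, e6_u j hu, e6_prim, e, EE_unit hu, pow_succ]
    field_simp
  have hu : ∀ v ∈ ({1, -1, omr, -omr, omr ^ 2, -omr ^ 2} : Set eis), IsUnit v := fun v hv =>
    (unit_list v).2 hv
  have a1 := hall 1 (hu _ (by simp))
  have a2 := hall (-1) (hu _ (by simp))
  have a3 := hall omr (hu _ (by simp))
  have a4 := hall (-omr) (hu _ (by simp))
  have a5 := hall (omr ^ 2) (hu _ (by simp))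
  have a6 := hall (-omr ^ 2) (hu _ (by simp))
  rw [a1, a2, a3, a4, a5, a6]
  push_cast
  rw [omr_coe]
  have h3 := om_cube
  have hs := om_sq
  have hj : (j = 0 ∧ (j : ℕ) = 0) ∨ (j ≠ 0 ∧ (j : ℕ) = 1) ∨ (j ≠ 0 ∧ (j : ℕ) = 2) := by
    clear a1 a2 a3 a4 a5 a6 hall hper e0
    revert j
    decide
  rcases hj with ⟨h, h'⟩ | ⟨h, h'⟩ | ⟨h, h'⟩
  · rw [if_pos h, h']
    simp only [mul_zero, pow_zero]
    ring
  · rw [if_neg h, h', zero_mul]
    linear_combination (-2 * G6 Ω κ δ (w0 Ω)) * hs + (-2 * om * G6 Ω κ δ (w0 Ω)) * h3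
  · rw [if_neg h, h', zero_mul]
    linear_combination (-2 * G6 Ω κ δ (w0 Ω)) * hs +
      (-2 * om * G6 Ω κ δ (w0 Ω) - 2 * G6 Ω κ δ (w0 Ω) * (om ^ 5 + om ^ 2)) * h3

/-- **The sum of the three limits.** -/
theorem sum_Ph6 (hC : Cur L Ω) [Fintype (eis ⧸ (sp ff : Ideal eis))] {c : eis}
    (hc : c ≠ 0) (hfc : IsCoprime ff c) (x : eis) :
    ∑ j : Fin 3, Ph L Ω ff (e6 κ j) (E6 L Ω κ j) c x =
      3 * (f6 L Ω κ (w0 Ω + Ω * x / c) + f6 L Ω κ (w0 Ω - Ω * x / c)) := by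
  have h3c : IsCoprime 3 c := by
    unfold ff at hfc
    exact hfc.of_mul_left_left
  have hlimtot : Tendsto (fun δ : ℝ => ∑ j : Fin 3, ∑ y : eis ⧸ (sp ff : Ideal eis), e6 κ j y.out *
      EE eis Ω δ (Ω * y.out / (ff : eis) + Ω * x / c)) (𝓝[>] 0)
      (𝓝 (∑ j : Fin 3, Ph L Ω ff (e6 κ j) (E6 L Ω κ j) c x)) :=
    tendsto_finsetSum _ fun j _ => lim_Ph hC.lat ff_ne hc hfc (eo_6 κ j) (lim_6 hC j) x
  have k1 := pt_three hC hc h3c x
  have k2 := pt_three hC hc h3c (-x)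
  have ex : w0 Ω + Ω * ((-x : eis) : ℂ) / c = w0 Ω - Ω * x / c := by
    push_cast
    ring
  rw [ex] at k2
  set u : ℂ := Ω * x / c with hu
  have l1 := lim_f6 (κ := κ) hC k1
  have l2 := lim_f6 (κ := κ) hC k2
  have l3 := (l1.add l2).const_mul (3 : ℂ)
  refine tendsto_nhds_unique hlimtot (l3.congr fun δ => ?_)
  have hsum : ∑ j : Fin 3, ∑ y : eis ⧸ (sp ff : Ideal eis), e6 κ j y.out *
      EE eis Ω δ (Ω * y.out / (ff : eis) + u) =
      ∑ y : eis ⧸ (sp ff : Ideal eis), (fun y : eis => (∑ j : Fin 3, e6 κ j y) *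
        EE eis Ω δ (Ω * y / (ff : eis) + u)) y.out := by
    rw [Finset.sum_comm]
    exact Finset.sum_congr rfl fun y _ => (Finset.sum_mul _ _ _).symm
  have hper : ∀ x y : eis, x - y ∈ (sp ff : Ideal eis) →
      (∑ j : Fin 3, e6 κ j x) * EE eis Ω δ (Ω * x / (ff : eis) + u) =
      (∑ j : Fin 3, e6 κ j y) * EE eis Ω δ (Ω * y / (ff : eis) + u) := by
    intro x y hxy
    rw [Finset.sum_congr rfl fun j _ => (eo_6 κ j).per x y hxy]
    congr 1
    apply EE_per hC.lat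
    have := (div_mem_iff hC.lat ff_ne (x - y)).2 hxy
    convert this using 1
    push_cast
    ring
  rw [hsum, fifty_sum (fun y : eis => (∑ j : Fin 3, e6 κ j y) *
        EE eis Ω δ (Ω * y / (ff : eis) + u))
    (fun x hx => by
      rw [Finset.sum_eq_zero fun j _ => e6_ncop j hx, zero_mul]) hper]
  -- the sum of the characters
  have he6 : ∀ v : eis, IsUnit v → ∀ t : eis, ∑ j : Fin 3, e6 κ j (v * (1 + 3 * t)) =
      ((v : ℂ) + (v : ℂ) ^ 3 + (v : ℂ) ^ 5) * toC w ^ (-(ll κ t)).val := by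
    intro v hv t
    rw [Fin.sum_univ_three, (eo_6 κ 0).mul, (eo_6 κ 1).mul, (eo_6 κ 2).mul, e6_u 0 hv, e6_u 1 hv,
      e6_u 2 hv, e6_prim, e6_prim, e6_prim]
    norm_num
    ring
  have hall : ∀ v : eis, IsUnit v → (fun v : eis => N9 (fun t =>
      (fun y : eis => (∑ j : Fin 3, e6 κ j y) * EE eis Ω δ (Ω * y / (ff : eis) + u))
        (v * (1 + 3 * t)))) v =
      ((v : ℂ) + (v : ℂ) ^ 3 + (v : ℂ) ^ 5) *
        N9 (fun t => toC w ^ (-(ll κ t)).val * EE eis Ω δ (v * (w0 Ω + t * (Ω / 3)) + u)) := by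
    intro v hv
    beta_reduce
    rw [← N9_mul]
    apply N9_congr
    intro t
    have e3 : ((3 : eis) : ℂ) = 3 := rfl
    have e : Ω * ((v * (1 + 3 * t) : eis) : ℂ) / ((ff : eis) : ℂ) = v * (w0 Ω + t * (Ω / 3)) := by
      rw [ff_coe]
      unfold w0
      push_cast
      rw [e3]
      ring
    rw [he6 v hv, e]
    ring
  have hun : ∀ v ∈ ({1, -1, omr, -omr, omr ^ 2, -omr ^ 2} : Set eis), IsUnit v := fun v hv =>
    (unit_list v).2 hv
  have a1 := hall 1 (hun _ (by simp))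
  have a2 := hall (-1) (hun _ (by simp))
  have a3 := hall omr (hun _ (by simp))
  have a4 := hall (-omr) (hun _ (by simp))
  have a5 := hall (omr ^ 2) (hun _ (by simp))
  have a6 := hall (-omr ^ 2) (hun _ (by simp))
  rw [a1, a2, a3, a4, a5, a6]
  push_cast
  rw [omr_coe]
  have z3 : -om + (-om) ^ 3 + (-om) ^ 5 = 0 := by linear_combination -z1
  have z4 : -om ^ 2 + (-om ^ 2) ^ 3 + (-om ^ 2) ^ 5 = 0 := by linear_combination -z2
  rw [z1, z2, z3, z4]
  have n1 : N9 (fun t => toC w ^ (-(ll κ t)).val * EE eis Ω δ (1 * (w0 Ω + t * (Ω / 3)) + u)) =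
      G6 Ω κ δ (w0 Ω + u) := by
    unfold G6
    apply N9_congr
    intro t
    congr 2
    ring
  have n2 : N9 (fun t => toC w ^ (-(ll κ t)).val * EE eis Ω δ (-1 * (w0 Ω + t * (Ω / 3)) + u)) =
      -G6 Ω κ δ (w0 Ω - u) := by
    unfold G6
    rw [← neg_one_mul (N9 _), ← N9_mul]
    apply N9_congr
    intro t
    have e : (-1 : ℂ) * (w0 Ω + t * (Ω / 3)) + u = -(w0 Ω - u + t * (Ω / 3)) := by ring
    rw [e, EE_neg]
    ring
  rw [n1, n2]
  ring

end Pool.Agent.Helper68.C6.Lim6
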