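import Pool.Agent.Helper68.C2.Loc3b

/-!
# The local condition at the prime above three, twisting element of valuation one
-/

set_option autoImplicit false
set_option linter.unusedSectionVars false
set_option linter.unusedVariables false

namespace Pool.Agent.Helper68.C6.Loc6

open WeierstrassCurve
open Pool.Agent.Y692.QS
open Pool.Agent.Y715.T.Gi Pool.Agent.Y715.T.Nr Pool.Agent.Y715.T.Df Pool.Agent.Y715.T.Ell
open Pool.Agent.Y715.T.Red Pool.Agent.Y715.T.Thr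
open Pool.Agent.Y703.CT
open Pool.Agent.Y180.CT
open Pool.Agent.Helper68.C2.Loc3b (three_dvd)

open scoped Classical

variable {I : PadicAlgCl 3}

/-- there is no element whose cube has the norm of `lam` -/
lemma no_cube (hI : I ^ 2 + I + 1 = 0) {x : PadicAlgCl 3} (hx : x ∈ Kl I)
    (h : ‖x‖ ^ 3 = ‖1 + 2 * I‖) : False := by
  have h1 := three_dvd (q := 0) (g := 1) (u := 1) hI isUnit_one hx (by
    rw [mul_zero, add_zero, mul_one, one_mul, pow_one, ev_lam, h])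
  omega

/-- the cubes of the units -/
lemma cube_unit (hI : I ^ 2 + I + 1 = 0) {y : PadicAlgCl 3} (hy : y ∈ Kl I) (h1 : ‖y‖ = 1) :
    ∃ ε : ℤ, (ε = 1 ∨ ε = -1) ∧ ‖y ^ 3 - ε‖ ≤ ‖1 + 2 * I‖ ^ 3 := by
  have hl := norm_lam hI
  have hlp := lam_pos hI
  have hl1 := norm_lam_lt hI
  set r := ‖1 + 2 * I‖ with hr
  have h3 : ‖(3 : PadicAlgCl 3)‖ = r ^ 2 := by rw [norm_three', hl]
  have key : ∀ ε : PadicAlgCl 3, ε ^ 2 = 1 → ε ∈ Kl I → ‖y - ε‖ < 1 → ‖y ^ 3 - ε‖ ≤ r ^ 3 := by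
    intro ε hε hεm h
    have h4 : ‖y - ε‖ ≤ r := le_lam hI (Kl_le (sub_mem hy hεm)) h
    have hεn : ‖ε‖ = 1 := by
      have := congrArg norm hε
      rw [norm_pow, norm_one] at this
      exact (pow_eq_one_iff_of_nonneg (norm_nonneg _) two_ne_zero).1 this
    have e : y ^ 3 - ε = (y - ε) ^ 3 + 3 * ((y - ε) * (ε * y)) := by
      linear_combination ε * hε
    rw [e]
    refine add_le ?_ ?_
    · rw [norm_pow]
      exact pow_le_pow_left₀ (norm_nonneg _) h4 3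
    · rw [norm_mul, norm_mul, norm_mul, hεn, h1, mul_one, mul_one, h3, pow_succ r 2]
      exact mul_le_mul_of_nonneg_left h4 (by positivity)
  rcases residue3 hI h1.le hy with h | h | h
  · rw [h1] at h
    exact absurd h (lt_irrefl _)
  · refine ⟨1, Or.inl rfl, ?_⟩
    rw [Int.cast_one]
    exact key 1 (one_pow 2) (one_mem _) h
  · refine ⟨-1, Or.inr rfl, ?_⟩
    rw [Int.cast_neg, Int.cast_one]
    refine key (-1) (by norm_num) (neg_mem (one_mem _)) ?_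
    rw [sub_neg_eq_add]
    exact h

/-- divisibility by the powers of `lam` -/
lemma lam_pow_dvd (hI : I ^ 2 + I + 1 = 0) (n : ℕ) : ∀ x : Ei,
    ‖ev I hI x‖ ≤ ‖1 + 2 * I‖ ^ n → lam ^ n ∣ x := by
  have hlp := lam_pos hI
  have hl1 := norm_lam_lt hI
  induction n with
  | zero => exact fun x _ => by rw [pow_zero]; exact one_dvd x
  | succ n ih =>
    intro x hx
    have h1 : lam ∣ x := by
      rw [dvd_iff hI prime_lam (lam_lt hI) x]
      exact hx.trans_lt (pow_lt_one₀ (norm_nonneg _) hl1 (Nat.succ_ne_zero n))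
    obtain ⟨y, rfl⟩ := h1
    rw [map_mul, norm_mul, ev_lam, pow_succ'] at hx
    obtain ⟨z, hz⟩ := ih y (le_of_mul_le_mul_left hx hlp)
    exact ⟨z, by rw [hz]; ring⟩

lemma lam_three : lam ^ 3 = ⟨-3, -6⟩ := by decide

/-- the components of a multiple of `lam ^ 3` -/
lemma comp_three {a : Ei} (h : lam ^ 3 ∣ a) :
    (3 : ℤ) ∣ a.re ∧ (3 : ℤ) ∣ a.im ∧ (9 : ℤ) ∣ a.re + a.im := by
  obtain ⟨b, rfl⟩ := h
  rw [lam_three, mul_re, mul_im]
  exact ⟨⟨-b.re + 2 * b.im, by ring⟩, ⟨-2 * b.re + b.im, by ring⟩, ⟨-b.re + b.im, by ring⟩⟩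

lemma re_six (B q : Ei) : (6 * B * q).re = 6 * (B.re * q.re - B.im * q.im) := by
  have e2 : (6 : Ei).re = 6 := rfl
  have e3 : (6 : Ei).im = 0 := rfl
  rw [mul_re, mul_re, mul_im, e2, e3]
  ring

lemma im_six (B q : Ei) : (6 * B * q).im = 6 * (B.re * q.im + B.im * q.re - B.im * q.im) := by
  have e2 : (6 : Ei).re = 6 := rfl
  have e3 : (6 : Ei).im = 0 := rfl
  rw [mul_im, mul_re, mul_im, e2, e3]
  ring

/-- the sign -/
def sg (x : Fin 2) : Ei := 1 - 2 * (x : ℕ)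

/-- the finite verification -/
lemma fin_check : ∀ (κ σ : ZMod 3) (x y : Fin 2),
    (3 : ℤ) ∣ (sg x * (w ^ σ.val) ^ 2 - 1 - sg y * (lam * w ^ κ.val * w ^ σ.val)).re →
    (3 : ℤ) ∣ (sg x * (w ^ σ.val) ^ 2 - 1 - sg y * (lam * w ^ κ.val * w ^ σ.val)).im →
    (9 : ℤ) ∣ (sg x * (w ^ σ.val) ^ 2 - 1 - sg y * (lam * w ^ κ.val * w ^ σ.val)).re +
      (sg x * (w ^ σ.val) ^ 2 - 1 - sg y * (lam * w ^ κ.val * w ^ σ.val)).im +
      6 * ((sg x * (w ^ σ.val) ^ 2).re + (sg x * (w ^ σ.val) ^ 2).im) *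
        (-((κ.val : ℤ) * σ.val)) ∧
      ¬ (3 : ℤ) ∣ (sg x * (w ^ σ.val) ^ 2).re + (sg x * (w ^ σ.val) ^ 2).im := by
  decide

/-- the conclusion from the congruence -/
lemma concl {κ σ : ZMod 3} {q m : Ei} {x y : Fin 2}
    (h : lam ^ 3 ∣ sg x * (w ^ σ.val * (1 + 3 * q)) ^ 2 - 1 -
      sg y * (lam * w ^ κ.val * (1 + 3 * m) * (w ^ σ.val * (1 + 3 * q)))) :
    κ * σ + ((q.re + q.im : ℤ) : ZMod 3) = 0 := by
  have h9 : (9 : Ei) = lam ^ 3 * lam := by decide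
  have h3 : 3 * lam = -lam ^ 3 := by decide
  have h1 : lam ^ 3 ∣ (sg x * (w ^ σ.val) ^ 2 - 1 - sg y * (lam * w ^ κ.val * w ^ σ.val)) +
      6 * (sg x * (w ^ σ.val) ^ 2) * q := by
    obtain ⟨c, hc⟩ := h
    refine ⟨c - lam * (sg x * (w ^ σ.val) ^ 2 * q ^ 2) -
      sg y * (w ^ κ.val * w ^ σ.val * (m + q)) +
      3 * (lam ^ 2 * 0) - sg y * (w ^ κ.val * w ^ σ.val * (3 * m * q)), ?_⟩
    linear_combination hc - (sg x * (w ^ σ.val) ^ 2 * q ^ 2) * h9 +
      (sg y * (w ^ κ.val * w ^ σ.val * (m + q + 3 * m * q))) * h3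
  obtain ⟨a1, a2, a3⟩ := comp_three h1
  rw [QuadraticAlgebra.re_add, re_six] at a1 a3
  rw [QuadraticAlgebra.im_add, im_six] at a2 a3
  have b1 : (3 : ℤ) ∣ (sg x * (w ^ σ.val) ^ 2 - 1 - sg y * (lam * w ^ κ.val * w ^ σ.val)).re := by
    omega
  have b2 : (3 : ℤ) ∣ (sg x * (w ^ σ.val) ^ 2 - 1 - sg y * (lam * w ^ κ.val * w ^ σ.val)).im := by
    omega
  obtain ⟨c1, c2⟩ := fin_check κ σ x y b1 b2
  set T := (sg x * (w ^ σ.val) ^ 2 - 1 - sg y * (lam * w ^ κ.val * w ^ σ.val)).re +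
      (sg x * (w ^ σ.val) ^ 2 - 1 - sg y * (lam * w ^ κ.val * w ^ σ.val)).im with hT
  set B := sg x * (w ^ σ.val) ^ 2 with hB
  have d1 : (9 : ℤ) ∣ T + 6 * (B.re + B.im) * (q.re + q.im) := by
    obtain ⟨c, hc⟩ := a3
    exact ⟨c + 2 * B.im * q.im, by rw [hT]; linear_combination hc⟩
  have d2 : (9 : ℤ) ∣ 6 * (B.re + B.im) * ((κ.val : ℤ) * σ.val + (q.re + q.im)) := by
    have h5 := dvd_sub d1 c1
    have e5 : T + 6 * (B.re + B.im) * (q.re + q.im) -
        (T + 6 * (B.re + B.im) * (-((κ.val : ℤ) * σ.val))) =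
        6 * (B.re + B.im) * ((κ.val : ℤ) * σ.val + (q.re + q.im)) := by ring
    rw [← e5]
    exact h5
  have d3 : (3 : ℤ) ∣ (B.re + B.im) * ((κ.val : ℤ) * σ.val + (q.re + q.im)) := by
    rw [mul_assoc] at d2
    generalize (B.re + B.im) * ((κ.val : ℤ) * σ.val + (q.re + q.im)) = t at d2 ⊢
    omega
  have d4 := (Int.prime_three.dvd_or_dvd d3).resolve_left c2
  have d5 := (ZMod.intCast_zmod_eq_zero_iff_dvd _ 3).2 d4
  push_cast at d5
  rw [ZMod.natCast_zmod_val, ZMod.natCast_zmod_val] at d5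
  push_cast
  exact d5

/-- the finite verification, trivial case -/
lemma fin_check1 : ∀ (σ : ZMod 3) (x : Fin 2),
    (3 : ℤ) ∣ (w ^ σ.val - sg x).re → (3 : ℤ) ∣ (w ^ σ.val - sg x).im → σ = 0 ∧ x = 0 := by
  decide

lemma concl1 {σ : ZMod 3} {q : Ei} {x : Fin 2}
    (h : lam ^ 3 ∣ w ^ σ.val * (1 + 3 * q) - sg x) :
    σ = 0 ∧ ((q.re + q.im : ℤ) : ZMod 3) = 0 := by
  obtain ⟨a1, a2, a3⟩ := comp_three h
  have e : w ^ σ.val * (1 + 3 * q) - sg x = (w ^ σ.val - sg x) + 3 * (w ^ σ.val * q) := by ring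
  have r3 : ∀ z : Ei, (3 * z).re = 3 * z.re := fun z => by
    have e2 : (3 : Ei).re = 3 := rfl
    have e3 : (3 : Ei).im = 0 := rfl
    rw [mul_re, e2, e3]
    ring
  have i3 : ∀ z : Ei, (3 * z).im = 3 * z.im := fun z => by
    have e2 : (3 : Ei).re = 3 := rfl
    have e3 : (3 : Ei).im = 0 := rfl
    rw [mul_im, e2, e3]
    ring
  rw [e, QuadraticAlgebra.re_add, r3] at a1 a3
  rw [e, QuadraticAlgebra.im_add, i3] at a2
  rw [QuadraticAlgebra.im_add, i3] at a3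
  obtain ⟨c1, c2⟩ := fin_check1 σ x (by omega) (by omega)
  subst c1
  subst c2
  have e1 : (w : Ei) ^ (0 : ZMod 3).val - sg 0 = 0 := by decide
  have e2 : (w : Ei) ^ (0 : ZMod 3).val = 1 := by decide
  rw [e1, e2, one_mul] at a3
  refine ⟨rfl, ?_⟩
  rw [ZMod.intCast_zmod_eq_zero_iff_dvd]
  have e3 : (0 : Ei).re = 0 := rfl
  have e4 : (0 : Ei).im = 0 := rfl
  rw [e3, e4] at a3
  push_cast
  omega

lemma ev_sg (hI : I ^ 2 + I + 1 = 0) {ε : ℤ} (h : ε = 1 ∨ ε = -1) :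
    ∃ x : Fin 2, ev I hI (sg x) = ε := by
  rcases h with rfl | rfl
  · refine ⟨0, ?_⟩
    have : sg 0 = 1 := by decide
    rw [this, map_one, Int.cast_one]
  · refine ⟨1, ?_⟩
    have : sg 1 = -1 := by decide
    rw [this, map_neg, map_one, Int.cast_neg, Int.cast_one]

lemma cube_unit' (hI : I ^ 2 + I + 1 = 0) {y : PadicAlgCl 3} (hy : y ∈ Kl I) (h1 : ‖y‖ = 1) :
    ∃ x : Fin 2, ‖y ^ 3 - ev I hI (sg x)‖ ≤ ‖1 + 2 * I‖ ^ 3 := by
  obtain ⟨ε, hε, h⟩ := cube_unit hI hy h1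
  obtain ⟨x, hx⟩ := ev_sg hI hε
  exact ⟨x, by rw [hx]; exact h⟩

lemma sg_sq (x : Fin 2) : sg x ^ 2 = 1 := by
  revert x
  decide

section final

variable {i₀ : QB} {hi : i₀ ^ 2 + i₀ + 1 = 0} {D : Ei} {u : QB} {a h : GK i₀ → ZMod 3}
  {ι : QB →ₐ[ℚ] PadicAlgCl 3} {R : Pt (PadicAlgCl 3)}

/-- **The local condition.** -/
theorem core6 {κ σ' : ZMod 3} {m q : Ei} (hDd : D = lam * w ^ κ.val * (1 + 3 * m))
    (hT : Tw hi D u a) (hK : Kc hi (w ^ σ'.val * (1 + 3 * q)) h)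
    (hS : St1 hi ι a h R) : κ * σ' + ((q.re + q.im : ℤ) : ZMod 3) = 0 := by
  have hI := iota_sq' hi ι
  have hlp := lam_pos hI
  have hl1 := norm_lam_lt hI
  obtain ⟨r, hr⟩ : ∃ r, r = ‖1 + 2 * ι i₀‖ := ⟨_, rfl⟩
  have hwn : ∀ n : ℕ, ‖ev (ι i₀) hI (w ^ n)‖ = 1 := by
    intro n
    have h3 : ι i₀ ^ 3 = 1 := by linear_combination (ι i₀ - 1) * hI
    have h4 : ‖ι i₀‖ = 1 := by
      have := congrArg norm h3
      rw [norm_pow, norm_one] at this
      exact (pow_eq_one_iff_of_nonneg (norm_nonneg _) three_ne_zero).1 this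
    rw [map_pow, ev_w, norm_pow, h4, one_pow]
  have hqn : ∀ q : Ei, ‖ev (ι i₀) hI (1 + 3 * q)‖ = 1 := by
    intro q
    rw [map_add, map_one, map_mul, map_ofNat]
    exact norm_one_add (ev_le hI q)
  obtain ⟨δ, hδ⟩ : ∃ δ, δ = ev (ι i₀) hI D := ⟨_, rfl⟩
  have hδm : δ ∈ Kl (ι i₀) := by rw [hδ]; exact ev_mem hI D
  have hδ1 : ‖δ‖ = r := by
    rw [hδ, hDd, map_mul, map_mul, norm_mul, norm_mul, hwn, hqn, ev_lam, hr, mul_one, mul_one]
  have hU3 : ι u ^ 3 = δ := by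
    rw [← map_pow, hT.cube, iota_ev' hi ι, hδ]
  rw [← hr] at hlp hl1
  have hδ0 : δ ≠ 0 := by
    intro h0
    rw [h0, norm_zero] at hδ1
    exact hlp.ne hδ1
  have hU0 : ι u ≠ 0 := by
    intro h0
    rw [h0, zero_pow three_ne_zero] at hU3
    exact hδ0 hU3.symm
  -- the cube root
  obtain ⟨z, hz⟩ : ∃ z, z = w ^ σ'.val * (1 + 3 * q) := ⟨_, rfl⟩
  rw [← hz] at hK
  obtain ⟨s, hs⟩ := IsAlgClosed.exists_pow_nat_eq (ev i₀ hi z) (n := 3) (by norm_num)
  obtain ⟨Z, hZd⟩ : ∃ Z, Z = ev (ι i₀) hI z := ⟨_, rfl⟩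
  have hZ : ι s ^ 3 = Z := by
    rw [← map_pow, hs, iota_ev' hi ι, hZd]
  have hts : ∀ (τ : Au 3) (σ : GK i₀), Cmp ι τ σ → τ (ι s) = ι i₀ ^ (h σ).val * ι s := by
    intro τ σ hc
    rw [hc, hK s hs σ, map_mul, map_pow]
  have hZn : ‖Z‖ = 1 := by
    rw [hZd, hz, map_mul, norm_mul, hwn, hqn, one_mul]
  have hZ0 : Z ≠ 0 := by
    intro h0
    rw [h0, norm_zero] at hZn
    exact zero_ne_one hZn
  have hs0 : ι s ≠ 0 := fun h0 => hZ0 (by rw [← hZ, h0, zero_pow three_ne_zero])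
  have hsn : ‖ι s‖ = 1 := by
    have h1 : ‖ι s‖ ^ 3 = 1 := by rw [← norm_pow, hZ, hZn]
    exact (pow_eq_one_iff_of_nonneg (norm_nonneg _) three_ne_zero).1 h1
  have hZm : Z ∈ Kl (ι i₀) := by rw [hZd]; exact ev_mem hI _
  -- the conclusion from a cube close to `Z`
  have key : ∀ c : PadicAlgCl 3, c ∈ Kl (ι i₀) → ‖c‖ = 1 → ‖Z - c ^ 3‖ ≤ r ^ 3 →
      κ * σ' + ((q.re + q.im : ℤ) : ZMod 3) = 0 := by
    intro c hc hc1 hcz
    obtain ⟨x, hx⟩ := cube_unit' hI hc hc1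
    have h1 : ‖ev (ι i₀) hI (z - sg x)‖ ≤ ‖1 + 2 * ι i₀‖ ^ 3 := by
      have e : ev (ι i₀) hI (z - sg x) = (Z - c ^ 3) + (c ^ 3 - ev (ι i₀) hI (sg x)) := by
        rw [map_sub, hZd]
        ring
      rw [e]
      rw [hr] at hcz
      exact add_le hcz hx
    have h2 := lam_pow_dvd hI 3 _ h1
    rw [hz] at h2
    obtain ⟨h3, h4⟩ := concl1 h2
    rw [h3, h4, mul_zero, add_zero]
  by_cases hQ0 : R - im (isE _) hI R = 0
  · -- `R` is a multiple of `T`
    obtain ⟨c, hc⟩ := ker_tt hI hQ0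
    have hm : ι s ∈ Kl (ι i₀) := by
      intro τ hτ
      obtain ⟨σ, hcm⟩ := exists_cmp ι τ hτ
      have h1 := hS τ σ hcm
      rw [hc, pm_tt, jj_tt, sub_self] at h1
      have h2 := tt_eq_zero.1 h1.symm
      rw [hts τ σ hcm, h2, ZMod.val_zero, pow_zero, one_mul]
    exact key (ι s) hm hsn (by rw [hZ, sub_self, norm_zero]; positivity)
  · obtain ⟨x, y, hn, hR⟩ : ∃ x y, ∃ hn : (W0.baseChange (PadicAlgCl 3)).toAffine.Nonsingular x y,
        R = .some x y hn := by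
      rcases R with _ | ⟨x, y, hn⟩
      · exfalso
        apply hQ0
        show (0 : Pt (PadicAlgCl 3)) - im (isE _) hI 0 = 0
        rw [map_zero, sub_zero]
      · exact ⟨x, y, hn, rfl⟩
    have he := ((isE _).eqn x y).1 hn.1
    have hx : x ≠ 0 := by
      intro h0
      apply hQ0
      rw [hR, im_some, sub_eq_zero, Affine.Point.some.injEq]
      exact ⟨by rw [h0, mul_zero], rfl⟩
    obtain ⟨XQ, hnQ, eQ⟩ : ∃ XQ, ∃ hnQ : (W0.baseChange (PadicAlgCl 3)).toAffine.Nonsingular XQ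
        (gg (ι i₀) R ^ 3), R - im (isE _) hI R = .some XQ _ hnQ := by
      rw [hR]
      obtain ⟨XQ, hnQ, eQ, -⟩ := one_sub_im (isE _) hI hn hx
      exact ⟨XQ, hnQ, eQ⟩
    by_cases hG : gg (ι i₀) R = 0
    · -- `R - J R = T`
      exfalso
      have hlam := lam_ne (isE (PadicAlgCl 3)) hI
      have hy : y = ι i₀ ^ 2 := by
        rw [hR, gg_some, div_eq_zero_iff] at hG
        rcases hG with h1 | h1
        · exact sub_eq_zero.1 h1
        · exact absurd h1 (mul_ne_zero hlam hx)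
      have h0 := (isE (PadicAlgCl 3)).neg_nons hn
      have hR' : -R = .some x (-y - 1) h0 := by
        rw [hR]
        exact (isE _).neg_eq hn h0
      have hgg : gg (ι i₀) (-R) = 1 / x := by
        rw [hR', gg_some, hy, div_eq_div_iff (mul_ne_zero hlam hx) hx]
        linear_combination (-2 * x) * hI
      have hx3 : x ^ 3 = -1 := by
        rw [← he, hy]
        linear_combination (ι i₀ ^ 2 - ι i₀ + 1) * hI
      have hW3 : (ι u * gg (ι i₀) (-R)) ^ 3 = -δ := by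
        rw [hgg, mul_pow, hU3, div_pow, hx3]
        ring
      have hm : ι s / (ι u * gg (ι i₀) (-R)) ∈ Kl (ι i₀) := by
        intro τ hτ
        obtain ⟨σ, hcm⟩ := exists_cmp ι τ hτ
        rw [map_div₀, hts τ σ hcm, tau_g hT (st1_neg hS) hR' hx hcm]
        have h1 := pow_three hI (-h σ)
        rw [neg_neg] at h1
        rw [← h1, mul_div_mul_left]
        exact pow_ne_zero _ (I_ne (isE (PadicAlgCl 3)) hI)
      have hWn : ‖ι u * gg (ι i₀) (-R)‖ ^ 3 = r := by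
        rw [← norm_pow, hW3, norm_neg, hδ1]
      refine no_cube hI (inv_mem hm) ?_
      rw [norm_inv, norm_div, hsn, one_div, inv_inv, hWn, hr]
    · -- the general case
      have hW0 : ι u * gg (ι i₀) R ≠ 0 := mul_ne_zero hU0 hG
      have hm : ι s * (ι u * gg (ι i₀) R) ∈ Kl (ι i₀) := by
        intro τ hτ
        obtain ⟨σ, hcm⟩ := exists_cmp ι τ hτ
        rw [map_mul, hts τ σ hcm, tau_g hT hS hR hx hcm]
        have h1 := pow_cancel hI (h σ)
        linear_combination (ι s * (ι u * gg (ι i₀) R)) * h1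
      obtain ⟨W, hW⟩ : ∃ W, W = ι u * gg (ι i₀) R := ⟨_, rfl⟩
      rw [← hW] at hm hW0
      have hYm : W ^ 3 ∈ Kl (ι i₀) := by
        have e : W ^ 3 = (ι s * W) ^ 3 / Z := by
          rw [mul_pow, hZ, mul_div_cancel_left₀ _ hZ0]
        rw [e]
        exact div_mem (pow_mem hm 3) hZm
      obtain ⟨X, hX⟩ : ∃ X, X = ι u ^ 2 * XQ := ⟨_, rfl⟩
      have hXm : X ∈ Kl (ι i₀) := by rw [hX]; exact tau_X hT hS eQ
      have heq := ((isE _).eqn _ _).1 hnQ.1
      have heY : (W ^ 3) ^ 2 + δ * W ^ 3 = X ^ 3 := by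
        rw [hX, hW, ← hU3]
        linear_combination (ι u ^ 6) * heq
      obtain ⟨Y, hY⟩ : ∃ Y, Y = W ^ 3 := ⟨_, rfl⟩
      rw [← hY] at heY hYm
      have hY0 : Y ≠ 0 := by rw [hY]; exact pow_ne_zero 3 hW0
      obtain ⟨V, hV⟩ : ∃ V, V = ι s * W := ⟨_, rfl⟩
      rw [← hV] at hm
      have hV3 : V ^ 3 = Z * Y := by rw [hV, mul_pow, hZ, hY]
      have hV0 : V ≠ 0 := by rw [hV]; exact mul_ne_zero hs0 hW0
      have hYn : ‖V‖ ^ 3 = ‖Y‖ := by rw [← norm_pow, hV3, norm_mul, hZn, one_mul]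
      have hXn : ‖X‖ ^ 3 = ‖Y‖ * ‖Y + δ‖ := by
        rw [← norm_pow, ← heY, ← norm_mul]
        congr 1
        ring
      rcases lt_trichotomy ‖V‖ 1 with h1 | h1 | h1
      · exfalso
        have h2 : ‖V‖ ≤ r := by rw [hr]; exact le_lam hI (Kl_le hm) h1
        have h3 : ‖Y‖ < r := by
          rw [← hYn]
          calc ‖V‖ ^ 3 ≤ r ^ 3 := pow_le_pow_left₀ (norm_nonneg _) h2 3
            _ < r ^ 1 := pow_lt_pow_right_of_lt_one₀ hlp hl1 (by norm_num)
            _ = r := pow_one r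
        have h4 : ‖Y + δ‖ = r := by
          rw [add_comm, eq_of_lt, hδ1]
          rwa [hδ1]
        rw [h4] at hXn
        refine no_cube hI (div_mem hXm hm) ?_
        have hVn : ‖V‖ ^ 3 ≠ 0 := pow_ne_zero 3 (norm_ne_zero_iff.2 hV0)
        rw [norm_div, div_pow, hXn, ← hYn, mul_div_cancel_left₀ _ hVn, hr]
      · -- `Y` is a unit
        have h2 : ‖Y‖ = 1 := by rw [← hYn, h1, one_pow]
        have h3 : ‖Y + δ‖ = 1 := by
          rw [eq_of_lt, h2]
          rw [h2, hδ1]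
          exact hl1
        have h4 : ‖X‖ = 1 := by
          rw [h2, h3, one_mul] at hXn
          exact (pow_eq_one_iff_of_nonneg (norm_nonneg _) three_ne_zero).1 hXn
        obtain ⟨x', hx'⟩ := cube_unit' hI hXm h4
        obtain ⟨y', hy'⟩ := cube_unit' hI hm h1
        rw [← hr] at hx' hy'
        refine concl (x := x') (y := y') (m := m) (lam_pow_dvd hI 3 _ ?_)
        rw [← hz, ← hDd, map_sub, map_sub, map_mul, map_pow, map_mul, map_mul, map_one, ← hZd,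
          ← hδ, ← hr]
        set ex := ev (ι i₀) hI (sg x')
        set ey := ev (ι i₀) hI (sg y') with hey
        have hey2 : ey ^ 2 = 1 := by rw [hey, ← map_pow, sg_sq, map_one]
        have heyn : ‖ey‖ = 1 := by
          have := congrArg norm hey2
          rw [norm_pow, norm_one] at this
          exact (pow_eq_one_iff_of_nonneg (norm_nonneg _) two_ne_zero).1 this
        have e : ex * Z ^ 2 - 1 - ey * (δ * Z) =
            -(Z ^ 2 * (X ^ 3 - ex)) + ((V ^ 3 - ey) * (V ^ 3 + ey) + δ * Z * (V ^ 3 - ey)) := by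
          rw [← heY, hV3]
          linear_combination hey2
        rw [e]
        refine add_le ?_ (add_le ?_ ?_)
        · rw [norm_neg, norm_mul, norm_pow, hZn, one_pow, one_mul]
          exact hx'
        · rw [norm_mul]
          have h5 : ‖V ^ 3 + ey‖ ≤ 1 := add_le (by rw [norm_pow, h1, one_pow]) heyn.le
          calc ‖V ^ 3 - ey‖ * ‖V ^ 3 + ey‖ ≤ r ^ 3 * 1 :=
                mul_le_mul hy' h5 (norm_nonneg _) (by positivity)
            _ = r ^ 3 := mul_one _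
        · rw [norm_mul, norm_mul, hδ1, hZn, mul_one]
          calc r * ‖V ^ 3 - ey‖ ≤ 1 * r ^ 3 :=
                mul_le_mul hl1.le hy' (norm_nonneg _) zero_le_one
            _ = r ^ 3 := one_mul _
      · -- `Y` is large
        have h2 : ‖V⁻¹‖ ≤ r := by
          rw [hr]
          refine le_lam hI (Kl_le (inv_mem hm)) ?_
          rw [norm_inv]
          exact inv_lt_one_of_one_lt₀ h1
        have h3 : ‖δ / Y‖ ≤ r ^ 4 := by
          have e : ‖δ / Y‖ = r * ‖V⁻¹‖ ^ 3 := by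
            rw [norm_div, hδ1, norm_inv, inv_pow, hYn, div_eq_mul_inv]
          rw [e]
          calc r * ‖V⁻¹‖ ^ 3 ≤ r * r ^ 3 :=
                mul_le_mul_of_nonneg_left (pow_le_pow_left₀ (norm_nonneg _) h2 3) hlp.le
            _ = r ^ 4 := by ring
        have h34 : r ^ 4 < 1 := pow_lt_one₀ hlp.le hl1 (by norm_num)
        have hc3 : (V * X / Y) ^ 3 = Z * (1 + δ / Y) := by
          rw [div_pow, mul_pow, hV3, ← heY]
          field_simp
        have hc1 : ‖V * X / Y‖ = 1 := by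
          have h5 : ‖V * X / Y‖ ^ 3 = 1 := by
            rw [← norm_pow, hc3, norm_mul, hZn, one_mul, eq_of_lt, norm_one]
            rw [norm_one]
            exact h3.trans_lt h34
          exact (pow_eq_one_iff_of_nonneg (norm_nonneg _) three_ne_zero).1 h5
        refine key (V * X / Y) (div_mem (mul_mem hm hXm) hYm) hc1 ?_
        have e : Z - (V * X / Y) ^ 3 = -(Z * (δ / Y)) := by
          rw [hc3]
          ring
        rw [e, norm_neg, norm_mul, hZn, one_mul]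
        exact h3.trans (pow_le_pow_of_le_one hlp.le hl1.le (by norm_num))

end final

end Pool.Agent.Helper68.C6.Loc6
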