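import Pool.Agent.Helper68.C6.MJ2

/-!
# The majority theorem: assembly
-/

set_option autoImplicit false
set_option linter.unusedSectionVars false

open scoped Classical

namespace Pool.Agent.Helper68.C6.MJ

open NumberField Finset Filter
open Pool.Agent.Y692.QS (Ei w nr nr_mul nr_neg mul_re mul_im int_dvd nr_nonneg)
open Pool.Agent.Y715.T.Gi (lam nr_lam lam_sq prime_lam)
open Pool.Agent.Y715.T.RecG (Pq)
open Pool.Agent.Y699.E (nrm prm)
open Pool.Agent.Y703.CT (rq ex_q)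
open Pool.Agent.Y703.XL (cr)
open Pool.Agent.Helper68.C3 (Part3 SS Bt GB)
open Pool.Agent.Helper68.C3.Fin3 (b2 b2_bt cr_zero)

/-! ### The residue classes modulo nine -/

/-- the residue class -/
def px (P : Ei) : ZMod 3 × ZMod 3 :=
  ((((P.re - 1) / 3 : ℤ) : ZMod 3), ((P.im / 3 : ℤ) : ZMod 3))

/-- the representative -/
def ax (p : ZMod 3 × ZMod 3) : Ei := ⟨1 + 3 * p.1.val, 3 * p.2.val⟩

lemma ax_prm (p : ZMod 3 × ZMod 3) : (3 : Ei) ∣ ax p - 1 := by
  rw [dvd3]
  constructor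
  · rw [QuadraticAlgebra.re_sub]
    show (3 : ℤ) ∣ 1 + 3 * (p.1.val : ℤ) - 1
    exact ⟨p.1.val, by ring⟩
  · rw [QuadraticAlgebra.im_sub]
    show (3 : ℤ) ∣ 3 * (p.2.val : ℤ) - 0
    exact ⟨p.2.val, by ring⟩

lemma dvd9 (D : Ei) : (9 : Ei) ∣ D ↔ (9 : ℤ) ∣ D.re ∧ (9 : ℤ) ∣ D.im := by
  have h := int_dvd (n := 9) (α := D)
  have e : ((9 : ℤ) : Ei) = 9 := by norm_num
  rwa [e] at h

lemma px_iff {P : Ei} (hP : (3 : Ei) ∣ P - 1) (p : ZMod 3 × ZMod 3) :
    px P = p ↔ (9 : Ei) ∣ P - ax p := by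
  rw [dvd3] at hP
  obtain ⟨⟨x, hx⟩, ⟨y, hy⟩⟩ := hP
  have h1 : P.re = 1 + 3 * x := by
    rw [QuadraticAlgebra.re_sub] at hx
    have : (1 : Ei).re = 1 := rfl
    omega
  have h2 : P.im = 3 * y := by
    rw [QuadraticAlgebra.im_sub] at hy
    have : (1 : Ei).im = 0 := rfl
    omega
  have e1 : (P.re - 1) / 3 = x := by omega
  have e2 : P.im / 3 = y := by omega
  rw [dvd9, QuadraticAlgebra.re_sub, QuadraticAlgebra.im_sub, h1, h2]
  have e3 : (1 + 3 * x) - (ax p).re = 3 * (x - (p.1.val : ℤ)) := by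
    show (1 + 3 * x) - (1 + 3 * (p.1.val : ℤ)) = _
    ring
  have e4 : (3 * y) - (ax p).im = 3 * (y - (p.2.val : ℤ)) := by
    show (3 * y) - (3 * (p.2.val : ℤ)) = _
    ring
  rw [e3, e4]
  have e5 : ∀ t : ℤ, (9 : ℤ) ∣ 3 * t ↔ (3 : ℤ) ∣ t := fun t => by omega
  rw [e5, e5, zc, zc]
  unfold px
  rw [e1, e2, Prod.ext_iff, Int.cast_natCast, Int.cast_natCast, ZMod.natCast_zmod_val,
    ZMod.natCast_zmod_val]

lemma px_rq {P : Ei} : rq P = (px P).1 + (px P).2 := by
  unfold rq px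
  push_cast
  rfl

/-- the density of the sets in a union of classes -/
lemma lim_R {c : ℝ} (hc : ∀ a : Ei, (3 : Ei) ∣ a - 1 → Tendsto (fun X : ℕ =>
    (((SS X).filter fun S => (9 : Ei) ∣ (∏ π ∈ S, π) - a).card : ℝ) / (X : ℝ)) atTop (nhds c))
    (R : ZMod 3 × ZMod 3 → Prop) :
    Tendsto (fun X : ℕ => (((SS X).filter fun S => R (px (∏ π ∈ S, π))).card : ℝ) / (X : ℝ))
      atTop (nhds (((Finset.univ.filter R).card : ℝ) * c)) := by
  have h1 : ∀ X : ℕ, (((SS X).filter fun S => R (px (∏ π ∈ S, π))).card : ℝ) / (X : ℝ) =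
      ∑ p ∈ Finset.univ.filter R,
        (((SS X).filter fun S => (9 : Ei) ∣ (∏ π ∈ S, π) - ax p).card : ℝ) / (X : ℝ) := by
    intro X
    rw [← Finset.sum_div]
    congr 1
    rw [Finset.card_eq_sum_card_fiberwise (f := fun S => px (∏ π ∈ S, π))
      (t := Finset.univ.filter R)]
    · push_cast
      refine Finset.sum_congr rfl fun p hp => ?_
      congr 2
      rw [Finset.filter_filter]
      refine Finset.filter_congr fun S hS => ?_
      rw [px_iff (prod_prm (mem_pq hS))]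
      constructor
      · exact fun h => h.2
      · intro h
        refine ⟨?_, h⟩
        rw [(px_iff (prod_prm (mem_pq hS)) p).2 h]
        exact (Finset.mem_filter.1 hp).2
    · intro S hS
      rw [Finset.mem_coe, Finset.mem_filter] at hS ⊢
      exact ⟨Finset.mem_univ _, hS.2⟩
  simp only [h1]
  rw [← nsmul_eq_mul, ← Finset.sum_const]
  exact tendsto_finsetSum _ fun p _ => hc _ (ax_prm p)

/-! ### Limits -/

lemma prodlim {a b : ℕ → ℕ} (hab : ∀ X, a X ≤ b X) {c d : ℝ}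
    (h1 : Tendsto (fun X => (a X : ℝ) / b X) atTop (nhds c))
    (h2 : Tendsto (fun X : ℕ => (b X : ℝ) / (X : ℝ)) atTop (nhds d)) :
    Tendsto (fun X : ℕ => (a X : ℝ) / (X : ℝ)) atTop (nhds (c * d)) := by
  refine (h1.mul h2).congr fun X => ?_
  rcases Nat.eq_zero_or_pos (b X) with h | h
  · have h3 : a X = 0 := by have := hab X; omega
    rw [h, h3]
    simp
  · have h3 : (b X : ℝ) ≠ 0 := by positivity
    rw [div_mul_div_comm, mul_comm (b X : ℝ) (X : ℝ), mul_div_mul_right _ _ h3]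

lemma third : Tendsto (fun X : ℕ => ((X / 3 : ℕ) : ℝ) / (X : ℝ)) atTop (nhds (1 / 3)) := by
  have h1 : Tendsto (fun X : ℕ => (1 / 3 : ℝ) - (((X % 3 : ℕ) : ℝ) / 3) * (1 / (X : ℝ))) atTop
      (nhds (1 / 3 - 0)) := by
    refine tendsto_const_nhds.sub ?_
    refine bdd_le_mul_tendsto_zero' 1 (Eventually.of_forall fun X => ?_)
      tendsto_one_div_atTop_nhds_zero_nat
    have h3 : X % 3 < 3 := Nat.mod_lt _ (by norm_num)
    have h4 : ((X % 3 : ℕ) : ℝ) < 3 := by exact_mod_cast h3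
    rw [abs_of_nonneg (by positivity)]
    linarith
  rw [sub_zero] at h1
  refine h1.congr' ?_
  filter_upwards [eventually_ge_atTop 1] with X hX
  have h2 : (X : ℝ) ≠ 0 := by
    have : (1 : ℝ) ≤ X := by exact_mod_cast hX
    linarith
  have h3 : (X : ℝ) = 3 * ((X / 3 : ℕ) : ℝ) + ((X % 3 : ℕ) : ℝ) := by
    exact_mod_cast (Nat.div_add_mod X 3).symm
  field_simp
  linarith

lemma lim3 {a : ℕ → ℕ} {d : ℝ} (h : Tendsto (fun X : ℕ => (a X : ℝ) / (X : ℝ)) atTop (nhds d)) :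
    Tendsto (fun X : ℕ => (a (X / 3) : ℝ) / (X : ℝ)) atTop (nhds (d * (1 / 3))) := by
  have h1 : Tendsto (fun X : ℕ => (a (X / 3) : ℝ) / ((X / 3 : ℕ) : ℝ)) atTop (nhds d) :=
    h.comp (Nat.tendsto_div_const_atTop (n := 3) (by norm_num))
  refine (h1.mul third).congr' ?_
  filter_upwards [eventually_ge_atTop 3] with X hX
  have h2 : 1 ≤ X / 3 := by omega
  have h3 : ((X / 3 : ℕ) : ℝ) ≠ 0 := by
    have : (1 : ℝ) ≤ ((X / 3 : ℕ) : ℝ) := by exact_mod_cast h2
    linarith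
  rw [div_mul_div_comm, mul_comm ((X / 3 : ℕ) : ℝ) (X : ℝ), mul_div_mul_right _ _ h3]

/-! ### The final statement -/

lemma count_all {K : Type} [Field K] [NumberField K] (j : Ei ≃+* 𝓞 K)
    (hj : ∀ z : Ei, Algebra.norm ℤ (j z) = nr z) (X : ℕ) (Q : 𝓞 K → Prop) :
    {D : 𝓞 K | Algebra.norm ℤ D ≤ X ∧ Squarefree D ∧ Q D}.ncard =
      {D : Ei | nr D ≤ X ∧ Squarefree D ∧ Q (j D)}.ncard := by
  have h1 : {D : 𝓞 K | Algebra.norm ℤ D ≤ X ∧ Squarefree D ∧ Q D} =
      j '' {D : Ei | nr D ≤ X ∧ Squarefree D ∧ Q (j D)} := by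
    ext D
    obtain ⟨z, rfl⟩ := j.surjective D
    have e : j z ∈ (j '' {D : Ei | nr D ≤ X ∧ Squarefree D ∧ Q (j D)}) ↔
        z ∈ {D : Ei | nr D ≤ X ∧ Squarefree D ∧ Q (j D)} := j.injective.mem_set_image
    rw [e]
    show Algebra.norm ℤ (j z) ≤ X ∧ _ ∧ _ ↔ _
    rw [hj]
    have e2 : Squarefree (j z) ↔ Squarefree z := by
      constructor
      · intro h x hx
        have h1 := h (j x) (by rw [← map_mul]; exact map_dvd j hx)
        exact (MulEquiv.isUnit_map j).1 h1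
      · intro h x hx
        obtain ⟨y, rfl⟩ := j.surjective x
        rw [← map_mul, map_dvd_iff j] at hx
        exact (h y hx).map j
    rw [e2]
    rfl
  rw [h1, Set.ncard_image_of_injective _ j.injective]

lemma mem_c (X : ℕ) : Pool.Agent.Y703.XK.SS X =
    (SS X).filter fun S => (px (∏ π ∈ S, π)).1 + (px (∏ π ∈ S, π)).2 ≠ 0 := by
  ext S
  rw [Finset.mem_filter, Pool.Agent.Helper68.C4.Surf.mem_a, Pool.Agent.Helper68.C4.Surf.mem_b]
  have key : (∀ π ∈ S, Pq π) → ((∏ π ∈ S, nrm π) % 9 ≠ 1 ↔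
      (px (∏ π ∈ S, π)).1 + (px (∏ π ∈ S, π)).2 ≠ 0) := by
    intro hS
    rw [← px_rq, Ne, Ne, (rq_iff (prod_prm hS)).2, Pool.Agent.Y550.XK.NS.mod_iff,
      Pool.Agent.Y550.XK.NS.nrm_prod]
  constructor
  · rintro ⟨h1, ⟨h2, h3⟩, h4⟩
    exact ⟨⟨h1, h2, h4⟩, (key h2).1 h3⟩
  · rintro ⟨⟨h1, h2, h4⟩, h3⟩
    exact ⟨h1, ⟨h2, (key h2).2 h3⟩, h4⟩

theorem s_MAJ : S_MAJ := by
  intro K _ _ _
  obtain ⟨⟨j, hj⟩, hdisc⟩ := Pool.Agent.Y455.CTK.jex K
  have hc9 := Pool.Agent.Y703.XL.t_C9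
  have hcr : ∏' i : ℕ, (1 - (1 / 3 : ℝ) ^ (2 * i + 1)) = cr 0 := cr_zero.symm
  have hcr9 : cr 0 = Pool.Agent.Y703.XK.c9 := by
    unfold cr
    rw [Finset.range_zero, Finset.prod_empty, div_one]
  rw [hcr]
  refine ⟨?_, ?_, ?_⟩
  rotate_left
  · rw [hcr9]
    have := hc9.2.2.2.1
    linarith
  · rw [hcr9]
    have := hc9.2.2.2.2
    linarith
  obtain ⟨c, hc0, hc⟩ := Pool.Agent.Helper68.C6.SQ.s_SQD
  -- the densities of the sets
  have hS : Tendsto (fun X : ℕ => ((SS X).card : ℝ) / (X : ℝ)) atTop (nhds (9 * c)) := by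
    have h := lim_R hc (fun _ => True)
    simp only [Finset.filter_true] at h
    exact h
  have hK : Tendsto (fun X : ℕ => ((Pool.Agent.Y703.XK.SS X).card : ℝ) / (X : ℝ)) atTop
      (nhds (6 * c)) := by
    have h := lim_R hc (fun p => p.1 + p.2 ≠ 0)
    have e : ∀ inst : DecidablePred fun p : ZMod 3 × ZMod 3 => p.1 + p.2 ≠ 0,
        (@Finset.filter _ (fun p : ZMod 3 × ZMod 3 => p.1 + p.2 ≠ 0) inst Finset.univ).card = 6 := by
      intro inst
      have h1 : inst = fun _ => instDecidableNot := Subsingleton.elim _ _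
      rw [h1]
      decide
    rw [e] at h
    simp only [mem_c]
    exact_mod_cast h
  -- the numerators
  let A : ZMod 3 → ℕ → ℕ := fun κ X => if κ = 0 then
      ((Pool.Agent.Y703.XK.SS X).filter Pool.Agent.Y703.XK.Gd).card
    else ((SS X).filter (GB (b2 κ) 0)).card
  let B : ZMod 3 → ℕ → ℕ := fun κ X => ((SS X).filter (GV (β₁ κ) β₂ (-κ) 0)).card
  have hA0 : Tendsto (fun X : ℕ => (A 0 X : ℝ) / (X : ℝ)) atTop (nhds (cr 0 * (6 * c))) := by
    refine prodlim (b := fun X => (Pool.Agent.Y703.XK.SS X).card) (fun X => ?_) ?_ hK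
    · exact Finset.card_filter_le _ _
    · rw [hcr9]
      exact Pool.Agent.XLK.t_DQ_all
  have hA : ∀ κ : ZMod 3, κ ≠ 0 →
      Tendsto (fun X : ℕ => (A κ X : ℝ) / (X : ℝ)) atTop (nhds (cr 0 * (9 * c))) := by
    intro κ hκ
    have e : ∀ X, A κ X = ((SS X).filter (GB (b2 κ) 0)).card := fun X => if_neg hκ
    simp only [e]
    exact prodlim (b := fun X => (SS X).card) (fun X => Finset.card_filter_le _ _)
      (Pool.Agent.Helper68.C3.Asy3.t_DQ_all (b2_bt hκ) 0) hS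
  have hB : ∀ κ : ZMod 3,
      Tendsto (fun X : ℕ => (B κ (X / 3) : ℝ) / (X : ℝ)) atTop
        (nhds (cr 0 * (9 * c) * (1 / 3))) := by
    intro κ
    refine lim3 ?_
    exact prodlim (b := fun X => (SS X).card) (fun X => Finset.card_filter_le _ _)
      (Pool.Agent.Helper68.C6.SV.s_DV _ _ (bt2 κ) (-κ) 0) hS
  have hS3 := lim3 hS
  -- the counts
  have eT : ∀ X : ℕ, {D : 𝓞 K | Algebra.norm ℤ D ≤ X ∧ Squarefree D}.ncard =
      6 * (SS X).card + 6 * (SS (X / 3)).card := by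
    intro X
    have h1 := count_all j hj X (fun _ => True)
    simp only [and_true] at h1
    have h2 := s_CNTALL X (fun _ => True)
    simp only [and_true, Finset.filter_true, Finset.sum_const] at h2
    rw [h1, h2]
    have h3 : (Finset.univ : Finset (ZMod 3)).card = 3 := by decide
    rw [h3, smul_eq_mul]
    ring
  have eG : ∀ X : ℕ,
      {D : 𝓞 K | Algebra.norm ℤ D ≤ X ∧ Squarefree D ∧ ¬ Exc D ∧ Part3 D}.ncard =
      ∑ κ : ZMod 3, (2 * A κ X + 2 * B κ (X / 3)) := by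
    intro X
    rw [count_all j hj X (fun D => ¬ Exc D ∧ Part3 D),
      s_CNTALL X (fun D => ¬ Exc (j D) ∧ Part3 (j D))]
    refine Finset.sum_congr rfl fun κ _ => ?_
    have hneg : ∀ D : Ei, (¬ Exc (j (-D)) ∧ Part3 (j (-D))) ↔ (¬ Exc (j D) ∧ Part3 (j D)) := by
      intro D
      rw [map_neg, exc_neg, part_neg]
    have e1 : ((SS X).filter fun S => ¬ Exc (j (w ^ κ.val * ∏ π ∈ S, π)) ∧
        Part3 (j (w ^ κ.val * ∏ π ∈ S, π))).card = A κ X := by
      by_cases hκ : κ = 0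
      · subst hκ
        have e0 : (w : Ei) ^ (0 : ZMod 3).val = 1 := by decide
        have e2 : A 0 X = ((Pool.Agent.Y703.XK.SS X).filter Pool.Agent.Y703.XK.Gd).card :=
          if_pos rfl
        rw [e2, mem_c, Finset.filter_filter]
        congr 1
        refine Finset.filter_congr fun S hS => ?_
        have hSp := mem_pq hS
        rw [e0, one_mul, exc_I j (prod_prm hSp), px_rq]
        refine and_congr_right fun h => ?_
        refine part_I j hj hSp ?_
        rw [← Pool.Agent.Y550.XK.NS.nrm_prod, Ne, ← Pool.Agent.Y550.XK.NS.mod_iff,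
          ← (rq_iff (prod_prm hSp)).2, px_rq]
        exact h
      · have e2 : A κ X = ((SS X).filter (GB (b2 κ) 0)).card := if_neg hκ
        rw [e2]
        congr 1
        refine Finset.filter_congr fun S hS => ?_
        have hSp := mem_pq hS
        rw [part_II j hκ hSp]
        exact ⟨fun h => h.2, fun h => ⟨exc_II j hκ (prod_prm hSp), h⟩⟩
    have e2 : ((SS (X / 3)).filter fun S => ¬ Exc (j (lam * w ^ κ.val * ∏ π ∈ S, π)) ∧
        Part3 (j (lam * w ^ κ.val * ∏ π ∈ S, π))).card = B κ (X / 3) := by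
      show _ = ((SS (X / 3)).filter (GV (β₁ κ) β₂ (-κ) 0)).card
      congr 1
      refine Finset.filter_congr fun S hS => ?_
      rw [part_V j hdisc (mem_pq hS)]
      refine ⟨fun h => h.2, fun h => ⟨?_, h⟩⟩
      rw [mul_assoc]
      exact exc_V j _
    have e1' : ((SS X).filter fun S => ¬ Exc (j (-(w ^ κ.val * ∏ π ∈ S, π))) ∧
        Part3 (j (-(w ^ κ.val * ∏ π ∈ S, π)))).card = A κ X :=
      (congrArg Finset.card (Finset.filter_congr fun S _ => hneg _)).trans e1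
    have e2' : ((SS (X / 3)).filter fun S => ¬ Exc (j (-(lam * w ^ κ.val * ∏ π ∈ S, π))) ∧
        Part3 (j (-(lam * w ^ κ.val * ∏ π ∈ S, π)))).card = B κ (X / 3) :=
      (congrArg Finset.card (Finset.filter_congr fun S _ => hneg _)).trans e2
    have key : ∀ a b c d : ℕ, a = A κ X → b = A κ X → c = B κ (X / 3) → d = B κ (X / 3) →
        a + b + c + d = 2 * A κ X + 2 * B κ (X / 3) := by
      intro a b c d h1 h2 h3 h4
      omega
    refine key _ _ _ _ ?_ ?_ ?_ ?_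
    · convert e1
    · convert e1'
    · convert e2
    · convert e2'
  -- the limit
  have hnum : Tendsto (fun X : ℕ =>
      ((∑ κ : ZMod 3, (2 * A κ X + 2 * B κ (X / 3)) : ℕ) : ℝ) / (X : ℝ)) atTop
      (nhds (66 * c * cr 0)) := by
    have h1 : Tendsto (fun X : ℕ => ∑ κ : ZMod 3, (2 * ((A κ X : ℝ) / (X : ℝ)) +
        2 * ((B κ (X / 3) : ℝ) / (X : ℝ)))) atTop
        (nhds (∑ κ : ZMod 3, (2 * (if κ = 0 then cr 0 * (6 * c) else cr 0 * (9 * c)) +
          2 * (cr 0 * (9 * c) * (1 / 3))))) := by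
      refine tendsto_finsetSum _ fun κ _ => ?_
      refine Tendsto.add (Tendsto.const_mul _ ?_) (Tendsto.const_mul _ (hB κ))
      by_cases hκ : κ = 0
      · rw [if_pos hκ, hκ]
        exact hA0
      · rw [if_neg hκ]
        exact hA κ hκ
    have e3 : ∑ κ : ZMod 3, (2 * (if κ = 0 then cr 0 * (6 * c) else cr 0 * (9 * c)) +
        2 * (cr 0 * (9 * c) * (1 / 3))) = 66 * c * cr 0 := by
      have h2 : (Finset.univ : Finset (ZMod 3)) = {0, 1, 2} := by decide
      rw [h2, Finset.sum_insert (by decide), Finset.sum_insert (by decide),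
        Finset.sum_singleton, if_pos rfl, if_neg (by decide), if_neg (by decide)]
      ring
    rw [e3] at h1
    refine h1.congr fun X => ?_
    push_cast
    rw [Finset.sum_div]
    refine Finset.sum_congr rfl fun κ _ => ?_
    ring
  have hden : Tendsto (fun X : ℕ =>
      ((6 * (SS X).card + 6 * (SS (X / 3)).card : ℕ) : ℝ) / (X : ℝ)) atTop (nhds (72 * c)) := by
    have h1 := (hS.const_mul 6).add (hS3.const_mul 6)
    have e3 : 6 * (9 * c) + 6 * (9 * c * (1 / 3)) = 72 * c := by ring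
    rw [e3] at h1
    refine h1.congr fun X => ?_
    push_cast
    ring
  have hlim := hnum.div hden (by positivity)
  have e4 : 66 * c * cr 0 / (72 * c) = 11 / 12 * cr 0 := by
    field_simp
    ring
  rw [e4] at hlim
  refine hlim.congr' ?_
  filter_upwards [eventually_ge_atTop 1] with X hX
  have hX0 : (X : ℝ) ≠ 0 := by
    have : (1 : ℝ) ≤ X := by exact_mod_cast hX
    linarith
  rw [eT, eG]
  exact div_div_div_cancel_right₀ hX0 _ _

end Pool.Agent.Helper68.C6.MJ
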