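import Pool.Agent.Helper68.C6.Maj
import Pool.Agent.Helper68.C3.Fin3

/-!
# Counting the squarefree elements by the sets of primary primes
-/

set_option autoImplicit false
set_option linter.unusedSectionVars false

open scoped Classical

namespace Pool.Agent.Helper68.C6.MJ

open NumberField Finset
open Pool.Agent.Y692.QS (Ei w nr nr_mul nr_neg mul_re mul_im int_dvd nr_nonneg)
open Pool.Agent.Y715.T.Gi (lam nr_lam lam_sq prime_lam)
open Pool.Agent.Helper68.C3 (Part3 SS)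
open Pool.Agent.Helper68.C3.Fin3 (fin_nr)
open Pool.Agent.Helper68.C3.NS3 (card_eq)

lemma lam_re : lam.re = 1 := rfl
lemma lam_im : lam.im = 2 := rfl

lemma dvd3 (D : Ei) : (3 : Ei) ∣ D ↔ (3 : ℤ) ∣ D.re ∧ (3 : ℤ) ∣ D.im := by
  have h := int_dvd (n := 3) (α := D)
  have e : ((3 : ℤ) : Ei) = 3 := by norm_num
  rwa [e] at h

lemma lam_dvd (D : Ei) : lam ∣ D ↔ (3 : ℤ) ∣ D.re + D.im := by
  constructor
  · rintro ⟨c, rfl⟩
    rw [mul_re, mul_im, lam_re, lam_im]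
    exact ⟨c.re - c.im, by ring⟩
  · rintro ⟨k, hk⟩
    refine ⟨⟨D.im - k, D.im - 2 * k⟩, ?_⟩
    ext
    · rw [mul_re, lam_re, lam_im]
      show D.re = 1 * (D.im - k) - 2 * (D.im - 2 * k)
      linarith
    · rw [mul_im, lam_re, lam_im]
      show D.im = 1 * (D.im - 2 * k) + 2 * (D.im - k) - 2 * (D.im - 2 * k)
      ring

lemma zc {a b : ℤ} : (3 : ℤ) ∣ a - b ↔ (a : ZMod 3) = (b : ZMod 3) := by
  rw [← sub_eq_zero, ← Int.cast_sub]
  exact (ZMod.intCast_zmod_eq_zero_iff_dvd (a - b) 3).symm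

lemma dec : ∀ a b : ZMod 3, ∑ κ : ZMod 3,
    ((if a = (((w : Ei) ^ κ.val).re : ZMod 3) ∧ b = (((w : Ei) ^ κ.val).im : ZMod 3) then 1 else 0) +
      (if -a = (((w : Ei) ^ κ.val).re : ZMod 3) ∧ -b = (((w : Ei) ^ κ.val).im : ZMod 3) then 1
        else 0)) = if a + b = 0 then 0 else (1 : ℕ) := by
  decide

lemma res_iff (D : Ei) (κ : ZMod 3) : (3 : Ei) ∣ D - w ^ κ.val ↔
    ((D.re : ZMod 3) = (((w : Ei) ^ κ.val).re : ZMod 3) ∧
      (D.im : ZMod 3) = (((w : Ei) ^ κ.val).im : ZMod 3)) := by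
  rw [dvd3, QuadraticAlgebra.re_sub, QuadraticAlgebra.im_sub, zc, zc]

/-- an element prime to `√-3` is congruent to exactly one unit modulo three -/
lemma res_sum (D : Ei) : ∑ κ : ZMod 3, ((if (3 : Ei) ∣ D - w ^ κ.val then 1 else 0) +
    (if (3 : Ei) ∣ -D - w ^ κ.val then 1 else 0)) = if lam ∣ D then 0 else (1 : ℕ) := by
  have h := dec (D.re : ZMod 3) (D.im : ZMod 3)
  have e : lam ∣ D ↔ (D.re : ZMod 3) + (D.im : ZMod 3) = 0 := by
    rw [lam_dvd, ← Int.cast_add]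
    exact (ZMod.intCast_zmod_eq_zero_iff_dvd _ 3).symm
  simp only [res_iff, e, QuadraticAlgebra.re_neg, QuadraticAlgebra.im_neg, Int.cast_neg]
  convert h

lemma ncard_eq (X : ℕ) (P : Ei → Prop) :
    {D : Ei | nr D ≤ X ∧ P D}.ncard = ∑ D ∈ (fin_nr X).toFinset, if P D then 1 else 0 := by
  rw [← Finset.card_filter, ← Set.ncard_coe_finset]
  congr 1
  ext D
  simp

lemma sqf_neg {D : Ei} : Squarefree (-D) ↔ Squarefree D := by
  unfold Squarefree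
  simp only [dvd_neg]

lemma card_neg (X : ℕ) (κ : ZMod 3) (Q : Ei → Prop) :
    {D : Ei | nr D ≤ X ∧ ((3 : Ei) ∣ -D - w ^ κ.val ∧ Squarefree D) ∧ Q D}.ncard =
      ((SS X).filter fun S => Q (-(w ^ κ.val * ∏ π ∈ S, π))).card := by
  rw [← card_eq X κ fun D => Q (-D)]
  have h : {D : Ei | nr D ≤ X ∧ ((3 : Ei) ∣ -D - w ^ κ.val ∧ Squarefree D) ∧ Q D} =
      (fun D : Ei => -D) ''
        {D : Ei | nr D ≤ X ∧ ((3 : Ei) ∣ D - w ^ κ.val ∧ Squarefree D) ∧ Q (-D)} := by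
    ext D
    constructor
    · rintro ⟨h1, ⟨h2, h3⟩, h4⟩
      refine ⟨-D, ⟨?_, ⟨h2, ?_⟩, ?_⟩, neg_neg D⟩
      · rw [nr_neg]
        exact h1
      · exact sqf_neg.2 h3
      · rw [neg_neg]
        exact h4
    · rintro ⟨D', ⟨h1, ⟨h2, h3⟩, h4⟩, rfl⟩
      refine ⟨?_, ⟨?_, ?_⟩, h4⟩
      · show nr (-D') ≤ X
        rw [nr_neg]
        exact h1
      · show (3 : Ei) ∣ - -D' - w ^ κ.val
        rw [neg_neg]
        exact h2
      · exact sqf_neg.2 h3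
  rw [h, Set.ncard_image_of_injective _ neg_injective]

theorem count_p1 (X : ℕ) (Q : Ei → Prop) :
    {D : Ei | nr D ≤ X ∧ (Squarefree D ∧ ¬ lam ∣ D) ∧ Q D}.ncard =
      ∑ κ : ZMod 3, (((SS X).filter fun S => Q (w ^ κ.val * ∏ π ∈ S, π)).card +
        ((SS X).filter fun S => Q (-(w ^ κ.val * ∏ π ∈ S, π))).card) := by
  have h1 : ∀ κ : ZMod 3, ((SS X).filter fun S => Q (w ^ κ.val * ∏ π ∈ S, π)).card +
      ((SS X).filter fun S => Q (-(w ^ κ.val * ∏ π ∈ S, π))).card =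
      ∑ D ∈ (fin_nr X).toFinset, (if Squarefree D ∧ Q D then 1 else 0) *
        ((if (3 : Ei) ∣ D - w ^ κ.val then 1 else 0) +
          (if (3 : Ei) ∣ -D - w ^ κ.val then 1 else 0)) := by
    intro κ
    rw [← card_eq X κ Q, ← card_neg X κ Q, ncard_eq, ncard_eq, ← Finset.sum_add_distrib]
    refine Finset.sum_congr rfl fun D _ => ?_
    by_cases a1 : Squarefree D <;> by_cases a2 : Q D <;> by_cases a3 : (3 : Ei) ∣ D - w ^ κ.val <;>
      by_cases a4 : (3 : Ei) ∣ -D - w ^ κ.val <;> simp [a1, a2, a3, a4]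
  simp only [h1]
  rw [Finset.sum_comm, ncard_eq]
  refine Finset.sum_congr rfl fun D _ => ?_
  rw [← Finset.mul_sum, res_sum]
  by_cases a1 : Squarefree D <;> by_cases a2 : Q D <;> by_cases a3 : lam ∣ D <;>
    simp [a1, a2, a3]

theorem count_p2 (X : ℕ) (Q : Ei → Prop) :
    {D : Ei | nr D ≤ X ∧ (Squarefree D ∧ lam ∣ D) ∧ Q D}.ncard =
      {D : Ei | nr D ≤ (X / 3 : ℕ) ∧ (Squarefree D ∧ ¬ lam ∣ D) ∧ Q (lam * D)}.ncard := by
  have hn : ∀ D : Ei, nr (lam * D) ≤ X ↔ nr D ≤ (X / 3 : ℕ) := by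
    intro D
    rw [nr_mul, nr_lam]
    have := nr_nonneg D
    omega
  have h : {D : Ei | nr D ≤ X ∧ (Squarefree D ∧ lam ∣ D) ∧ Q D} = (fun D : Ei => lam * D) ''
      {D : Ei | nr D ≤ (X / 3 : ℕ) ∧ (Squarefree D ∧ ¬ lam ∣ D) ∧ Q (lam * D)} := by
    ext D
    constructor
    · rintro ⟨h1, ⟨h2, ⟨c, rfl⟩⟩, h4⟩
      refine ⟨c, ⟨(hn c).1 h1, ⟨?_, ?_⟩, h4⟩, rfl⟩
      · exact h2.squarefree_of_dvd (dvd_mul_left _ _)
      · intro h5
        exact prime_lam.not_isUnit (h2 lam (mul_dvd_mul_left lam h5))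
    · rintro ⟨D', ⟨h1, ⟨h2, h3⟩, h4⟩, rfl⟩
      refine ⟨(hn D').2 h1, ⟨?_, dvd_mul_right _ _⟩, h4⟩
      show Squarefree (lam * D')
      rw [squarefree_mul_iff]
      refine ⟨?_, prime_lam.irreducible.squarefree, h2⟩
      exact prime_lam.irreducible.isRelPrime_iff_not_dvd.2 h3
  rw [h, Set.ncard_image_of_injective]
  intro a b hab
  exact mul_left_cancel₀ prime_lam.ne_zero hab

theorem s_CNTALL : S_CNTALL := by
  intro X Q
  have h0 : {D : Ei | nr D ≤ X ∧ Squarefree D ∧ Q D} =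
      {D : Ei | nr D ≤ X ∧ (Squarefree D ∧ ¬ lam ∣ D) ∧ Q D} ∪
      {D : Ei | nr D ≤ X ∧ (Squarefree D ∧ lam ∣ D) ∧ Q D} := by
    ext D
    show _ ∧ _ ∧ _ ↔ (_ ∧ (_ ∧ _) ∧ _) ∨ (_ ∧ (_ ∧ _) ∧ _)
    tauto
  rw [h0, Set.ncard_union_eq ?_ ((fin_nr X).subset fun D h => h.1)
    ((fin_nr X).subset fun D h => h.1), count_p1, count_p2, count_p1, ← Finset.sum_add_distrib]
  · refine Finset.sum_congr rfl fun κ _ => ?_
    rw [← add_assoc]
    congr 2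
    · congr 1
      refine Finset.filter_congr fun S _ => ?_
      rw [mul_assoc]
    · refine Finset.filter_congr fun S _ => ?_
      rw [mul_neg, mul_assoc]
  · rw [Set.disjoint_left]
    rintro D ⟨-, ⟨-, h1⟩, -⟩ ⟨-, ⟨-, h2⟩, -⟩
    exact h1 h2

end Pool.Agent.Helper68.C6.MJ
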