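import Pool.Agent.Helper68.C6.MJ1
import Pool.Agent.Helper68.C6.SV
import Pool.Agent.Helper68.C6.SQ
import Pool.Agent.Helper68.C6.Asm6
import Pool.Agent.Helper68.C6.NG
import Pool.Agent.Helper68.C4.Surf2

/-!
# The criteria for the squarefree elements in terms of the sets of primary primes
-/

set_option autoImplicit false
set_option linter.unusedSectionVars false

open scoped Classical

namespace Pool.Agent.Helper68.C6.MJ

open NumberField Finset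
open Pool.Agent.Y692.QS (Ei w nr nr_mul nr_neg mul_re mul_im int_dvd nr_nonneg)
open Pool.Agent.Y715.T.Gi (lam nr_lam lam_sq prime_lam)
open Pool.Agent.Y715.T.Rec (cs)
open Pool.Agent.Y715.T.RecG (Pq)
open Pool.Agent.Y699.E (nrm prm)
open Pool.Agent.Y703.CT (rq Dt pD ex_q)
open Pool.Agent.Y703.XL (cr)
open Pool.Agent.Y696.CTK (Tri Law3 ClsK)
open Pool.Agent.Helper68.C3 (Part3 SS Bt GB)
open Pool.Agent.Helper68.C3.Fin3 (fin_nr dt_of part3_iff b2 tri_gb law_cls cls_iff)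
open Pool.Agent.Helper68.C3.NS3 (card_eq bt bt_bt bt_co prm_co)
open Pool.Agent.Helper68.C5.Chr5 (ts ts_prim lt)

/-! ### The sets -/

lemma mem_pq {X : ℕ} {S : Finset Ei} (hS : S ∈ SS X) : ∀ π ∈ S, Pq π := by
  unfold SS at hS
  exact (Finset.mem_filter.1 hS).2.1

lemma prod_prm {S : Finset Ei} (hS : ∀ π ∈ S, Pq π) : (3 : Ei) ∣ ∏ π ∈ S, π - 1 :=
  (Pool.Agent.Y699.E.PS_prod hS).1.prm

/-! ### The two characters -/

lemma bt_congr {β β' : Ei → ZMod 3} (h : ∀ a, prm a → β' a = β a) (hβ : Bt β) : Bt β' := by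
  have hm : ∀ a b : Ei, prm a → prm b → prm (a * b) := fun a b ha hb =>
    Pool.Agent.Y699.E.prm_mul ha hb
  refine ⟨fun a b ha hb => ?_, fun a b ha hb hab => ?_, ?_⟩
  · rw [h _ (hm a b ha hb), h a ha, h b hb, hβ.mul a b ha hb]
  · rw [h a ha, h b hb, hβ.per a b ha hb hab]
  · obtain ⟨c, hc, h1⟩ := hβ.nt
    exact ⟨c, hc, by rw [h c hc]; exact h1⟩

/-- the first character -/
def β₁ (κ : ZMod 3) (x : Ei) : ZMod 3 := -ts (-κ) x

/-- the second character -/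
def β₂ (x : Ei) : ZMod 3 := -rq x

lemma comb (κ t s : ZMod 3) {a : Ei} (ha : prm a) :
    t * β₁ κ a + s * β₂ a = bt (-(t * κ + s)) (-(t * (1 + κ) + s)) a := by
  obtain ⟨x, y, e, hr⟩ := ex_q (α := a) ha
  have hts := ts_prim (-κ) ⟨x, y⟩
  rw [← e] at hts
  have h1 : a.re = 1 + 3 * x := by
    rw [e]
    show (1 : ℤ) + ((3 : Ei) * ⟨x, y⟩).re = _
    rw [mul_re]
    show (1 : ℤ) + (3 * x - 0 * y) = _
    ring
  have h2 : a.im = 3 * y := by
    rw [e]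
    show (0 : ℤ) + ((3 : Ei) * ⟨x, y⟩).im = _
    rw [mul_im]
    show (0 : ℤ) + (3 * y + 0 * x - 0 * y) = _
    ring
  rw [bt_co h1 h2]
  unfold β₁ β₂
  rw [hts, hr]
  unfold lt
  push_cast
  ring

theorem bt2 (κ : ZMod 3) : Bt2 (β₁ κ) β₂ := by
  intro t s hts
  refine bt_congr (β := bt (-(t * κ + s)) (-(t * (1 + κ) + s))) (fun a ha => comb κ t s ha) ?_
  refine bt_bt ?_
  revert hts
  revert t s κ
  decide

/-! ### The elements divisible by the square root of minus three -/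

lemma pD6_of (S : Finset Ei) (κ : ZMod 3) :
    pD6 (fun p : S => (p : Ei)) (fun _ => (1 : ZMod 3)) κ = lam * w ^ κ.val * ∏ π ∈ S, π := by
  unfold pD6 pD
  rw [← Finset.prod_coe_sort S (fun π => π)]
  congr 1
  refine Finset.prod_congr rfl fun p _ => ?_
  have : (1 : ZMod 3).val = 1 := rfl
  rw [this, pow_one]

lemma ker_gv (S : Finset Ei) (κ : ZMod 3) :
    Ker6 (fun p : S => (p : Ei)) (fun _ => (1 : ZMod 3)) κ ↔ GV (β₁ κ) β₂ (-κ) 0 S := by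
  have e1 : ∀ (v : S → ZMod 3) (s : ZMod 3),
      ((∀ π : S, ∑ ρ : S, (1 : ZMod 3) * cs π ρ * (v ρ - v π) = -ts (-κ) π * v π - rq π * s) ∧
        κ * s = ∑ ρ : S, (1 : ZMod 3) * rq ρ * v ρ) ↔
      ((∀ π : S, ∑ ρ : S, cs π ρ * (v ρ - v π) = β₁ κ π * v π + β₂ π * s) ∧
        -κ * s = ∑ π : S, β₂ π * v π) := by
    intro v s
    unfold β₁ β₂
    simp only [one_mul, neg_mul, Finset.sum_neg_distrib, neg_inj]
    refine and_congr (forall_congr' fun π => ?_) Iff.rfl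
    rw [sub_eq_add_neg]
  unfold Ker6 GV nV
  rw [pow_zero]
  constructor
  · intro h
    rw [Nat.card_eq_one_iff_unique]
    refine ⟨⟨fun a b => Subtype.ext ?_⟩, ⟨⟨(fun _ => 0, 0), ?_⟩⟩⟩
    · have h1 := (e1 a.1.1 a.1.2).2 a.2
      have h2 := (e1 b.1.1 b.1.2).2 b.2
      obtain ⟨h3, h4⟩ := h _ _ h1.1 h1.2
      obtain ⟨h5, h6⟩ := h _ _ h2.1 h2.2
      refine Prod.ext (funext fun π => ?_) ?_
      · rw [h3, h5]
      · rw [h4, h6]
    · simp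
  · intro h v s hv hs
    rw [Nat.card_eq_one_iff_unique] at h
    obtain ⟨h1, -⟩ := h
    have h2 := h1.elim ⟨(v, s), (e1 v s).1 ⟨hv, hs⟩⟩ ⟨(fun _ => 0, 0), by simp⟩
    have h3 := congrArg Subtype.val h2
    refine ⟨fun π => congrFun (congrArg Prod.fst h3) π, congrArg Prod.snd h3⟩

section
variable {K : Type} [Field K] [NumberField K] (j : Ei ≃+* 𝓞 K)

theorem part_V (hdisc : discr K = -3) {S : Finset Ei} (hS : ∀ π ∈ S, Pq π) (κ : ZMod 3) :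
    Part3 (j (lam * w ^ κ.val * ∏ π ∈ S, π)) ↔ GV (β₁ κ) β₂ (-κ) 0 S := by
  rw [← pD6_of, part3_iff (Asm6.law_of j hdisc (dt_of hS)), Asm6.tri_iff j (dt_of hS), ker_gv]

theorem part_II [IsCyclotomicExtension {3} ℚ K] {κ : ZMod 3} (hκ : κ ≠ 0) {S : Finset Ei}
    (hS : ∀ π ∈ S, Pq π) : Part3 (j (w ^ κ.val * ∏ π ∈ S, π)) ↔ GB (b2 κ) 0 S := by
  rw [part3_iff, tri_gb j hκ hS]
  refine law_cls K ((cls_iff j _).2 ⟨κ, hκ, ?_, ?_⟩)
  · have e : w ^ κ.val * ∏ π ∈ S, π - w ^ κ.val = w ^ κ.val * (∏ π ∈ S, π - 1) := by ring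
    rw [e]
    exact (prod_prm hS).mul_left _
  · intro x hx
    exact (Pool.Agent.Y699.E.PS_prod hS).1.sqf x
      ((Pool.Agent.Helper68.C3.NS3.wk_unit κ).dvd_mul_left.1 hx)

theorem part_I [IsCyclotomicExtension {3} ℚ K] (hj : ∀ z : Ei, Algebra.norm ℤ (j z) = nr z)
    {S : Finset Ei} (hS : ∀ π ∈ S, Pq π) (h9 : (∏ π ∈ S, nrm π) % 9 ≠ 1) :
    Part3 (j (∏ π ∈ S, π)) ↔ Pool.Agent.Y703.XK.Gd S := by
  have hcls : ClsK (j (∏ π ∈ S, π)) := by
    rw [Pool.Agent.Helper68.C4.Surf.clsK_iff j hj]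
    refine ⟨⟨prod_prm hS, (Pool.Agent.Y699.E.PS_prod hS).1.sqf⟩, ?_⟩
    rw [Pool.Agent.Y550.XK.NS.mod_iff, Pool.Agent.Y550.XK.NS.nrm_prod]
    exact h9
  rw [part3_iff ((Pool.Agent.Y696.CTK.final K).2.1 _ hcls).1,
    Pool.Agent.Helper68.C4.Surf.tri_gd j hS h9]

/-- the statement for `-D` -/
lemma part_neg [IsCyclotomicExtension {3} ℚ K] (D : 𝓞 K) : Part3 (-D) ↔ Part3 D := by
  refine ⟨fun h => ?_, NG.s_NEG K D⟩
  have := NG.s_NEG K (-D) h
  rwa [neg_neg] at this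

/-! ### The exceptional class -/

lemma exc_neg (D : 𝓞 K) : Exc (-D) ↔ Exc D := by
  have e1 : ∀ θ : 𝓞 K, (3 * θ ∣ -D - 1) ↔ 3 * θ ∣ D + 1 := fun θ => by
    have e : -D - 1 = -(D + 1) := by ring
    rw [e, dvd_neg]
  have e2 : ∀ θ : 𝓞 K, (3 * θ ∣ -D + 1) ↔ 3 * θ ∣ D - 1 := fun θ => by
    have e : -D + 1 = -(D - 1) := by ring
    rw [e, dvd_neg]
  unfold Exc
  refine exists_congr fun θ => and_congr_right fun _ => ?_
  rw [e1, e2, or_comm]

include j in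
lemma exc_iff (D : Ei) : Exc (j D) ↔ (3 * lam ∣ D - 1 ∨ 3 * lam ∣ D + 1) := by
  have e1 : ∀ θ : Ei, (3 * j θ ∣ j D - 1) ↔ 3 * θ ∣ D - 1 := fun θ => by
    have e : j D - 1 = j (D - 1) := by rw [map_sub, map_one]
    rw [e, ← map_ofNat j 3, ← map_mul, map_dvd_iff j]
  have e2 : ∀ θ : Ei, (3 * j θ ∣ j D + 1) ↔ 3 * θ ∣ D + 1 := fun θ => by
    have e : j D + 1 = j (D + 1) := by rw [map_add, map_one]
    rw [e, ← map_ofNat j 3, ← map_mul, map_dvd_iff j]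
  constructor
  · rintro ⟨θ, hθ, h⟩
    obtain ⟨θ, rfl⟩ := j.surjective θ
    have h1 : θ ^ 2 = lam ^ 2 := by
      rw [lam_sq]
      apply j.injective
      rw [map_pow, hθ, map_neg, map_ofNat]
    rw [e1, e2] at h
    rcases sq_eq_sq_iff_eq_or_eq_neg.1 h1 with rfl | rfl
    · exact h
    · simpa only [mul_neg, neg_dvd] using h
  · intro h
    refine ⟨j lam, ?_, ?_⟩
    · rw [← map_pow, lam_sq, map_neg, map_ofNat]
    · rwa [e1, e2]

lemma lam_three : lam ∣ (3 : Ei) := ⟨-lam, by linear_combination lam_sq⟩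

lemma exc_V (D : Ei) : ¬ Exc (j (lam * D)) := by
  rw [exc_iff]
  have h0 : ∀ x : Ei, lam ∣ x → ¬ lam ∣ x - 1 ∧ ¬ lam ∣ x + 1 := by
    intro x hx
    constructor
    · intro h
      have := dvd_sub hx h
      rw [sub_sub_cancel] at this
      exact prime_lam.not_dvd_one this
    · intro h
      have := dvd_sub h hx
      rw [add_sub_cancel_left] at this
      exact prime_lam.not_dvd_one this
  obtain ⟨h1, h2⟩ := h0 (lam * D) (dvd_mul_right _ _)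
  rintro (h | h)
  · exact h1 ((dvd_mul_left lam 3).trans h)
  · exact h2 ((dvd_mul_left lam 3).trans h)

lemma exc_II {κ : ZMod 3} (hκ : κ ≠ 0) {P : Ei} (hP : (3 : Ei) ∣ P - 1) :
    ¬ Exc (j (w ^ κ.val * P)) := by
  rw [exc_iff]
  have h1 : (3 : Ei) ∣ w ^ κ.val * P - w ^ κ.val := by
    have e : w ^ κ.val * P - w ^ κ.val = w ^ κ.val * (P - 1) := by ring
    rw [e]
    exact hP.mul_left _
  rintro (h | h)
  · have h2 := dvd_sub ((dvd_mul_right 3 lam).trans h) h1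
    have e : w ^ κ.val * P - 1 - (w ^ κ.val * P - w ^ κ.val) = w ^ κ.val - 1 := by ring
    rw [e, dvd3] at h2
    revert h2
    have : ∀ κ : ZMod 3, κ ≠ 0 → ¬ ((3 : ℤ) ∣ ((w : Ei) ^ κ.val - 1).re ∧
        (3 : ℤ) ∣ ((w : Ei) ^ κ.val - 1).im) := by decide
    exact this κ hκ
  · have h2 := dvd_sub ((dvd_mul_right 3 lam).trans h) h1
    have e : w ^ κ.val * P + 1 - (w ^ κ.val * P - w ^ κ.val) = w ^ κ.val + 1 := by ring
    rw [e, dvd3] at h2
    revert h2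
    have : ∀ κ : ZMod 3, κ ≠ 0 → ¬ ((3 : ℤ) ∣ ((w : Ei) ^ κ.val + 1).re ∧
        (3 : ℤ) ∣ ((w : Ei) ^ κ.val + 1).im) := by decide
    exact this κ hκ

lemma rq_iff {P : Ei} (hP : (3 : Ei) ∣ P - 1) :
    (rq P = 0 ↔ 3 * lam ∣ P - 1) ∧ (rq P = 0 ↔ (9 : ℤ) ∣ nr P - 1) := by
  obtain ⟨x, y, e, hr⟩ := ex_q hP
  have h0 : rq P = 0 ↔ (3 : ℤ) ∣ x + y := by
    rw [hr]
    exact ZMod.intCast_zmod_eq_zero_iff_dvd _ 3
  have h1 : P.re = 1 + 3 * x := by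
    rw [e]
    show (1 : ℤ) + ((3 : Ei) * ⟨x, y⟩).re = _
    rw [mul_re]
    show (1 : ℤ) + (3 * x - 0 * y) = _
    ring
  have h2 : P.im = 3 * y := by
    rw [e]
    show (0 : ℤ) + ((3 : Ei) * ⟨x, y⟩).im = _
    rw [mul_im]
    show (0 : ℤ) + (3 * y + 0 * x - 0 * y) = _
    ring
  constructor
  · rw [h0]
    have e2 : P - 1 = 3 * ⟨x, y⟩ := by rw [e]; ring
    rw [e2, mul_dvd_mul_iff_left (by norm_num : (3 : Ei) ≠ 0), lam_dvd]
  · rw [h0]
    unfold nr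
    rw [h1, h2]
    have e3 : (1 + 3 * x) ^ 2 - (1 + 3 * x) * (3 * y) + (3 * y) ^ 2 - 1 =
        9 * (x + x ^ 2 - x * y + y ^ 2) - 3 * (x + y) := by ring
    rw [e3]
    omega

lemma exc_I {P : Ei} (hP : (3 : Ei) ∣ P - 1) : Exc (j P) ↔ rq P = 0 := by
  rw [exc_iff, (rq_iff hP).1]
  constructor
  · rintro (h | h)
    · exact h
    · exfalso
      have h1 := dvd_sub ((dvd_mul_right 3 lam).trans h) hP
      have e : P + 1 - (P - 1) = 2 := by ring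
      rw [e, dvd3] at h1
      obtain ⟨c, hc⟩ := h1.1
      have : (2 : Ei).re = 2 := rfl
      omega
  · exact Or.inl

end

end Pool.Agent.Helper68.C6.MJ
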