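import Pool.Agent.Helper68.C6.Defs6
import Pool.Agent.Helper68.C6.NegD
import Pool.Agent.Helper68.C3.NS3

/-!
# The majority of the cubic twists: statements
-/

set_option autoImplicit false

open scoped Classical

namespace Pool.Agent.Helper68.C6

open NumberField Finset
open Pool.Agent.Y692.QS (Ei w nr)
open Pool.Agent.Y715.T.Gi (lam)
open Pool.Agent.Helper68.C3 (Part3 SS)

/-- counting the squarefree elements by the sets of primary primes -/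
def S_CNTALL : Prop := ∀ (X : ℕ) (Q : Ei → Prop),
  {D : Ei | nr D ≤ X ∧ Squarefree D ∧ Q D}.ncard =
    ∑ κ : ZMod 3, (((SS X).filter fun S => Q (w ^ κ.val * ∏ π ∈ S, π)).card +
      ((SS X).filter fun S => Q (-(w ^ κ.val * ∏ π ∈ S, π))).card +
      ((SS (X / 3)).filter fun S => Q (lam * w ^ κ.val * ∏ π ∈ S, π)).card +
      ((SS (X / 3)).filter fun S => Q (-(lam * w ^ κ.val * ∏ π ∈ S, π))).card)

/-- the exceptional class: `D` is congruent to `1` or `-1` modulo `3 √-3` -/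
def Exc {K : Type} [Field K] [NumberField K] (D : 𝓞 K) : Prop :=
  ∃ θ : 𝓞 K, θ ^ 2 = -3 ∧ (3 * θ ∣ D - 1 ∨ 3 * θ ∣ D + 1)

/-- the majority theorem -/
def S_MAJ : Prop := ∀ (K : Type) [Field K] [NumberField K] [IsCyclotomicExtension {3} ℚ K],
  Filter.Tendsto (fun X : ℕ =>
    ({D : 𝓞 K | Algebra.norm ℤ D ≤ X ∧ Squarefree D ∧ ¬ Exc D ∧ Part3 D}.ncard : ℝ) /
      ({D : 𝓞 K | Algebra.norm ℤ D ≤ X ∧ Squarefree D}.ncard : ℝ)) Filter.atTop
    (nhds (11 / 12 * ∏' i : ℕ, (1 - (1 / 3 : ℝ) ^ (2 * i + 1)))) ∧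
  (0.5857 : ℝ) < 11 / 12 * ∏' i : ℕ, (1 - (1 / 3 : ℝ) ^ (2 * i + 1)) ∧
  11 / 12 * ∏' i : ℕ, (1 - (1 / 3 : ℝ) ^ (2 * i + 1)) < 0.5859

end Pool.Agent.Helper68.C6
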