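import Pool.Agent.Helper68.C6.Ana6e
import Pool.Agent.Helper68.C2.Dist

/-!
# The normalized values at the points of order prime to three
-/

set_option autoImplicit false
set_option linter.unusedSectionVars false

open Filter
open scoped Topology PeriodPair

namespace Pool.Agent.Helper68.C6.Mom6

open H667R3 Pool.Agent.W192.HK Pool.Agent.TH936.CM Pool.Agent.TH936.PU
open Pool.Agent.Y692.QS (Ei w toC)
open Pool.Agent.Y715.Dist Pool.Agent.Y715.Idn Pool.Agent.Y715.T.Lat Pool.Agent.Y696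
open Pool.Agent.Y715.Two (v_int v_unit v_mul_le_of)
open Pool.Agent.Y715.T.Three Pool.Agent.Y715.T.Cg
open Pool.Agent.Helper68.C5.Chr5 Pool.Agent.Helper68.C5.Lim5 Pool.Agent.Helper68.C6.Lim6
open Pool.Agent.Helper68.C6.Ana6

variable {Γ : Type*} [LinearOrderedCommGroupWithZero Γ] {v : Valuation ℂ Γ}
  {L : PeriodPair} {Ω : ℂ} {κ : ZMod 3}

/-- the value at the reference point -/
noncomputable def A0 (L : PeriodPair) (Ω : ℂ) (κ : ZMod 3) : ℂ :=
  F2 L Ω κ (Ω * ((1 : eis) : ℂ) / ((2 : eis) : ℂ))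

/-- the normalized values -/
noncomputable def U0 (L : PeriodPair) (Ω : ℂ) (κ : ZMod 3) (c x : eis) : ℂ :=
  (F2 L Ω κ (Ω * x / c) - A0 L Ω κ) / (2 * ep L Ω)

lemma pt_two : Pt6 2 1 := by
  refine ⟨two_ne_zero, ⟨1, -1, by norm_num⟩, ?_, isCoprime_one_left⟩
  intro h
  rw [Ideal.span_singleton_eq_top] at h
  have h2 := (isUnit_iff' (2 : eis)).1 h
  have e2 : ((2 : eis) : ℂ) = 2 := rfl
  rw [e2] at h2
  norm_num at h2

lemma F2_per (hC : Cur L Ω) {c x y : eis} (hc : c ≠ 0) (h : x - y ∈ (sp c : Ideal eis)) :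
    F2 L Ω κ (Ω * x / c) = F2 L Ω κ (Ω * y / c) := by
  have h1 := (div_mem_iff hC.lat hc (x - y)).2 h
  unfold F2
  rw [f6_per (z := w0 Ω + Ω * x / c) (z' := w0 Ω + Ω * y / c),
    f6_per (z := w0 Ω - Ω * x / c) (z' := w0 Ω - Ω * y / c)]
  · have := neg_mem h1
    convert this using 1
    push_cast
    ring
  · convert h1 using 1
    push_cast
    ring

lemma U0_per (hC : Cur L Ω) {c x y : eis} (hc : c ≠ 0) (h : x - y ∈ (sp c : Ideal eis)) :
    U0 L Ω κ c x = U0 L Ω κ c y := by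
  unfold U0
  rw [F2_per hC hc h]

lemma F2_emb {a c x : eis} (ha : a ≠ 0) :
    F2 L Ω κ (Ω * ((a * x : eis) : ℂ) / ((a * c : eis) : ℂ)) = F2 L Ω κ (Ω * x / c) := by
  have ha0 := coe_ne ha
  congr 1
  push_cast
  rw [mul_left_comm, mul_div_mul_left _ _ ha0]

lemma U0_emb {a c x : eis} (ha : a ≠ 0) : U0 L Ω κ (a * c) (a * x) = U0 L Ω κ c x := by
  unfold U0
  rw [F2_emb ha]

section val

variable (h3 : v 3 < 1) (hC : Cur L Ω) (hfin : ∀ q : eis, q ≠ 0 → Finite (eis ⧸ sp q))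

include h3 hC

lemma ep_pos : 0 < v (ep L Ω) := zero_lt_iff.2 (by rw [Ne, map_eq_zero]; exact ep_ne h3 hC)

lemma v2ep : v (2 * ep L Ω) = v (ep L Ω) := by rw [map_mul, v_two h3, one_mul]

include hfin

/-- the values are integral -/
lemma U0_le {c x : eis} (h : Pt6 c x) : v (U0 L Ω κ c x) ≤ 1 := by
  have h1 := close (κ := κ) h3 hC hfin h pt_two
  rw [← v_ep h3 hC] at h1
  have h2 : v (F2 L Ω κ (Ω * x / c) - A0 L Ω κ) ≤ v (ep L Ω) :=
    (pow_le_pow_iff_left₀ zero_le zero_le three_ne_zero).1 h1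
  unfold U0
  rw [map_div₀, v2ep h3 hC]
  exact (div_le_one₀ (ep_pos h3 hC)).2 h2

/-- the shift -/
lemma U0_om {c x : eis} (h : Pt6 c x) :
    v (U0 L Ω κ c (omr * x) - (U0 L Ω κ c x + 1)) < 1 := by
  have h1 := shift (κ := κ) h3 hC hfin h
  have h0 := ep_ne h3 hC
  have e : U0 L Ω κ c (omr * x) - (U0 L Ω κ c x + 1) =
      (F2 L Ω κ (Ω * ((omr * x : eis) : ℂ) / c) - F2 L Ω κ (Ω * x / c)) / (2 * ep L Ω) - 1 := by
    unfold U0
    ring
  rw [e]
  exact h1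

/-- the bound of the values -/
lemma F2_le {c x : eis} (h : Pt6 c x) : v (F2 L Ω κ (Ω * x / c)) ^ 3 ≤ v lam ^ 7 :=
  (cub (κ := κ) h3 hC hfin h.ne h.three h.top h.cop).2

/-- a small multiple of a value -/
lemma F2_sm {c x : eis} (h : Pt6 c x) {t : ℂ} (ht : v t ≤ v lam) :
    v (t * F2 L Ω κ (Ω * x / c) / (2 * ep L Ω)) < 1 := by
  have hl := lam_lt h3
  rw [map_div₀, v2ep h3 hC, div_lt_one₀ (ep_pos h3 hC)]
  apply lt_of_cube h3
  rw [v_ep h3 hC, map_mul, mul_pow]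
  calc v t ^ 3 * v (F2 L Ω κ (Ω * x / c)) ^ 3 ≤ v lam ^ 3 * v lam ^ 7 :=
        mul_le_mul' (pow_le_pow_left₀ zero_le ht 3) (F2_le h3 hC hfin h)
    _ = v lam ^ 10 := by rw [← pow_add]
    _ < v lam ^ 8 := pow_lt_pow_right_of_lt_one₀ lam_pos hl (by norm_num)

/-- the distribution relation for the values -/
lemma F2_dist {a c : eis} (hc : c ≠ 0) (ha : a ≠ 0) (h3c : IsCoprime 3 c) (h3a : IsCoprime 3 a)
    {η : ℂ} (hη : ∀ j, e6 κ j a * η = 1) (x : eis) :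
    Sm a (fun t => F2 L Ω κ (Ω * ((x + c * t : eis) : ℂ) / ((a * c : eis) : ℂ))) =
      (a * η) * F2 L Ω κ (Ω * x / c) := by
  have : Fintype (eis ⧸ (sp ff : Ideal eis)) := @Fintype.ofFinite _ (hfin _ ff_ne)
  have hfc : IsCoprime ff c := h3c.mul_left h3c
  have hfa : IsCoprime ff a := h3a.mul_left h3a
  have key : ∀ j : Fin 3, Sm a (fun t => Ph L Ω ff (e6 κ j) (E6 L Ω κ j) (a * c) (x + c * t)) =
      (a * η) * Ph L Ω ff (e6 κ j) (E6 L Ω κ j) c x := fun j =>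
    Pool.Agent.Helper68.C2.Dist.dist_Ph hC.lat hfin ff_ne hc ha hfc hfa (eo_6 κ j) (hη j)
      (lim_6 hC j) x
  have h1 := Finset.sum_congr rfl fun (j : Fin 3) (_ : j ∈ Finset.univ) => key j
  rw [← Finset.mul_sum, sum_Ph6 hC hc hfc] at h1
  have h2 : ∑ j : Fin 3, Sm a (fun t => Ph L Ω ff (e6 κ j) (E6 L Ω κ j) (a * c) (x + c * t)) =
      3 * Sm a (fun t => F2 L Ω κ (Ω * ((x + c * t : eis) : ℂ) / ((a * c : eis) : ℂ))) := by
    rw [← Sm_mul_left]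
    unfold Sm
    rw [Finset.sum_comm]
    refine Finset.sum_congr rfl fun t _ => ?_
    rw [sum_Ph6 hC (mul_ne_zero ha hc) (hfa.mul_right hfc)]
    rfl
  rw [h2] at h1
  have h30 : (3 : ℂ) ≠ 0 := three_ne_zero
  apply mul_left_cancel₀ h30
  rw [h1]
  unfold F2
  ring

/-- the distribution relation for the normalized values -/
lemma U0_dist {a c x : eis} (h : Pt6 c x) (ha : a ≠ 0) (h3a : IsCoprime 3 a)
    {η : ℂ} (hη : ∀ j, e6 κ j a * η = 1) (h1 : v ((a : ℂ) * η - 1) ≤ v lam)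
    (h2 : v ((Nat.card (eis ⧸ (sp a : Ideal eis)) : ℂ) - 1) ≤ v lam) :
    v (Sm a (fun t => U0 L Ω κ (a * c) (x + c * t)) - U0 L Ω κ c x) < 1 := by
  have : Finite (eis ⧸ (sp a : Ideal eis)) := hfin a ha
  have : Fintype (eis ⧸ (sp a : Ideal eis)) := Fintype.ofFinite _
  have hd := F2_dist h3 hC hfin h.ne ha h.three h3a hη x
  have h0 := ep_ne h3 hC
  have e1 : Sm a (fun t => U0 L Ω κ (a * c) (x + c * t)) =
      (Sm a (fun t => F2 L Ω κ (Ω * ((x + c * t : eis) : ℂ) / ((a * c : eis) : ℂ))) -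
        (Nat.card (eis ⧸ (sp a : Ideal eis)) : ℂ) * A0 L Ω κ) / (2 * ep L Ω) := by
    unfold U0
    unfold Sm
    rw [← Finset.sum_div, Finset.sum_sub_distrib, Finset.sum_const, rp_card, nsmul_eq_mul,
      Nat.card_eq_fintype_card]
  have e2 : Sm a (fun t => U0 L Ω κ (a * c) (x + c * t)) - U0 L Ω κ c x =
      ((a : ℂ) * η - 1) * F2 L Ω κ (Ω * x / c) / (2 * ep L Ω) -
        ((Nat.card (eis ⧸ (sp a : Ideal eis)) : ℂ) - 1) *
          F2 L Ω κ (Ω * ((1 : eis) : ℂ) / ((2 : eis) : ℂ)) / (2 * ep L Ω) := by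
    rw [e1, hd]
    unfold U0 A0
    ring
  rw [e2]
  exact v.map_sub_lt (F2_sm h3 hC hfin h h1) (F2_sm h3 hC hfin pt_two h2)

end val

end Pool.Agent.Helper68.C6.Mom6
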