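import Pool.Agent.Helper68.C6.PathDef
import Pool.Graph.R_seed8.Y703.CT.Ana

/-!
# Moments of a function on the residue classes: definitions and statement
-/

set_option autoImplicit false
set_option linter.unusedSectionVars false

namespace Pool.Agent.Helper68.C6

open H667R3 Pool.Agent.W192.HK Pool.Agent.TH936.CM Pool.Agent.TH936.PU
open Pool.Agent.Y715.Dist Pool.Agent.Y715.Idn Pool.Agent.Y696

/-- the sum over the residue classes -/
noncomputable def Sk {M : Type*} [AddCommMonoid M] (c : eis) (F : eis → M) : M := ∑ r ∈ rp c, F r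

open Classical in
/-- the sum over the invertible residue classes -/
noncomputable def Tk {K : Type} [Field K] (c : eis) (F : eis → K) : K :=
  Sk c (fun x => if IsCoprime x c then F x else 0)

/-- the data: primes `π i`, logarithms `l i` modulo `π i` and functions `U S` modulo the product
of the primes in `S` -/
structure Wd {ι : Type} [DecidableEq ι] {K : Type} [Field K] (π : ι → eis) (l : ι → eis → K)
    (U : Finset ι → eis → K) : Prop where
  ne : ∀ i, π i ≠ 0
  cop : ∀ i j, i ≠ j → IsCoprime (π i) (π j)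
  max : ∀ i, (sp (π i)).IsMaximal
  three : ∀ i, IsCoprime (3 : eis) (π i)
  lper : ∀ i x y, x - y ∈ sp (π i) → l i x = l i y
  lmul : ∀ i x y, x ∉ sp (π i) → y ∉ sp (π i) → l i (x * y) = l i x + l i y
  lsurj : ∀ i, ∃ y, y ∉ sp (π i) ∧ l i y = 1
  lval : ∀ i x, x ∉ sp (π i) → l i x = 0 ∨ l i x = 1 ∨ l i x = -1
  lsym : ∀ i j, i ≠ j → l i (π j) = l j (π i)
  lom : ∀ i, ∃ m : ℕ, Nat.card (eis ⧸ sp (π i)) = 3 * m + 1 ∧ l i omr = m
  uper : ∀ S x y, x - y ∈ sp (cc π S) → U S x = U S y
  uom : ∀ S x, S.Nonempty → IsCoprime x (cc π S) → U S (omr * x) = U S x + 1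
  udist : ∀ S j x, S.Nonempty → j ∉ S → IsCoprime x (cc π S) →
    Sk (π j) (fun t => U (insert j S) (x + cc π S * t)) = U S x
  uemb : ∀ S j x, S.Nonempty → j ∉ S → IsCoprime x (cc π S) → U (insert j S) (π j * x) = U S x

/-- the statement -/
def S_T : Prop :=
  ∀ (ι K : Type) [Fintype ι] [DecidableEq ι] [Field K] [CharP K 3] (π : ι → eis)
    (l : ι → eis → K) (U : Finset ι → eis → K),
    (∀ q : eis, q ≠ 0 → Finite (eis ⧸ sp q)) → Wd π l U →
    ∀ S : Finset ι, S.Nonempty → Tk (cc π S) (fun x => (∏ i ∈ S, l i x) * U S x) =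
      (-1) ^ S.card * Hm (fun i j => l i (π j)) (fun i => l i omr) (fun i => l i omr) S

end Pool.Agent.Helper68.C6
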