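import Pool.Agent.Helper68.C6.Mom6
import Pool.Agent.Helper68.C6.WtDef
import Pool.Agent.Helper68.C5.Sup5
import Pool.Graph.R_seed8.Y703.CT.AN1

/-!
# The normalized values in the residue field
-/

set_option autoImplicit false
set_option linter.unusedSectionVars false

open scoped Topology PeriodPair Classical

namespace Pool.Agent.Helper68.C6.Mom6

open H667R3 Pool.Agent.W192.HK Pool.Agent.TH936.CM Pool.Agent.TH936.PU
open Pool.Agent.Y692.QS (Ei w toC nr nr_nonneg)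
open Pool.Agent.Y703.CT
open Pool.Agent.Y715.Dist Pool.Agent.Y715.Idn Pool.Agent.Y715.T.Lat Pool.Agent.Y696
open Pool.Agent.Y715.Two (v_int v_unit v_mul_le_of)
open Pool.Agent.Y715.T.Three Pool.Agent.Y715.T.Cg
open Pool.Agent.Y715.T.Rs (eq0)
open Pool.Agent.Y715.T.Rec (cs)
open Pool.Agent.Y715.T.RecG (Pq cs_mul cs_congr)
open Pool.Agent.Y703.CT.Ana (ej eo_j ej_u ej_ncop ej_prim Fy.cop_iff Fy.three_cc Fy.cc_top)
open Pool.Agent.Helper68.C5.Chr5 Pool.Agent.Helper68.C5.Lim5 Pool.Agent.Helper68.C6.Lim6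
open Pool.Agent.Helper68.C2.Chr (tq)
open Pool.Agent.Helper68.C2.LK2 (cs_w nr_three w_unit not_dvd_w)
open Pool.Agent.Helper68.C6.Ana6

variable {Γ : Type*} [LinearOrderedCommGroupWithZero Γ] {v : Valuation ℂ Γ}

/-! ### the residue field -/

lemma red_nat (n : ℕ) : red v (n : ℂ) = (n : kk v) := by
  induction n with
  | zero => rw [Nat.cast_zero, Nat.cast_zero, red_zero]
  | succ n ih =>
    rw [Nat.cast_succ, Nat.cast_succ, red_add (Pool.Agent.Y715.Two.v_nat n) (by rw [map_one]), ih,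
      red_one]

lemma chP (h3 : v 3 < 1) : CharP (kk v) 3 := by
  refine (CharP.charP_iff_prime_eq_zero Nat.prime_three).2 ?_
  rw [← red_nat, red_eq_zero_iff]
  · exact_mod_cast h3
  · exact_mod_cast h3.le

/-- two congruent numbers -/
lemma red_eq {x y : ℂ} (hx : v x ≤ 1) (hy : v y ≤ 1) (h : v (x - y) < 1) : red v x = red v y := by
  rw [← sub_eq_zero, ← red_sub hx hy, red_eq_zero_iff (v.map_sub_le hx hy)]
  exact h

lemma red_sm {c : eis} {F : eis → ℂ} (h : ∀ x ∈ rp c, v (F x) ≤ 1) :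
    red v (Sm c F) = Sk c (fun x => red v (F x)) := red_sum _ h

section ch

variable (h3 : v 3 < 1) [CharP (kk v) 3]

/-- the homomorphism to the residue field -/
noncomputable def zh (v : Valuation ℂ Γ) [CharP (kk v) 3] : ZMod 3 →+* kk v :=
  ZMod.castHom (dvd_refl 3) (kk v)

lemma zh_val (d : ZMod 3) : zh v d = ((d.val : ℕ) : kk v) := by
  have h : zh v ((d.val : ℕ) : ZMod 3) = ((d.val : ℕ) : kk v) := map_natCast _ _
  rwa [ZMod.natCast_zmod_val] at h

lemma red_cg {s : ℂ} {d : ZMod 3} (h : Cg v s d) : red v s = zh v d := by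
  rw [zh_val, ← red_nat]
  exact red_eq h.le (Pool.Agent.Y715.Two.v_nat _) h.lt

lemma cg_red {s : ℂ} {d : ZMod 3} (h1 : v s ≤ 1) (h : red v s = zh v d) : Cg v s d := by
  refine ⟨h1, ?_⟩
  have hn : v ((d.val : ℕ) : ℂ) ≤ 1 := Pool.Agent.Y715.Two.v_nat _
  rw [← red_eq_zero_iff (v.map_sub_le h1 hn), red_sub h1 hn, h, zh_val, red_nat, sub_self]

end ch

/-! ### the logarithms -/

variable {ι : Type} {π : ι → Ei} {e : ι → ZMod 3}

/-- the logarithms -/
noncomputable def lg (π : ι → Ei) (i : ι) (x : eis) : ZMod 3 :=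
  if π i ∣ eq0.symm x then 0 else cs (π i) (eq0.symm x)

lemma lg_of {i : ι} {x : eis} (h : ¬ π i ∣ eq0.symm x) : lg π i x = cs (π i) (eq0.symm x) :=
  if_neg h

lemma lg_zero {i : ι} {x : eis} (h : π i ∣ eq0.symm x) : lg π i x = 0 := if_pos h

lemma lg_per (hπ : ∀ i, Pq (π i)) {i : ι} {x y : eis}
    (h : x - y ∈ (sp (eq0 (π i)) : Ideal eis)) : lg π i x = lg π i y := by
  rw [mem_iff, map_sub] at h
  by_cases hx : π i ∣ eq0.symm x
  · rw [lg_zero hx, lg_zero ((dvd_iff_dvd_of_dvd_sub h).1 hx)]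
  · rw [lg_of hx, lg_of fun h1 => hx ((dvd_iff_dvd_of_dvd_sub h).2 h1)]
    exact cs_congr (hπ i).prime (hπ i).norm hx h

lemma lg_mul (hπ : ∀ i, Pq (π i)) {i : ι} {x y : eis} (hx : x ∉ (sp (eq0 (π i)) : Ideal eis))
    (hy : y ∉ (sp (eq0 (π i)) : Ideal eis)) : lg π i (x * y) = lg π i x + lg π i y := by
  rw [mem_iff] at hx hy
  have hxy : ¬ π i ∣ eq0.symm (x * y) := by
    rw [map_mul]
    exact fun h1 => ((hπ i).prime.dvd_or_dvd h1).elim hx hy
  rw [lg_of hx, lg_of hy, lg_of hxy, map_mul]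
  exact cs_mul (hπ i).prime (hπ i).norm hx hy

lemma lg_surj (hπ : ∀ i, Pq (π i)) (i : ι) :
    ∃ y, y ∉ (sp (eq0 (π i)) : Ideal eis) ∧ lg π i y = 1 := by
  obtain ⟨g, hg, hgc⟩ := ex_ne (hπ i)
  have hg' : eq0 g ∉ (sp (eq0 (π i)) : Ideal eis) := by
    rw [mem_iff, RingEquiv.symm_apply_apply]
    exact hg
  have h1 : lg π i (eq0 g) = cs (π i) g := by
    rw [lg_of, RingEquiv.symm_apply_apply]
    rw [RingEquiv.symm_apply_apply]
    exact hg
  have h2 : ∀ c : ZMod 3, c ≠ 0 → c = 1 ∨ c + c = 1 := by decide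
  rcases h2 _ hgc with h | h
  · exact ⟨eq0 g, hg', by rw [h1, h]⟩
  · refine ⟨eq0 g * eq0 g, ?_, ?_⟩
    · rw [mem_iff, map_mul, RingEquiv.symm_apply_apply]
      exact fun h3 => ((hπ i).prime.dvd_or_dvd h3).elim hg hg
    · rw [lg_mul hπ hg' hg', h1, h]

lemma symm_omr : eq0.symm omr = w := by
  apply eq0.injective
  rw [RingEquiv.apply_symm_apply]
  apply Subtype.ext
  rw [omr_coe, Pool.Agent.Y715.T.Rs.eq0_coe, Pool.Agent.Helper68.C2.Lim.toC_w]

lemma lg_om (hπ : ∀ i, Pq (π i)) (i : ι) : lg π i omr = tq (π i) := by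
  rw [lg_of (by rw [symm_omr]; exact not_dvd_w (hπ i).prime), symm_omr, cs_w (hπ i)]

lemma card_quo' (i : ι) : (Nat.card (eis ⧸ (sp (eq0 (π i)) : Ideal eis)) : ℤ) = nr (π i) := by
  rw [← Pool.Agent.Y715.T.Tf.up_sp, Pool.Agent.Y715.T.Tf.card_up, Pool.Agent.Y715.T.Rs.card_quo]

lemma lg_card (hπ : ∀ i, Pq (π i)) (i : ι) :
    ∃ m : ℕ, Nat.card (eis ⧸ (sp (eq0 (π i)) : Ideal eis)) = 3 * m + 1 ∧ lg π i omr = m := by
  have h3 := nr_three (Pool.Agent.Y696.CT.ep_ndvd (hπ i).three)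
  have h0 := nr_nonneg (π i)
  obtain ⟨c, hc⟩ := h3
  have h4 : nr (π i) = 3 * c + 1 := by linarith
  have hc0 : 0 ≤ c := by omega
  obtain ⟨m, rfl⟩ := Int.eq_ofNat_of_zero_le hc0
  refine ⟨m, ?_, ?_⟩
  · have := card_quo' (π := π) i
    rw [h4] at this
    exact_mod_cast this
  · rw [lg_om hπ]
    unfold tq
    rw [h4, add_sub_cancel_right, Int.mul_ediv_cancel_left _ (by norm_num)]
    norm_cast

/-! ### the data -/

section data

variable [DecidableEq ι] {L : PeriodPair} {Ω : ℂ} {κ : ZMod 3}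
variable (h3 : v 3 < 1) [CharP (kk v) 3] (hC : Cur L Ω) (h : Dt π e)

/-- the normalized values in the residue field -/
noncomputable def UU (v : Valuation ℂ Γ) (L : PeriodPair) (Ω : ℂ) (κ : ZMod 3) (π : ι → Ei)
    (S : Finset ι) (x : eis) : kk v := red v (U0 L Ω κ (cc (fun i => eq0 (π i)) S) x)

/-- the logarithms in the residue field -/
noncomputable def ll' (v : Valuation ℂ Γ) [CharP (kk v) 3] (π : ι → Ei) (i : ι) (x : eis) : kk v :=
  zh v (lg π i x)

include h3 h in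
lemma pt_cc {S : Finset ι} (hS : S.Nonempty) {x : eis}
    (hx : IsCoprime x (cc (fun i => eq0 (π i)) S)) : Pt6 (cc (fun i => eq0 (π i)) S) x :=
  ⟨(Xc_fm h).cc_ne S, (fy (v := v) h3 h).three_cc S, (fy (v := v) h3 h).cc_top hS, hx⟩

lemma e6_val (hπ : ∀ i, Pq (π i)) (i : ι) (j : Fin 3) :
    e6 κ j (eq0 (π i)) * toC w ^ (ts κ (π i)).val = 1 := by
  rw [e6_prim' j (Pool.Agent.Y715.T.Ex.three_mem.2 (hπ i).three)]
  unfold tl
  rw [RingEquiv.symm_apply_apply, ← toC_w_add, neg_add_cancel, ZMod.val_zero, pow_zero]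

include h3 in
lemma zt_w : Zt v (toC w) := zt_of_prim h3 (k := 1) le_rfl (by
    rw [pow_one]
    exact Pool.Agent.Y715.T.Fin.prim_w)

include h3 in
lemma w_lam : v (1 - toC w) = v lam := by
  rw [Pool.Agent.Helper68.C2.Lim.toC_w]
  exact Ana.om_val h3

include h3 h in
lemma lin_le (i : ι) (n : ℕ) : v (((eq0 (π i) : eis) : ℂ) * toC w ^ n - 1) ≤ v lam := by
  have hz := zt_w (v := v) h3
  have hfy := fy (v := v) h3 h
  have e : ((eq0 (π i) : eis) : ℂ) * toC w ^ n - 1 =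
      (((eq0 (π i) : eis) : ℂ) - 1) * toC w ^ n - (1 - toC w ^ n) := by ring
  rw [e]
  refine v.map_sub_le ?_ ?_
  · rw [map_mul, map_pow, hz.one, one_pow, mul_one]
    refine (hfy.lin i).trans ?_
    rw [← w_lam (v := v) h3]
    exact hz.three.le
  · rw [← w_lam (v := v) h3]
    exact hz.pow_le n

include h3 h in
lemma card_le (i : ι) :
    v ((Nat.card (eis ⧸ (sp (eq0 (π i)) : Ideal eis)) : ℂ) - 1) ≤ v lam := by
  have hz := zt_w (v := v) h3
  refine ((fy (v := v) h3 h).card i).trans ?_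
  rw [← w_lam (v := v) h3]
  exact hz.three.le

include h3 hC h in
/-- all the values in the distribution relation are integral -/
lemma dist_int {S : Finset ι} {j : ι} (hS : S.Nonempty) (hj : j ∉ S) {x : eis}
    (hx : IsCoprime x (cc (fun i => eq0 (π i)) S)) (t : eis) :
    v (U0 L Ω κ (cc (fun i => eq0 (π i)) (insert j S)) (x + cc (fun i => eq0 (π i)) S * t)) ≤ 1 := by
  have hfin := Pool.Agent.Y715.T.LF.fin_quot
  set P : ι → eis := fun i => eq0 (π i) with hP
  have hxt : IsCoprime (x + cc P S * t) (cc P S) :=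
    (IsCoprime.add_mul_left_left_iff (z := t)).2 hx
  by_cases hp : x + cc P S * t ∈ (sp (P j) : Ideal eis)
  · obtain ⟨y, hy⟩ := Ideal.mem_span_singleton'.1 hp
    have e : x + cc P S * t = P j * y := by rw [← hy, mul_comm]
    rw [e, cc_insert hj, U0_emb ((Xc_fm h).ne j)]
    rw [e] at hxt
    exact U0_le h3 hC hfin (pt_cc h3 h hS hxt.of_mul_left_right)
  · have hcop : IsCoprime (x + cc P S * t) (cc P (insert j S)) := by
      rw [cc_insert hj]
      refine IsCoprime.mul_right ?_ hxt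
      obtain ⟨y, s, hs, hys⟩ := ((fy (v := v) h3 h).max j).exists_inv hp
      obtain ⟨u, hu⟩ := Ideal.mem_span_singleton'.1 hs
      exact ⟨y, u, by rw [hu]; exact hys⟩
    exact U0_le h3 hC hfin (pt_cc h3 h (Finset.insert_nonempty j S) hcop)

include h3 hC h in
/-- **The data.** -/
theorem wd : Wd (fun i => eq0 (π i)) (ll' v π) (UU v L Ω κ π) := by
  have hfin := Pool.Agent.Y715.T.LF.fin_quot
  have hfy := fy (v := v) h3 h
  refine ⟨hfy.ne, hfy.cop, hfy.max, hfy.three, ?_, ?_, ?_, ?_, ?_, ?_, ?_, ?_, ?_, ?_⟩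
  · intro i x y hxy
    unfold ll'
    rw [lg_per h.pq hxy]
  · intro i x y hx hy
    unfold ll'
    rw [lg_mul h.pq hx hy, map_add]
  · intro i
    obtain ⟨y, h1, h2⟩ := lg_surj h.pq i
    exact ⟨y, h1, by unfold ll'; rw [h2, map_one]⟩
  · intro i x _
    unfold ll'
    have hc : ∀ c : ZMod 3, c = 0 ∨ c = 1 ∨ c = -1 := by decide
    rcases hc (lg π i x) with h1 | h1 | h1 <;> rw [h1]
    · left
      exact map_zero _
    · right; left
      exact map_one _
    · right; right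
      rw [map_neg, map_one]
  · intro i j hij
    unfold ll'
    have h1 : ¬ π i ∣ eq0.symm (eq0 (π j)) := by
      rw [RingEquiv.symm_apply_apply]
      exact h.nd j i hij.symm
    have h2 : ¬ π j ∣ eq0.symm (eq0 (π i)) := by
      rw [RingEquiv.symm_apply_apply]
      exact h.nd i j hij
    rw [lg_of h1, lg_of h2, RingEquiv.symm_apply_apply, RingEquiv.symm_apply_apply,
      Pool.Agent.Y350.CT.rec (π j) (π i) (h.pq j) (h.pq i) (h.nd j i hij.symm)]
  · intro i
    obtain ⟨m, h1, h2⟩ := lg_card h.pq i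
    exact ⟨m, h1, by unfold ll'; rw [h2, map_natCast]⟩
  · intro S x y hxy
    unfold UU
    rw [U0_per hC ((Xc_fm h).cc_ne S) hxy]
  · intro S x hS hx
    unfold UU
    have hp := pt_cc (v := v) h3 h hS hx
    have h1 := U0_om (κ := κ) h3 hC hfin hp
    have h2 := U0_le (κ := κ) h3 hC hfin hp
    have h4 := U0_le (κ := κ) h3 hC hfin (hp.unit ((unit_list omr).2 (by simp)))
    have h5 : v (1 : ℂ) ≤ 1 := by rw [map_one]
    rw [← red_one (v := v), ← red_add h2 h5]
    exact red_eq h4 (v.map_add_le h2 h5) h1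
  · intro S j x hS hj hx
    unfold UU
    have hp := pt_cc (v := v) h3 h hS hx
    rw [← red_sm fun t _ => dist_int h3 hC h hS hj hx t]
    have h1 := U0_dist (κ := κ) (v := v) h3 hC hfin hp ((Xc_fm h).ne j) (hfy.three j)
      (η := toC w ^ (ts κ (π j)).val) (fun k => e6_val h.pq j k) (lin_le h3 h j _) (card_le h3 h j)
    have ec : cc (fun i => eq0 (π i)) (insert j S) = eq0 (π j) * cc (fun i => eq0 (π i)) S :=
      cc_insert hj
    rw [← ec] at h1
    refine red_eq ?_ (U0_le h3 hC hfin hp) h1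
    exact v.map_sum_le fun t _ => dist_int h3 hC h hS hj hx t
  · intro S j x hS hj hx
    unfold UU
    rw [cc_insert hj, U0_emb ((Xc_fm h).ne j)]

end data

end Pool.Agent.Helper68.C6.Mom6
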