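import Pool.Agent.Helper68.C6.Mom6b
import Pool.Agent.Helper68.C6.PW

/-!
# The right hand side of the recursion
-/

set_option autoImplicit false
set_option linter.unusedSectionVars false

open scoped Topology PeriodPair Classical

namespace Pool.Agent.Helper68.C6.Mom6

open H667R3 Pool.Agent.W192.HK Pool.Agent.TH936.CM Pool.Agent.TH936.PU
open Pool.Agent.Y692.QS (Ei w toC nr nr_nonneg)
open Pool.Agent.Y703.CT
open Pool.Agent.Y715.Dist Pool.Agent.Y715.Idn Pool.Agent.Y715.T.Lat Pool.Agent.Y696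
open Pool.Agent.Y715.Two (v_int v_unit v_mul_le_of)
open Pool.Agent.Y715.T.Three Pool.Agent.Y715.T.Cg
open Pool.Agent.Y715.T.Rs (eq0)
open Pool.Agent.Y715.T.Rec (cs)
open Pool.Agent.Y715.T.RecG (Pq cs_mul cs_congr)
open Pool.Agent.Y703.CT.Ana (PX PX_zero PX_le sum_PX)
open Pool.Agent.Helper68.C5.Chr5 Pool.Agent.Helper68.C5.Lim5 Pool.Agent.Helper68.C6.Lim6
open Pool.Agent.Helper68.C2.Chr (tq)
open Pool.Agent.Helper68.C6.Ana6 Pool.Agent.Helper68.C6 Pool.Agent.Helper68.C6.PW

/-! ### sums over paths -/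

section paths

variable {ι : Type} [DecidableEq ι] {F G : Type} [CommRing F] [CommRing G]

lemma hq_map (φ : F →+* G) (g : ι → ι → F) (lam : ι → F) : ∀ (n : ℕ) (P : Finset ι), P.card = n →
    ∀ u, hq (fun i j => φ (g i j)) (fun i => φ (lam i)) P u = φ (hq g lam P u) := by
  intro n
  induction n with
  | zero =>
    intro P hP u
    rw [Finset.card_eq_zero] at hP
    rw [hP, hq_empty, hq_empty]
  | succ n ih =>
    intro P hP u
    have hne : P.Nonempty := Finset.card_pos.1 (by omega)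
    rw [hq_ne _ _ hne, hq_ne _ _ hne, map_sum]
    refine Finset.sum_congr rfl fun j hj => ?_
    rw [map_mul, ih _ (by rw [Finset.card_erase_of_mem hj, hP]; rfl)]

lemma Hm_map (φ : F →+* G) (g : ι → ι → F) (f lam : ι → F) (S : Finset ι) :
    Hm (fun i j => φ (g i j)) (fun i => φ (f i)) (fun i => φ (lam i)) S = φ (Hm g f lam S) := by
  unfold Hm
  rw [map_sum]
  exact Finset.sum_congr rfl fun u _ => by rw [map_mul, hq_map φ g lam _ _ rfl]

lemma hq_congr' {g g' : ι → ι → F} (lam : ι → F) (h : ∀ i j, i ≠ j → g i j = g' i j) :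
    ∀ (n : ℕ) (P : Finset ι), P.card = n → ∀ u, u ∉ P → hq g lam P u = hq g' lam P u := by
  intro n
  induction n with
  | zero =>
    intro P hP u _
    rw [Finset.card_eq_zero] at hP
    rw [hP, hq_empty, hq_empty]
  | succ n ih =>
    intro P hP u hu
    have hne : P.Nonempty := Finset.card_pos.1 (by omega)
    rw [hq_ne _ _ hne, hq_ne _ _ hne]
    refine Finset.sum_congr rfl fun j hj => ?_
    have huj : u ≠ j := fun e => hu (e ▸ hj)
    rw [h u j huj, ih _ (by rw [Finset.card_erase_of_mem hj, hP]; rfl) j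
      (Finset.notMem_erase j P)]

lemma Hm_congr' {g g' : ι → ι → F} (f lam : ι → F) (h : ∀ i j, i ≠ j → g i j = g' i j)
    (S : Finset ι) : Hm g f lam S = Hm g' f lam S := by
  unfold Hm
  exact Finset.sum_congr rfl fun u _ => by
    rw [hq_congr' lam h _ _ rfl u (Finset.notMem_erase u S)]

lemma hq_wt (g : ι → ι → F) (lam ε : ι → F) : ∀ (n : ℕ) (P : Finset ι), P.card = n →
    ∀ u, hq (fun i j => ε j * g i j) lam P u = (∏ i ∈ P, ε i) * hq g lam P u := by
  intro n
  induction n with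
  | zero =>
    intro P hP u
    rw [Finset.card_eq_zero] at hP
    rw [hP, hq_empty, hq_empty, Finset.prod_empty, one_mul]
  | succ n ih =>
    intro P hP u
    have hne : P.Nonempty := Finset.card_pos.1 (by omega)
    rw [hq_ne _ _ hne, hq_ne _ _ hne, Finset.mul_sum]
    refine Finset.sum_congr rfl fun j hj => ?_
    rw [ih _ (by rw [Finset.card_erase_of_mem hj, hP]; rfl), ← Finset.mul_prod_erase P ε hj]
    ring

lemma Hm_wt (g : ι → ι → F) (f lam ε : ι → F) (S : Finset ι) :
    (∏ i ∈ S, ε i) * Hm g f lam S = Hm (fun i j => ε j * g i j) (fun i => ε i * f i) lam S := by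
  unfold Hm
  rw [Finset.mul_sum]
  refine Finset.sum_congr rfl fun u hu => ?_
  rw [hq_wt g lam ε _ _ rfl, ← Finset.mul_prod_erase S ε hu]
  ring

end paths

/-! ### the sums -/

variable {Γ : Type*} [LinearOrderedCommGroupWithZero Γ] {v : Valuation ℂ Γ}
variable {ι : Type} {π : ι → Ei} {e : ι → ZMod 3} {L : PeriodPair} {Ω : ℂ} {κ : ZMod 3}

/-- the sum on the right hand side -/
noncomputable def RS [DecidableEq ι] (L : PeriodPair) (Ω : ℂ) (κ : ZMod 3) (π : ι → Ei)
    (e : ι → ZMod 3) (S : Finset ι) : ℂ :=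
  Sm (cc (fun i => eq0 (π i)) S) (fun x => PX (fun i => eq0 (π i)) (Xc π e) S x *
    F2 L Ω κ (Ω * x / cc (fun i => eq0 (π i)) S)) / (2 * ep L Ω * (1 - toC w) ^ S.card)

/-- the statement about the moments -/
def TS (v : Valuation ℂ Γ) [DecidableEq ι] (L : PeriodPair) (Ω : ℂ) (κ : ZMod 3) (π : ι → Ei)
    [CharP (kk v) 3] : Prop :=
  ∀ S : Finset ι, S.Nonempty → Tk (cc (fun i => eq0 (π i)) S)
      (fun x => (∏ i ∈ S, ll' v π i x) * UU v L Ω κ π S x) =
    (-1) ^ S.card * Hm (fun i j => ll' v π i (eq0 (π j))) (fun i => ll' v π i omr)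
      (fun i => ll' v π i omr) S

variable (h3 : v 3 < 1) (hC : Cur L Ω) (h : Dt π e)

section one

variable [CharP (kk v) 3]

include h3 in
lemma red_quot (n : ℕ) : v ((1 - toC w ^ n) / (1 - toC w)) ≤ 1 ∧
    red v ((1 - toC w ^ n) / (1 - toC w)) = zh v (n : ZMod 3) :=
  ⟨((zt_w (v := v) h3).quot h3 n).le, red_cg ((zt_w (v := v) h3).quot h3 n)⟩

variable [DecidableEq ι]

include h3 h in
/-- the reduction of the products -/
lemma red_PX {S : Finset ι} {x : eis} (hx : IsCoprime x (cc (fun i => eq0 (π i)) S)) :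
    v (PX (fun i => eq0 (π i)) (Xc π e) S x / (1 - toC w) ^ S.card) ≤ 1 ∧
    red v (PX (fun i => eq0 (π i)) (Xc π e) S x / (1 - toC w) ^ S.card) =
      ∏ i ∈ S, (zh v (-e i) * ll' v π i x) := by
  have hfy := fy (v := v) h3 h
  rw [hfy.cop_iff] at hx
  have key : ∀ T : Finset ι, T ⊆ S →
      v (∏ i ∈ T, ((ind (eq0 (π i)) x - Xc π e i x) / (1 - toC w))) ≤ 1 ∧
      red v (∏ i ∈ T, ((ind (eq0 (π i)) x - Xc π e i x) / (1 - toC w))) =
        ∏ i ∈ T, (zh v (-e i) * ll' v π i x) := by
    intro T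
    induction T using Finset.induction_on with
    | empty =>
      intro _
      rw [Finset.prod_empty, Finset.prod_empty]
      exact ⟨by rw [map_one], red_one⟩
    | insert i T hi ih =>
      intro hT
      obtain ⟨k1, k2⟩ := ih fun j hj => hT (Finset.mem_insert_of_mem hj)
      have hxi := hx i (hT (Finset.mem_insert_self i T))
      rw [Finset.prod_insert hi, Finset.prod_insert hi]
      have hxi' := hxi
      rw [mem_iff] at hxi'
      rw [ind_notMem hxi, Xc_of hxi']
      obtain ⟨q1, q2⟩ := red_quot (v := v) h3 (-(e i * cs (π i) (eq0.symm x))).val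
      refine ⟨by rw [map_mul]; exact mul_le_one' q1 k1, ?_⟩
      rw [red_mul q1 k1, k2, q2, ZMod.natCast_zmod_val]
      unfold ll'
      rw [lg_of hxi', ← map_mul]
      congr 2
      ring
  have e1 : PX (fun i => eq0 (π i)) (Xc π e) S x / (1 - toC w) ^ S.card =
      ∏ i ∈ S, ((ind (eq0 (π i)) x - Xc π e i x) / (1 - toC w)) := by
    unfold PX
    rw [Finset.prod_div_distrib, Finset.prod_const]
  rw [e1]
  exact key S (fun _ hi => hi)

include h3 hC h in
/-- **The right hand side.** -/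
theorem rs_cg (hT : TS v L Ω κ π) {S : Finset ι} (hS : S.Nonempty) :
    Cg v (RS L Ω κ π e S) ((-1) ^ S.card * Hm (am π e) (fun i => -e i * tq (π i))
      (fun i => tq (π i)) S) := by
  have hfin := Pool.Agent.Y715.T.LF.fin_quot
  have hfy := fy (v := v) h3 h
  have hz := zt_w (v := v) h3
  have hzl := w_lam (v := v) h3
  have hl1 := lam_lt h3
  have he0 := ep_ne h3 hC
  have hw := hz.ne
  set P : ι → eis := fun i => eq0 (π i) with hP
  set c := cc P S with hc
  have hcn : c ≠ 0 := (Xc_fm h).cc_ne S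
  have : Finite (eis ⧸ (sp c : Ideal eis)) := hfin _ hcn
  have : Fintype (eis ⧸ (sp c : Ideal eis)) := Fintype.ofFinite _
  set A : ℂ := Sm c (fun x => PX P (Xc π e) S x / (1 - toC w) ^ S.card * U0 L Ω κ c x) with hA
  -- the two parts
  have hsplit : RS L Ω κ π e S = A + (∏ i ∈ S, ((Nat.card (eis ⧸ sp (P i)) : ℂ) - 1)) /
      (1 - toC w) ^ S.card * (A0 L Ω κ / (2 * ep L Ω)) := by
    rw [← sum_PX hfin hfy S]
    unfold RS
    rw [hA]
    unfold Sm
    rw [Finset.sum_div, Finset.sum_div, Finset.sum_mul, ← Finset.sum_add_distrib]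
    refine Finset.sum_congr rfl fun x _ => ?_
    unfold U0
    field_simp
    ring
  have hB : v ((∏ i ∈ S, ((Nat.card (eis ⧸ sp (P i)) : ℂ) - 1)) / (1 - toC w) ^ S.card *
      (A0 L Ω κ / (2 * ep L Ω))) < 1 := by
    have h4 : v ((∏ i ∈ S, ((Nat.card (eis ⧸ sp (P i)) : ℂ) - 1)) / (1 - toC w) ^ S.card) ≤
        v lam := by
      rw [map_div₀, map_pow, hzl, map_prod]
      have h5 : ∏ i ∈ S, v ((Nat.card (eis ⧸ sp (P i)) : ℂ) - 1) ≤ (v 3) ^ S.card :=
        Finset.prod_le_pow_card _ _ _ fun i _ => hfy.card i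
      rw [div_le_iff₀ (pow_pos lam_pos _)]
      refine h5.trans ?_
      rw [← sq_three, ← pow_two, ← pow_mul, ← pow_succ']
      have := Finset.card_pos.2 hS
      exact pow_le_pow_right_of_le_one' hl1.le (by omega)
    have h6 := F2_sm (κ := κ) (v := v) h3 hC hfin pt_two h4
    rw [mul_div_assoc] at h6
    exact h6
  -- the reduction of the main part
  have hint : ∀ x : eis, v (PX P (Xc π e) S x / (1 - toC w) ^ S.card * U0 L Ω κ c x) ≤ 1 := by
    intro x
    by_cases hx : IsCoprime x c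
    · rw [map_mul]
      exact mul_le_one' (red_PX h3 h hx).1 (U0_le h3 hC hfin (pt_cc h3 h hS hx))
    · rw [PX_zero hfy hx, zero_div, zero_mul, map_zero]
      exact zero_le_one
  have hAle : v A ≤ 1 := v.map_sum_le fun x _ => hint x
  have hredA : red v A = zh v ((-1) ^ S.card * Hm (am π e) (fun i => -e i * tq (π i))
      (fun i => tq (π i)) S) := by
    rw [hA, red_sm fun x _ => hint x]
    have e1 : Sk c (fun x => red v (PX P (Xc π e) S x / (1 - toC w) ^ S.card * U0 L Ω κ c x)) =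
        (∏ i ∈ S, zh v (-e i)) * Tk c (fun x => (∏ i ∈ S, ll' v π i x) * UU v L Ω κ π S x) := by
      unfold Tk Sk
      rw [Finset.mul_sum]
      refine Finset.sum_congr rfl fun x _ => ?_
      beta_reduce
      by_cases hx : IsCoprime x c
      · rw [if_pos hx, red_mul (red_PX h3 h hx).1 (U0_le h3 hC hfin (pt_cc h3 h hS hx)),
          (red_PX h3 h hx).2, Finset.prod_mul_distrib]
        unfold UU
        ring
      · rw [if_neg hx, PX_zero hfy hx, zero_div, zero_mul, red_zero, mul_zero]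
    rw [e1, hT S hS, mul_left_comm, Hm_wt, map_mul, map_pow, map_neg, map_one]
    congr 1
    rw [← Hm_map]
    have e2 : (fun i => zh v (-e i) * ll' v π i omr) = fun i => zh v (-e i * tq (π i)) := by
      funext i
      unfold ll'
      rw [lg_om h.pq, map_mul]
    have e3 : (fun i => ll' v π i omr) = fun i => zh v (tq (π i)) := by
      funext i
      unfold ll'
      rw [lg_om h.pq]
    rw [e2, e3]
    apply Hm_congr'
    intro i j hij
    unfold ll' am
    have h1 : ¬ π i ∣ eq0.symm (eq0 (π j)) := by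
      rw [RingEquiv.symm_apply_apply]
      exact h.nd j i hij.symm
    rw [lg_of h1, RingEquiv.symm_apply_apply,
      Pool.Agent.Y350.CT.rec (π j) (π i) (h.pq j) (h.pq i) (h.nd j i hij.symm), ← map_mul]
    congr 1
    ring
  refine Cg.of_sub ?_ (cg_red hAle hredA)
  rw [hsplit, add_sub_cancel_left]
  exact hB

end one

end Pool.Agent.Helper68.C6.Mom6
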