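import Mathlib
import Pool.Graph.R_seed8.TH841.NF.ShaN

/-!
# The isomorphism `(x, y) ↦ (x, -y)`: the groups of points and the Tate-Shafarevich group
-/

set_option autoImplicit false
set_option linter.unusedSectionVars false

namespace Pool.Agent.Helper68.C6.NG

open WeierstrassCurve WeierstrassCurve.Affine
open Pool.Agent.TH841.SH.D (Pt act Gal Coch IsCoc IsCob LocTriv cob)
open Pool.Agent.TH841.NF.D (IsShaCoc shaCoc Sha)

/-- the coefficients of the two curves correspond to each other under `(x, y) ↦ (x, -y)` -/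
structure Ng {F : Type} [CommRing F] (W W' : WeierstrassCurve F) : Prop where
  a₁ : W'.a₁ = -W.a₁
  a₂ : W'.a₂ = W.a₂
  a₃ : W'.a₃ = -W.a₃
  a₄ : W'.a₄ = W.a₄
  a₆ : W'.a₆ = W.a₆

section
variable {F : Type} [Field F] {W W' : WeierstrassCurve F}

theorem Ng.symm (h : Ng W W') : Ng W' W :=
  ⟨by rw [h.a₁, neg_neg], h.a₂.symm, by rw [h.a₃, neg_neg], h.a₄.symm, h.a₆.symm⟩

theorem Ng.map (h : Ng W W') {L : Type} [Field L] (f : F →+* L) : Ng (W.map f) (W'.map f) :=
  ⟨by rw [map_a₁, map_a₁, h.a₁, map_neg], by rw [map_a₂, map_a₂, h.a₂],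
    by rw [map_a₃, map_a₃, h.a₃, map_neg], by rw [map_a₄, map_a₄, h.a₄],
    by rw [map_a₆, map_a₆, h.a₆]⟩

theorem Ng.base (h : Ng W W') (L : Type) [Field L] [Algebra F L] :
    Ng (W.baseChange L) (W'.baseChange L) := h.map _

theorem Ng.eqn (h : Ng W W') {x y : F} (hxy : W.toAffine.Equation x y) :
    W'.toAffine.Equation x (-y) := by
  rw [equation_iff] at hxy ⊢
  rw [h.a₁, h.a₂, h.a₃, h.a₄, h.a₆]
  linear_combination hxy

theorem Ng.ns (h : Ng W W') {x y : F} (hxy : W.toAffine.Nonsingular x y) :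
    W'.toAffine.Nonsingular x (-y) := by
  have h1 := h.eqn hxy.1
  rw [nonsingular_iff'] at hxy ⊢
  refine ⟨h1, ?_⟩
  rw [h.a₁, h.a₂, h.a₃, h.a₄]
  rcases hxy.2 with h2 | h2
  · left
    intro h3
    apply h2
    linear_combination h3
  · right
    intro h3
    apply h2
    linear_combination -h3

/-- the map on points -/
def ngf (h : Ng W W') : W.toAffine.Point → W'.toAffine.Point
  | .zero => .zero
  | .some _ _ hxy => .some _ _ (h.ns hxy)

lemma ngf_zero (h : Ng W W') : ngf h 0 = 0 := rfl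

lemma some_ext {V : WeierstrassCurve F} {x y x' y' : F} {h : V.toAffine.Nonsingular x y}
    {h' : V.toAffine.Nonsingular x' y'} (hx : x = x') (hy : y = y') :
    Point.some x y h = Point.some x' y' h' := by
  subst hx hy
  rfl

lemma ngf_ngf (h : Ng W W') (h' : Ng W' W) (P : W.toAffine.Point) : ngf h' (ngf h P) = P := by
  cases P with
  | zero => rfl
  | some x y hxy => exact some_ext rfl (neg_neg y)

lemma negY' (h : Ng W W') (x y : F) : W'.toAffine.negY x (-y) = -W.toAffine.negY x y := by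
  unfold negY
  rw [h.a₁, h.a₃]
  ring

lemma slope' [DecidableEq F] (h : Ng W W') (x₁ x₂ y₁ y₂ : F) :
    W'.toAffine.slope x₁ x₂ (-y₁) (-y₂) = -W.toAffine.slope x₁ x₂ y₁ y₂ := by
  unfold WeierstrassCurve.Affine.slope
  have e : (-y₁ = W'.toAffine.negY x₂ (-y₂)) ↔ (y₁ = W.toAffine.negY x₂ y₂) := by
    rw [negY' h, neg_inj]
  by_cases hx : x₁ = x₂
  · rw [if_pos hx, if_pos hx]
    by_cases hy : y₁ = W.toAffine.negY x₂ y₂
    · rw [if_pos hy, if_pos (e.2 hy), neg_zero]
    · rw [if_neg hy, if_neg (fun h => hy (e.1 h)), negY' h, h.a₁, h.a₂, h.a₄]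
      rw [← div_neg]
      congr 1 <;> ring
  · rw [if_neg hx, if_neg hx, ← neg_div]
    congr 1
    ring

lemma addX' (h : Ng W W') (x₁ x₂ l : F) :
    W'.toAffine.addX x₁ x₂ (-l) = W.toAffine.addX x₁ x₂ l := by
  unfold addX
  rw [h.a₁, h.a₂]
  ring

lemma addY' (h : Ng W W') (x₁ x₂ y₁ l : F) :
    W'.toAffine.addY x₁ x₂ (-y₁) (-l) = -W.toAffine.addY x₁ x₂ y₁ l := by
  unfold addY
  rw [addX' h, ← negY' h]
  congr 1
  unfold negAddY
  rw [addX' h]
  ring

lemma ngf_add [DecidableEq F] (h : Ng W W') (P Q : W.toAffine.Point) :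
    ngf h (P + Q) = ngf h P + ngf h Q := by
  cases P with
  | zero =>
    have e : (Point.zero : W.toAffine.Point) = 0 := rfl
    rw [e, ngf_zero, zero_add, zero_add]
  | some x₁ y₁ h₁ =>
    cases Q with
    | zero =>
      have e : (Point.zero : W.toAffine.Point) = 0 := rfl
      rw [e, ngf_zero, add_zero, add_zero]
    | some x₂ y₂ h₂ =>
      by_cases hxy : x₁ = x₂ ∧ y₁ = W.toAffine.negY x₂ y₂
      · rw [Point.add_of_Y_eq hxy.1 hxy.2, ngf_zero]
        symm
        exact Point.add_of_Y_eq hxy.1 (by rw [negY' h, hxy.2])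
      · have hxy' : ¬(x₁ = x₂ ∧ -y₁ = W'.toAffine.negY x₂ (-y₂)) := by
          rw [negY' h, neg_inj]
          exact hxy
        rw [Point.add_some hxy]
        show Point.some _ _ _ = Point.some _ _ (h.ns h₁) + Point.some _ _ (h.ns h₂)
        rw [Point.add_some hxy']
        refine some_ext ?_ ?_
        · rw [slope' h, addX' h]
        · rw [slope' h, addY' h]

/-- the isomorphism of the groups of points -/
def nge [DecidableEq F] (h : Ng W W') : W.toAffine.Point ≃+ W'.toAffine.Point where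
  toFun := ngf h
  invFun := ngf h.symm
  left_inv := ngf_ngf h h.symm
  right_inv := ngf_ngf h.symm h
  map_add' := ngf_add h

end

/-! ### The points over extensions -/

section
variable {k : Type} [Field k] {W W' : WeierstrassCurve k}

/-- the isomorphism over an extension -/
noncomputable def ngp (h : Ng W W') (L : Type) [Field L] [Algebra k L] : Pt W L ≃+ Pt W' L :=
  @nge L _ (W.baseChange L) (W'.baseChange L) (Classical.decEq L) (h.base L)

lemma ngp_act (h : Ng W W') {F L : Type} [Field F] [Field L] [Algebra k F] [Algebra k L]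
    (φ : F →ₐ[k] L) (P : Pt W F) : ngp h L (act W φ P) = act W' φ (ngp h F P) := by
  cases P with
  | zero => rfl
  | some x y hxy => exact some_ext rfl (by exact (map_neg φ y).symm)

/-- the map on cochains -/
noncomputable def ngc (h : Ng W W') (f : Coch W) : Coch W' := fun σ => ngp h _ (f σ)

lemma ngc_ngc (h : Ng W W') (h' : Ng W' W) (f : Coch W) : ngc h' (ngc h f) = f := by
  funext σ
  exact ngf_ngf (h.base _) (h'.base _) (f σ)

lemma ngc_nsmul (h : Ng W W') (n : ℕ) (f : Coch W) : ngc h (n • f) = n • ngc h f := by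
  funext σ
  exact map_nsmul (ngp h _) n (f σ)

lemma coc (h : Ng W W') {f : Coch W} (hf : IsCoc W f) : IsCoc W' (ngc h f) := by
  refine ⟨hf.1.comp _, fun σ τ => ?_⟩
  show ngp h _ (f (σ * τ)) = ngp h _ (f σ) + act W' σ.toAlgHom (ngp h _ (f τ))
  rw [hf.2, map_add, ngp_act]

lemma cobd (h : Ng W W') {f : Coch W} (hf : IsCob W f) : IsCob W' (ngc h f) := by
  obtain ⟨P, hP⟩ := hf
  refine ⟨ngp h _ P, fun σ => ?_⟩
  show ngp h _ (f σ) = _
  rw [hP, map_sub, ngp_act]

lemma loct (h : Ng W W') {K : Type} [Field K] [Algebra k K] {f : Coch W} (hf : LocTriv W K f) :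
    LocTriv W' K (ngc h f) := by
  intro ι
  obtain ⟨P, hP⟩ := hf ι
  refine ⟨ngp h _ P, fun τ σ hτ => ?_⟩
  show act W' ι (ngp h _ (f σ)) = _
  rw [← ngp_act, hP τ σ hτ, map_sub, ngp_act]

end

section
variable {F : Type} [Field F] [NumberField F] {W W' : WeierstrassCurve F}

lemma shac (h : Ng W W') {f : Coch W} (hf : IsShaCoc W f) : IsShaCoc W' (ngc h f) :=
  ⟨coc h hf.1, fun v => loct h (hf.2.1 v), fun v => loct h (hf.2.2 v)⟩

/-- the elements of the Tate-Shafarevich group killed by `m` in terms of cocycles -/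
lemma sha_iff (V : WeierstrassCurve F) (m : ℕ) :
    (∀ x : Sha V, m • x = 0 → x = 0) ↔
      ∀ f : Coch V, IsShaCoc V f → IsCob V (m • f) → IsCob V f := by
  constructor
  · intro H f hf hc
    have h1 := H (QuotientAddGroup.mk (s := (cob V).addSubgroupOf (shaCoc V)) ⟨f, hf⟩) (by
      refine (QuotientAddGroup.eq_zero_iff
        (N := (cob V).addSubgroupOf (shaCoc V)) (m • (⟨f, hf⟩ : shaCoc V))).2 ?_
      exact hc)
    exact (QuotientAddGroup.eq_zero_iff
        (N := (cob V).addSubgroupOf (shaCoc V)) (⟨f, hf⟩ : shaCoc V)).1 h1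
  · intro H x hx
    obtain ⟨⟨f, hf⟩, rfl⟩ := QuotientAddGroup.mk_surjective
      (s := (cob V).addSubgroupOf (shaCoc V)) x
    refine (QuotientAddGroup.eq_zero_iff
        (N := (cob V).addSubgroupOf (shaCoc V)) (⟨f, hf⟩ : shaCoc V)).2 ?_
    refine H f hf ?_
    exact (QuotientAddGroup.eq_zero_iff
        (N := (cob V).addSubgroupOf (shaCoc V)) (m • (⟨f, hf⟩ : shaCoc V))).1 hx

/-- the Tate-Shafarevich groups of the two curves -/
theorem sha_tr (h : Ng W W') (m : ℕ) (H : ∀ x : Sha W, m • x = 0 → x = 0) :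
    ∀ x : Sha W', m • x = 0 → x = 0 := by
  rw [sha_iff] at H ⊢
  intro f hf hc
  have h1 := H (ngc h.symm f) (shac h.symm hf) (by
    rw [← ngc_nsmul]
    exact cobd h.symm hc)
  have h2 := cobd h h1
  rwa [ngc_ngc] at h2

end

end Pool.Agent.Helper68.C6.NG
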