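import Mathlib

/-!
# Sums over Hamiltonian paths: definitions and statements
-/

set_option autoImplicit false

open Finset

namespace Pool.Agent.Helper68.C6

/-- `hq g lam P u` is the sum over the orderings `(p₁, …, p_r)` of `P` of
`g u p₁ * g p₁ p₂ * ⋯ * g p_(r-1) p_r * lam p_r`; it is `lam u` for `P = ∅`. -/
def hq {ι F : Type} [DecidableEq ι] [CommRing F] (g : ι → ι → F) (lam : ι → F)
    (P : Finset ι) (u : ι) : F :=
  if P = ∅ then lam u else ∑ j ∈ P.attach, g u j * hq g lam (P.erase j) j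
termination_by P.card
decreasing_by exact card_erase_lt_of_mem j.2

/-- the sum over the orderings `(p₁, …, p_r)` of `S` of
`f p₁ * g p₁ p₂ * ⋯ * g p_(r-1) p_r * lam p_r` -/
def Hm {ι F : Type} [DecidableEq ι] [CommRing F] (g : ι → ι → F) (f lam : ι → F)
    (S : Finset ι) : F :=
  ∑ u ∈ S, f u * hq g lam (S.erase u) u

/-- the moments -/
def S_W : Prop :=
  ∀ (ι F : Type) [Fintype ι] [DecidableEq ι] [Field F] [CharP F 3] (g : ι → ι → F) (l : ι → F)
    (τ : Finset ι → Finset ι → F) (σ : ι → Finset ι → Finset ι → F),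
    (∀ i j, i ≠ j → g i j = g j i) →
    (∀ (S : Finset ι) (j : ι) (A : Finset ι), S.Nonempty → j ∉ S → A ⊆ S →
      τ (insert j S) A = -∑ B ∈ A.ssubsets, (∏ i ∈ A \ B, g i j) * τ S B) →
    (∀ (k : ι) (S : Finset ι) (j : ι) (A : Finset ι), k ∈ S → j ∉ S → A ⊆ S.erase k →
      σ k (insert j S) A = -(∑ B ∈ A.ssubsets, (∏ i ∈ A \ B, g i j) * σ k S B) -
        ∑ B ∈ A.powerset, (∏ i ∈ A \ B, g i j) *
          (2 * g k j * τ S (insert k B) + g k j ^ 2 * τ S B)) →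
    (∀ S : Finset ι, S.Nonempty → τ S ∅ = 0) →
    (∀ S : Finset ι, S.Nonempty → (∀ i ∈ S, l i = 0) → τ S S = 0) →
    (∀ (k : ι) (S : Finset ι), k ∈ S → 2 ≤ S.card →
      (∑ B ∈ (S.erase k).ssubsets, (∏ i ∈ S.erase k \ B, l i) * σ k S B) +
        ∑ B ∈ (S.erase k).powerset, (∏ i ∈ S.erase k \ B, l i) *
          (2 * l k * τ S (insert k B) + l k ^ 2 * τ S B) = 0) →
    (∀ k, τ {k} {k} = -l k ^ 2) →
    ∀ S : Finset ι, S.Nonempty → τ S S = (-1) ^ S.card * Hm g l l S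

/-- the bordered determinants -/
def S_Q : Prop :=
  ∀ (ι F : Type) [Fintype ι] [DecidableEq ι] [Field F] (a : ι → ι → F) (b f lam : ι → F) (c : F),
    ∃ Q : Finset ι → F, Q ∅ = c ∧
      (∀ S : Finset ι, S.Nonempty →
        ∑ T ∈ S.powerset, (-1) ^ T.card * (Q T * ∏ i ∈ S \ T, (b i + ∑ j ∈ T, a i j)) =
          (-1) ^ S.card * Hm a f lam S) ∧
      (Q Finset.univ ≠ 0 ↔ ∀ (v : ι → F) (s : F),
        (∀ i, ∑ j, a i j * (v j - v i) = b i * v i - lam i * s) →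
        c * s + ∑ j, f j * v j = 0 → (∀ i, v i = 0) ∧ s = 0)

end Pool.Agent.Helper68.C6
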