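import Pool.Agent.Helper68.C3.St3

/-!
# The density of the squarefree elements in a residue class modulo nine: statement
-/

set_option autoImplicit false

open scoped Classical

namespace Pool.Agent.Helper68.C6

open Finset
open Pool.Agent.Y692.QS (Ei)
open Pool.Agent.Helper68.C3 (SS)

/-- the products of the sets of primary primes have the same density in all residue classes
modulo nine (of elements congruent to one modulo three) -/
def S_SQD : Prop := ∃ c : ℝ, 0 < c ∧ ∀ a : Ei, (3 : Ei) ∣ a - 1 →
  Filter.Tendsto (fun X : ℕ =>
    (((SS X).filter fun S => (9 : Ei) ∣ (∏ π ∈ S, π) - a).card : ℝ) / (X : ℝ))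
    Filter.atTop (nhds c)

end Pool.Agent.Helper68.C6
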