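import Pool.Agent.Helper68.C3.St3

/-!
# The law of the kernels of the bordered Laplacians of the cubic residue symbols: statement

`β₁`, `β₂` are two independent characters (with values in the field with three elements) of the
primary elements modulo `9`, `κ` is a constant. For a set `S` of primary primes we consider the
system `∑ ρ ∈ S, cs π ρ * (v ρ - v π) = β₁ π * v π + β₂ π * s` (`π ∈ S`),
`κ * s = ∑ π ∈ S, β₂ π * v π`. The number of its solutions is `3 ^ r` for exactly the proportion
`cr r` of the sets.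
-/

set_option autoImplicit false
set_option linter.unusedVariables false

open scoped Classical

namespace Pool.Agent.Helper68.C6

open Finset
open Pool.Agent.Y692.QS (Ei w nr toC)
open Pool.Agent.Y715.T.Rec (cs)
open Pool.Agent.Y703.XL (cr)
open Pool.Agent.Helper68.C3 (Bt SS)

/-- two independent characters modulo nine of the primary elements -/
def Bt2 (β₁ β₂ : Ei → ZMod 3) : Prop :=
  ∀ t s : ZMod 3, (t ≠ 0 ∨ s ≠ 0) → Bt (fun x => t * β₁ x + s * β₂ x)

/-- the number of the solutions of the bordered Laplacian system of a set -/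
noncomputable def nV (β₁ β₂ : Ei → ZMod 3) (κ : ZMod 3) (S : Finset Ei) : ℕ :=
  Nat.card {q : (S → ZMod 3) × ZMod 3 //
    (∀ π : S, ∑ ρ : S, cs π ρ * (q.1 ρ - q.1 π) = β₁ π * q.1 π + β₂ π * q.2) ∧
      κ * q.2 = ∑ π : S, β₂ π * q.1 π}

/-- the sets whose solution space has dimension `r` -/
def GV (β₁ β₂ : Ei → ZMod 3) (κ : ZMod 3) (r : ℕ) (S : Finset Ei) : Prop :=
  nV β₁ β₂ κ S = 3 ^ r

/-- the law for the sets -/
def S_DV : Prop := ∀ β₁ β₂ : Ei → ZMod 3, Bt2 β₁ β₂ → ∀ (κ : ZMod 3) (r : ℕ),
  Filter.Tendsto (fun X : ℕ => (((SS X).filter (GV β₁ β₂ κ r)).card : ℝ) / ((SS X).card : ℝ))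
    Filter.atTop (nhds (cr r))

end Pool.Agent.Helper68.C6
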