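import Pool.Agent.Helper68.C6.AN6
import Pool.Agent.Helper68.C2.Val2

/-!
# The valuation of the square of the central value, class `√-3 ω^k ∏ π_j^(e_j)`
-/

set_option autoImplicit false
set_option linter.unusedVariables false
set_option linter.unusedSectionVars false

open scoped Classical

namespace Pool.Agent.Helper68.C6.Val6

open Pool.Agent.Y692.QS (Ei w toC)
open Pool.Agent.Y715.T.Rec (cs)
open Pool.Agent.Y715.T.RecG (Pq)
open Pool.Agent.Y703.CT
open Pool.Agent.Y715.T.Cg (Cg z_pow)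
open Pool.Agent.Y715.T.Three (lam lam_ne lam_lt lam_ne' lam_pos sq_three v_nine)
open Pool.Agent.Y696 (Cur)
open Pool.Agent.Helper68.C2.Val2 (sum_am)
open Pool.Agent.Helper68.C2.Chr (tq tq_prim)
open Pool.Agent.Helper68.C5.Chr5 (ts)
open Pool.Agent.Helper68.C6 Pool.Agent.Helper68.C6.AN6

variable {J : Type} [Fintype J] {π : J → Ei} {e : J → ZMod 3} {κ : ZMod 3}

/-- the criterion -/
lemma ker_iff (hD : Dt π e) : KerA π (fun j => -e j) (-κ) ↔ Ker6 π e κ := by
  unfold KerA Ker6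
  simp only [sum_am hD, tq_prim (hD.pq _).three]
  constructor
  · intro h v s h1 h2
    obtain ⟨h3, h4⟩ := h v (-s) (fun i => by rw [h1 i]; ring) (by
      have e1 : ∑ j, (- -e j * -rq (π j)) * v j = -∑ i, e i * rq (π i) * v i := by
        rw [← Finset.sum_neg_distrib]
        exact Finset.sum_congr rfl fun i _ => by ring
      rw [e1, ← h2]
      ring)
    exact ⟨h3, neg_eq_zero.1 h4⟩
  · intro h v s h1 h2
    obtain ⟨h3, h4⟩ := h v (-s) (fun i => by rw [h1 i]; ring) (by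
      have e1 : ∑ j, (- -e j * -rq (π j)) * v j = -∑ i, e i * rq (π i) * v i := by
        rw [← Finset.sum_neg_distrib]
        exact Finset.sum_congr rfl fun i _ => by ring
      rw [e1] at h2
      linear_combination h2)
    exact ⟨h3, neg_eq_zero.1 h4⟩

/-- the valuation of `|F(1)|²` -/
theorem val_sq (hD : Dt π e) :
    ∃ F : ℂ → ℂ, IsHL6 π (fun j => -e j) (-κ) F ∧
      ∀ (Γ : Type) [LinearOrderedCommGroupWithZero Γ] (v : Valuation ℂ Γ), v 3 < 1 →
        ∀ (L : PeriodPair) (Ω : ℂ), Cur L Ω → ∃ g g₀ : Γ, g ≤ 1 ∧ (Ker6 π e κ → g = 1) ∧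
          (¬ Ker6 π e κ → g < 1) ∧ g₀ ^ 3 = (v lam * v lam) ^ 8 ∧
          v (F 1 * (starRingEnd ℂ) (F 1) / (Ω * (starRingEnd ℂ) Ω)) * (v lam * v lam) ^ 4 =
            g₀ * ((v lam * v lam) ^ Fintype.card J * g) := by
  obtain ⟨F, hF, hval⟩ := AN6.an_val (κ := -κ) hD.neg
  refine ⟨F, hF, ?_⟩
  intro Γ _ v hv L Ω hC
  have hv' : (v.comap (starRingEnd ℂ)) 3 < 1 := by
    rw [Valuation.comap_apply, map_ofNat]
    exact hv
  obtain ⟨s, q, g₀, hs, hq, hg, h1⟩ := hval Γ v hv L Ω hC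
  obtain ⟨s', q', g₀', hs', hq', hg', h1'⟩ := hval Γ (v.comap (starRingEnd ℂ)) hv' L Ω hC
  rw [ker_iff hD] at hq hq'
  have h2 : (v.comap (starRingEnd ℂ)) lam = v lam := by
    rw [Valuation.comap_apply, conj_lam, v.map_neg]
  rw [h2] at h1' hg'
  have h3 : (v.comap (starRingEnd ℂ)) ((starRingEnd ℂ) (F 1) / Ω) =
      v (F 1 / (starRingEnd ℂ) Ω) := by
    rw [Valuation.comap_apply, map_div₀ (starRingEnd ℂ), Complex.conj_conj]
  rw [h3] at h1'
  refine ⟨v s * (v.comap (starRingEnd ℂ)) s', g₀ * g₀', ?_, fun hk => ?_, fun hk => ?_, ?_, ?_⟩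
  · exact mul_le_one' hs.le hs'.le
  · rw [hs.eq_one hv (hq.2 hk), hs'.eq_one hv' (hq'.2 hk), one_mul]
  · have h0 : q = 0 := by
      by_contra h0
      exact hk (hq.1 h0)
    rw [h0] at hs
    exact mul_lt_one_of_lt_of_le hs.lt_one hs'.le
  · rw [mul_pow, hg, hg', mul_pow]
  · have e : F 1 * (starRingEnd ℂ) (F 1) / (Ω * (starRingEnd ℂ) Ω) =
        ((starRingEnd ℂ) (F 1) / Ω) * (F 1 / (starRingEnd ℂ) Ω) := by
      rw [div_mul_div_comm]
      ring
    rw [e, map_mul]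
    calc _ = (v ((starRingEnd ℂ) (F 1) / Ω) * v lam ^ 4) *
          (v (F 1 / (starRingEnd ℂ) Ω) * v lam ^ 4) := by
          rw [mul_pow]
          ac_rfl
      _ = _ := by rw [h1, h1', mul_pow]; ac_rfl

end Pool.Agent.Helper68.C6.Val6
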